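import Pool.Agent.R4.N8S

/-!
# Certificates for the checker N8 and the start states (helper14)
-/

set_option autoImplicit false
set_option linter.unusedSectionVars false
set_option linter.unusedVariables false
set_option linter.unusedSimpArgs false

namespace Pool.Agent.R4.N8

open Pool.Agent.Helper58.PLine (QData)
open Pool.Agent.ETCP
open Pool.Agent.R4.M8 (Pm ev ev_zero Base PmOk Pl pmI pmII pmI_ok pmII_ok stt)

/-- no state of the list has a model -/
def Dead (pm : Pm) (l : List St) : Prop :=
  ∀ (V Q : Type) [AddCommGroup V] [Module (ZMod 2) V] (S : QData V Q), Pl S → ∀ st ∈ l,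
    Ok pm st → ∀ h, Base pm S h → Md S h st → False

variable {pm : Pm}

theorem dead_nil : Dead pm [] := by
  intro V Q _ _ S _ st hst
  simp at hst

theorem dead_append {l m : List St} (hl : Dead pm l) (hm : Dead pm m) : Dead pm (l ++ m) := by
  intro V Q _ _ S hP st hst
  rcases List.mem_append.1 hst with h | h
  · exact hl V Q S hP st h
  · exact hm V Q S hP st h

theorem dead_cons {a : St} {m : List St} (hl : Dead pm [a]) (hm : Dead pm m) :
    Dead pm (a :: m) := dead_append hl hm

theorem dead_head {a : St} {m : List St} (h : Dead pm (a :: m)) : Dead pm [a] := by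
  intro V Q _ _ S hP st hst
  exact h V Q S hP st (by rw [List.mem_singleton.1 hst]; exact List.mem_cons_self)

theorem dead_tail {a : St} {m : List St} (h : Dead pm (a :: m)) : Dead pm m := by
  intro V Q _ _ S hP st hst
  exact h V Q S hP st (List.mem_cons_of_mem _ hst)

/-- one step of the stack -/
theorem dead_step (hpm : PmOk pm) {a : St} {cs l : List St} {s s' : ℕ}
    (e : step pm a s = some (cs, s')) (ih : Dead pm (cs ++ l)) : Dead pm (a :: l) := by
  intro V Q _ _ S hP st hst O hh B M
  rcases List.mem_cons.1 hst with rfl | hst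
  · obtain ⟨c, hc, Oc, h', B', M'⟩ := step_sound hP hpm B M O e
    exact ih V Q S hP c (List.mem_append_left _ hc) Oc h' B' M'
  · exact ih V Q S hP st (List.mem_append_right _ hst) O hh B M

theorem eqb_eq {a b : St} (h : St.eqb a b = true) : a = b := by
  obtain ⟨n, F, R⟩ := a
  obtain ⟨n', F', R'⟩ := b
  unfold St.eqb at h
  rw [Bool.and_eq_true, Bool.and_eq_true] at h
  obtain ⟨⟨h1, h2⟩, h3⟩ := h
  have k1 : n = n' := beq_t h1
  have k2 : F = F' := beq_t h2
  have k3 : R = R' := beq_t h3
  rw [k1, k2, k3]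

/-- a certificate with known states `C` -/
theorem runC_dead (hpm : PmOk pm) : ∀ {k : ℕ} {l : List St} {s : ℕ} {C : List St},
    runC pm k l s C = true → Dead pm C → Dead pm l
  | _, [], _, _, _, _ => dead_nil
  | 0, _ :: _, _, _, h, _ => by simp [runC] at h
  | k + 1, a :: l, s, C, h, hC => by
    unfold runC at h
    cases h0 : Nat.beq (Nat.mod s 4096) 4095
    · rw [h0, cond_false] at h
      split at h
      · exact absurd h (by simp)
      rename_i cs s' e
      exact dead_step hpm e (runC_dead hpm h hC)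
    · rw [h0, cond_true] at h
      cases C with
      | nil => exact absurd h (by simp)
      | cons c C =>
        simp only at h
        rw [Bool.and_eq_true] at h
        rw [eqb_eq h.1]
        exact dead_cons (dead_head hC) (runC_dead hpm h.2 (dead_tail hC))

/-- pack a list of facts -/
def pF : List ℕ → ℕ
  | [] => 0
  | c :: F => cF (c % 4096) (c / 4096) (pF F)

/-- pack a state without relations -/
def pk (st : M8.St) : St := ⟨st.n, pF st.F, 0⟩

section
variable {V Q : Type} [AddCommGroup V] [Module (ZMod 2) V] {S : QData V Q} {h : ℕ → V}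

theorem pF_lt {n : ℕ} (hn : n ≤ 12) : ∀ (F : List ℕ), (∀ c ∈ F, M8.Lt n c) →
    ∀ i, dg (pF F) i < 2 ^ n
  | [], _, i => by
    show dg 0 i < _
    rw [dg_0]
    exact Nat.two_pow_pos _
  | c :: F, hF, i => by
    have hc := hF c List.mem_cons_self
    have hp := M8.pow_le hn
    exact c2 (p := fun m => m < 2 ^ n) (lt_of_lt_of_le hc.1 hp) (lt_of_lt_of_le hc.2 hp) hc.1 hc.2
      (pF_lt hn F (fun c h => hF c (List.mem_cons_of_mem _ h))) i

theorem pF_FH {n : ℕ} (hn : n ≤ 12) : ∀ (F : List ℕ), (∀ c ∈ F, M8.Lt n c) →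
    (∀ c ∈ F, C S (ev h (c % 4096)) (ev h (c / 4096))) → FH S h (pF F)
  | [], _, _ => by
    intro i
    show C S (ev h (dg 0 _)) (ev h (dg 0 _))
    rw [dg_0, dg_0, ev_zero]
    exact C.zero _
  | c :: F, hF, hC => by
    have hc := hF c List.mem_cons_self
    have hp := M8.pow_le hn
    exact FH.cons (pF_FH hn F (fun c h => hF c (List.mem_cons_of_mem _ h))
      (fun c h => hC c (List.mem_cons_of_mem _ h))) (lt_of_lt_of_le hc.1 hp)
      (lt_of_lt_of_le hc.2 hp) (hC c List.mem_cons_self)

end

/-- from packed states to lists -/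
theorem dead_of {st : M8.St} (D : Dead pm [pk st]) : M8.Dead pm [st] := by
  intro V Q _ _ S hP st' hst O h B M
  have e := List.mem_singleton.1 hst
  subst e
  refine D V Q S hP _ (List.mem_singleton.2 rfl) ⟨O.n12, O.nc, pF_lt O.n12 _ O.f, ?_⟩ h B
    ⟨pF_FH O.n12 _ O.f M.f, ?_⟩
  · intro i
    show dg 0 i < 2 ^ _
    rw [dg_0]
    exact Nat.two_pow_pos _
  · intro i
    show S.q (ev h (dg 0 _)) (ev h (dg 0 _)) = S.q (ev h (dg 0 _)) (ev h (dg 0 _))
    rw [dg_0, dg_0, dg_0, dg_0]

/-- all certificates -/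
theorem certs (i0 : Dead pmI [pk (stt 0 2 false)]) (ib : Dead pmI [pk (stt 4 2 false)])
    (iia0 : Dead pmII [pk (stt 0 2 true)]) (iiab : Dead pmII [pk (stt 4 2 true)])
    (iib0 : Dead pmII [pk (stt 0 4 true)]) (iiba : Dead pmII [pk (stt 2 4 true)]) : M8.Certs :=
  ⟨dead_of i0, dead_of ib, dead_of iia0, dead_of iiab, dead_of iib0, dead_of iiba⟩

end Pool.Agent.R4.N8
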