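import Pool.Agent.R4.Check

/-!
# Binary codes, combinations and values (helper66)
-/

set_option autoImplicit false

namespace Pool.Agent.R4

open Pool.Agent.Helper58.PLine (QData)
open Pool.Agent.ETCP

section bits

variable {M M' : Type} [AddCommGroup M] [Module (ZMod 2) M] [AddCommGroup M'] [Module (ZMod 2) M']

theorem bsum_zero (h : ℕ → M) (N : ℕ) : bsum h N 0 = 0 := by
  simp [bsum]

theorem bsum_xor (h : ℕ → M) (N m n : ℕ) : bsum h N (m ^^^ n) = bsum h N m + bsum h N n := by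
  unfold bsum
  rw [← Finset.sum_add_distrib]
  refine Finset.sum_congr rfl fun i _ => ?_
  rw [Nat.testBit_xor]
  cases m.testBit i <;> cases n.testBit i <;> simp [ZModModule.add_self]

theorem bsum_map (f : M →ₗ[ZMod 2] M') (h : ℕ → M) (N n : ℕ) :
    f (bsum h N n) = bsum (fun i => f (h i)) N n := by
  unfold bsum
  rw [map_sum]
  refine Finset.sum_congr rfl fun i _ => ?_
  split_ifs <;> simp

theorem bsum_congr {h h' : ℕ → M} {N : ℕ} (e : ∀ i < N, h i = h' i) (n : ℕ) :
    bsum h N n = bsum h' N n := by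
  unfold bsum
  refine Finset.sum_congr rfl fun i hi => ?_
  rw [e i (Finset.mem_range.1 hi)]

theorem bsum_two_pow (h : ℕ → M) {N i : ℕ} (hi : i < N) : bsum h N (2 ^ i) = h i := by
  unfold bsum
  rw [Finset.sum_eq_single i]
  · simp [Nat.testBit_two_pow_self]
  · intro j _ hj
    rw [Nat.testBit_two_pow_of_ne (Ne.symm hj)]
    simp
  · intro h1
    exact absurd (Finset.mem_range.2 hi) h1

theorem mod_two_mul (n c : ℕ) : n % 2 * c = 0 ∧ n % 2 = 0 ∨ n % 2 * c = c ∧ n % 2 = 1 := by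
  rcases Nat.mod_two_eq_zero_or_one n with h | h <;> simp [h]

theorem xor_mod2 (m n : ℕ) : (m ^^^ n) % 2 = m % 2 ^^^ n % 2 := by
  have := Nat.xor_mod_two_pow (a := m) (b := n) (n := 1)
  simpa using this

theorem xor_div2 (m n : ℕ) : (m ^^^ n) / 2 = m / 2 ^^^ n / 2 := by
  have := Nat.shiftRight_xor_distrib (a := m) (b := n) (i := 1)
  simpa [Nat.shiftRight_eq_div_pow] using this

theorem xor_mod256 (m n : ℕ) : (m ^^^ n) % 256 = m % 256 ^^^ n % 256 := by
  have := Nat.xor_mod_two_pow (a := m) (b := n) (n := 8)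
  simpa using this

theorem xor_div256 (m n : ℕ) : (m ^^^ n) / 256 = m / 256 ^^^ n / 256 := by
  have := Nat.shiftRight_xor_distrib (a := m) (b := n) (i := 8)
  simpa [Nat.shiftRight_eq_div_pow] using this

theorem xor_mod4 (m n : ℕ) : (m ^^^ n) % 4 = m % 4 ^^^ n % 4 := by
  have := Nat.xor_mod_two_pow (a := m) (b := n) (n := 2)
  simpa using this

/-- an additive map on codes -/
theorem map_ap (g : ℕ → M) (g0 : g 0 = 0) (ga : ∀ a b, g (a ^^^ b) = g a + g b) :
    ∀ (L : List ℕ) (n : ℕ), g (ap L n) = bsum (fun i => g (L.getD i 0)) L.length n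
  | [], n => by simp [ap, g0, bsum]
  | c :: cs, n => by
    have ih := map_ap g g0 ga cs (n / 2)
    unfold ap
    rw [ga, ih]
    unfold bsum
    rw [List.length_cons, Finset.sum_range_succ']
    rw [add_comm]
    congr 1
    · refine Finset.sum_congr rfl fun i _ => ?_
      rw [Nat.testBit_succ]
      simp
    · rw [Nat.testBit_zero]
      rcases Nat.mod_two_eq_zero_or_one n with h | h <;> simp [h, g0]

theorem ap_zero : ∀ L : List ℕ, ap L 0 = 0
  | [] => rfl
  | c :: cs => by simp [ap, ap_zero cs]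

theorem ap_xor : ∀ (L : List ℕ) (m n : ℕ), ap L (m ^^^ n) = ap L m ^^^ ap L n
  | [], m, n => by simp [ap]
  | c :: cs, m, n => by
    unfold ap
    rw [xor_div2, ap_xor cs, xor_mod2]
    have e : (m % 2 ^^^ n % 2) * c = m % 2 * c ^^^ n % 2 * c := by
      rcases Nat.mod_two_eq_zero_or_one m with h | h <;>
        rcases Nat.mod_two_eq_zero_or_one n with h' | h' <;> simp [h, h']
    rw [e]
    simp only [Nat.xor_assoc]
    congr 1
    rw [Nat.xor_left_comm]

theorem ap_lt {k : ℕ} : ∀ (L : List ℕ), (∀ x ∈ L, x < 2 ^ k) → ∀ n, ap L n < 2 ^ k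
  | [], _, n => by simp [ap]
  | c :: cs, hL, n => by
    unfold ap
    refine Nat.xor_lt_two_pow ?_ (ap_lt cs (fun x hx => hL x (List.mem_cons_of_mem _ hx)) _)
    have hc := hL c List.mem_cons_self
    rcases mod_two_mul n c with h | h
    · rw [h.1]; exact Nat.two_pow_pos k
    · rw [h.1]; exact hc

/-- an additive predicate -/
theorem pred_ap (p : ℕ → Prop) (p0 : p 0) (pa : ∀ a b, p a → p b → p (a ^^^ b)) :
    ∀ (L : List ℕ), (∀ x ∈ L, p x) → ∀ n, p (ap L n)
  | [], _, n => by simpa [ap] using p0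
  | c :: cs, hL, n => by
    unfold ap
    refine pa _ _ ?_ (pred_ap p p0 pa cs (fun x hx => hL x (List.mem_cons_of_mem _ hx)) _)
    have hc := hL c List.mem_cons_self
    rcases mod_two_mul n c with h | h
    · rw [h.1]; exact p0
    · rw [h.1]; exact hc

theorem ap_map (f : ℕ → ℕ) (f0 : f 0 = 0) (fa : ∀ a b, f (a ^^^ b) = f a ^^^ f b) :
    ∀ (L : List ℕ) (n : ℕ), f (ap L n) = ap (L.map f) n
  | [], n => by simp [ap, f0]
  | c :: cs, n => by
    simp only [ap, List.map_cons]
    rw [fa, ap_map f f0 fa cs]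
    congr 1
    rcases mod_two_mul n c with h | h
    · rw [h.1, h.2, f0, zero_mul]
    · rw [h.1, h.2, one_mul]

theorem apu_xor (t : Tb) (i m n : ℕ) : apu t i (m ^^^ n) = apu t i m ^^^ apu t i n := by
  unfold apu
  rw [ap_xor, ap_xor]
  have e : ∀ k a b : ℕ, k % 2 * (a ^^^ b) = k % 2 * a ^^^ k % 2 * b := by
    intro k a b
    rcases Nat.mod_two_eq_zero_or_one k with h | h <;> simp [h]
  rw [e, e]
  simp only [Nat.xor_assoc]
  congr 1
  rw [Nat.xor_left_comm]

theorem apu_zero (t : Tb) (i : ℕ) : apu t i 0 = 0 := by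
  simp [apu, ap_zero]

theorem sg_xor (t : Tb) (i m n : ℕ) : sg t i (m ^^^ n) = sg t i m ^^^ sg t i n := by
  unfold sg
  rw [xor_div256, xor_mod256, apu_xor]
  simp only [Nat.xor_assoc]
  congr 1
  rw [Nat.xor_left_comm]

theorem sg_zero (t : Tb) (i : ℕ) : sg t i 0 = 0 := by
  simp [sg, apu_zero]

end bits

end Pool.Agent.R4
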