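import Pool.Agent.R4.M8S

/-!
# From certificates for the checker M8 to Case 2 (helper14)
-/

set_option autoImplicit false
set_option linter.unusedSectionVars false
set_option linter.unusedVariables false
set_option linter.unusedSimpArgs false

namespace Pool.Agent.R4.M8

open Pool.Agent.Helper58.PLine (QData)
open Pool.Agent.ETCP
open Pool.Agent.ETCI (In8)

/-- no state of the list has a model -/
def Dead (pm : Pm) (l : List St) : Prop :=
  ∀ (V Q : Type) [AddCommGroup V] [Module (ZMod 2) V] (S : QData V Q), Pl S → ∀ st ∈ l,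
    Ok pm st → ∀ h, Base pm S h → Md S h st → False

theorem St.eqb_eq {a b : St} (h : a.eqb b = true) : a = b := by
  obtain ⟨n, F, R⟩ := a
  obtain ⟨n', F', R'⟩ := b
  simp only [St.eqb, Bool.and_eq_true, beq_iff_eq] at h
  obtain ⟨⟨rfl, rfl⟩, rfl⟩ := h
  rfl

theorem eql_eq : ∀ {l m : List St}, eql l m = true → l = m
  | [], [], _ => rfl
  | [], _ :: _, h => by simp [eql] at h
  | _ :: _, [], h => by simp [eql] at h
  | a :: l, b :: m, h => by
    simp only [eql, Bool.and_eq_true] at h
    rw [St.eqb_eq h.1, eql_eq h.2]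

variable {pm : Pm}

theorem dead_nil : Dead pm [] := by
  intro V Q _ _ S _ st hst
  simp at hst

/-- one step of the stack -/
theorem dead_step (hpm : PmOk pm) {st0 : St} {cs l : List St} {s s' : ℕ}
    (e : step pm st0 s = some (cs, s')) (ih : Dead pm (cs ++ l)) : Dead pm (st0 :: l) := by
  intro V Q _ _ S hP st hst O hh B M
  rcases List.mem_cons.1 hst with rfl | hst
  · obtain ⟨c, hc, Oc, h', B', M'⟩ := step_sound hP hpm B M O e
    exact ih V Q S hP c (List.mem_append_left _ hc) Oc h' B' M'
  · exact ih V Q S hP st (List.mem_append_right _ hst) O hh B M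

/-- a part of the certificate -/
theorem part_sound (hpm : PmOk pm) : ∀ (k : ℕ) (l : List St) (s : ℕ) (m : List St),
    part pm k l s m = true → Dead pm m → Dead pm l
  | 0, l, s, m, h, hm => by
    rw [eql_eq (l := l) (m := m) h]
    exact hm
  | k + 1, [], s, m, h, hm => dead_nil
  | k + 1, st0 :: l, s, m, h, hm => by
    simp only [part] at h
    split at h
    · exact absurd h (by simp)
    rename_i cs s' e
    exact dead_step hpm e (part_sound hpm k _ _ _ h hm)

/-- a complete certificate -/
theorem run_dead (hpm : PmOk pm) : ∀ {k : ℕ} {l : List St} {s : ℕ}, run pm k l s = true →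
    Dead pm l
  | _, [], _, _ => dead_nil
  | 0, _ :: _, _, h => by simp [run] at h
  | k + 1, st0 :: l, s, h => by
    simp only [run] at h
    split at h
    · exact absurd h (by simp)
    rename_i cs s' e
    exact dead_step hpm e (run_dead hpm h)

theorem dead_append {l m : List St} (hl : Dead pm l) (hm : Dead pm m) : Dead pm (l ++ m) := by
  intro V Q _ _ S hP st hst
  rcases List.mem_append.1 hst with h | h
  · exact hl V Q S hP st h
  · exact hm V Q S hP st h

theorem dead_cons {a : St} {m : List St} (hl : Dead pm [a]) (hm : Dead pm m) :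
    Dead pm (a :: m) := dead_append hl hm

theorem pl_of {V Q : Type} [AddCommGroup V] [Module (ZMod 2) V] [Finite V] {S : QData V Q}
    (he : S.e = 0) : Pl S := by
  intro y z
  obtain ⟨R, i1, i2, -, hP⟩ := plane_ex V Q S y z he
  exact ⟨R, i1, i2, hP⟩

/-- parameters of case I -/
def pmI : Pm := ⟨6, true, true⟩

/-- parameters of case II -/
def pmII : Pm := ⟨6, false, true⟩

theorem pmI_ok : PmOk pmI := ⟨by decide, fun _ => le_refl 6⟩
theorem pmII_ok : PmOk pmII := ⟨by decide, fun _ => le_refl 6⟩

/-- the start states of helper35; `d1` and `d2` are masks of elements of `V_y` -/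
def stt (d1 d2 : ℕ) (ii : Bool) : St :=
  ⟨6, [1 + 4096 * 2, 1 + 4096 * 4, 8 + 4096 * 16, 9 + 4096 * 32,
    48 + 4096 * (40 ^^^ d1 ^^^ d2), 56 + 4096 * (40 ^^^ d1)] ++
    (if ii then [8 + 4096 * 2] else []), []⟩

section
variable {V Q : Type} [AddCommGroup V] [Module (ZMod 2) V] {S : QData V Q}

/-- the generators -/
def gen (y a b z p q : V) : ℕ → V
  | 0 => y
  | 1 => a
  | 2 => b
  | 3 => z
  | 4 => p
  | 5 => q
  | _ => 0

variable {y a b z p q : V}

theorem ev_gen (m : ℕ) : ev (gen y a b z p q) m = cond (m.testBit 0) y 0 +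
    cond (m.testBit 1) a 0 + cond (m.testBit 2) b 0 + cond (m.testBit 3) z 0 +
    cond (m.testBit 4) p 0 + cond (m.testBit 5) q 0 := by
  unfold ev bsum
  simp only [Finset.sum_range_succ, Finset.sum_range_zero, gen, zero_add, ite_self, add_zero]
  cases m.testBit 0 <;> cases m.testBit 1 <;> cases m.testBit 2 <;> cases m.testBit 3 <;>
    cases m.testBit 4 <;> cases m.testBit 5 <;> rfl

theorem tb : ∀ m < 64, 8 ≤ m → (m.testBit 3 || m.testBit 4 || m.testBit 5) = true := by
  decide +kernel

theorem tb8 : ∀ m < 8, m.testBit 3 = false ∧ m.testBit 4 = false ∧ m.testBit 5 = false := by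
  decide +kernel

theorem in8_ev : ∀ d < 8, In8 y a b (ev (gen y a b z p q) d) := by
  intro d hd
  rw [ev_gen]
  obtain ⟨t1, t2, t3⟩ := tb8 d hd
  rw [t1, t2, t3]
  unfold In8
  cases d.testBit 0 <;> cases d.testBit 1 <;> cases d.testBit 2 <;>
    simp only [cond_false, cond_true, add_zero, zero_add, add_comm y b, add_comm y a,
      true_or, or_true]
  have e : y + a + b = a + b + y := by abel
  rw [add_comm a y, e]
  simp only [or_true]

theorem e_1 : ev (gen y a b z p q) 1 = y := by
  rw [ev_gen]; simp [Nat.testBit]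
theorem e_2 : ev (gen y a b z p q) 2 = a := by
  rw [ev_gen]; simp [Nat.testBit]
theorem e_4 : ev (gen y a b z p q) 4 = b := by
  rw [ev_gen]; simp [Nat.testBit]
theorem e_8 : ev (gen y a b z p q) 8 = z := by
  rw [ev_gen]; simp [Nat.testBit]
theorem e_16 : ev (gen y a b z p q) 16 = p := by
  rw [ev_gen]; simp [Nat.testBit]
theorem e_32 : ev (gen y a b z p q) 32 = q := by
  rw [ev_gen]; simp [Nat.testBit]

/-- the context: `z` is irregular for `V_y = <y, a, b>`, `p` in `V_z`, `q` in `V_(y+z)` -/
structure Cx6 (S : QData V Q) (y a b z p q : V) : Prop where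
  he : S.e = 0
  cya : C S y a
  cyb : C S y b
  nab : ¬ C S a b
  hD : ∀ x, C S y x → In8 y a b x
  czp : C S z p
  cyzq : C S (y + z) q
  hp : ∀ d, In8 y a b d → S.q y p ≠ S.q z d
  hq : ∀ d, In8 y a b d → S.q y q ≠ S.q z d
  nz : ¬ ((∃ v, S.q y v = S.q a z) ∧ ∃ v, S.q y v = S.q b z)
  core : ∀ e f g : Bool, (e || f || g) = true →
    ¬ C S y (cond e z 0 + cond f p 0 + cond g q 0)

theorem d1_of (X : Cx6 S y a b z p q) : ∀ x, C S (ev (gen y a b z p q) 1) x →
    ∃ d < 8, x = ev (gen y a b z p q) d := by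
  rw [e_1]
  intro x hx
  rcases X.hD x hx with rfl | rfl | rfl | rfl | rfl | rfl | rfl | rfl
  · exact ⟨0, by norm_num, by rw [ev_gen]; simp [Nat.testBit]⟩
  · exact ⟨1, by norm_num, by rw [ev_gen]; simp [Nat.testBit]⟩
  · exact ⟨2, by norm_num, by rw [ev_gen]; simp [Nat.testBit]⟩
  · exact ⟨3, by norm_num, by rw [ev_gen]; simp [Nat.testBit, add_comm]⟩
  · exact ⟨4, by norm_num, by rw [ev_gen]; simp [Nat.testBit]⟩
  · exact ⟨5, by norm_num, by rw [ev_gen]; simp [Nat.testBit, add_comm]⟩
  · exact ⟨6, by norm_num, by rw [ev_gen]; simp [Nat.testBit]⟩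
  · exact ⟨7, by norm_num, by rw [ev_gen]; simp [Nat.testBit]; abel⟩

theorem core_of (X : Cx6 S y a b z p q) : ∀ m, 8 ≤ m → m < 64 →
    ¬ C S (ev (gen y a b z p q) 1) (ev (gen y a b z p q) m) := by
  rw [e_1]
  intro m h1 h2 hc
  have t := tb m h2 h1
  have ha : C S y (cond (m.testBit 0) y 0 + cond (m.testBit 1) a 0 +
      cond (m.testBit 2) b 0) := by
    refine ((?_ : C S y _).add ?_).add ?_
    · cases m.testBit 0
      · exact C.zero _
      · exact C.self X.he _
    · cases m.testBit 1
      · exact C.zero _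
      · exact X.cya
    · cases m.testBit 2
      · exact C.zero _
      · exact X.cyb
  refine X.core _ _ _ t ?_
  rw [ev_gen] at hc
  refine (hc.add ha).of_eq rfl ?_
  exact f2 (by abel_nf; simp only [ch2, add_zero])

theorem base_II (X : Cx6 S y a b z p q) : Base pmII S (gen y a b z p q) where
  he := X.he
  D1 := d1_of X
  core := core_of X
  nab := by
    rw [e_2, e_4]
    exact X.nab
  hp := by
    intro _ d hd
    rw [e_16, e_1, e_8]
    exact X.hp _ (in8_ev d hd)
  hq := by
    intro _ d hd
    rw [e_32, e_1, e_8]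
    exact X.hq _ (in8_ev d hd)
  nz := by
    intro _
    unfold GY
    rw [e_2, e_4, e_1, e_8]
    exact X.nz
  gd := fun h => by simp [pmII] at h
  gy := fun h => by simp [pmII] at h

/-- the extra hypothesis of case I -/
def CI (S : QData V Q) (y a b : V) : Prop :=
  ∀ c x v, In8 y a b c → c ≠ 0 → c ≠ y → S.q c x = S.q y v →
    (∃ v, S.q y v = S.q a x) ∧ ∃ v, S.q y v = S.q b x

theorem ab_ne (X : Cx6 S y a b z p q) : ∀ e f : Bool, (e || f) = true → ∀ t : V,
    (t = 0 ∨ t = y) → cond e a 0 + cond f b 0 ≠ t := by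
  intro e f h t ht hE
  have hC : ∀ w, C S y w → C S t w := by
    rintro w hw
    rcases ht with rfl | rfl
    · exact C.zero' _
    · exact hw
  have h1 : C S a t := by
    rcases ht with rfl | rfl
    · exact C.zero _
    · exact X.cya.symm
  have h2 : C S b t := by
    rcases ht with rfl | rfl
    · exact C.zero _
    · exact X.cyb.symm
  rw [← hE] at h1 h2
  cases e <;> cases f
  · simp at h
  · simp only [cond_false, cond_true, zero_add] at h1
    exact X.nab h1
  · simp only [cond_false, cond_true, add_zero] at h2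
    exact X.nab h2.symm
  · simp only [cond_true] at h1
    refine X.nab (((C.self X.he a).add h1).of_eq rfl ?_)
    exact f2 (by abel_nf; simp only [ch2, add_zero])

theorem tb2 : ∀ c < 8, 2 ≤ c → (c.testBit 1 || c.testBit 2) = true := by
  decide +kernel

theorem ne_0 (X : Cx6 S y a b z p q) (c : ℕ) (hc : 2 ≤ c) (hc' : c < 8) :
    ev (gen y a b z p q) c ≠ 0 := by
  rw [ev_gen]
  obtain ⟨t1, t2, t3⟩ := tb8 c hc'
  rw [t1, t2, t3]
  simp only [cond_false, add_zero]
  intro h
  cases h0 : c.testBit 0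
  · rw [h0] at h
    refine ab_ne X _ _ (tb2 c hc' hc) 0 (Or.inl rfl) ?_
    simp only [cond_false, zero_add] at h
    exact h
  · rw [h0] at h
    refine ab_ne X _ _ (tb2 c hc' hc) y (Or.inr rfl) ?_
    simp only [cond_true] at h
    have h' : y + (y + cond (c.testBit 1) a 0 + cond (c.testBit 2) b 0) = y + 0 :=
      congrArg (fun t => y + t) h
    rw [add_assoc, ← add_assoc y y, ZModModule.add_self, zero_add, add_zero] at h'
    exact h'

theorem ne_y (X : Cx6 S y a b z p q) (c : ℕ) (hc : 2 ≤ c) (hc' : c < 8) :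
    ev (gen y a b z p q) c ≠ y := by
  rw [ev_gen]
  obtain ⟨t1, t2, t3⟩ := tb8 c hc'
  rw [t1, t2, t3]
  simp only [cond_false, add_zero]
  intro h
  cases h0 : c.testBit 0
  · rw [h0] at h
    refine ab_ne X _ _ (tb2 c hc' hc) y (Or.inr rfl) ?_
    simp only [cond_false, zero_add] at h
    exact h
  · rw [h0] at h
    refine ab_ne X _ _ (tb2 c hc' hc) 0 (Or.inl rfl) ?_
    simp only [cond_true] at h
    have h' : y + (y + cond (c.testBit 1) a 0 + cond (c.testBit 2) b 0) = y + y :=
      congrArg (fun t => y + t) h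
    rw [add_assoc, ← add_assoc y y, ZModModule.add_self, zero_add] at h'
    exact h'

theorem base_I (X : Cx6 S y a b z p q) (hI : CI S y a b) (hy : ∃ s, S.q y s = S.q a b) :
    Base pmI S (gen y a b z p q) where
  he := X.he
  D1 := d1_of X
  core := core_of X
  nab := by
    rw [e_2, e_4]
    exact X.nab
  hp := by
    intro _ d hd
    rw [e_16, e_1, e_8]
    exact X.hp _ (in8_ev d hd)
  hq := by
    intro _ d hd
    rw [e_32, e_1, e_8]
    exact X.hq _ (in8_ev d hd)
  nz := by
    intro _
    unfold GY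
    rw [e_2, e_4, e_1, e_8]
    exact X.nz
  gd := by
    intro _ d hd
    obtain ⟨s, hs⟩ := hy
    have hya : C S a y := X.cya.symm
    have hyb : C S b y := X.cyb.symm
    have g1 : GY S (gen y a b z p q) y := by
      unfold GY
      rw [e_1, e_2, e_4]
      exact ⟨⟨0, by rw [S.q_zero]; exact Eq.symm hya⟩, ⟨0, by rw [S.q_zero]; exact Eq.symm hyb⟩⟩
    have ga : GY S (gen y a b z p q) a := by
      unfold GY
      rw [e_1, e_2, e_4]
      exact ⟨⟨0, by rw [S.q_zero]; exact Eq.symm (C.self X.he a)⟩, ⟨s, by rw [hs, S.symm a b]⟩⟩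
    have gb : GY S (gen y a b z p q) b := by
      unfold GY
      rw [e_1, e_2, e_4]
      exact ⟨⟨s, hs⟩, ⟨0, by rw [S.q_zero]; exact Eq.symm (C.self X.he b)⟩⟩
    rw [ev_gen]
    obtain ⟨t1, t2, t3⟩ := tb8 d hd
    rw [t1, t2, t3]
    simp only [cond_false, add_zero]
    refine ((?_ : GY S _ _).add ?_).add ?_
    · cases d.testBit 0
      · exact GY.zero
      · exact g1
    · cases d.testBit 1
      · exact GY.zero
      · exact ga
    · cases d.testBit 2
      · exact GY.zero
      · exact gb
  gy := by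
    intro _ c hc hc' x v hx
    unfold GY
    rw [e_1, e_2, e_4]
    rw [e_1] at hx
    refine hI _ x v (in8_ev c hc') ?_ ?_ hx
    · exact ne_0 X c hc hc'
    · exact ne_y X c hc hc'

theorem e_9 : ev (gen y a b z p q) 9 = y + z := by
  rw [ev_gen]; simp [Nat.testBit]
theorem e_48 : ev (gen y a b z p q) 48 = p + q := by
  rw [ev_gen]; simp [Nat.testBit]
theorem e_56 : ev (gen y a b z p q) 56 = z + p + q := by
  rw [ev_gen]; simp [Nat.testBit]
theorem e_40 : ev (gen y a b z p q) 40 = z + q := by
  rw [ev_gen]; simp [Nat.testBit]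

theorem md_stt (X : Cx6 S y a b z p q) {d1 d2 : ℕ}
    (h1 : C S (p + q) (z + q + ev (gen y a b z p q) d1 + ev (gen y a b z p q) d2))
    (h2 : C S (z + p + q) (z + q + ev (gen y a b z p q) d1)) :
    Md S (gen y a b z p q) (stt d1 d2 false) where
  f := by
    intro c hc
    simp only [stt, Bool.false_eq_true, if_false, List.append_nil, List.mem_cons,
      List.not_mem_nil, or_false] at hc
    rcases hc with rfl | rfl | rfl | rfl | rfl | rfl
    · rw [cmod (by norm_num), cdiv (by norm_num), e_1, e_2]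
      exact X.cya
    · rw [cmod (by norm_num), cdiv (by norm_num), e_1, e_4]
      exact X.cyb
    · rw [cmod (by norm_num), cdiv (by norm_num), e_8, e_16]
      exact X.czp
    · rw [cmod (by norm_num), cdiv (by norm_num), e_9, e_32]
      exact X.cyzq
    · rw [cmod (by norm_num), cdiv (by norm_num), ev_xor, ev_xor, e_48, e_40]
      exact h1
    · rw [cmod (by norm_num), cdiv (by norm_num), ev_xor, e_56, e_40]
      exact h2
  r := by
    intro c hc
    simp [stt] at hc

theorem md_stt2 (X : Cx6 S y a b z p q) {d1 d2 : ℕ}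
    (h1 : C S (p + q) (z + q + ev (gen y a b z p q) d1 + ev (gen y a b z p q) d2))
    (h2 : C S (z + p + q) (z + q + ev (gen y a b z p q) d1)) (h3 : C S z a) :
    Md S (gen y a b z p q) (stt d1 d2 true) where
  f := by
    intro c hc
    have hc' : c ∈ (stt d1 d2 false).F ∨ c = 8 + 4096 * 2 := by
      simpa [stt, or_assoc] using hc
    rcases hc' with hc' | rfl
    · exact (md_stt X h1 h2).f c hc'
    · rw [cmod (by norm_num), cdiv (by norm_num), e_8, e_2]
      exact h3
  r := by
    intro c hc
    simp [stt] at hc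

theorem ok_stt {pm : Pm} (hpm : pm.cb = 6) {d1 d2 : ℕ} (h1 : d1 < 8) (h2 : d2 < 8) (ii : Bool) :
    Ok pm (stt d1 d2 ii) where
  n12 := by show 6 ≤ 12; norm_num
  nc := by rw [hpm]; exact le_refl 6
  f := by
    have l1 : 40 ^^^ d1 < 2 ^ 6 := xlt (by norm_num) (by omega)
    have l2 : 40 ^^^ d1 ^^^ d2 < 2 ^ 6 := xlt l1 (by omega)
    have k1 : Lt 6 (1 + 4096 * 2) := by unfold Lt; norm_num
    have k2 : Lt 6 (1 + 4096 * 4) := by unfold Lt; norm_num
    have k3 : Lt 6 (8 + 4096 * 16) := by unfold Lt; norm_num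
    have k4 : Lt 6 (9 + 4096 * 32) := by unfold Lt; norm_num
    have k5 : Lt 6 (48 + 4096 * (40 ^^^ d1 ^^^ d2)) := by
      unfold Lt
      rw [cmod (by norm_num), cdiv (by norm_num)]
      exact ⟨by norm_num, l2⟩
    have k6 : Lt 6 (56 + 4096 * (40 ^^^ d1)) := by
      unfold Lt
      rw [cmod (by norm_num), cdiv (by norm_num)]
      exact ⟨by norm_num, l1⟩
    have k7 : Lt 6 (8 + 4096 * 2) := by unfold Lt; norm_num
    intro c hc
    show Lt 6 c
    cases ii
    · simp only [stt, Bool.false_eq_true, if_false, List.append_nil, List.mem_cons,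
        List.not_mem_nil, or_false] at hc
      rcases hc with rfl | rfl | rfl | rfl | rfl | rfl
      · exact k1
      · exact k2
      · exact k3
      · exact k4
      · exact k5
      · exact k6
    · simp only [stt, if_true, List.mem_append, List.mem_cons,
        List.not_mem_nil, or_false] at hc
      rcases hc with (rfl | rfl | rfl | rfl | rfl | rfl) | rfl
      · exact k1
      · exact k2
      · exact k3
      · exact k4
      · exact k5
      · exact k6
      · exact k7
  r := by
    intro c hc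
    simp [stt] at hc

/-- a certificate kills a start state of case I -/
theorem kill_I [Finite V] (X : Cx6 S y a b z p q) (hI : CI S y a b) (hy : ∃ s, S.q y s = S.q a b)
    {d1 d2 : ℕ} (hd1 : d1 < 8) (hd2 : d2 < 8) (D : Dead pmI [stt d1 d2 false])
    (h1 : C S (p + q) (z + q + ev (gen y a b z p q) d1 + ev (gen y a b z p q) d2))
    (h2 : C S (z + p + q) (z + q + ev (gen y a b z p q) d1)) : False :=
  D V Q S (pl_of X.he) _ (List.mem_singleton.2 rfl) (ok_stt rfl hd1 hd2 _) _ (base_I X hI hy)
    (md_stt X h1 h2)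

/-- a certificate kills a start state of case II -/
theorem kill_II [Finite V] (X : Cx6 S y a b z p q)
    {d1 d2 : ℕ} (hd1 : d1 < 8) (hd2 : d2 < 8) (D : Dead pmII [stt d1 d2 true])
    (h1 : C S (p + q) (z + q + ev (gen y a b z p q) d1 + ev (gen y a b z p q) d2))
    (h2 : C S (z + p + q) (z + q + ev (gen y a b z p q) d1)) (h3 : C S z a) : False :=
  D V Q S (pl_of X.he) _ (List.mem_singleton.2 rfl) (ok_stt rfl hd1 hd2 _) _ (base_II X)
    (md_stt2 X h1 h2 h3)

/-- certificates for all start states of 35: `(d', del)` with `del = a`: `d' = 0, b` (and `del = b`,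
`d' = 0, a` in case II) -/
structure Certs : Prop where
  i0 : Dead pmI [stt 0 2 false]
  ib : Dead pmI [stt 4 2 false]
  iia0 : Dead pmII [stt 0 2 true]
  iiab : Dead pmII [stt 4 2 true]
  iib0 : Dead pmII [stt 0 4 true]
  iiba : Dead pmII [stt 2 4 true]

/-- the four equations of case I -/
theorem no_I [Finite V] (K : Certs) (X : Cx6 S y a b z p q) (hI : CI S y a b)
    (hy : ∃ s, S.q y s = S.q a b) (d' : V) (hd : d' = 0 ∨ d' = b)
    (h1 : C S (p + q) (z + q + d' + a)) (h2 : C S (z + p + q) (z + q + d')) : False := by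
  rcases hd with rfl | rfl
  · exact kill_I X hI hy (by norm_num) (by norm_num) K.i0 (by rw [ev_zero, e_2]; exact h1)
      (by rw [ev_zero]; exact h2)
  · exact kill_I X hI hy (by norm_num) (by norm_num) K.ib (by rw [e_4, e_2]; exact h1)
      (by rw [e_4]; exact h2)

/-- the equations of case II -/
theorem no_II [Finite V] (K : Certs) (X : Cx6 S y a b z p q) (h3 : C S z a)
    (d' t : V) (hd : (t = a ∧ (d' = 0 ∨ d' = b)) ∨ (t = b ∧ (d' = 0 ∨ d' = a)))
    (h1 : C S (p + q) (z + q + d' + t)) (h2 : C S (z + p + q) (z + q + d')) : False := by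
  rcases hd with ⟨rfl, rfl | rfl⟩ | ⟨rfl, rfl | rfl⟩
  · exact kill_II X (by norm_num) (by norm_num) K.iia0 (by rw [ev_zero, e_2]; exact h1)
      (by rw [ev_zero]; exact h2) h3
  · exact kill_II X (by norm_num) (by norm_num) K.iiab (by rw [e_4, e_2]; exact h1)
      (by rw [e_4]; exact h2) h3
  · exact kill_II X (by norm_num) (by norm_num) K.iib0 (by rw [ev_zero, e_4]; exact h1)
      (by rw [ev_zero]; exact h2) h3
  · exact kill_II X (by norm_num) (by norm_num) K.iiba (by rw [e_4, e_2]; exact h1)
      (by rw [e_2]; exact h2) h3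

end

end Pool.Agent.R4.M8
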