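import Pool.Agent.R4.Ctx8
import Pool.Agent.R4.M8F

/-!
# Case 2 from the six certificates (helper82; mathematics helper35, helper82)

`V_y = <y, a, b>` has order 8, is not commutative and all its products are values of `q (y, .)`.
`G_y` is the set of all `x` with `q (d, x)` a value of `q (y, .)` for all `d` in `V_y`.  Some `z` is
not in `G_y`.  The elements `p` of `V_z` and `q` of `V_(y+z)` give the equations
`(p + q) (z + q + d' + t) = 0` and `(z + p + q) (z + q + d') = 0` with `d', t` in `V_y`, `t` not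
in `<y>`.  Changing `p, q` and the basis of `V_y` we reach one of the six start states.
-/

set_option autoImplicit false
set_option linter.unusedSectionVars false
set_option linter.unusedSimpArgs false

namespace Pool.Agent.R4

open Pool.Agent.Helper58.PLine (QData)
open Pool.Agent.ETCP
open Pool.Agent.REG10 (InQ SRg)
open Pool.Agent.ETCI (In8)

section
variable {V Q : Type} [AddCommGroup V] [Module (ZMod 2) V]

/-- `a, b` is a basis of `V_y` modulo `y` -/
structure Bs (S : QData V Q) (y a b : V) : Prop where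
  cya : C S y a
  cyb : C S y b
  nab : ¬ C S a b
  hD : ∀ x, C S y x → In8 y a b x

/-- the pair `p, q` of `z` -/
structure Cz (S : QData V Q) (y z p q : V) : Prop where
  czp : C S z p
  cyzq : C S (y + z) q
  hp : ∀ d, C S y d → S.q y p ≠ S.q z d
  hq : ∀ d, C S y d → S.q y q ≠ S.q z d

/-- `x` is in `G_y` -/
def GG (S : QData V Q) (y x : V) : Prop := ∀ d, C S y d → InQ S y d x

/-- the two equations -/
def FF (S : QData V Q) (z p q d t : V) : Prop :=
  C S (p + q) (z + q + d + t) ∧ C S (z + p + q) (z + q + d)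

variable {S : QData V Q} {y a b : V}

theorem Bs.swap (B : Bs S y a b) : Bs S y b a where
  cya := B.cyb
  cyb := B.cya
  nab := fun h => B.nab h.symm
  hD := by
    intro x hx
    rcases B.hD x hx with h | h | h | h | h | h | h | h
    · exact Or.inl (h.trans (eo (by abel_nf <;> simp only [ch2, ch3, ch4, ch5, add_zero, zero_add])))
    · exact (Or.inr (Or.inl (h.trans (eo (by abel_nf <;> simp only [ch2, ch3, ch4, ch5, add_zero, zero_add])))))
    · exact (Or.inr (Or.inr (Or.inr (Or.inr (Or.inl (h.trans (eo (by abel_nf <;> simp only [ch2, ch3, ch4, ch5, add_zero, zero_add]))))))))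
    · exact (Or.inr (Or.inr (Or.inr (Or.inr (Or.inr (Or.inl (h.trans (eo (by abel_nf <;> simp only [ch2, ch3, ch4, ch5, add_zero, zero_add])))))))))
    · exact (Or.inr (Or.inr (Or.inl (h.trans (eo (by abel_nf <;> simp only [ch2, ch3, ch4, ch5, add_zero, zero_add]))))))
    · exact (Or.inr (Or.inr (Or.inr (Or.inl (h.trans (eo (by abel_nf <;> simp only [ch2, ch3, ch4, ch5, add_zero, zero_add])))))))
    · exact (Or.inr (Or.inr (Or.inr (Or.inr (Or.inr (Or.inr (Or.inl (h.trans (eo (by abel_nf <;> simp only [ch2, ch3, ch4, ch5, add_zero, zero_add]))))))))))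
    · exact (Or.inr (Or.inr (Or.inr (Or.inr (Or.inr (Or.inr (Or.inr (h.trans (eo (by abel_nf <;> simp only [ch2, ch3, ch4, ch5, add_zero, zero_add]))))))))))

theorem Bs.addy (he : S.e = 0) (B : Bs S y a b) : Bs S y (a + y) b where
  cya := B.cya.add (C.self he y)
  cyb := B.cyb
  nab := fun h => B.nab ((h.add' B.cyb).of_eq
    (eo (by abel_nf <;> simp only [ch2, ch3, ch4, ch5, add_zero, zero_add])) rfl)
  hD := by
    intro x hx
    rcases B.hD x hx with h | h | h | h | h | h | h | h
    · exact Or.inl (h.trans (eo (by abel_nf <;> simp only [ch2, ch3, ch4, ch5, add_zero, zero_add])))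
    · exact (Or.inr (Or.inl (h.trans (eo (by abel_nf <;> simp only [ch2, ch3, ch4, ch5, add_zero, zero_add])))))
    · exact (Or.inr (Or.inr (Or.inr (Or.inl (h.trans (eo (by abel_nf <;> simp only [ch2, ch3, ch4, ch5, add_zero, zero_add])))))))
    · exact (Or.inr (Or.inr (Or.inl (h.trans (eo (by abel_nf <;> simp only [ch2, ch3, ch4, ch5, add_zero, zero_add]))))))
    · exact (Or.inr (Or.inr (Or.inr (Or.inr (Or.inl (h.trans (eo (by abel_nf <;> simp only [ch2, ch3, ch4, ch5, add_zero, zero_add]))))))))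
    · exact (Or.inr (Or.inr (Or.inr (Or.inr (Or.inr (Or.inl (h.trans (eo (by abel_nf <;> simp only [ch2, ch3, ch4, ch5, add_zero, zero_add])))))))))
    · exact (Or.inr (Or.inr (Or.inr (Or.inr (Or.inr (Or.inr (Or.inr (h.trans (eo (by abel_nf <;> simp only [ch2, ch3, ch4, ch5, add_zero, zero_add]))))))))))
    · exact (Or.inr (Or.inr (Or.inr (Or.inr (Or.inr (Or.inr (Or.inl (h.trans (eo (by abel_nf <;> simp only [ch2, ch3, ch4, ch5, add_zero, zero_add]))))))))))

theorem Bs.addb (he : S.e = 0) (B : Bs S y a b) : Bs S y (a + b) b where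
  cya := B.cya.add B.cyb
  cyb := B.cyb
  nab := fun h => B.nab ((h.add' (C.self he b)).of_eq
    (eo (by abel_nf <;> simp only [ch2, ch3, ch4, ch5, add_zero, zero_add])) rfl)
  hD := by
    intro x hx
    rcases B.hD x hx with h | h | h | h | h | h | h | h
    · exact Or.inl (h.trans (eo (by abel_nf <;> simp only [ch2, ch3, ch4, ch5, add_zero, zero_add])))
    · exact (Or.inr (Or.inl (h.trans (eo (by abel_nf <;> simp only [ch2, ch3, ch4, ch5, add_zero, zero_add])))))
    · exact (Or.inr (Or.inr (Or.inr (Or.inr (Or.inr (Or.inr (Or.inl (h.trans (eo (by abel_nf <;> simp only [ch2, ch3, ch4, ch5, add_zero, zero_add]))))))))))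
    · exact (Or.inr (Or.inr (Or.inr (Or.inr (Or.inr (Or.inr (Or.inr (h.trans (eo (by abel_nf <;> simp only [ch2, ch3, ch4, ch5, add_zero, zero_add]))))))))))
    · exact (Or.inr (Or.inr (Or.inr (Or.inr (Or.inl (h.trans (eo (by abel_nf <;> simp only [ch2, ch3, ch4, ch5, add_zero, zero_add]))))))))
    · exact (Or.inr (Or.inr (Or.inr (Or.inr (Or.inr (Or.inl (h.trans (eo (by abel_nf <;> simp only [ch2, ch3, ch4, ch5, add_zero, zero_add])))))))))
    · exact (Or.inr (Or.inr (Or.inl (h.trans (eo (by abel_nf <;> simp only [ch2, ch3, ch4, ch5, add_zero, zero_add]))))))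
    · exact (Or.inr (Or.inr (Or.inr (Or.inl (h.trans (eo (by abel_nf <;> simp only [ch2, ch3, ch4, ch5, add_zero, zero_add])))))))

/-- every element of `V_y - <y>` is in a basis -/
theorem Bs.fst (he : S.e = 0) (B : Bs S y a b) {c : V} (hc : C S y c) (h0 : c ≠ 0) (h1 : c ≠ y) :
    ∃ b', Bs S y c b' := by
  rcases B.hD c hc with h | h | h | h | h | h | h | h
  · exact absurd h h0
  · exact absurd h h1
  · subst h; exact ⟨b, B⟩
  · subst h; exact ⟨b, B.addy he⟩
  · subst h; exact ⟨a, B.swap⟩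
  · subst h; exact ⟨a, B.swap.addy he⟩
  · subst h; exact ⟨b, B.addb he⟩
  · subst h; exact ⟨b, (B.addb he).addy he⟩

/-- every element of `V_y - <y, a>` completes `a` -/
theorem Bs.snd (he : S.e = 0) (B : Bs S y a b) {c : V} (hc : C S y c) (h0 : c ≠ 0) (h1 : c ≠ y)
    (h2 : c ≠ a) (h3 : c ≠ a + y) : Bs S y a c := by
  rcases B.hD c hc with h | h | h | h | h | h | h | h
  · exact absurd h h0
  · exact absurd h h1
  · exact absurd h h2
  · exact absurd h h3
  · subst h; exact B
  · subst h; exact (B.swap.addy he).swap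
  · subst h
    have h4 := (B.swap.addb he).swap
    rwa [add_comm b a] at h4
  · subst h
    have h4 := ((B.swap.addb he).addy he).swap
    rwa [add_comm b a] at h4

theorem Bs.gg (B : Bs S y a b) {x : V} (h1 : InQ S y a x) (h2 : InQ S y b x) : GG S y x := by
  intro d hd
  have h3 : InQ S y y x := REG10.inq_x x
  rcases B.hD d hd with h | h | h | h | h | h | h | h
  · rw [h]; exact REG10.inq_zero_left x
  · rw [h]; exact h3
  · rw [h]; exact h1
  · rw [h]; exact h1.add_left h3
  · rw [h]; exact h2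
  · rw [h]; exact h2.add_left h3
  · rw [h]; exact h1.add_left h2
  · rw [h]; exact (h1.add_left h2).add_left h3

theorem GG.add {x x' : V} (h : GG S y x) (h' : GG S y x') : GG S y (x + x') :=
  fun d hd => (h d hd).add (h' d hd)

theorem Bs.prod (he : S.e = 0) (B : Bs S y a b) (hab : InQ S y a b) {c d : V} (hc : C S y c)
    (hd : C S y d) : InQ S y c d := by
  have ga : GG S y a := B.gg (REG10.inq_self he a) hab.symm
  have gb : GG S y b := B.gg hab (REG10.inq_self he b)
  have gy : GG S y y := fun d hd => (REG10.inq_x d).symm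
  have g0 : GG S y 0 := fun d hd => REG10.inq_zero d
  have gd : GG S y d := by
    rcases B.hD d hd with h | h | h | h | h | h | h | h
    · rw [h]; exact g0
    · rw [h]; exact gy
    · rw [h]; exact ga
    · rw [h]; exact ga.add gy
    · rw [h]; exact gb
    · rw [h]; exact gb.add gy
    · rw [h]; exact ga.add gb
    · rw [h]; exact (ga.add gb).add gy
  exact gd c hc

/-- the pair `p, q` exists -/
theorem exists_cz [Finite V] (he : S.e = 0) (h8 : ∀ x, x ≠ 0 → 8 ≤ Nat.card {v // C S x v})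
    (B : Bs S y a b) (hab : InQ S y a b) {z : V} (hz : ¬ GG S y z) : ∃ p q, Cz S y z p q := by
  have hyy := C.self he y
  have hzD : ¬ C S y z := fun h => hz (B.gg (B.prod he hab B.cya h) (B.prod he hab B.cyb h))
  have hz0 : z ≠ 0 := by
    rintro rfl
    exact hzD (C.zero y)
  have hyz0 : y + z ≠ 0 := by
    intro h
    exact hzD (hyy.of_eq rfl (eo h))
  have hD8 := cardD B.hD
  have ex : ∀ r, (∀ v, C S y v → (C S r v ↔ C S z v)) → r ≠ 0 →
      ∃ p, C S r p ∧ ∀ d, C S y d → S.q y p ≠ S.q z d := by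
    intro r hr hr0
    by_contra hno
    push Not at hno
    have hall : ∀ p, C S r p → ∃ d, C S y d ∧ S.q y p = S.q z d := by
      intro p hp
      obtain ⟨d, h1, h2⟩ := hno p hp
      exact ⟨d, h1, h2⟩
    have hc := hD8.trans (h8 r hr0)
    apply hz
    obtain ⟨p1, -, h1⟩ := count8 hr hc hall B.cya
    obtain ⟨p2, -, h2⟩ := count8 hr hc hall B.cyb
    exact B.gg (InQ.symm ⟨p1, h1.symm⟩) (InQ.symm ⟨p2, h2.symm⟩)
  obtain ⟨p, hp1, hp2⟩ := ex z (fun v _ => Iff.rfl) hz0
  obtain ⟨q, hq1, hq2⟩ := ex (y + z) (fun v hv => by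
    constructor
    · intro h
      exact (h.add' hv).of_eq (eo (by abel_nf <;> simp only [ch2, ch3, ch4, ch5, add_zero, zero_add])) rfl
    · intro h
      exact hv.add' h) hyz0
  exact ⟨p, q, hp1, hq1, hp2, hq2⟩

variable {z p q : V}

theorem Cz.toCx6 (he : S.e = 0) (B : Bs S y a b) (hab : InQ S y a b) (hz : ¬ GG S y z)
    (X : Cz S y z p q) :
    M8.Cx6 S y a b z p q where
  he := he
  cya := B.cya
  cyb := B.cyb
  nab := B.nab
  hD := B.hD
  czp := X.czp
  cyzq := X.cyzq
  hp := fun d hd => X.hp d (c_of_in8 he B.cya B.cyb hd)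
  hq := fun d hd => X.hq d (c_of_in8 he B.cya B.cyb hd)
  nz := by
    rintro ⟨⟨v1, h1⟩, ⟨v2, h2⟩⟩
    exact hz (B.gg ⟨v1, h1.symm⟩ ⟨v2, h2.symm⟩)
  core := by
    have hyy := C.self he y
    have n1 : ¬ C S y p := fun h => X.hp 0 (C.zero y) (by
      rw [show S.q y p = S.z from h]
      exact (show S.q z 0 = S.z from C.zero z).symm)
    have n1' : ¬ C S y q := fun h => X.hq 0 (C.zero y) (by
      rw [show S.q y q = S.z from h]
      exact (show S.q z 0 = S.z from C.zero z).symm)
    have n2 : ¬ C S y (z + p) := fun h => X.hp y hyy (by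
      rw [S.symm z y]
      exact (q_eq h).symm)
    have n2' : ¬ C S y (z + q) := fun h => X.hq y hyy (by
      rw [S.symm z y]
      exact (q_eq h).symm)
    have n0 : ¬ C S y z := fun h => hz (B.gg (B.prod he hab B.cya h) (B.prod he hab B.cyb h))
    have e1 : S.q y q = S.q z q := q_eq' X.cyzq
    have n3 : ∀ c : V, C S z c → ¬ C S y (c + p + q) := by
      intro c hc h
      apply X.hq _ h
      rw [e1]
      apply q_eq
      exact (hc.add X.czp).of_eq rfl (eo (by abel_nf <;> simp only [ch2, ch3, ch4, ch5, add_zero, zero_add]))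
    intro e f g hefg h
    cases e <;> cases f <;> cases g
    · exact absurd hefg (by decide)
    · exact n1' (h.of_eq rfl (by simp))
    · exact n1 (h.of_eq rfl (by simp))
    · exact n3 0 (C.zero z) (h.of_eq rfl (by simp))
    · exact n0 (h.of_eq rfl (by simp))
    · exact n2' (h.of_eq rfl (by simp))
    · exact n2 (h.of_eq rfl (by simp))
    · exact n3 z (C.self he z) (h.of_eq rfl (by simp))

/-- the root: the two equations -/
theorem Cz.root (he : S.e = 0) (X : Cz S y z p q) :
    ∃ d t, C S y d ∧ C S y t ∧ t ≠ 0 ∧ t ≠ y ∧ FF S z p q d t := by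
  have hzz := C.self he z
  have e1 : S.q y q = S.q z q := q_eq' X.cyzq
  -- `(p + q) z = y q`
  have h1 : S.q (p + q) z = S.q y q := by
    rw [e1, S.symm z q]
    exact q_eq' (X.czp.symm.of_eq (eo (by abel_nf <;> simp only [ch2, ch3, ch4, ch5, add_zero, zero_add])) rfl)
  have h2 : S.q (z + p + q) z = S.q y q := by
    rw [e1, S.symm z q]
    exact q_eq' ((hzz.add X.czp).symm.of_eq (eo (by abel_nf <;> simp only [ch2, ch3, ch4, ch5, add_zero, zero_add])) rfl)
  obtain ⟨t1, a1, a2, -⟩ := link h1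
  obtain ⟨t2, b1, b2, -⟩ := link h2
  have hd : C S y (q + t2) := b2
  have ht : C S y (t1 + t2) := (a2.add b2).of_eq rfl
    (eo (by abel_nf <;> simp only [ch2, ch3, ch4, ch5, add_zero, zero_add]))
  have f1 : C S (p + q) (z + q + (q + t2) + (t1 + t2)) :=
    a1.of_eq rfl (eo (by abel_nf <;> simp only [ch2, ch3, ch4, ch5, add_zero, zero_add]))
  have f2 : C S (z + p + q) (z + q + (q + t2)) :=
    b1.of_eq rfl (eo (by abel_nf <;> simp only [ch2, ch3, ch4, ch5, add_zero, zero_add]))
  refine ⟨q + t2, t1 + t2, hd, ht, ?_, ?_, f1, f2⟩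
  · intro h
    -- `z (z + q + d) = 0`
    have g1 : C S (p + q) (z + t2) := f1.of_eq rfl (by
      rw [h]; exact (eo (by abel_nf <;> simp only [ch2, ch3, ch4, ch5, add_zero, zero_add])))
    have g2 : C S (z + p + q) (z + t2) := f2.of_eq rfl (eo (by abel_nf <;> simp only [ch2, ch3, ch4, ch5, add_zero, zero_add]))
    have g3 : C S z (z + t2) := (g1.add' g2).of_eq (eo (by abel_nf <;> simp only [ch2, ch3, ch4, ch5, add_zero, zero_add])) rfl
    have g4 : C S z t2 := (hzz.add g3).of_eq rfl (eo (by abel_nf <;> simp only [ch2, ch3, ch4, ch5, add_zero, zero_add]))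
    apply X.hq _ hd
    rw [e1]
    exact q_eq (g4.of_eq rfl (eo (by abel_nf <;> simp only [ch2, ch3, ch4, ch5, add_zero, zero_add])))
  · intro h
    have g1 : C S (p + q) (z + t2 + y) := f1.of_eq rfl (by
      rw [h]; exact (eo (by abel_nf <;> simp only [ch2, ch3, ch4, ch5, add_zero, zero_add])))
    have g2 : C S (z + p + q) (z + t2) := f2.of_eq rfl (eo (by abel_nf <;> simp only [ch2, ch3, ch4, ch5, add_zero, zero_add]))
    have g3 : S.q (p + q) y = S.q (p + q) (z + t2) :=
      q_eq (g1.of_eq rfl (eo (by abel_nf <;> simp only [ch2, ch3, ch4, ch5, add_zero, zero_add])))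
    have g4 : S.q (p + q) (z + t2) = S.q z (z + t2) :=
      q_eq' (g2.of_eq (eo (by abel_nf <;> simp only [ch2, ch3, ch4, ch5, add_zero, zero_add])) rfl)
    have g5 : S.q y (p + q) = S.q z (z + t2) := by
      rw [S.symm y, g3, g4]
    have g6 : S.q z (z + t2) = S.q z t2 := q_eq (hzz.of_eq rfl (eo (by abel_nf <;> simp only [ch2, ch3, ch4, ch5, add_zero, zero_add])))
    rw [g6] at g5
    obtain ⟨t, k1, k2, k3⟩ := link g5
    -- `t + q` is a common slot of `y p` and `z (q + t2)`
    have k4 : C S (y + z) (q + t) := X.cyzq.add k3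
    have k5 : S.q y p = S.q y (q + t) := q_eq (k1.of_eq rfl (eo (by abel_nf <;> simp only [ch2, ch3, ch4, ch5, add_zero, zero_add])))
    have k6 : S.q y (q + t) = S.q z (q + t) := q_eq' k4
    have k7 : S.q z (q + t) = S.q z (q + t2) := q_eq (k2.of_eq rfl (eo (by abel_nf <;> simp only [ch2, ch3, ch4, ch5, add_zero, zero_add])))
    exact X.hp _ hd (by rw [k5, k6, k7])

/-- `p` to `p + z` -/
theorem Cz.pz (he : S.e = 0) (X : Cz S y z p q) {d t : V} (F : FF S z p q d t) :
    Cz S y z (p + z) q ∧ FF S z (p + z) q (d + t) t := by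
  have hzz := C.self he z
  have hyy := C.self he y
  refine ⟨⟨X.czp.add hzz, X.cyzq, ?_, X.hq⟩, ?_, ?_⟩
  · intro e hde h
    -- `y p = z (e + y)`
    obtain ⟨w, k1, k2, k3⟩ := link h
    -- `y (p + z + w) = 0`, `z (e + w) = 0`, `(y + z) w = 0`
    have k4 : S.q y p = S.q y (z + w) := q_eq (k1.of_eq rfl (eo (by abel_nf <;> simp only [ch2, ch3, ch4, ch5, add_zero, zero_add])))
    have k5 : C S (y + z) (y + z + w) := (C.self he (y + z)).add k3
    have k6 : S.q y (z + w) = S.q y (y + z + w) := q_eq (hyy.of_eq rfl (eo (by abel_nf <;> simp only [ch2, ch3, ch4, ch5, add_zero, zero_add])))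
    have k7 : S.q y (y + z + w) = S.q z (y + z + w) := q_eq' k5
    have k8 : S.q z (y + z + w) = S.q z (e + y) :=
      q_eq ((hzz.add k2).of_eq rfl (eo (by abel_nf <;> simp only [ch2, ch3, ch4, ch5, add_zero, zero_add])))
    exact X.hp (e + y) (hde.add hyy) (by rw [k4, k6, k7, k8])
  · exact F.2.of_eq (eo (by abel_nf <;> simp only [ch2, ch3, ch4, ch5, add_zero, zero_add]))
      (eo (by abel_nf <;> simp only [ch2, ch3, ch4, ch5, add_zero, zero_add]))
  · exact F.1.of_eq (eo (by abel_nf <;> simp only [ch2, ch3, ch4, ch5, add_zero, zero_add]))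
      (eo (by abel_nf <;> simp only [ch2, ch3, ch4, ch5, add_zero, zero_add]))

/-- `q` to `q + z + y` -/
theorem Cz.qz (he : S.e = 0) (X : Cz S y z p q) {d t : V} (hd : C S y d) (ht : C S y t)
    (F : FF S z p q d t) : Cz S y z p (q + z + y) ∧ FF S z p (q + z + y) (d + t + y) t := by
  have hzz := C.self he z
  have hyy := C.self he y
  have e1 : S.q y q = S.q z q := q_eq' X.cyzq
  refine ⟨⟨X.czp, (X.cyzq.add (C.self he (y + z))).of_eq rfl (eo (by abel_nf <;> simp only [ch2, ch3, ch4, ch5, add_zero, zero_add])), X.hp, ?_⟩, ?_, ?_⟩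
  · intro e hde h
    -- `y (q + z) = z e`, so `y q = z (e + y)`
    obtain ⟨w, k1, k2, k3⟩ := link h
    have k4 : S.q y q = S.q y (z + y + w) := q_eq (k1.of_eq rfl (eo (by abel_nf <;> simp only [ch2, ch3, ch4, ch5, add_zero, zero_add])))
    have k5 : C S (y + z) (y + z + w) := (C.self he (y + z)).add k3
    have k7 : S.q y (z + y + w) = S.q z (z + y + w) := q_eq' (k5.of_eq rfl
      (eo (by abel_nf <;> simp only [ch2, ch3, ch4, ch5, add_zero, zero_add])))
    have k8 : S.q z (z + y + w) = S.q z (e + y) :=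
      q_eq ((hzz.add k2).of_eq rfl (eo (by abel_nf <;> simp only [ch2, ch3, ch4, ch5, add_zero, zero_add])))
    exact X.hq (e + y) (hde.add hyy) (by rw [k4, k7, k8])
  · -- `(p + q + z + y) (q + d) = 0`
    have g1 : S.q (z + p + q) (q + d) = S.q (z + p + q) z := q_eq (F.2.of_eq rfl
      (eo (by abel_nf <;> simp only [ch2, ch3, ch4, ch5, add_zero, zero_add])))
    have g2 : S.q (z + p + q) z = S.q q z := q_eq' ((hzz.add X.czp).symm.of_eq
      (eo (by abel_nf <;> simp only [ch2, ch3, ch4, ch5, add_zero, zero_add])) rfl)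
    have g3 : S.q y (q + d) = S.q y q := q_eq (hd.of_eq rfl (eo (by abel_nf <;> simp only [ch2, ch3, ch4, ch5, add_zero, zero_add])))
    have g4 : C S (z + p + q + y) (q + d) := by
      rw [← q_eq'_iff, g1, g2, g3, e1, S.symm z q]
    exact g4.of_eq (eo (by abel_nf <;> simp only [ch2, ch3, ch4, ch5, add_zero, zero_add]))
      (eo (by abel_nf <;> simp only [ch2, ch3, ch4, ch5, add_zero, zero_add]))
  · -- `(p + q + y) (q + d + t) = 0`
    have g1 : S.q (p + q) (q + d + t) = S.q (p + q) z := q_eq (F.1.of_eq rfl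
      (eo (by abel_nf <;> simp only [ch2, ch3, ch4, ch5, add_zero, zero_add])))
    have g2 : S.q (p + q) z = S.q q z := q_eq' (X.czp.symm.of_eq
      (eo (by abel_nf <;> simp only [ch2, ch3, ch4, ch5, add_zero, zero_add])) rfl)
    have g3 : S.q y (q + d + t) = S.q y q := q_eq ((hd.add ht).of_eq rfl
      (eo (by abel_nf <;> simp only [ch2, ch3, ch4, ch5, add_zero, zero_add])))
    have g4 : C S (p + q + y) (q + d + t) := by
      rw [← q_eq'_iff, g1, g2, g3, e1, S.symm z q]
    exact g4.of_eq (eo (by abel_nf <;> simp only [ch2, ch3, ch4, ch5, add_zero, zero_add]))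
      (eo (by abel_nf <;> simp only [ch2, ch3, ch4, ch5, add_zero, zero_add]))

/-- `d` modulo `<y, t>` is free -/
theorem Cz.red (he : S.e = 0) (X : Cz S y z p q) {d t d' : V} (hd : C S y d) (ht : C S y t)
    (F : FF S z p q d t)
    (h : d + d' = 0 ∨ d + d' = y ∨ d + d' = t ∨ d + d' = t + y) :
    ∃ p' q', Cz S y z p' q' ∧ FF S z p' q' d' t := by
  rcases h with h | h | h | h
  · have e : d = d' := eo h
    subst e
    exact ⟨p, q, X, F⟩
  · obtain ⟨X1, F1⟩ := X.pz he F
    obtain ⟨X2, F2⟩ := X1.qz he (hd.add ht) ht F1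
    refine ⟨_, _, X2, ?_⟩
    have e : d + t + t + y = d' := by
      rw [← h]
      exact (eo (by abel_nf <;> simp only [ch2, ch3, ch4, ch5, add_zero, zero_add]))
    rwa [e] at F2
  · obtain ⟨X1, F1⟩ := X.pz he F
    refine ⟨_, _, X1, ?_⟩
    have e : d + t = d' := by
      rw [← h]
      exact (eo (by abel_nf <;> simp only [ch2, ch3, ch4, ch5, add_zero, zero_add]))
    rwa [e] at F1
  · obtain ⟨X2, F2⟩ := X.qz he hd ht F
    refine ⟨_, _, X2, ?_⟩
    have e : d + t + y = d' := by
      have h' : d + d' + (t + y) = 0 := by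
        rw [h]
        exact ZModModule.add_self _
      exact eo (by rw [← h']; abel)
    rwa [e] at F2

/-- `z, p, q` to `z + y, q, p` -/
theorem Cz.swap (he : S.e = 0) (X : Cz S y z p q) {d t : V} (hd : C S y d)
    (F : FF S z p q d t) : Cz S y (z + y) q p ∧ FF S (z + y) q p d (t + y) := by
  have hzz := C.self he z
  have hyy := C.self he y
  have e1 : S.q y q = S.q z q := q_eq' X.cyzq
  have hval : ∀ e, C S y e → S.q (z + y) e = S.q z e := fun e he' =>
    q_eq' (he'.of_eq (eo (by abel_nf <;> simp only [ch2, ch3, ch4, ch5, add_zero, zero_add])) rfl)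
  refine ⟨⟨X.cyzq.of_eq (add_comm y z) rfl, X.czp.of_eq (eo (by abel_nf <;> simp only [ch2, ch3, ch4, ch5, add_zero, zero_add])) rfl,
    ?_, ?_⟩, ?_, ?_⟩
  · intro e hde
    rw [hval e hde]
    exact X.hq e hde
  · intro e hde
    rw [hval e hde]
    exact X.hp e hde
  · -- `(p + q) (z + p + d + t) = 0`
    exact (F.1.add (C.self he (p + q))).of_eq (add_comm p q)
      (eo (by abel_nf <;> simp only [ch2, ch3, ch4, ch5, add_zero, zero_add]))
  · have g0 : C S (z + p + q) (p + d) := (F.2.add (C.self he (z + p + q))).of_eq rfl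
      (eo (by abel_nf <;> simp only [ch2, ch3, ch4, ch5, add_zero, zero_add]))
    have g1 : S.q (z + p + q) (z + y + p + d) = S.q (z + p + q) (z + y) := q_eq (g0.of_eq rfl
      (eo (by abel_nf <;> simp only [ch2, ch3, ch4, ch5, add_zero, zero_add])))
    have g2 : S.q (z + p + q) (z + y) = S.q (z + p) (z + y) := q_eq' ((X.cyzq.symm.of_eq
      (eo (by abel_nf <;> simp only [ch2, ch3, ch4, ch5, add_zero, zero_add])) (add_comm y z)))
    have g3 : S.q (z + p) (z + y) = S.q (z + p) y := q_eq ((hzz.add X.czp).symm.of_eq rfl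
      (eo (by abel_nf <;> simp only [ch2, ch3, ch4, ch5, add_zero, zero_add])))
    have g4 : S.q y (z + y + p + d) = S.q y (z + p) := q_eq ((hyy.add hd).of_eq rfl
      (eo (by abel_nf <;> simp only [ch2, ch3, ch4, ch5, add_zero, zero_add])))
    have g5 : C S (z + p + q + y) (z + y + p + d) := by
      rw [← q_eq'_iff, g1, g2, g3, g4, S.symm y]
    exact g5.of_eq (eo (by abel_nf <;> simp only [ch2, ch3, ch4, ch5, add_zero, zero_add])) rfl

end

section
variable {V Q : Type} [AddCommGroup V] [Module (ZMod 2) V] {S : QData V Q} {y a b z p q : V}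

/-- case I -/
theorem no_caseI [Finite V] (K : M8.Certs) (he : S.e = 0)
    (h8 : ∀ x, x ≠ 0 → 8 ≤ Nat.card {v // C S x v}) (B : Bs S y a b) (hab : InQ S y a b)
    (hz : ¬ GG S y z)
    (hI : ∀ c x v, C S y c → c ≠ 0 → c ≠ y → S.q c x = S.q y v → GG S y x) : False := by
  obtain ⟨p, q, X⟩ := exists_cz he h8 B hab hz
  obtain ⟨d, t, hd, ht, t0, ty, F⟩ := X.root he
  obtain ⟨b', B'⟩ := B.fst he ht t0 ty
  have hab' : InQ S y t b' := B.prod he hab B'.cya B'.cyb
  have hCI : M8.CI S y t b' := by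
    intro c x v hc h0 h1 h2
    have hG : GG S y x := hI c x v (c_of_in8 he B'.cya B'.cyb hc) h0 h1 h2
    obtain ⟨v1, h3⟩ := hG t B'.cya
    obtain ⟨v2, h4⟩ := hG b' B'.cyb
    exact ⟨⟨v1, h3.symm⟩, ⟨v2, h4.symm⟩⟩
  have hy : ∃ s, S.q y s = S.q t b' := by
    obtain ⟨s, hs⟩ := hab'
    exact ⟨s, hs.symm⟩
  have key : ∃ d', (d' = 0 ∨ d' = b') ∧ (d + d' = 0 ∨ d + d' = y ∨ d + d' = t ∨ d + d' = t + y) := by
    rcases B'.hD d hd with h | h | h | h | h | h | h | h
    · exact ⟨0, Or.inl rfl, Or.inl (by rw [h]; simp)⟩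
    · exact ⟨0, Or.inl rfl, Or.inr (Or.inl (by rw [h]; simp))⟩
    · exact ⟨0, Or.inl rfl, Or.inr (Or.inr (Or.inl (by rw [h]; simp)))⟩
    · exact ⟨0, Or.inl rfl, Or.inr (Or.inr (Or.inr (by rw [h]; simp)))⟩
    · exact ⟨b', Or.inr rfl, Or.inl (by rw [h]; exact ZModModule.add_self _)⟩
    · exact ⟨b', Or.inr rfl, Or.inr (Or.inl (by rw [h]; exact (eo (by abel_nf <;> simp only [ch2, ch3, ch4, ch5, add_zero, zero_add]))))⟩
    · exact ⟨b', Or.inr rfl, Or.inr (Or.inr (Or.inl (by rw [h]; exact (eo (by abel_nf <;> simp only [ch2, ch3, ch4, ch5, add_zero, zero_add])))))⟩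
    · exact ⟨b', Or.inr rfl, Or.inr (Or.inr (Or.inr (by rw [h]; exact (eo (by abel_nf <;> simp only [ch2, ch3, ch4, ch5, add_zero, zero_add])))))⟩
  obtain ⟨d', h1, h2⟩ := key
  obtain ⟨p', q', X', F'⟩ := X.red he hd ht F h2
  exact M8.no_I K (X'.toCx6 he B' hab' hz) hCI hy d' h1 F'.1 F'.2

/-- case II, after the choice of `z` -/
theorem no_caseII' [Finite V] (K : M8.Certs) (he : S.e = 0) (B : Bs S y a b)
    (hab : InQ S y a b) (hz : ¬ GG S y z) (hza : C S z a) (X : Cz S y z p q) {d t : V}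
    (hd : C S y d) (ht : C S y t) (t0 : t ≠ 0) (t1 : t ≠ y) (t2 : t ≠ a + y)
    (F : FF S z p q d t) : False := by
  by_cases ta : t = a
  · subst ta
    have key : ∃ d', (d' = 0 ∨ d' = b) ∧ (d + d' = 0 ∨ d + d' = y ∨ d + d' = t ∨ d + d' = t + y) := by
      rcases B.hD d hd with h | h | h | h | h | h | h | h
      · exact ⟨0, Or.inl rfl, Or.inl (by rw [h]; simp)⟩
      · exact ⟨0, Or.inl rfl, Or.inr (Or.inl (by rw [h]; simp))⟩
      · exact ⟨0, Or.inl rfl, Or.inr (Or.inr (Or.inl (by rw [h]; simp)))⟩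
      · exact ⟨0, Or.inl rfl, Or.inr (Or.inr (Or.inr (by rw [h]; simp)))⟩
      · exact ⟨b, Or.inr rfl, Or.inl (by rw [h]; exact ZModModule.add_self _)⟩
      · exact ⟨b, Or.inr rfl, Or.inr (Or.inl (by rw [h]; exact (eo (by abel_nf <;> simp only [ch2, ch3, ch4, ch5, add_zero, zero_add]))))⟩
      · exact ⟨b, Or.inr rfl, Or.inr (Or.inr (Or.inl (by rw [h]; exact (eo (by abel_nf <;> simp only [ch2, ch3, ch4, ch5, add_zero, zero_add])))))⟩
      · exact ⟨b, Or.inr rfl, Or.inr (Or.inr (Or.inr (by rw [h]; exact (eo (by abel_nf <;> simp only [ch2, ch3, ch4, ch5, add_zero, zero_add])))))⟩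
    obtain ⟨d', h1, h2⟩ := key
    obtain ⟨p', q', X', F'⟩ := X.red he hd ht F h2
    exact M8.no_II K (X'.toCx6 he B hab hz) hza d' t (Or.inl ⟨rfl, h1⟩) F'.1 F'.2
  · have B' : Bs S y a t := B.snd he ht t0 t1 ta t2
    have hat : InQ S y a t := B.prod he hab B'.cya B'.cyb
    have key : ∃ d', (d' = 0 ∨ d' = a) ∧ (d + d' = 0 ∨ d + d' = y ∨ d + d' = t ∨ d + d' = t + y) := by
      rcases B'.hD d hd with h | h | h | h | h | h | h | h
      · exact ⟨0, Or.inl rfl, Or.inl (by rw [h]; simp)⟩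
      · exact ⟨0, Or.inl rfl, Or.inr (Or.inl (by rw [h]; simp))⟩
      · exact ⟨a, Or.inr rfl, Or.inl (by rw [h]; exact ZModModule.add_self _)⟩
      · exact ⟨a, Or.inr rfl, Or.inr (Or.inl (by rw [h]; exact (eo (by abel_nf <;> simp only [ch2, ch3, ch4, ch5, add_zero, zero_add]))))⟩
      · exact ⟨0, Or.inl rfl, Or.inr (Or.inr (Or.inl (by rw [h]; simp)))⟩
      · exact ⟨0, Or.inl rfl, Or.inr (Or.inr (Or.inr (by rw [h]; simp)))⟩
      · exact ⟨a, Or.inr rfl, Or.inr (Or.inr (Or.inl (by rw [h]; exact (eo (by abel_nf <;> simp only [ch2, ch3, ch4, ch5, add_zero, zero_add])))))⟩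
      · exact ⟨a, Or.inr rfl, Or.inr (Or.inr (Or.inr (by rw [h]; exact (eo (by abel_nf <;> simp only [ch2, ch3, ch4, ch5, add_zero, zero_add])))))⟩
    obtain ⟨d', h1, h2⟩ := key
    obtain ⟨p', q', X', F'⟩ := X.red he hd ht F h2
    exact M8.no_II K (X'.toCx6 he B' hat hz) hza d' t (Or.inr ⟨rfl, h1⟩) F'.1 F'.2

/-- case II -/
theorem no_caseII [Finite V] (K : M8.Certs) (he : S.e = 0) (hy0 : y ≠ 0)
    (h8 : ∀ x, x ≠ 0 → 8 ≤ Nat.card {v // C S x v}) (B : Bs S y a b) (hab : InQ S y a b)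
    (hz : ¬ GG S y z) (hza : C S z a) : False := by
  obtain ⟨p, q, X⟩ := exists_cz he h8 B hab hz
  obtain ⟨d, t, hd, ht, t0, t1, F⟩ := X.root he
  by_cases t2 : t = a + y
  · obtain ⟨X', F'⟩ := X.swap he hd F
    have e : t + y = a := by
      rw [t2]
      exact (eo (by abel_nf <;> simp only [ch2, ch3, ch4, ch5, add_zero, zero_add]))
    rw [e] at F'
    have hz' : ¬ GG S y (z + y) := fun h => hz (by
      have gy : GG S y y := fun d hd => (REG10.inq_x d).symm
      have h1 := h.add gy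
      have e2 : z + y + y = z := (eo (by abel_nf <;> simp only [ch2, ch3, ch4, ch5, add_zero, zero_add]))
      rwa [e2] at h1)
    have hza' : C S (z + y) a := hza.add' B.cya
    have a0 : a ≠ 0 := by
      rintro rfl
      exact B.nab (C.zero' b)
    have a1 : a ≠ y := by
      rintro rfl
      exact B.nab B.cyb
    have a2 : a ≠ a + y := by
      intro h
      apply hy0
      have h3 : a + a = a + (a + y) := congrArg (fun s => a + s) h
      rw [← add_assoc, ZModModule.add_self, zero_add] at h3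
      exact h3.symm
    exact no_caseII' K he B hab hz' hza' X' hd B.cya a0 a1 a2 F'
  · exact no_caseII' K he B hab hz hza X hd ht t0 t1 t2 F

end

/-- **Case 2 from the certificates** -/
theorem case2_certs (K : M8.Certs) : Stmt_Case2 := by
  intro V Q _ _ _ S he hn _ h8 y a b hy0 hD ha hb hab z₀ hz₀
  have B : Bs S y a b := ⟨ha, hb, hab, hD⟩
  have hi : InQ S y a b := ⟨z₀, hz₀.symm⟩
  have hy : ¬ SRg S y := fun h => hn ⟨y, h⟩
  unfold SRg at hy
  push Not at hy
  obtain ⟨w, z, hw, hwz⟩ := hy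
  have hz : ¬ GG S y z := fun h => hwz (h w hw)
  by_cases hI : ∀ c x v, C S y c → c ≠ 0 → c ≠ y → S.q c x = S.q y v → GG S y x
  · exact no_caseI K he h8 B hi hz hI
  · push Not at hI
    obtain ⟨c, x, v, hc, c0, c1, hcx, hx⟩ := hI
    -- `x = x1 + x2`, `c x1 = 0`, `(c + y) x2 = 0`
    obtain ⟨r, k1, k2, k3⟩ := link hcx
    by_cases g1 : GG S y (x + r)
    · have g2 : ¬ GG S y r := fun h => hx (by
        have h1 := g1.add h
        have e2 : x + r + r = x := (eo (by abel_nf <;> simp only [ch2, ch3, ch4, ch5, add_zero, zero_add]))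
        rwa [e2] at h1)
      have hcy : C S y (c + y) := hc.add (C.self he y)
      obtain ⟨b', B'⟩ := B.fst he hcy (by
        intro h
        exact c1 (eo h)) (by
        intro h
        apply c0
        have h1 : c + y + y = y + y := congrArg (fun s => s + y) h
        rwa [add_assoc, ZModModule.add_self, add_zero] at h1)
      exact no_caseII K he hy0 h8 B' (B.prod he hi B'.cya B'.cyb) g2 k3.symm
    · obtain ⟨b', B'⟩ := B.fst he hc c0 c1
      exact no_caseII K he hy0 h8 B' (B.prod he hi B'.cya B'.cyb) g1 k1.symm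

end Pool.Agent.R4
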