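import Pool.Agent.R4.Tg

/-!
# A checker for certificates (helper66)

Codes: an element `x` of `(F_2^N) × (F_2^RD)` is the number `m + 256 ρ`.
-/

set_option autoImplicit false

namespace Pool.Agent.R4

/-- a table -/
structure Tb where
  N : ℕ
  RD : ℕ
  Yc : List ℕ
  Zc : List ℕ
  /-- rank bound -/
  rk : ℕ
  /-- the kernels of the three maps -/
  ker : List (List ℕ)
  /-- bitmaps of the ranges of the three maps -/
  rng : List ℕ
  /-- the rules for table `T2` are allowed -/
  full : Bool
  /-- involutory automorphisms: columns on both sides -/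
  aut : List (List ℕ × List ℕ)

/-- exclusive or of the columns selected by the digits of `n` -/
def ap : List ℕ → ℕ → ℕ
  | [], _ => 0
  | c :: cs, n => ((n % 2) * c) ^^^ ap cs (n / 2)

/-- the map number `i` of the table -/
def apu (t : Tb) (i n : ℕ) : ℕ := ((i % 2) * ap t.Yc n) ^^^ ((i / 2 % 2) * ap t.Zc n)

/-- the code of the pair `(m, u m)` -/
def zc (t : Tb) (i m : ℕ) : ℕ := m + 256 * apu t i m

/-- all sums -/
def spanL : List ℕ → List ℕ
  | [] => [0]
  | v :: vs => spanL vs ++ (spanL vs).map (v ^^^ ·)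

/-- all sums over nonempty subsets -/
def nzL : List ℕ → List ℕ
  | [] => []
  | v :: vs => nzL vs ++ (spanL vs).map (v ^^^ ·)

/-- process the list of the children -/
def chkAll (f : List ℕ → List ℕ → ℕ → Option ℕ) (B : List ℕ) :
    List ℕ → List ℕ → ℕ → Option ℕ
  | _, [], s => some s
  | NR, v :: vs, s => match f (v :: B) NR s with
    | none => none
    | some s' => chkAll f B (v :: NR) vs s'

/-- index of an arc in the bitmap -/
def idx (t : Tb) (c d r : ℕ) : ℕ := ((c / 4) * 2 ^ (t.N - 2) + d / 4) * 2 ^ t.RD + r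

/-- read `k` masks -/
def rdMasks (B : List ℕ) : ℕ → ℕ → List ℕ × ℕ
  | 0, s => ([], s)
  | k + 1, s => let p := rdMasks B k (s / 65536); (ap B (s % 65536) :: p.1, p.2)

/-- read `k` bytes -/
def rdBytes : ℕ → ℕ → List ℕ × ℕ
  | 0, s => ([], s)
  | k + 1, s => let p := rdBytes k (s / 256); ((s % 256) :: p.1, p.2)

/-- value number `i` of a code -/
def sg (t : Tb) (i x : ℕ) : ℕ := (x / 256) ^^^ apu t i (x % 256)

/-- the witness `x` shows that `g + u_up` is bad at `u` -/
def badW (t : Tb) (c u up x : ℕ) : Bool :=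
  (1 ≤ u && u ≤ 3 && up ≤ 3 && apu t u (x % 256) == 0 &&
    !(t.rng.getD u 0).testBit (sg t up x) && apu t u (c ^^^ up) != 0)

/-- the children of a node together with the rest of the stream -/
def kids (t : Tb) (D c : ℕ) (B : List ℕ) (op s : ℕ) : Option (List ℕ × ℕ) :=
  match op with
  | 2 => -- link: i(2) j(2) m0(8) mask(16)
    let i := s % 4
    let j := s / 4 % 4
    let m0 := s / 16 % 256
    let x := ap B (s / 4096 % 65536)
    if 1 ≤ j && m0 < 2 ^ t.N && apu t j m0 == sg t i x then
      some ((t.ker.getD j []).map (fun κ => zc t (i ^^^ j) (m0 ^^^ κ)), s / 268435456)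
    else none
  | 3 => -- rank: u(2) k(3) masks classes
    let u := s % 4
    let k := s / 4 % 8
    let p := rdMasks B k (s / 32)
    let q := rdBytes (t.rk + 1 - k) p.2
    if (nzL (p.1.map (sg t u))).all (fun v => v != 0) && q.1.all (fun m => m < 2 ^ t.N) then
      some ((nzL q.1).flatMap (fun a => (spanL (p.1.map (· % 256))).map
        (fun b => zc t u (a ^^^ b))), q.2)
    else none
  | 4 => -- value: u(2) up(2) wmask(16) m(8)
    if t.full && badW t c (s % 4) (s / 4 % 4) (ap B (s / 16 % 65536)) &&
        s / 1048576 % 256 < 2 ^ t.N then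
      some ((List.range (2 ^ t.RD)).map (fun r => s / 1048576 % 256 + 256 * r), s / 268435456)
    else none
  | 5 => -- exact rank: u(2) up(2) w(2) wmask(16) masks(N) values(3 x 8)
    let u := s % 4
    let up := s / 4 % 4
    let w := s / 16 % 4
    let p := rdMasks B t.N (s / 4194304)
    let q := rdBytes 3 p.2
    if t.full && badW t c u up (ap B (s / 64 % 65536)) && (w == up || w == (up ^^^ u)) &&
        p.1.map (· % 256) == (List.range t.N).map (2 ^ ·) &&
        p.1.all (fun x => (spanL q.1).contains (sg t w x)) then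
      some (((List.range (2 ^ t.RD)).filter (fun r => !(spanL q.1).contains r)).map
        (fun r => 256 * r), q.2)
    else none
  | _ => none

/-- The main checker.  `D`: bitmap of the dead arcs, `c`: class of `g`, `B`: known pairs, `NR`:
refuted pairs. -/
def chk (t : Tb) (D c : ℕ) : ℕ → List ℕ → List ℕ → ℕ → Option ℕ
  | 0, _, _, _ => none
  | n + 1, B, NR, s =>
    match s % 8 with
    | 0 => -- dead arc: mask
      if (ap B (s / 8 % 65536)) % 4 == 0 &&
          D.testBit (idx t c ((ap B (s / 8 % 65536)) % 256) ((ap B (s / 8 % 65536)) / 256)) then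
        some (s / 524288) else none
    | 1 => -- refuted pair: mask index
      if NR.getD (s / 524288 % 256) 65536 == ap B (s / 8 % 65536) then some (s / 134217728) else none
    | op => match kids t D c B op (s / 8) with
      | none => none
      | some (cs, s') => chkAll (chk t D c n) B NR cs s'

/-- `(c, d, r)` is an arc with a value in the ranges, after a shift (witness `w`) -/
def isSS (t : Tb) (c d r w : ℕ) : Bool :=
  (r ^^^ apu t (w % 4) d ^^^ apu t (w / 4 % 4) c ^^^ apu t (w % 4) (w / 4 % 4)) ==
    apu t (w / 16 % 4) (w / 64)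

/-- the start of the list of known pairs -/
def base (t : Tb) (c : ℕ) : List ℕ := [2 + 256 * apu t 2 c, 1 + 256 * apu t 1 c, c]

/-- add an arc -/
def setB (t : Tb) (D c d r : ℕ) : ℕ := D ||| (1 <<< idx t c d r)

/-- check an automorphism -/
def autOK (t : Tb) (a : List ℕ × List ℕ) : Bool :=
  a.1.getD 0 0 == 1 && a.1.getD 1 0 == 2 && a.1.length == t.N && a.2.length == t.RD &&
  (List.range t.N).all (fun i => a.1.getD i 0 < 2 ^ t.N && ap a.1 (a.1.getD i 0) == 2 ^ i &&
    ap t.Yc (a.1.getD i 0) == ap a.2 (t.Yc.getD i 0) &&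
    ap t.Zc (a.1.getD i 0) == ap a.2 (t.Zc.getD i 0)) &&
  (List.range t.RD).all (fun i => a.2.getD i 0 < 2 ^ t.RD && ap a.2 (a.2.getD i 0) == 2 ^ i)

/-- `r` part of the normal form of an arc -/
def nfr (t : Tb) (c d r : ℕ) : ℕ := r ^^^ apu t (c % 4) d ^^^ apu t (d % 4) (c ^^^ (c % 4))

/-- process the items: proofs of arcs and images under automorphisms -/
def run (t : Tb) : List (List ℕ) → ℕ → Option ℕ
  | [], D => some D
  | it :: its, D => match it with
    | [c, d, r, w, p] =>
      if c % 4 == 0 && d % 4 == 0 && c < 2 ^ t.N && d < 2 ^ t.N && r < 2 ^ t.RD &&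
          isSS t c d r w && (chk t D c 30 ((d + 256 * r) :: base t c) [] p).isSome then
        run t its (setB t (setB t D c d r) d c r)
      else none
    | [g, c, d, r] =>
      if D.testBit (idx t c d r) && D.testBit (idx t d c r) && c % 4 == 0 && d % 4 == 0 &&
          c < 2 ^ t.N && d < 2 ^ t.N && r < 2 ^ t.RD && g < t.aut.length then
        let a := t.aut.getD g ([], [])
        let c1 := ap a.1 c
        let d1 := ap a.1 d
        let r1 := nfr t c1 d1 (ap a.2 r)
        let c2 := c1 ^^^ (c1 % 4)
        let d2 := d1 ^^^ (d1 % 4)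
        run t its (setB t (setB t D c2 d2 r1) d2 c2 r1)
      else none
    | _ => none

/-- check the table -/
def tbOK (t : Tb) : Bool :=
  t.Yc.getD 0 1 == 0 && t.Zc.getD 1 1 == 0 && t.Yc.getD 1 0 == t.Zc.getD 0 0 &&
  2 ≤ t.N && t.N ≤ 8 && 1 ≤ t.RD && t.RD ≤ 8 &&
  t.Yc.length == t.N && t.Zc.length == t.N && t.aut.all (autOK t) &&
  (List.range 4).all (fun j => (List.range (2 ^ t.N)).all (fun m =>
    (apu t j m != 0 || (t.ker.getD j []).contains m) &&
    (j == 0 || (t.rng.getD j 0).testBit (apu t j m)) && apu t j m < 2 ^ t.RD)) &&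
  (List.range 4).all (fun j => (t.ker.getD j []).all (fun m => m < 2 ^ t.N))

/-- the whole certificate: class `c` has no elements -/
def certOK (t : Tb) (items : List (List ℕ)) (c p : ℕ) : Bool :=
  tbOK t && c < 2 ^ t.N && c % 4 == 0 &&
    match run t items 0 with
    | none => false
    | some D => (chk t D c 30 (base t c) [] p).isSome

end Pool.Agent.R4
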