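import Pool.Agent.R4.Kids

/-!
# A checker for link chases in a plane whose first element has eight annihilators (helper14)

Elements are masks `< 4096` over generators; the generators `0, .., 5` are `y, a, b, z, p, q`,
`V_y = {0, .., 7}`.  A fact `u + 4096 v` says that `u` and `v` commute, a relation `v + 4096 w` says
`Y v + Z w = 0`.
-/

set_option autoImplicit false

namespace Pool.Agent.R4.E8

/-- a state: number of generators, facts, relations -/
structure St where
  n : ℕ
  F : List ℕ
  R : List ℕ

/-- read `k` digits -/
def rd : ℕ → ℕ → List ℕ × ℕ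
  | 0, s => ([], s)
  | k + 1, s => let p := rd k (s / 4096); (s % 4096 :: p.1, p.2)

/-- read a list -/
def rl (s : ℕ) : List ℕ × ℕ := rd (s % 4096) (s / 4096)

/-- first element of the oriented fact -/
def fu (F : List ℕ) (i : ℕ) : ℕ :=
  if i % 2 = 0 then F.getD (i / 2) 0 % 4096 else F.getD (i / 2) 0 / 4096

/-- second element of the oriented fact -/
def fv (F : List ℕ) (i : ℕ) : ℕ :=
  if i % 2 = 0 then F.getD (i / 2) 0 / 4096 else F.getD (i / 2) 0 % 4096

/-- sum of facts -/
def sL (F : List ℕ) (g : ℕ) : List ℕ → ℕ → ℕ → ℕ → Option (ℕ × ℕ × ℕ)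
  | [], h, v, w => some (h, v, w)
  | i :: L, h, v, w =>
    match fu F i ^^^ g with
    | 0 => sL F g L (h ^^^ fv F i) v w
    | 1 => sL F g L (h ^^^ fv F i) (v ^^^ fv F i) w
    | 8 => sL F g L (h ^^^ fv F i) v (w ^^^ fv F i)
    | 9 => sL F g L (h ^^^ fv F i) (v ^^^ fv F i) (w ^^^ fv F i)
    | _ => none

/-- sum of facts as relations -/
def sR (F : List ℕ) : List ℕ → ℕ → ℕ → Option (ℕ × ℕ)
  | [], v, w => some (v, w)
  | i :: L, v, w =>
    match fu F i with
    | 1 => sR F L (v ^^^ fv F i) w
    | 8 => sR F L v (w ^^^ fv F i)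
    | 9 => sR F L (v ^^^ fv F i) (w ^^^ fv F i)
    | _ => none

/-- sum of relations -/
def sX (R : List ℕ) : List ℕ → ℕ → ℕ → ℕ × ℕ
  | [], v, w => (v, w)
  | i :: L, v, w => sX R L (v ^^^ R.getD i 0 % 4096) (w ^^^ R.getD i 0 / 4096)

/-- read three lists and sum; result and rest of the stream -/
def sm (st : St) (g s : ℕ) : Option ((ℕ × ℕ × ℕ) × ℕ) :=
  let L := rl s
  let R := rl L.2
  let X := rl R.2
  match sL st.F g L.1 0 0 0 with
  | none => none
  | some a => match sR st.F R.1 a.2.1 a.2.2 with
    | none => none
    | some b => some ((a.1, sX st.R X.1 b.1 b.2), X.2)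

/-- read two lists and sum; result and rest of the stream -/
def sr (st : St) (s : ℕ) : Option ((ℕ × ℕ) × ℕ) :=
  let R := rl s
  let X := rl R.2
  match sR st.F R.1 0 0 with
  | none => none
  | some b => some (sX st.R X.1 b.1 b.2, X.2)

/-- substitute -/
def sb (t v d m : ℕ) : ℕ := if m.testBit t then m ^^^ v ^^^ d else m

/-- substitute in a code -/
def sbc (t v d c : ℕ) : ℕ := sb t v d (c % 4096) + 4096 * sb t v d (c / 4096)

/-- one instruction -/
def step (st : St) (s : ℕ) : Option (List St × ℕ) :=
  match s % 4096 with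
  | 0 => -- self
    let x := s / 4096 % 4096
    if x < 2 ^ st.n then some ([⟨st.n, (x + 4096 * x) :: st.F, st.R⟩], s / 16777216) else none
  | 1 => -- fact
    let g := s / 4096 % 4096
    match sm st g (s / 16777216) with
    | none => none
    | some (a, s') => if g < 2 ^ st.n && a.2.1 == 0 && a.2.2 == 0 then
        some ([⟨st.n, (g + 4096 * a.1) :: st.F, st.R⟩], s') else none
  | 2 => -- relation
    let g := s / 4096 % 4096
    match sm st g (s / 16777216) with
    | none => none
    | some (a, s') => if g < 2 ^ st.n && a.1 == 0 then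
        some ([⟨st.n, st.F, (a.2.1 + 4096 * a.2.2) :: st.R⟩], s') else none
  | 3 => -- branching
    let g := s / 4096 % 4096
    match sm st g (s / 16777216) with
    | none => none
    | some (a, s') =>
      let K := rl s'
      let D := rl K.2
      if g < 2 ^ st.n && a.2.2 == 0 && K.1.all (fun i => fu st.F i == g && fv st.F i < 8) &&
          D.1.all (· < 8) && (List.range 8).all (fun d => D.1.any (fun d' =>
            (spanL (K.1.map (fv st.F))).contains (d ^^^ d'))) then
        some (D.1.map (fun d => ⟨st.n, (g + 4096 * (a.1 ^^^ a.2.1 ^^^ d)) :: st.F, st.R⟩), D.2)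
      else none
  | 4 => -- link
    let g := s / 4096 % 4096
    let pz := s / 16777216 % 4096
    match sm st g (s / 68719476736) with
    | none => none
    | some (a, s') =>
      if g < 2 ^ st.n && st.n < 12 &&
          ((pz == 8 && a.2.1 == 0) || (pz == 9 && a.2.1 == a.2.2)) then
        some ([⟨st.n + 1, ((g ^^^ pz) + 4096 * 2 ^ st.n) :: (pz + 4096 * (a.2.2 ^^^ 2 ^ st.n)) ::
          (g + 4096 * (a.1 ^^^ 2 ^ st.n)) :: st.F, st.R⟩], s')
      else none
  | 5 => -- collapse
    let i := s / 4096 % 4096
    let v := fv st.F i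
    if fu st.F i == 1 && 64 ≤ v then
      some ((List.range 8).map (fun d => ⟨st.n, st.F.map (sbc v.log2 v d),
        st.R.map (sbc v.log2 v d)⟩), s / 16777216)
    else none
  | 6 => -- closed: core
    let i := s / 4096 % 4096
    if fu st.F i == 1 && 8 ≤ fv st.F i && fv st.F i < 64 then some ([], s / 16777216) else none
  | 7 => -- closed: a b = 0
    let i := s / 4096 % 4096
    if fu st.F i == 2 && fv st.F i == 4 then some ([], s / 16777216) else none
  | 8 => -- closed: y p or y q in z V_y
    match sr st (s / 4096) with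
    | none => none
    | some (a, s') => if (a.1 == 16 || a.1 == 32) && a.2 < 8 then some ([], s') else none
  | 9 => -- closed: z a and z b in Q_y
    match sr st (s / 4096) with
    | none => none
    | some (a, s') => match sr st s' with
      | none => none
      | some (b, s'') => if a.2 == 2 && b.2 == 4 then some ([], s'') else none
  | _ => none

/-- run the instructions on a stack of states -/
def run : ℕ → List St → ℕ → Bool
  | _, [], _ => true
  | 0, _ :: _, _ => false
  | k + 1, st :: l, s => match step st s with
    | none => false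
    | some (cs, s') => run k (cs ++ l) s'

end Pool.Agent.R4.E8
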