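import Pool.Agent.R4.Chk8S

/-!
# From certificates to Case 2 (helper14)
-/

set_option autoImplicit false
set_option linter.unusedSectionVars false
set_option linter.unusedVariables false

namespace Pool.Agent.R4.E8

open Pool.Agent.Helper58.PLine (QData)
open Pool.Agent.ETCP
open Pool.Agent.ETCI (In8)

/-- equality of states -/
def St.eqb (a b : St) : Bool := a.n == b.n && a.F == b.F && a.R == b.R

/-- equality of lists of states -/
def eql : List St → List St → Bool
  | [], [] => true
  | a :: l, b :: m => a.eqb b && eql l m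
  | _, _ => false

/-- run `k` instructions and compare the remaining stack -/
def part : ℕ → List St → ℕ → List St → Bool
  | 0, l, _, m => eql l m
  | _ + 1, [], _, m => eql [] m
  | k + 1, st :: l, s, m => match step st s with
    | none => false
    | some (cs, s') => part k (cs ++ l) s' m

/-- no state of the list has a model -/
def Dead (l : List St) : Prop :=
  ∀ (V Q : Type) [AddCommGroup V] [Module (ZMod 2) V] (S : QData V Q) (y z : V) (R : Type)
    [AddCommGroup R] [Module (ZMod 2) R] (P : Plane S y z R), ∀ st ∈ l, Ok st →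
    ∀ h, Base P h → Md P h st → False

theorem St.eqb_eq {a b : St} (h : a.eqb b = true) : a = b := by
  obtain ⟨n, F, R⟩ := a
  obtain ⟨n', F', R'⟩ := b
  simp only [St.eqb, Bool.and_eq_true, beq_iff_eq] at h
  obtain ⟨⟨rfl, rfl⟩, rfl⟩ := h
  rfl

theorem eql_eq : ∀ {l m : List St}, eql l m = true → l = m
  | [], [], _ => rfl
  | [], _ :: _, h => by simp [eql] at h
  | _ :: _, [], h => by simp [eql] at h
  | a :: l, b :: m, h => by
    simp only [eql, Bool.and_eq_true] at h
    rw [St.eqb_eq h.1, eql_eq h.2]

theorem dead_nil : Dead [] := by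
  intro V Q _ _ S y z R _ _ P st hst
  simp at hst

/-- a part of the certificate -/
theorem part_sound : ∀ (k : ℕ) (l : List St) (s : ℕ) (m : List St), part k l s m = true →
    Dead m → Dead l
  | 0, l, s, m, h, hm => by
    rw [eql_eq (l := l) (m := m) h]
    exact hm
  | k + 1, [], s, m, h, hm => dead_nil
  | k + 1, st0 :: l, s, m, h, hm => by
    simp only [part] at h
    split at h
    · exact absurd h (by simp)
    rename_i cs s' e
    have ih := part_sound k _ _ _ h hm
    intro V Q _ _ S y z R _ _ P st hst O hh B M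
    rcases List.mem_cons.1 hst with rfl | hst
    · obtain ⟨c, hc, Oc, h', B', M'⟩ := step_sound B M O e
      exact ih V Q S y z R P c (List.mem_append_left _ hc) Oc h' B' M'
    · exact ih V Q S y z R P st (List.mem_append_right _ hst) O hh B M

/-- a complete certificate -/
theorem run_dead {k : ℕ} {l : List St} {s : ℕ} (h : run k l s = true) : Dead l := by
  intro V Q _ _ S y z R _ _ P st hst O hh B M
  exact run_sound k l s h st hst O hh B M

theorem dead_append {l m : List St} (hl : Dead l) (hm : Dead m) : Dead (l ++ m) := by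
  intro V Q _ _ S y z R _ _ P st hst
  rcases List.mem_append.1 hst with h | h
  · exact hl V Q S y z R P st h
  · exact hm V Q S y z R P st h

theorem dead_cons {a : St} {m : List St} (hl : Dead [a]) (hm : Dead m) : Dead (a :: m) :=
  dead_append hl hm

/-- the first state: generators `y, a, b, z, p, q, s` -/
def st0 : St := ⟨7, [1 + 4096 * 2, 1 + 4096 * 4, 8 + 4096 * 16, 9 + 4096 * 32, 64 + 4096 * 2,
  64 + 4096 * 4, 3 + 4096 * 68, 5 + 4096 * 66], [8 + 4096 * 1]⟩

section
variable {V Q : Type} [AddCommGroup V] [Module (ZMod 2) V] {S : QData V Q}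

/-- the generators -/
def gen (y a b z p q s : V) : ℕ → V
  | 0 => y
  | 1 => a
  | 2 => b
  | 3 => z
  | 4 => p
  | 5 => q
  | 6 => s
  | _ => 0

variable {y a b z p q s : V}

theorem ev_gen (m : ℕ) : ev (gen y a b z p q s) m = cond (m.testBit 0) y 0 +
    cond (m.testBit 1) a 0 + cond (m.testBit 2) b 0 + cond (m.testBit 3) z 0 +
    cond (m.testBit 4) p 0 + cond (m.testBit 5) q 0 + cond (m.testBit 6) s 0 := by
  unfold ev bsum
  simp only [Finset.sum_range_succ, Finset.sum_range_zero, gen, zero_add, ite_self, add_zero]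
  cases m.testBit 0 <;> cases m.testBit 1 <;> cases m.testBit 2 <;> cases m.testBit 3 <;>
    cases m.testBit 4 <;> cases m.testBit 5 <;> cases m.testBit 6 <;> rfl

theorem tb : ∀ m < 64, m.testBit 6 = false ∧
    (8 ≤ m → (m.testBit 3 || m.testBit 4 || m.testBit 5) = true) := by
  decide +kernel

theorem tb8 : ∀ m < 8, m.testBit 3 = false ∧ m.testBit 4 = false ∧ m.testBit 5 = false ∧
    m.testBit 6 = false := by
  decide +kernel

theorem in8_ev : ∀ d < 8, In8 y a b (ev (gen y a b z p q s) d) := by
  intro d hd
  rw [ev_gen]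
  obtain ⟨t1, t2, t3, t4⟩ := tb8 d hd
  rw [t1, t2, t3, t4]
  unfold In8
  cases d.testBit 0 <;> cases d.testBit 1 <;> cases d.testBit 2 <;>
    simp only [cond_false, cond_true, add_zero, zero_add, add_comm y b, add_comm y a,
      add_comm y (a + b), true_or, or_true]
  have e : y + a + b = a + b + y := by abel
  rw [add_comm a y, e]
  simp only [true_or, or_true]

theorem e_1 : ev (gen y a b z p q s) 1 = y := by
  rw [ev_gen]; simp [Nat.testBit]
theorem e_2 : ev (gen y a b z p q s) 2 = a := by
  rw [ev_gen]; simp [Nat.testBit]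
theorem e_4 : ev (gen y a b z p q s) 4 = b := by
  rw [ev_gen]; simp [Nat.testBit]
theorem e_8 : ev (gen y a b z p q s) 8 = z := by
  rw [ev_gen]; simp [Nat.testBit]
theorem e_16 : ev (gen y a b z p q s) 16 = p := by
  rw [ev_gen]; simp [Nat.testBit]
theorem e_32 : ev (gen y a b z p q s) 32 = q := by
  rw [ev_gen]; simp [Nat.testBit]
theorem e_64 : ev (gen y a b z p q s) 64 = s := by
  rw [ev_gen]; simp [Nat.testBit]

theorem base_of {R : Type} [AddCommGroup R] [Module (ZMod 2) R] (P : Plane S y z R)
    (X : Ctx8 S y a b z p q s) : Base P (gen y a b z p q s) where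
  he := X.he
  h0 := e_1
  h3 := e_8
  D1 := by
    intro x hx
    rcases X.hD x hx with rfl | rfl | rfl | rfl | rfl | rfl | rfl | rfl
    · exact ⟨0, by norm_num, by rw [ev_gen]; simp [Nat.testBit]⟩
    · exact ⟨1, by norm_num, by rw [ev_gen]; simp [Nat.testBit]⟩
    · exact ⟨2, by norm_num, by rw [ev_gen]; simp [Nat.testBit]⟩
    · exact ⟨3, by norm_num, by rw [ev_gen]; simp [Nat.testBit, add_comm]⟩
    · exact ⟨4, by norm_num, by rw [ev_gen]; simp [Nat.testBit]⟩
    · exact ⟨5, by norm_num, by rw [ev_gen]; simp [Nat.testBit, add_comm]⟩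
    · exact ⟨6, by norm_num, by rw [ev_gen]; simp [Nat.testBit]⟩
    · exact ⟨7, by norm_num, by rw [ev_gen]; simp [Nat.testBit]; abel⟩
  core := by
    intro m h1 h2 hc
    obtain ⟨t6, t⟩ := tb m h2
    have ha : C S y (cond (m.testBit 0) y 0 + cond (m.testBit 1) a 0 +
        cond (m.testBit 2) b 0) := by
      refine ((?_ : C S y _).add ?_).add ?_
      · cases m.testBit 0
        · exact C.zero _
        · exact C.self X.he _
      · cases m.testBit 1
        · exact C.zero _
        · exact X.cya
      · cases m.testBit 2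
        · exact C.zero _
        · exact X.cyb
    refine X.core _ _ _ (t h1) ?_
    rw [ev_gen, t6, cond_false, add_zero] at hc
    refine (hc.add ha).of_eq rfl ?_
    exact f2 (by abel_nf; simp only [ch2, ch3, ch4, add_zero])
  nab := by
    rw [e_2, e_4]
    exact X.nab
  hp := by
    intro d hd
    rw [e_16]
    exact X.hp _ (in8_ev d hd)
  hq := by
    intro d hd
    rw [e_32]
    exact X.hq _ (in8_ev d hd)
  nz := by
    rw [e_2, e_4]
    exact X.nz

theorem md_of {R : Type} [AddCommGroup R] [Module (ZMod 2) R] (P : Plane S y z R)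
    (X : Ctx8 S y a b z p q s) : Md P (gen y a b z p q s) st0 where
  f := by
    have e9 : ev (gen y a b z p q s) 9 = y + z := by
      rw [ev_gen]; simp [Nat.testBit]
    have e3 : ev (gen y a b z p q s) 3 = y + a := by
      rw [ev_gen]; simp [Nat.testBit]
    have e5 : ev (gen y a b z p q s) 5 = y + b := by
      rw [ev_gen]; simp [Nat.testBit]
    have e68 : ev (gen y a b z p q s) 68 = s + b := by
      rw [ev_gen]; simp [Nat.testBit, add_comm]
    have e66 : ev (gen y a b z p q s) 66 = s + a := by
      rw [ev_gen]; simp [Nat.testBit, add_comm]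
    intro c hc
    simp only [st0, List.mem_cons, List.not_mem_nil, or_false] at hc
    rcases hc with rfl | rfl | rfl | rfl | rfl | rfl | rfl | rfl
    · show C S (ev _ 1) (ev _ 2)
      rw [e_1, e_2]; exact X.cya
    · show C S (ev _ 1) (ev _ 4)
      rw [e_1, e_4]; exact X.cyb
    · show C S (ev _ 8) (ev _ 16)
      rw [e_8, e_16]; exact X.czp
    · show C S (ev _ 9) (ev _ 32)
      rw [e9, e_32]; exact X.cyzq
    · show C S (ev _ 64) (ev _ 2)
      rw [e_64, e_2]; exact X.csa
    · show C S (ev _ 64) (ev _ 4)
      rw [e_64, e_4]; exact X.csb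
    · show C S (ev _ 3) (ev _ 68)
      rw [e3, e68]; exact X.cyas
    · show C S (ev _ 5) (ev _ 66)
      rw [e5, e66]; exact X.cybs
  r := by
    intro c hc
    simp only [st0, List.mem_cons, List.not_mem_nil, or_false] at hc
    subst hc
    show P.Y (ev _ 8) + P.Z (ev _ 1) = 0
    rw [e_1, e_8, (P.yz z y).2 (S.symm y z), ZModModule.add_self]

end

theorem ok_st0 : Ok st0 where
  n12 := by decide
  n6 := by decide
  f := by unfold Lt; decide
  r := by unfold Lt; decide

/-- **the certificate proves Case 2** -/
theorem case2_of_dead (h : Dead [st0]) : Stmt_Case2 := by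
  intro V Q _ _ _ S he hn _ h8 y a b _ hD ha hb hab z₀ hz₀
  obtain ⟨z, p, q, s, X⟩ := exists_ctx8 he hn h8 hD ha hb hab hz₀
  obtain ⟨R, _, _, -, ⟨P⟩⟩ := plane_ex V Q S y z he
  exact h V Q S y z R P st0 List.mem_cons_self ok_st0 _ (base_of P X) (md_of P X)

end Pool.Agent.R4.E8
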