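import Pool.Agent.R4.Order256
import Pool.Agent.REG10.SDefs

/-!
# The context of Case 2 (helper82; mathematics helper35)

`V_y = <y, a, b>` has order 8, is not commutative, all its products are values of `q (y, .)`, and
`y` is not regular.  We produce `z, p, q, s` as in `Ctx8`.
-/

set_option autoImplicit false
set_option linter.unusedSectionVars false
set_option linter.unusedSimpArgs false

namespace Pool.Agent.R4

open Pool.Agent.Helper58.PLine (QData)
open Pool.Agent.ETCP
open Pool.Agent.REG10 (InQ SRg)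
open Pool.Agent.ETCI (In8)

section
variable {V Q : Type} [AddCommGroup V] [Module (ZMod 2) V]

/-- the start of the chase for Case 2 -/
structure Ctx8 (S : QData V Q) (y a b z p q s : V) : Prop where
  he : S.e = 0
  cya : C S y a
  cyb : C S y b
  nab : ¬ C S a b
  hD : ∀ x, C S y x → In8 y a b x
  czp : C S z p
  cyzq : C S (y + z) q
  hp : ∀ d, In8 y a b d → S.q y p ≠ S.q z d
  hq : ∀ d, In8 y a b d → S.q y q ≠ S.q z d
  nz : ¬ ((∃ v, S.q y v = S.q z a) ∧ ∃ v, S.q y v = S.q z b)
  csa : C S s a
  csb : C S s b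
  cyas : C S (y + a) (s + b)
  cybs : C S (y + b) (s + a)
  hs : S.q y s = S.q a b
  core : ∀ e f g : Bool, (e || f || g) = true →
    ¬ C S y (cond e z 0 + cond f p 0 + cond g q 0)

variable {S : QData V Q} {y a b : V}

theorem in8_y : In8 y a b y := Or.inr (Or.inl rfl)
theorem in8_0 : In8 y a b 0 := Or.inl rfl

/-- elements of `D` commute with `y` -/
theorem c_of_in8 (he : S.e = 0) (ha : C S y a) (hb : C S y b) {x : V} (h : In8 y a b x) :
    C S y x := by
  have hy := C.self he y
  rcases h with rfl | rfl | rfl | rfl | rfl | rfl | rfl | rfl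
  · exact C.zero y
  · exact hy
  · exact ha
  · exact ha.add hy
  · exact hb
  · exact hb.add hy
  · exact ha.add hb
  · exact (ha.add hb).add hy

theorem cardD [Finite V] (hD : ∀ x, C S y x → In8 y a b x) :
    Nat.card {x // C S y x} ≤ 8 := by
  classical
  let g : Fin 8 → V := fun i => match i with
    | 0 => 0 | 1 => y | 2 => a | 3 => a + y | 4 => b | 5 => b + y | 6 => a + b | 7 => a + b + y
  have hg : ∀ x : {x // C S y x}, ∃ i, g i = x.1 := by
    rintro ⟨x, hx⟩
    rcases hD x hx with h | h | h | h | h | h | h | h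
    · exact ⟨0, h.symm⟩
    · exact ⟨1, h.symm⟩
    · exact ⟨2, h.symm⟩
    · exact ⟨3, h.symm⟩
    · exact ⟨4, h.symm⟩
    · exact ⟨5, h.symm⟩
    · exact ⟨6, h.symm⟩
    · exact ⟨7, h.symm⟩
  choose f hf using hg
  have hinj : Function.Injective f := fun u v h => Subtype.ext (by rw [← hf u, ← hf v, h])
  have := Nat.card_le_card_of_injective f hinj
  simpa using this

/-- the counting argument -/
theorem count8 [Finite V] {z r : V}
    (hr : ∀ v, C S y v → (C S r v ↔ C S z v))
    (h8 : Nat.card {v // C S y v} ≤ Nat.card {v // C S r v})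
    (hall : ∀ p, C S r p → ∃ d, C S y d ∧ S.q y p = S.q z d) {d : V} (hd : C S y d) :
    ∃ p, C S r p ∧ S.q y p = S.q z d := by
  classical
  by_contra hno
  push Not at hno
  choose f hf1 hf2 using hall
  let W := S.ann r
  let D := S.ann y
  let K := S.ann y ⊓ S.ann z
  have hKW : K ≤ W := fun v hv => (hr v hv.1).2 hv.2
  have hKD : K ≤ D := fun v hv => hv.1
  have hWf : Finite W := inferInstance
  let KW : Submodule (ZMod 2) W := K.comap W.subtype
  let KD : Submodule (ZMod 2) D := K.comap D.subtype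
  let F : Option (W ⧸ KW) → D ⧸ KD := fun o =>
    match o with
    | none => KD.mkQ ⟨d, hd⟩
    | some w => KD.mkQ ⟨f (Quotient.out w).1 (Quotient.out w).2, hf1 _ _⟩
  have key : ∀ u v : D, KD.mkQ u = KD.mkQ v → C S z (u.1 + v.1) := by
    intro u v h
    have h1 : u - v ∈ KD := (Submodule.Quotient.eq KD).1 h
    have h2 : ((u - v : D) : V) ∈ K := h1
    have h3 : C S z (u.1 - v.1) := h2.2
    exact h3.of_eq rfl (by
      rw [sub_eq_add_neg]
      congr 1
      exact (eo (by abel_nf <;> simp only [ch2, ch3, ch4, add_zero, zero_add, neg_add_cancel])))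
  have hF : Function.Injective F := by
    intro u v h
    cases u with
    | none =>
      cases v with
      | none => rfl
      | some v =>
        exfalso
        have h1 := key _ _ h
        exact hno _ (Quotient.out v).2 (by rw [hf2 _ (Quotient.out v).2]; exact (q_eq h1).symm)
    | some u =>
      cases v with
      | none =>
        exfalso
        have h1 := key _ _ h
        exact hno _ (Quotient.out u).2 (by rw [hf2 _ (Quotient.out u).2]; exact q_eq h1)
      | some v =>
        have h1 := key _ _ h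
        have h2 : S.q y (Quotient.out u).1 = S.q y (Quotient.out v).1 := by
          rw [hf2 _ (Quotient.out u).2, hf2 _ (Quotient.out v).2]
          exact q_eq h1
        have h3 : C S y ((Quotient.out u).1 + (Quotient.out v).1) := q_eq_iff.1 h2
        have h4 : C S r ((Quotient.out u).1 + (Quotient.out v).1) :=
          C.add (Quotient.out u).2 (Quotient.out v).2
        have h5 : C S z ((Quotient.out u).1 + (Quotient.out v).1) := (hr _ h3).1 h4
        have h6 : (Quotient.out u - Quotient.out v : W) ∈ KW := by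
          show ((Quotient.out u - Quotient.out v : W) : V) ∈ K
          have h7 : ((Quotient.out u - Quotient.out v : W) : V) =
              (Quotient.out u).1 + (Quotient.out v).1 := by
            show (Quotient.out u).1 - (Quotient.out v).1 = _
            rw [sub_eq_add_neg]
            congr 1
            exact (eo (by abel_nf <;> simp only [ch2, ch3, ch4, add_zero, zero_add, neg_add_cancel]))
          rw [h7]
          exact ⟨h3, h5⟩
        have h8 : (Submodule.Quotient.mk (Quotient.out u) : W ⧸ KW) =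
            Submodule.Quotient.mk (Quotient.out v) := (Submodule.Quotient.eq KW).2 h6
        have h9 : u = v := by
          have e1 : (Submodule.Quotient.mk (Quotient.out u) : W ⧸ KW) = u := Quotient.out_eq u
          have e2 : (Submodule.Quotient.mk (Quotient.out v) : W ⧸ KW) = v := Quotient.out_eq v
          rw [← e1, ← e2, h8]
        rw [h9]
  have c1 : Nat.card (W ⧸ KW) + 1 ≤ Nat.card (D ⧸ KD) := by
    have := Nat.card_le_card_of_injective F hF
    rwa [Finite.card_option] at this
  have c2 : Nat.card W = Nat.card KW * Nat.card (W ⧸ KW) :=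
    Submodule.card_eq_card_quotient_mul_card KW
  have c3 : Nat.card D = Nat.card KD * Nat.card (D ⧸ KD) :=
    Submodule.card_eq_card_quotient_mul_card KD
  have c4 : Nat.card KW = Nat.card K :=
    Nat.card_congr (Submodule.comapSubtypeEquivOfLe hKW).toEquiv
  have c5 : Nat.card KD = Nat.card K :=
    Nat.card_congr (Submodule.comapSubtypeEquivOfLe hKD).toEquiv
  have c6 : Nat.card D ≤ Nat.card W := h8
  have c7 : 0 < Nat.card K := Nat.card_pos
  rw [c2, c3, c4, c5] at c6
  have := Nat.le_of_mul_le_mul_left c6 c7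
  omega

/-- `s` with `y s = a b`, `a s = b s = 0` -/
theorem exists_s (he : S.e = 0) (hD : ∀ x, C S y x → In8 y a b x) (ha : C S y a) (hb : C S y b)
    {z : V} (hz : S.q y z = S.q a b) :
    ∃ s, C S s a ∧ C S s b ∧ S.q y s = S.q a b := by
  have saa := C.self he a
  have sbb := C.self he b
  obtain ⟨t, h1, h2, -⟩ := link hz
  -- `u = b + t`
  have hu1 : C S a (b + t) := h2
  have hu2 : S.q y (b + t) = S.q b a := by
    rw [S.symm b a, ← hz]
    exact q_eq ((hb.add h1).of_eq rfl (eo (by abel_nf <;> simp only [ch2, ch3, ch4, add_zero, zero_add])))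
  obtain ⟨t', h3, h4, -⟩ := link hu2
  have hu' : S.q y (a + t') = S.q a b := by
    rw [S.symm a b, ← hu2]
    exact q_eq ((ha.add h3).of_eq rfl (eo (by abel_nf <;> simp only [ch2, ch3, ch4, add_zero, zero_add])))
  have hd := hD _ h3
  rcases ETCI.val8 he ha hb (x := a) (y := b + t + t') (Or.inr (Or.inr (Or.inl rfl))) hd with h5 | h5
  · refine ⟨a + t', ?_, h4.symm, hu'⟩
    exact (saa.add (h5.add hu1)).symm.of_eq
      (eo (by abel_nf <;> simp only [ch2, ch3, ch4, add_zero, zero_add])) rfl
  · have h6 : C S a (b + t + t' + b) := q_eq_iff.1 h5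
    refine ⟨a + t' + b, ?_, (h4.add sbb).symm, ?_⟩
    · exact (saa.add (h6.add hu1)).symm.of_eq
        (eo (by abel_nf <;> simp only [ch2, ch3, ch4, add_zero, zero_add])) rfl
    · rw [← hu']
      exact q_eq (hb.of_eq rfl (eo (by abel_nf <;> simp only [ch2, ch3, ch4, add_zero, zero_add])))

/-- **the context exists** -/
theorem exists_ctx8 [Finite V] (he : S.e = 0) (hn : ¬ ∃ x, SRg S x)
    (h8 : ∀ x, x ≠ 0 → 8 ≤ Nat.card {v // C S x v})
    (hD : ∀ x, C S y x → In8 y a b x) (ha : C S y a) (hb : C S y b) (hab : ¬ C S a b)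
    {z₀ : V} (hz₀ : S.q y z₀ = S.q a b) : ∃ z p q s, Ctx8 S y a b z p q s := by
  obtain ⟨s, s1, s2, s3⟩ := exists_s he hD ha hb hz₀
  have hyy := C.self he y
  -- `z`
  have hy : ¬ SRg S y := fun h => hn ⟨y, h⟩
  unfold SRg at hy
  push Not at hy
  obtain ⟨w, z, hw, hwz⟩ := hy
  have nz : ¬ ((∃ v, S.q y v = S.q z a) ∧ ∃ v, S.q y v = S.q z b) := by
    rintro ⟨⟨v1, h1⟩, ⟨v2, h2⟩⟩
    apply hwz
    apply InQ.symm
    have i1 : InQ S y z a := ⟨v1, h1.symm⟩
    have i2 : InQ S y z b := ⟨v2, h2.symm⟩
    have i3 : InQ S y z y := InQ.symm (REG10.inq_x z)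
    rcases hD w hw with h | h | h | h | h | h | h | h
    · rw [h]; exact REG10.inq_zero z
    · rw [h]; exact i3
    · rw [h]; exact i1
    · rw [h]; exact i1.add i3
    · rw [h]; exact i2
    · rw [h]; exact i2.add i3
    · rw [h]; exact i1.add i2
    · rw [h]; exact (i1.add i2).add i3
  have prodD : ∀ x x', In8 y a b x → In8 y a b x' → ∃ v, S.q y v = S.q x x' := by
    intro x x' hx hx'
    rcases ETCI.val8 he ha hb hx hx' with h | h
    · exact ⟨0, by rw [show S.q x x' = S.z from h]; exact C.zero y⟩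
    · exact ⟨z₀, by rw [h, hz₀]⟩
  have hzD : ¬ C S y z := fun h => nz
    ⟨prodD z a (hD z h) (Or.inr (Or.inr (Or.inl rfl))),
     prodD z b (hD z h) (Or.inr (Or.inr (Or.inr (Or.inr (Or.inl rfl)))))⟩
  have hz0 : z ≠ 0 := by
    rintro rfl
    exact hzD (C.zero y)
  have hyz0 : y + z ≠ 0 := by
    intro h
    apply hzD
    exact hyy.of_eq rfl (eo h)
  have hD8 := cardD hD
  -- `p` and `q`
  have ex : ∀ r, (∀ v, C S y v → (C S r v ↔ C S z v)) → r ≠ 0 →
      ∃ p, C S r p ∧ ∀ d, In8 y a b d → S.q y p ≠ S.q z d := by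
    intro r hr hr0
    by_contra hno
    push Not at hno
    have hall : ∀ p, C S r p → ∃ d, C S y d ∧ S.q y p = S.q z d := by
      intro p hp
      obtain ⟨d, h1, h2⟩ := hno p hp
      exact ⟨d, c_of_in8 he ha hb h1, h2⟩
    have hc := hD8.trans (h8 r hr0)
    apply nz
    obtain ⟨p1, -, h1⟩ := count8 hr hc hall ha
    obtain ⟨p2, -, h2⟩ := count8 hr hc hall hb
    exact ⟨⟨p1, h1⟩, ⟨p2, h2⟩⟩
  obtain ⟨p, hp1, hp2⟩ := ex z (fun v _ => Iff.rfl) hz0
  obtain ⟨q, hq1, hq2⟩ := ex (y + z) (fun v hv => by
    constructor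
    · intro h
      exact (h.add' hv).of_eq (eo (by abel_nf <;> simp only [ch2, ch3, ch4, add_zero, zero_add])) rfl
    · intro h
      exact hv.add' h) hyz0
  refine ⟨z, p, q, s, he, ha, hb, hab, hD, hp1, hq1, hp2, hq2, nz, s1, s2, ?_, ?_, s3, ?_⟩
  · -- `(y + a) (s + b) = 0`
    rw [← q_eq_iff]
    have e1 : S.q (y + a) s = S.q y s := q_eq' (s1.symm.of_eq (eo (by abel_nf <;> simp only [ch2, ch3, ch4, add_zero, zero_add])) rfl)
    have e2 : S.q (y + a) b = S.q a b := q_eq' (hb.of_eq (eo (by abel_nf <;> simp only [ch2, ch3, ch4, add_zero, zero_add])) rfl)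
    rw [e1, e2, s3]
  · rw [← q_eq_iff]
    have e1 : S.q (y + b) s = S.q y s := q_eq' (s2.symm.of_eq (eo (by abel_nf <;> simp only [ch2, ch3, ch4, add_zero, zero_add])) rfl)
    have e2 : S.q (y + b) a = S.q b a := q_eq' (ha.of_eq (eo (by abel_nf <;> simp only [ch2, ch3, ch4, add_zero, zero_add])) rfl)
    rw [e1, e2, s3, S.symm b a]
  · -- core
    have n1 : ¬ C S y p := fun h => hp2 0 in8_0 (by
      rw [show S.q y p = S.z from h]
      exact (show S.q z 0 = S.z from C.zero z).symm)
    have n1' : ¬ C S y q := fun h => hq2 0 in8_0 (by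
      rw [show S.q y q = S.z from h]
      exact (show S.q z 0 = S.z from C.zero z).symm)
    have n2 : ¬ C S y (z + p) := fun h => hp2 y in8_y (by
      rw [S.symm z y]
      exact (q_eq h).symm)
    have n2' : ¬ C S y (z + q) := fun h => hq2 y in8_y (by
      rw [S.symm z y]
      exact (q_eq h).symm)
    -- `y q = z q`
    have e1 : S.q y q = S.q z q := q_eq' hq1
    have n3 : ∀ c : V, C S z c → ¬ C S y (c + p + q) := by
      intro c hc h
      have hd := hD _ h
      apply hq2 _ hd
      rw [e1]
      apply q_eq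
      exact (hc.add hp1).of_eq rfl (eo (by abel_nf <;> simp only [ch2, ch3, ch4, add_zero, zero_add]))
    intro e f g hefg h
    cases e <;> cases f <;> cases g
    · exact absurd hefg (by decide)
    · exact n1' (h.of_eq rfl (by simp))
    · exact n1 (h.of_eq rfl (by simp))
    · exact n3 0 (C.zero z) (h.of_eq rfl (by simp))
    · exact hzD (h.of_eq rfl (by simp))
    · exact n2' (h.of_eq rfl (by simp))
    · exact n2 (h.of_eq rfl (by simp))
    · exact n3 z (C.self he z) (h.of_eq rfl (by simp))

end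

/-- Case 2 from the chase -/
theorem case2_of (H : ∀ (V Q : Type) [AddCommGroup V] [Module (ZMod 2) V] (S : QData V Q)
    (y a b z p q s : V), Ctx8 S y a b z p q s → False) : Stmt_Case2 := by
  intro V Q _ _ _ S he hn _ h8 y a b _ hD ha hb hab z₀ hz₀
  obtain ⟨z, p, q, s, h⟩ := exists_ctx8 he hn h8 hD ha hb hab hz₀
  exact H V Q S y a b z p q s h

end Pool.Agent.R4
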