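import Pool.Agent.R4.Defs

/-!
# The group of a plane (helper82)

For a plane `⟨y, z⟩` the pairs `(v, v')` with `q (y, v) = q (z, v')` form a subgroup `W` of
`V × V` (linkage), and `R = (V × V) / W` with `Y v = (v, 0)`, `Z v = (0, v)` represents the
quaternions `q (y, ·)`, `q (z, ·)` and `q (y + z, ·)`.
-/

set_option autoImplicit false

namespace Pool.Agent.R4

open Pool.Agent.Helper58.PLine (QData)
open Pool.Agent.ETCP

variable {V Q : Type} [AddCommGroup V] [Module (ZMod 2) V]

/-- `q (y, v) = q (z, v')` by a common slot -/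
theorem pl_iff (S : QData V Q) (y z v v' : V) :
    S.q y v = S.q z v' ↔ ∃ t, C S y (v + t) ∧ C S z (v' + t) ∧ C S (y + z) t := by
  constructor
  · intro h
    exact link h
  · rintro ⟨t, h1, h2, h3⟩
    rw [q_eq h1, q_eq h2, q_eq' h3]

/-- the pairs with `q (y, v) = q (z, v')` -/
def plW (S : QData V Q) (y z : V) : AddSubgroup (V × V) where
  carrier := {p | S.q y p.1 = S.q z p.2}
  zero_mem' := by
    show S.q y 0 = S.q z 0
    rw [S.q_zero, S.q_zero]
  add_mem' := by
    intro a b ha hb
    have ha' : S.q y a.1 = S.q z a.2 := ha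
    have hb' : S.q y b.1 = S.q z b.2 := hb
    obtain ⟨t, h1, h2, h3⟩ := (pl_iff S y z _ _).1 ha'
    obtain ⟨s, g1, g2, g3⟩ := (pl_iff S y z _ _).1 hb'
    show S.q y (a.1 + b.1) = S.q z (a.2 + b.2)
    refine (pl_iff S y z _ _).2 ⟨t + s, ?_, ?_, h3.add g3⟩
    · exact (h1.add g1).of_eq rfl (by abel)
    · exact (h2.add g2).of_eq rfl (by abel)
  neg_mem' := by
    intro a ha
    have h1 : -a = a := by
      ext <;> exact ZModModule.neg_eq_self _
    rw [h1]; exact ha

theorem mem_plW (S : QData V Q) (y z : V) (p : V × V) :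
    p ∈ plW S y z ↔ S.q y p.1 = S.q z p.2 := Iff.rfl

theorem ys_iff (S : QData V Q) (y z v v' : V) :
    S.q y (v + v') = S.q z v' ↔ S.q y v = S.q (y + z) v' := by
  have d1 : ∀ a b : V, a + (a + b) = b := fun a b => by
    rw [← add_assoc, ZModModule.add_self, zero_add]
  constructor
  · intro h
    obtain ⟨t, h1, h2, h3⟩ := link h
    have e1 : S.q y v = S.q y (v' + t) := q_eq (h1.of_eq rfl (add_assoc _ _ _))
    have e2 : S.q y (v' + t) = S.q (y + z) (v' + t) := q_eq' (h2.of_eq (d1 _ _).symm rfl)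
    have e3 : S.q (y + z) v' = S.q (y + z) (v' + t) := q_eq (h3.of_eq rfl (d1 _ _).symm)
    rw [e1, e2, e3]
  · intro h
    obtain ⟨t, h1, h2, h3⟩ := link h
    have h3' : C S z t := h3.of_eq (d1 _ _) rfl
    have e1 : S.q y (v + v') = S.q y (v' + t) :=
      q_eq (h1.of_eq rfl (by rw [add_assoc, d1]))
    have e2 : S.q y (v' + t) = S.q z (v' + t) := q_eq' h2
    have e3 : S.q z v' = S.q z (v' + t) := q_eq (h3'.of_eq rfl (d1 _ _).symm)
    rw [e1, e2, e3]

theorem plane_ex : Stmt_Plane := by
  intro V Q _ _ _ S y z he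
  let W := plW S y z
  let _ : Module (ZMod 2) ((V × V) ⧸ W) := AddCommGroup.zmodModule (by
    intro x
    obtain ⟨p, rfl⟩ := QuotientAddGroup.mk_surjective x
    rw [← QuotientAddGroup.mk_nsmul]
    have : (2 : ℕ) • p = 0 := by rw [two_nsmul]; exact ZModModule.add_self p
    rw [this]; rfl)
  let π : (V × V) →+ (V × V) ⧸ W := QuotientAddGroup.mk' W
  let Y : V →+ (V × V) ⧸ W := π.comp (AddMonoidHom.inl V V)
  let Z : V →+ (V × V) ⧸ W := π.comp (AddMonoidHom.inr V V)
  have key : ∀ p p' : V × V, π p = π p' ↔ S.q y (p.1 + p'.1) = S.q z (p.2 + p'.2) := by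
    intro p p'
    have h1 : -p = p := by ext <;> exact ZModModule.neg_eq_self _
    have h2 : π p = π p' ↔ -p + p' ∈ W := QuotientAddGroup.eq
    rw [h2, h1]; exact Iff.rfl
  have hY : ∀ v, Y v = π (v, 0) := fun v => rfl
  have hZ : ∀ v, Z v = π (0, v) := fun v => rfl
  refine ⟨(V × V) ⧸ W, inferInstance, inferInstance, inferInstance, ⟨?_⟩⟩
  exact
    { Y := Y.toZModLinearMap 2
      Z := Z.toZModLinearMap 2
      yz := by
        intro v v'
        show Y v = Z v' ↔ _
        rw [hY, hZ, key]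
        simp only [add_zero, zero_add]
      ys := by
        intro v v'
        show Y v = Y v' + Z v' ↔ _
        rw [hY, hY, hZ, ← map_add, key]
        simp only [Prod.mk_add_mk, add_zero, zero_add]
        exact ys_iff S y z v v'
      zs := by
        intro v v'
        show Z v = Y v' + Z v' ↔ _
        rw [hZ, hY, hZ, ← map_add, key]
        simp only [Prod.mk_add_mk, add_zero, zero_add]
        have := ys_iff S z y v v'
        rw [add_comm z y] at this
        rw [← this]
        exact eq_comm }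

end Pool.Agent.R4
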