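import Pool.Agent.R4.Chk8
import Pool.Agent.R4.Ctx8
import Pool.Agent.R4.PlaneEx

/-!
# Soundness of the checker of Case 2 (helper14)
-/

set_option autoImplicit false
set_option linter.unusedSectionVars false
set_option linter.unusedVariables false

namespace Pool.Agent.R4.E8

open Pool.Agent.Helper58.PLine (QData)
open Pool.Agent.ETCP
open Pool.Agent.ETCI (In8)

section
variable {V Q : Type} [AddCommGroup V] [Module (ZMod 2) V] {S : QData V Q} {y z : V}
  {R : Type} [AddCommGroup R] [Module (ZMod 2) R]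

/-- value of a mask -/
def ev (h : ℕ → V) (m : ℕ) : V := bsum h 12 m

theorem ev_zero (h : ℕ → V) : ev h 0 = 0 := bsum_zero _ _

theorem ev_xor (h : ℕ → V) (m n : ℕ) : ev h (m ^^^ n) = ev h m + ev h n := bsum_xor _ _ _ _

/-- the data of the first six generators -/
structure Base (P : Plane S y z R) (h : ℕ → V) : Prop where
  he : S.e = 0
  h0 : ev h 1 = y
  h3 : ev h 8 = z
  D1 : ∀ x, C S y x → ∃ d < 8, x = ev h d
  core : ∀ m, 8 ≤ m → m < 64 → ¬ C S y (ev h m)
  nab : ¬ C S (ev h 2) (ev h 4)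
  hp : ∀ d < 8, S.q y (ev h 16) ≠ S.q z (ev h d)
  hq : ∀ d < 8, S.q y (ev h 32) ≠ S.q z (ev h d)
  nz : ¬ ((∃ v, S.q y v = S.q z (ev h 2)) ∧ ∃ v, S.q y v = S.q z (ev h 4))

/-- facts and relations hold -/
structure Md (P : Plane S y z R) (h : ℕ → V) (st : St) : Prop where
  f : ∀ c ∈ st.F, C S (ev h (c % 4096)) (ev h (c / 4096))
  r : ∀ c ∈ st.R, P.Y (ev h (c % 4096)) + P.Z (ev h (c / 4096)) = 0

/-- a mask below `2 ^ n` in both places -/
def Lt (n c : ℕ) : Prop := c % 4096 < 2 ^ n ∧ c / 4096 < 2 ^ n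

/-- all masks are below `2 ^ n` -/
structure Ok (st : St) : Prop where
  n12 : st.n ≤ 12
  n6 : 6 ≤ st.n
  f : ∀ c ∈ st.F, Lt st.n c
  r : ∀ c ∈ st.R, Lt st.n c

theorem getD_prop {p : ℕ → Prop} {L : List ℕ} (hL : ∀ c ∈ L, p c) (h0 : p 0) (i : ℕ) :
    p (L.getD i 0) := by
  by_cases hi : i < L.length
  · rw [List.getD_eq_getElem _ _ hi]
    exact hL _ (List.getElem_mem hi)
  · rw [List.getD_eq_default _ _ (by omega)]
    exact h0

theorem lt_zero (n : ℕ) : Lt n 0 := ⟨Nat.two_pow_pos _, Nat.two_pow_pos _⟩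

variable {P : Plane S y z R} {h : ℕ → V} {st : St}

theorem Md.fact (M : Md P h st) (i : ℕ) : C S (ev h (fu st.F i)) (ev h (fv st.F i)) := by
  have := getD_prop (p := fun c => C S (ev h (c % 4096)) (ev h (c / 4096))) M.f
    (by show C S (ev h 0) (ev h 0); rw [ev_zero]; exact C.zero _) (i / 2)
  unfold fu fv
  split_ifs
  · exact this
  · exact this.symm

theorem Ok.fu (O : Ok st) (i : ℕ) : fu st.F i < 2 ^ st.n := by
  have := getD_prop (p := Lt st.n) O.f (lt_zero _) (i / 2)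
  unfold E8.fu
  split_ifs
  · exact this.1
  · exact this.2

theorem Ok.fv (O : Ok st) (i : ℕ) : fv st.F i < 2 ^ st.n := by
  have := getD_prop (p := Lt st.n) O.f (lt_zero _) (i / 2)
  unfold E8.fv
  split_ifs
  · exact this.2
  · exact this.1

theorem xlt {a b n : ℕ} (ha : a < 2 ^ n) (hb : b < 2 ^ n) : a ^^^ b < 2 ^ n :=
  Nat.xor_lt_two_pow ha hb

/-- contribution of one fact -/
theorem contrib {u g x i : ℕ} (e : ev h (u ^^^ g) = uv y z i)
    (hc : C S (ev h u) (ev h x)) : P.T (ev h g) (ev h x) (P.um i (ev h x)) := by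
  have h1 := (Plane.T.zero_iff (P := P)).2 hc
  have h2 := h1.shift i
  rw [zero_add, ← e, ev_xor] at h2
  have e2 : ev h u + (ev h u + ev h g) = ev h g := by
    rw [← add_assoc, ZModModule.add_self, zero_add]
  rwa [e2] at h2

theorem uv_1 : uv y z 1 = y := by simp [uv]
theorem uv_2 : uv y z 2 = z := by simp [uv]
theorem uv_3 : uv y z 3 = y + z := by simp [uv]
theorem uv_0 : uv y z 0 = 0 := by simp [uv]

theorem um_1 (x : V) : P.um 1 x = P.Y x := by simp [Plane.um]
theorem um_2 (x : V) : P.um 2 x = P.Z x := by simp [Plane.um]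
theorem um_3 (x : V) : P.um 3 x = P.Y x + P.Z x := by simp [Plane.um]

theorem Base.e0 (B : Base P h) : ev h 0 = uv y z 0 := by rw [ev_zero, uv_0]
theorem Base.e1 (B : Base P h) : ev h 1 = uv y z 1 := by rw [B.h0, uv_1]
theorem Base.e8 (B : Base P h) : ev h 8 = uv y z 2 := by rw [B.h3, uv_2]
theorem Base.e9 (B : Base P h) : ev h 9 = uv y z 3 := by
  rw [show (9 : ℕ) = 1 ^^^ 8 by decide, ev_xor, B.h0, B.h3, uv_3]

/-- the value of `v, w` -/
def vl (P : Plane S y z R) (h : ℕ → V) (v w : ℕ) : R := P.Y (ev h v) + P.Z (ev h w)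

theorem vl_xor (v v' w w' : ℕ) : vl P h (v ^^^ v') (w ^^^ w') = vl P h v w + vl P h v' w' := by
  unfold vl
  rw [ev_xor, ev_xor, map_add, map_add]
  abel

theorem vl_0 : vl P h 0 0 = 0 := by
  unfold vl
  rw [ev_zero, map_zero, map_zero, add_zero]

theorem vl_v0 (v : ℕ) : vl P h v 0 = P.Y (ev h v) := by
  unfold vl
  rw [ev_zero, map_zero, add_zero]

theorem vl_0w (w : ℕ) : vl P h 0 w = P.Z (ev h w) := by
  unfold vl
  rw [ev_zero, map_zero, zero_add]

theorem sL_sound (B : Base P h) (M : Md P h st) (O : Ok st) {g : ℕ} :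
    ∀ (L : List ℕ) {x v w x' v' w' : ℕ}, sL st.F g L x v w = some (x', v', w') →
      P.T (ev h g) (ev h x) (vl P h v w) → x < 2 ^ st.n → v < 2 ^ st.n → w < 2 ^ st.n →
      P.T (ev h g) (ev h x') (vl P h v' w') ∧ x' < 2 ^ st.n ∧ v' < 2 ^ st.n ∧ w' < 2 ^ st.n
  | [], x, v, w, x', v', w', e, hT, h1, h2, h3 => by
    simp only [sL, Option.some.injEq, Prod.mk.injEq] at e
    obtain ⟨rfl, rfl, rfl⟩ := e
    exact ⟨hT, h1, h2, h3⟩
  | i :: L, x, v, w, x', v', w', e, hT, h1, h2, h3 => by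
    have hf := M.fact i
    have hx := O.fv i
    simp only [sL] at e
    split at e
    · rename_i hk
      refine sL_sound B M O L e ?_ (xlt h1 hx) h2 h3
      have := hT.add (contrib (P := P) (i := 0) (by rw [hk]; exact B.e0) hf)
      rw [Plane.um_zero, add_zero, ← ev_xor] at this
      exact this
    · rename_i hk
      refine sL_sound B M O L e ?_ (xlt h1 hx) (xlt h2 hx) h3
      have := hT.add (contrib (P := P) (i := 1) (by rw [hk]; exact B.e1) hf)
      rw [um_1, ← ev_xor, ← vl_v0, ← vl_xor, Nat.xor_zero] at this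
      exact this
    · rename_i hk
      refine sL_sound B M O L e ?_ (xlt h1 hx) h2 (xlt h3 hx)
      have := hT.add (contrib (P := P) (i := 2) (by rw [hk]; exact B.e8) hf)
      rw [um_2, ← ev_xor, ← vl_0w, ← vl_xor, Nat.xor_zero] at this
      exact this
    · rename_i hk
      refine sL_sound B M O L e ?_ (xlt h1 hx) (xlt h2 hx) (xlt h3 hx)
      have := hT.add (contrib (P := P) (i := 3) (by rw [hk]; exact B.e9) hf)
      have e3 : P.um 3 (ev h (fv st.F i)) = vl P h (fv st.F i) (fv st.F i) := um_3 _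
      rw [e3, ← ev_xor, ← vl_xor] at this
      exact this
    · exact absurd e (by simp)

theorem sR_sound (B : Base P h) (M : Md P h st) (O : Ok st) :
    ∀ (L : List ℕ) {v w v' w' : ℕ}, sR st.F L v w = some (v', w') →
      v < 2 ^ st.n → w < 2 ^ st.n →
      vl P h v' w' = vl P h v w ∧ v' < 2 ^ st.n ∧ w' < 2 ^ st.n
  | [], v, w, v', w', e, h2, h3 => by
    simp only [sR, Option.some.injEq, Prod.mk.injEq] at e
    obtain ⟨rfl, rfl⟩ := e
    exact ⟨rfl, h2, h3⟩
  | i :: L, v, w, v', w', e, h2, h3 => by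
    have hf := M.fact i
    have hx := O.fv i
    simp only [sR] at e
    split at e
    · rename_i hk
      obtain ⟨a1, a2⟩ := sR_sound B M O L e (xlt h2 hx) h3
      refine ⟨?_, a2⟩
      rw [hk, B.h0] at hf
      have e1 : vl P h (v ^^^ fv st.F i) w = vl P h (v ^^^ fv st.F i) (w ^^^ 0) := by
        rw [Nat.xor_zero]
      rw [a1, e1, vl_xor, vl_v0, P.Y0.2 hf, add_zero]
    · rename_i hk
      obtain ⟨a1, a2⟩ := sR_sound B M O L e h2 (xlt h3 hx)
      refine ⟨?_, a2⟩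
      rw [hk, B.h3] at hf
      have e1 : vl P h v (w ^^^ fv st.F i) = vl P h (v ^^^ 0) (w ^^^ fv st.F i) := by
        rw [Nat.xor_zero]
      rw [a1, e1, vl_xor, vl_0w, P.Z0.2 hf, add_zero]
    · rename_i hk
      obtain ⟨a1, a2⟩ := sR_sound B M O L e (xlt h2 hx) (xlt h3 hx)
      refine ⟨?_, a2⟩
      rw [hk, B.e9, uv_3] at hf
      have e1 : vl P h (fv st.F i) (fv st.F i) = 0 := P.S0.2 hf
      rw [a1, vl_xor, e1, add_zero]
    · exact absurd e (by simp)

theorem sX_sound (M : Md P h st) (O : Ok st) :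
    ∀ (L : List ℕ) {v w : ℕ}, v < 2 ^ st.n → w < 2 ^ st.n →
      vl P h (sX st.R L v w).1 (sX st.R L v w).2 = vl P h v w ∧
        (sX st.R L v w).1 < 2 ^ st.n ∧ (sX st.R L v w).2 < 2 ^ st.n
  | [], v, w, h2, h3 => ⟨rfl, h2, h3⟩
  | i :: L, v, w, h2, h3 => by
    have hl := getD_prop (p := Lt st.n) O.r (lt_zero _) i
    have hr := getD_prop (p := fun c => P.Y (ev h (c % 4096)) + P.Z (ev h (c / 4096)) = 0) M.r
      (vl_0 (P := P) (h := h)) i
    obtain ⟨a1, a2⟩ := sX_sound M O L (xlt h2 hl.1) (xlt h3 hl.2)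
    refine ⟨?_, a2⟩
    have e1 : vl P h (st.R.getD i 0 % 4096) (st.R.getD i 0 / 4096) = 0 := hr
    show vl P h (sX st.R L _ _).1 (sX st.R L _ _).2 = _
    rw [a1, vl_xor, e1, add_zero]

theorem sm_sound (B : Base P h) (M : Md P h st) (O : Ok st) {g s s' : ℕ} {a : ℕ × ℕ × ℕ}
    (e : sm st g s = some (a, s')) :
    P.T (ev h g) (ev h a.1) (vl P h a.2.1 a.2.2) ∧ a.1 < 2 ^ st.n ∧ a.2.1 < 2 ^ st.n ∧
      a.2.2 < 2 ^ st.n := by
  have h0 : (0 : ℕ) < 2 ^ st.n := Nat.two_pow_pos _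
  unfold sm at e
  simp only at e
  split at e
  · exact absurd e (by simp)
  rename_i b hb
  split at e
  · exact absurd e (by simp)
  rename_i c hc
  simp only [Option.some.injEq, Prod.mk.injEq] at e
  obtain ⟨rfl, -⟩ := e
  obtain ⟨b1, b2, b3⟩ := b
  obtain ⟨c1, c2⟩ := c
  obtain ⟨k1, k2, k3, k4⟩ := sL_sound B M O _ hb
    (by rw [ev_zero, vl_0]; exact Plane.T.zero _) h0 h0 h0
  obtain ⟨l1, l2, l3⟩ := sR_sound B M O _ hc k3 k4
  obtain ⟨m1, m2, m3⟩ := sX_sound M O (rl (rl (rl s).2).2).1 l2 l3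
  refine ⟨?_, k2, m2, m3⟩
  simp only
  rw [m1, l1]
  exact k1

theorem sr_sound (B : Base P h) (M : Md P h st) (O : Ok st) {s s' : ℕ} {a : ℕ × ℕ}
    (e : sr st s = some (a, s')) :
    vl P h a.1 a.2 = 0 ∧ a.1 < 2 ^ st.n ∧ a.2 < 2 ^ st.n := by
  have h0 : (0 : ℕ) < 2 ^ st.n := Nat.two_pow_pos _
  unfold sr at e
  simp only at e
  split at e
  · exact absurd e (by simp)
  rename_i c hc
  simp only [Option.some.injEq, Prod.mk.injEq] at e
  obtain ⟨rfl, -⟩ := e
  obtain ⟨c1, c2⟩ := c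
  obtain ⟨l1, l2, l3⟩ := sR_sound B M O _ hc h0 h0
  obtain ⟨m1, m2, m3⟩ := sX_sound M O (rl (rl s).2).1 l2 l3
  refine ⟨?_, m2, m3⟩
  rw [m1, l1, vl_0]

/-! ### the instructions -/

/-- some child has a model -/
def Nx (P : Plane S y z R) (cs : List St) : Prop :=
  ∃ c ∈ cs, Ok c ∧ ∃ h, Base P h ∧ Md P h c

theorem pow_le {n : ℕ} (hn : n ≤ 12) : 2 ^ n ≤ 4096 := by
  calc 2 ^ n ≤ 2 ^ 12 := Nat.pow_le_pow_right (by norm_num) hn
    _ = 4096 := by norm_num

theorem cmod {g x : ℕ} (hg : g < 4096) : (g + 4096 * x) % 4096 = g := by omega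

theorem cdiv {g x : ℕ} (hg : g < 4096) : (g + 4096 * x) / 4096 = x := by omega

theorem Ok.lt (O : Ok st) {x : ℕ} (hx : x < 2 ^ st.n) : x < 4096 :=
  lt_of_lt_of_le hx (pow_le O.n12)

theorem Ok.consF (O : Ok st) {g x : ℕ} (hg : g < 2 ^ st.n) (hx : x < 2 ^ st.n) :
    Ok ⟨st.n, (g + 4096 * x) :: st.F, st.R⟩ where
  n12 := O.n12
  n6 := O.n6
  f := by
    intro c hc
    rcases List.mem_cons.1 hc with rfl | hc
    · unfold Lt
      rw [cmod (O.lt hg), cdiv (O.lt hg)]
      exact ⟨hg, hx⟩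
    · exact O.f c hc
  r := O.r

theorem Ok.consR (O : Ok st) {g x : ℕ} (hg : g < 2 ^ st.n) (hx : x < 2 ^ st.n) :
    Ok ⟨st.n, st.F, (g + 4096 * x) :: st.R⟩ where
  n12 := O.n12
  n6 := O.n6
  f := O.f
  r := by
    intro c hc
    rcases List.mem_cons.1 hc with rfl | hc
    · unfold Lt
      rw [cmod (O.lt hg), cdiv (O.lt hg)]
      exact ⟨hg, hx⟩
    · exact O.r c hc

theorem Md.consF (M : Md P h st) {g x : ℕ} (hg : g < 4096) (hc : C S (ev h g) (ev h x)) :
    Md P h ⟨st.n, (g + 4096 * x) :: st.F, st.R⟩ where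
  f := by
    intro c hc'
    rcases List.mem_cons.1 hc' with rfl | hc'
    · rw [cmod hg, cdiv hg]
      exact hc
    · exact M.f c hc'
  r := M.r

theorem Md.consR (M : Md P h st) {v w : ℕ} (hg : v < 4096) (hc : vl P h v w = 0) :
    Md P h ⟨st.n, st.F, (v + 4096 * w) :: st.R⟩ where
  f := M.f
  r := by
    intro c hc'
    rcases List.mem_cons.1 hc' with rfl | hc'
    · rw [cmod hg, cdiv hg]
      exact hc
    · exact M.r c hc'

theorem span_C {g : ℕ} : ∀ (L : List ℕ), (∀ m ∈ L, C S (ev h g) (ev h m)) →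
    ∀ m ∈ spanL L, C S (ev h g) (ev h m)
  | [], _, m, hm => by
    simp only [spanL, List.mem_singleton] at hm
    subst hm
    rw [ev_zero]
    exact C.zero _
  | a :: L, hL, m, hm => by
    simp only [spanL, List.mem_append, List.mem_map] at hm
    rcases hm with hm | ⟨m', hm', rfl⟩
    · exact span_C L (fun m hm => hL m (List.mem_cons_of_mem _ hm)) m hm
    · rw [ev_xor]
      exact (hL a List.mem_cons_self).add
        (span_C L (fun m hm => hL m (List.mem_cons_of_mem _ hm)) m' hm')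

theorem ev_upd {n : ℕ} {κ : V} {m : ℕ} (hm : m < 2 ^ n) :
    ev (Function.update h n κ) m = ev h m := by
  unfold ev bsum
  refine Finset.sum_congr rfl fun i _ => ?_
  by_cases hi : i = n
  · subst hi
    rw [Nat.testBit_lt_two_pow hm]
    simp
  · rw [Function.update_of_ne hi]

theorem ev_new {n : ℕ} (hn : n < 12) {κ : V} : ev (Function.update h n κ) (2 ^ n) = κ := by
  unfold ev
  rw [bsum_two_pow _ hn, Function.update_self]

theorem Base.upd (B : Base P h) {n : ℕ} (hn : 6 ≤ n) (κ : V) :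
    Base P (Function.update h n κ) := by
  have h64 : (64 : ℕ) ≤ 2 ^ n := by
    calc (64 : ℕ) = 2 ^ 6 := by norm_num
      _ ≤ 2 ^ n := Nat.pow_le_pow_right (by norm_num) hn
  have e : ∀ m < 64, ev (Function.update h n κ) m = ev h m := fun m hm =>
    ev_upd (lt_of_lt_of_le hm h64)
  refine ⟨B.he, ?_, ?_, ?_, ?_, ?_, ?_, ?_, ?_⟩
  · rw [e 1 (by norm_num)]; exact B.h0
  · rw [e 8 (by norm_num)]; exact B.h3
  · intro x hx
    obtain ⟨d, hd, rfl⟩ := B.D1 x hx
    exact ⟨d, hd, (e d (by omega)).symm⟩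
  · intro m h1 h2
    rw [e m h2]
    exact B.core m h1 h2
  · rw [e 2 (by norm_num), e 4 (by norm_num)]
    exact B.nab
  · intro d hd
    rw [e 16 (by norm_num), e d (by omega)]
    exact B.hp d hd
  · intro d hd
    rw [e 32 (by norm_num), e d (by omega)]
    exact B.hq d hd
  · rw [e 2 (by norm_num), e 4 (by norm_num)]
    exact B.nz

/-- branching -/
theorem br_sound (B : Base P h) {g x v : ℕ} (hT : P.T (ev h g) (ev h x) (vl P h v 0)) :
    ∃ d < 8, C S (ev h g) (ev h (x ^^^ v ^^^ d)) := by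
  rw [vl_v0, ← um_1, Plane.T.um_iff, uv_1] at hT
  obtain ⟨t, h1, h2, -⟩ := link hT
  obtain ⟨d, hd, e⟩ := B.D1 _ h2
  refine ⟨d, hd, h1.of_eq rfl ?_⟩
  rw [ev_xor, ev_xor, ← e]
  exact f2 (by abel_nf; simp only [ch2, add_zero])

/-- the new state after a link -/
theorem link_sound (B : Base P h) (M : Md P h st) (O : Ok st) {g pz x w : ℕ} {κ : V}
    (hn : st.n < 12) (hg : g < 2 ^ st.n) (hx : x < 2 ^ st.n) (hw : w < 2 ^ st.n)
    (hpz : pz < 64) (h1 : C S (ev h g) (ev h x + κ)) (h2 : C S (ev h pz) (ev h w + κ))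
    (h3 : C S (ev h g + ev h pz) κ) :
    Nx P [⟨st.n + 1, ((g ^^^ pz) + 4096 * 2 ^ st.n) :: (pz + 4096 * (w ^^^ 2 ^ st.n)) ::
          (g + 4096 * (x ^^^ 2 ^ st.n)) :: st.F, st.R⟩] := by
  have h64 : (64 : ℕ) ≤ 2 ^ st.n := by
    calc (64 : ℕ) = 2 ^ 6 := by norm_num
      _ ≤ 2 ^ st.n := Nat.pow_le_pow_right (by norm_num) O.n6
  have hp' : pz < 2 ^ st.n := lt_of_lt_of_le hpz h64
  have hgp : g ^^^ pz < 2 ^ st.n := xlt hg hp'
  have hlt : 2 ^ st.n < 2 ^ (st.n + 1) := Nat.pow_lt_pow_right (by norm_num) (by omega)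
  have up : ∀ {m : ℕ}, m < 2 ^ st.n → m < 2 ^ (st.n + 1) := fun hm => hm.trans hlt
  refine ⟨_, List.mem_singleton.2 rfl, ⟨by show st.n + 1 ≤ 12; omega,
    by have := O.n6; show 6 ≤ st.n + 1; omega, ?_, ?_⟩, Function.update h st.n κ,
    B.upd O.n6 κ, ?_, ?_⟩
  · intro c hc
    simp only [List.mem_cons] at hc
    rcases hc with rfl | rfl | rfl | hc
    · unfold Lt
      rw [cmod (O.lt hgp), cdiv (O.lt hgp)]
      exact ⟨up hgp, hlt⟩
    · unfold Lt
      rw [cmod (O.lt hp'), cdiv (O.lt hp')]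
      exact ⟨up hp', xlt (up hw) hlt⟩
    · unfold Lt
      rw [cmod (O.lt hg), cdiv (O.lt hg)]
      exact ⟨up hg, xlt (up hx) hlt⟩
    · exact ⟨up (O.f c hc).1, up (O.f c hc).2⟩
  · intro c hc
    exact ⟨up (O.r c hc).1, up (O.r c hc).2⟩
  · intro c hc
    simp only [List.mem_cons] at hc
    rcases hc with rfl | rfl | rfl | hc
    · rw [cmod (O.lt hgp), cdiv (O.lt hgp), ev_upd hgp, ev_new hn, ev_xor]
      exact h3
    · rw [cmod (O.lt hp'), cdiv (O.lt hp'), ev_upd hp', ev_xor, ev_upd hw, ev_new hn]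
      exact h2
    · rw [cmod (O.lt hg), cdiv (O.lt hg), ev_upd hg, ev_xor, ev_upd hx, ev_new hn]
      exact h1
    · rw [ev_upd (O.f c hc).1, ev_upd (O.f c hc).2]
      exact M.f c hc
  · intro c hc
    rw [ev_upd (O.r c hc).1, ev_upd (O.r c hc).2]
    exact M.r c hc

theorem sb_ev {t v d : ℕ} (e : ev h v = ev h d) (m : ℕ) : ev h (sb t v d m) = ev h m := by
  unfold sb
  split_ifs
  · rw [ev_xor, ev_xor, e, add_assoc, ZModModule.add_self, add_zero]
  · rfl

theorem sb_lt {t v d m n : ℕ} (hv : v < 2 ^ n) (hd : d < 2 ^ n) (hm : m < 2 ^ n) :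
    sb t v d m < 2 ^ n := by
  unfold sb
  split_ifs
  · exact xlt (xlt hm hv) hd
  · exact hm

theorem coll_sound (B : Base P h) (M : Md P h st) (O : Ok st) {t v : ℕ} (hv : v < 2 ^ st.n)
    (hc : C S y (ev h v)) : Nx P ((List.range 8).map (fun d => (⟨st.n, st.F.map (sbc t v d),
      st.R.map (sbc t v d)⟩ : St))) := by
  obtain ⟨d, hd, e⟩ := B.D1 _ hc
  have h64 : (64 : ℕ) ≤ 2 ^ st.n := by
    calc (64 : ℕ) = 2 ^ 6 := by norm_num
      _ ≤ 2 ^ st.n := Nat.pow_le_pow_right (by norm_num) O.n6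
  have hd' : d < 2 ^ st.n := by omega
  have key : ∀ c, Lt st.n c → sbc t v d c % 4096 = sb t v d (c % 4096) ∧
      sbc t v d c / 4096 = sb t v d (c / 4096) := by
    intro c hc
    have := O.lt (sb_lt (t := t) hv hd' hc.1)
    exact ⟨cmod this, cdiv this⟩
  refine ⟨_, List.mem_map.2 ⟨d, List.mem_range.2 hd, rfl⟩, ⟨O.n12, O.n6, ?_, ?_⟩, h, B, ?_, ?_⟩
  · intro c hc
    obtain ⟨c', hc', rfl⟩ := List.mem_map.1 hc
    have l := O.f c' hc'
    unfold Lt
    rw [(key c' l).1, (key c' l).2]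
    exact ⟨sb_lt hv hd' l.1, sb_lt hv hd' l.2⟩
  · intro c hc
    obtain ⟨c', hc', rfl⟩ := List.mem_map.1 hc
    have l := O.r c' hc'
    unfold Lt
    rw [(key c' l).1, (key c' l).2]
    exact ⟨sb_lt hv hd' l.1, sb_lt hv hd' l.2⟩
  · intro c hc
    obtain ⟨c', hc', rfl⟩ := List.mem_map.1 hc
    have l := O.f c' hc'
    rw [(key c' l).1, (key c' l).2, sb_ev e, sb_ev e]
    exact M.f c' hc'
  · intro c hc
    obtain ⟨c', hc', rfl⟩ := List.mem_map.1 hc
    have l := O.r c' hc'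
    rw [(key c' l).1, (key c' l).2, sb_ev e, sb_ev e]
    exact M.r c' hc'

theorem step_sound (B : Base P h) (M : Md P h st) (O : Ok st) {s s' : ℕ} {cs : List St}
    (e : step st s = some (cs, s')) : Nx P cs := by
  unfold step at e
  simp only at e
  split at e
  · -- self
    split_ifs at e with h1
    simp only [Option.some.injEq, Prod.mk.injEq] at e
    obtain ⟨rfl, -⟩ := e
    exact ⟨_, List.mem_singleton.2 rfl, O.consF h1 h1, h, B, M.consF (O.lt h1) (C.self B.he _)⟩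
  · -- fact
    split at e
    · exact absurd e (by simp)
    rename_i a s1 ha
    split_ifs at e with h1
    simp only [Option.some.injEq, Prod.mk.injEq] at e
    obtain ⟨rfl, -⟩ := e
    simp only [Bool.and_eq_true, decide_eq_true_eq, beq_iff_eq] at h1
    obtain ⟨⟨g1, g2⟩, g3⟩ := h1
    obtain ⟨k1, k2, k3, k4⟩ := sm_sound B M O ha
    rw [g2, g3, vl_0, Plane.T.zero_iff] at k1
    exact ⟨_, List.mem_singleton.2 rfl, O.consF g1 k2, h, B, M.consF (O.lt g1) k1⟩
  · -- relation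
    split at e
    · exact absurd e (by simp)
    rename_i a s1 ha
    split_ifs at e with h1
    simp only [Option.some.injEq, Prod.mk.injEq] at e
    obtain ⟨rfl, -⟩ := e
    simp only [Bool.and_eq_true, decide_eq_true_eq, beq_iff_eq] at h1
    obtain ⟨g1, g2⟩ := h1
    obtain ⟨k1, k2, k3, k4⟩ := sm_sound B M O ha
    rw [g2, ev_zero] at k1
    exact ⟨_, List.mem_singleton.2 rfl, O.consR k3 k4, h, B, M.consR (O.lt k3) k1.func⟩
  · -- branching
    split at e
    · exact absurd e (by simp)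
    rename_i a s1 ha
    split_ifs at e with h1
    simp only [Option.some.injEq, Prod.mk.injEq] at e
    obtain ⟨rfl, -⟩ := e
    simp only [Bool.and_eq_true, decide_eq_true_eq, beq_iff_eq] at h1
    obtain ⟨⟨⟨⟨g1, g2⟩, g3⟩, g4⟩, g5⟩ := h1
    obtain ⟨k1, k2, k3, k4⟩ := sm_sound B M O ha
    rw [g2] at k1
    obtain ⟨d, hd, hC⟩ := br_sound B k1
    rw [List.all_eq_true] at g3 g4 g5
    have g6 := g5 d (List.mem_range.2 hd)
    rw [List.any_eq_true] at g6
    obtain ⟨d', hd', hsp⟩ := g6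
    rw [List.contains_iff_mem] at hsp
    have hd8 : d' < 8 := by simpa using g4 d' hd'
    have h64 : (64 : ℕ) ≤ 2 ^ st.n := by
      calc (64 : ℕ) = 2 ^ 6 := by norm_num
        _ ≤ 2 ^ st.n := Nat.pow_le_pow_right (by norm_num) O.n6
    have hK : ∀ m ∈ (rl s1).1.map (fv st.F), C S (ev h (s / 4096 % 4096)) (ev h m) := by
      intro m hm
      obtain ⟨i, hi, rfl⟩ := List.mem_map.1 hm
      have := g3 i hi
      simp only [Bool.and_eq_true, decide_eq_true_eq, beq_iff_eq] at this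
      rw [← this.1]
      exact M.fact i
    have h2 := span_C _ hK _ hsp
    have h3 := hC.add h2
    rw [← ev_xor] at h3
    have e3 : a.1 ^^^ a.2.1 ^^^ d ^^^ (d ^^^ d') = a.1 ^^^ a.2.1 ^^^ d' := by
      rw [Nat.xor_assoc, ← Nat.xor_assoc d d d', Nat.xor_self, Nat.zero_xor]
    rw [e3] at h3
    exact ⟨_, List.mem_map.2 ⟨d', hd', rfl⟩, O.consF g1 (xlt (xlt k2 k3) (by omega)), h, B,
      M.consF (O.lt g1) h3⟩
  · -- link
    split at e
    · exact absurd e (by simp)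
    rename_i a s1 ha
    split_ifs at e with h1
    simp only [Option.some.injEq, Prod.mk.injEq] at e
    obtain ⟨rfl, -⟩ := e
    simp only [Bool.and_eq_true, Bool.or_eq_true, decide_eq_true_eq, beq_iff_eq] at h1
    obtain ⟨⟨g1, g2⟩, g3⟩ := h1
    obtain ⟨k1, k2, k3, k4⟩ := sm_sound B M O ha
    rcases g3 with ⟨p1, p2⟩ | ⟨p1, p2⟩
    · rw [p1]
      rw [p2, vl_0w, ← um_2, Plane.T.um_iff, ← B.e8] at k1
      obtain ⟨κ, l1, l2, l3⟩ := link k1
      exact link_sound B M O g2 g1 k2 k4 (by norm_num) l1 l2 l3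
    · rw [p1]
      have e4 : vl P h a.2.1 a.2.2 = P.um 3 (ev h a.2.2) := by
        rw [p2, um_3]; rfl
      rw [e4, Plane.T.um_iff, ← B.e9] at k1
      obtain ⟨κ, l1, l2, l3⟩ := link k1
      exact link_sound B M O g2 g1 k2 k4 (by norm_num) l1 l2 l3
  · -- collapse
    split_ifs at e with h1
    simp only [Option.some.injEq, Prod.mk.injEq] at e
    obtain ⟨rfl, -⟩ := e
    simp only [Bool.and_eq_true, decide_eq_true_eq, beq_iff_eq] at h1
    have hf := M.fact (s / 4096 % 4096)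
    rw [h1.1, B.h0] at hf
    exact coll_sound B M O (O.fv _) hf
  · -- core
    split_ifs at e with h1
    simp only [Bool.and_eq_true, decide_eq_true_eq, beq_iff_eq] at h1
    have hf := M.fact (s / 4096 % 4096)
    rw [h1.1.1, B.h0] at hf
    exact (B.core _ h1.1.2 h1.2 hf).elim
  · -- a b
    split_ifs at e with h1
    simp only [Bool.and_eq_true, decide_eq_true_eq, beq_iff_eq] at h1
    have hf := M.fact (s / 4096 % 4096)
    rw [h1.1, h1.2] at hf
    exact (B.nab hf).elim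
  · -- p, q
    split at e
    · exact absurd e (by simp)
    rename_i a s1 ha
    split_ifs at e with h1
    simp only [Bool.and_eq_true, Bool.or_eq_true, decide_eq_true_eq, beq_iff_eq] at h1
    obtain ⟨k1, -, -⟩ := sr_sound B M O ha
    have k2 : P.Y (ev h a.1) = P.Z (ev h a.2) := f2 k1
    rw [P.yz] at k2
    rcases h1.1 with h2 | h2
    · rw [h2] at k2
      exact (B.hp _ h1.2 k2).elim
    · rw [h2] at k2
      exact (B.hq _ h1.2 k2).elim
  · -- nz
    split at e
    · exact absurd e (by simp)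
    rename_i a s1 ha
    split at e
    · exact absurd e (by simp)
    rename_i b s2 hb
    split_ifs at e with h1
    simp only [Bool.and_eq_true, beq_iff_eq] at h1
    obtain ⟨k1, -, -⟩ := sr_sound B M O ha
    obtain ⟨l1, -, -⟩ := sr_sound B M O hb
    have k2 : P.Y (ev h a.1) = P.Z (ev h a.2) := f2 k1
    have l2 : P.Y (ev h b.1) = P.Z (ev h b.2) := f2 l1
    rw [P.yz, h1.1] at k2
    rw [P.yz, h1.2] at l2
    exact (B.nz ⟨⟨_, k2⟩, ⟨_, l2⟩⟩).elim
  · exact absurd e (by simp)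

theorem run_sound : ∀ (k : ℕ) (l : List St) (s : ℕ), run k l s = true →
    ∀ st ∈ l, Ok st → ∀ h, Base P h → Md P h st → False
  | _, [], _, _, st, hst, _, _, _, _ => by simp at hst
  | 0, _ :: _, _, hr, _, _, _, _, _, _ => by simp [run] at hr
  | k + 1, st0 :: l, s, hr, st, hst, O, h, B, M => by
    simp only [run] at hr
    split at hr
    · exact absurd hr (by simp)
    rename_i cs s' e
    rcases List.mem_cons.1 hst with rfl | hst
    · obtain ⟨c, hc, Oc, h', B', M'⟩ := step_sound B M O e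
      exact run_sound k _ _ hr c (List.mem_append_left _ hc) Oc h' B' M'
    · exact run_sound k _ _ hr st (List.mem_append_right _ hst) O h B M

end

end Pool.Agent.R4.E8
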