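import Pool.Agent.R4.ClsLin

/-!
# Tables of planes with at most sixteen values (helper14)
-/

set_option autoImplicit false
set_option linter.unusedSectionVars false

namespace Pool.Agent.R4.Cls

variable {V R : Type} [AddCommGroup V] [Module (ZMod 2) V] [AddCommGroup R] [Module (ZMod 2) R]

/-- a table for the pair of maps -/
def Tab (Y Z : V →ₗ[ZMod 2] R) (y z : V) (N RD : ℕ) (Yc Zc : List ℕ) : Prop :=
  ∃ (h : ℕ → V) (b : ℕ → R), h 0 = y ∧ h 1 = z ∧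
    (∀ v, ∃ x ∈ SpM h N, Y (v + x) = 0 ∧ Z (v + x) = 0) ∧
    (∀ i < N, Y (h i) = bs b RD (Yc.getD i 0)) ∧
    (∀ i < N, Z (h i) = bs b RD (Zc.getD i 0)) ∧
    (∀ i < RD, b i ∉ SpM b i)

/-- the standing assumptions on a bad noncommuting plane -/
structure Std (Y Z : V →ₗ[ZMod 2] R) (y z w : V) : Prop where
  L : LK Y Z
  yy : Y y = 0
  zz : Z z = 0
  yz : Y z = Z y
  t0 : Y z ≠ 0
  wy : Y w = 0
  wz : Z w ∉ LinearMap.range Y

theorem le_of_ext {M : Type} [AddCommGroup M] [Module (ZMod 2) M]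
    {J U W : Submodule (ZMod 2) M} {u : M} (h : ∀ x ∈ U, x ∈ J ∨ x + u ∈ J) (hJ : J ≤ W)
    (hu : u ∈ W) : U ≤ W := by
  intro x hx
  rcases h x hx with h | h
  · exact hJ h
  · have h1 := add_mem (hJ h) hu
    rwa [add_assoc, ZModModule.add_self, add_zero] at h1

theorem swap_add (Y Z : V →ₗ[ZMod 2] R) : Y + (Y + Z) = Z := by
  ext v
  change Y v + (Y v + Z v) = Z v
  rw [← add_assoc, ZModModule.add_self, zero_add]

namespace Std

variable [Finite V] [Finite R] {Y Z : V →ₗ[ZMod 2] R} {y z w : V} (X : Std Y Z y z w)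
include X

theorem tJ : Y z ∈ J Y Z := by
  constructor
  · exact mem_YB.2 ⟨z, X.zz, rfl⟩
  · refine mem_YS.2 ⟨y + z, ?_, ?_⟩
    · rw [map_add, X.yy, zero_add]
    · rw [map_add, X.zz, add_zero, X.yz]

theorem wZA : Z w ∈ ZA Y Z := mem_ZA.2 ⟨w, X.wy, rfl⟩

theorem wJ : Z w ∉ J Y Z := fun h => X.wz (YB_le h.1)

theorem J_lt_ZA : J Y Z < ZA Y Z := by
  apply lt_of_le_of_ne J_le_ZA
  intro h
  exact X.wJ (h ▸ X.wZA)

/-- the numbers -/
theorem nums (hA : Module.finrank (ZMod 2) (LinearMap.ker Y) ≤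
      Module.finrank (ZMod 2) (LinearMap.ker Z))
    (hS : Module.finrank (ZMod 2) (LinearMap.ker Y) ≤
      Module.finrank (ZMod 2) (LinearMap.ker (Y + Z)))
    (hr : Module.finrank (ZMod 2) (LinearMap.range Y) ≤ 4) :
    ∃ d a b g s r c : ℕ, Module.finrank (ZMod 2) (J Y Z) = d ∧
      Module.finrank (ZMod 2) (ZA Y Z) = a ∧ Module.finrank (ZMod 2) (YB Y Z) = b ∧
      Module.finrank (ZMod 2) (YS Y Z) = g ∧
      Module.finrank (ZMod 2) (YB Y Z ⊔ YS Y Z : Submodule _ _) = s ∧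
      Module.finrank (ZMod 2) (LinearMap.range Y) = r ∧
      Module.finrank (ZMod 2) (LinearMap.ker Y) = a + c ∧
      Module.finrank (ZMod 2) (LinearMap.ker Z) = b + c ∧
      Module.finrank (ZMod 2) (LinearMap.ker (Y + Z)) = g + c ∧
      s + d = b + g ∧ s ≤ r ∧ r ≤ 4 ∧ a ≤ b ∧ a ≤ g ∧ d + 1 ≤ a ∧ 1 ≤ d := by
  have : Module.Finite (ZMod 2) V := Module.Finite.of_finite
  have : Module.Finite (ZMod 2) R := Module.Finite.of_finite
  have e1 := finrank_map Z (LinearMap.ker Y)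
  have e2 := finrank_map Y (LinearMap.ker Z)
  have e3 := finrank_map Y (LinearMap.ker (Y + Z))
  have c1 : LinearMap.ker Z ⊓ LinearMap.ker Y = LinearMap.ker Y ⊓ LinearMap.ker Z := inf_comm _ _
  have c2 : LinearMap.ker (Y + Z) ⊓ LinearMap.ker Y = LinearMap.ker Y ⊓ LinearMap.ker Z := by
    ext v
    constructor
    · rintro ⟨h1, h2⟩
      have h1' : Y v + Z v = 0 := h1
      have h2' : Y v = 0 := h2
      refine ⟨h2, ?_⟩
      change Z v = 0
      rwa [h2', zero_add] at h1'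
    · rintro ⟨h1, h2⟩
      have h1' : Y v = 0 := h1
      have h2' : Z v = 0 := h2
      refine ⟨?_, h1⟩
      change Y v + Z v = 0
      rw [h1', h2', zero_add]
  rw [c1] at e2
  rw [c2] at e3
  have e4 := Submodule.finrank_sup_add_finrank_inf_eq (YB Y Z) (YS Y Z)
  have e5 : Module.finrank (ZMod 2) (YB Y Z ⊔ YS Y Z : Submodule _ _) ≤
      Module.finrank (ZMod 2) (LinearMap.range Y) :=
    Submodule.finrank_mono (sup_le YB_le YS_le)
  have e6 := Submodule.finrank_lt_finrank_of_lt X.J_lt_ZA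
  have e7 : 1 ≤ Module.finrank (ZMod 2) (J Y Z) := by
    by_contra h0
    have h1 : Module.finrank (ZMod 2) (J Y Z) = 0 := by omega
    rw [Submodule.finrank_eq_zero] at h1
    have h2 := X.tJ
    rw [h1, Submodule.mem_bot] at h2
    exact X.t0 h2
  have u1 : Module.finrank (ZMod 2) ((LinearMap.ker Y).map Z) =
    Module.finrank (ZMod 2) (ZA Y Z) := rfl
  have u2 : Module.finrank (ZMod 2) ((LinearMap.ker Z).map Y) =
    Module.finrank (ZMod 2) (YB Y Z) := rfl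
  have u3 : Module.finrank (ZMod 2) ((LinearMap.ker (Y + Z)).map Y) =
    Module.finrank (ZMod 2) (YS Y Z) := rfl
  have u4 : Module.finrank (ZMod 2) (YB Y Z ⊓ YS Y Z : Submodule _ _) =
    Module.finrank (ZMod 2) (J Y Z) := rfl
  rw [u1] at e1
  rw [u2] at e2
  rw [u3] at e3
  rw [u4] at e4
  refine ⟨_, _, _, _, _, _, Module.finrank (ZMod 2) (LinearMap.ker Y ⊓ LinearMap.ker Z :
    Submodule _ _), rfl, rfl, rfl, rfl, rfl, rfl, ?_, ?_, ?_, ?_, ?_, ?_, ?_, ?_, ?_, ?_⟩ <;> omega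

theorem J1 (hd : Module.finrank (ZMod 2) (J Y Z) = 1) {W : Submodule (ZMod 2) R}
    (h : Y z ∈ W) : J Y Z ≤ W := by
  intro x hx
  rcases ext1 (J := ⊥) (U := J Y Z) bot_le (by rw [hd, finrank_bot]) X.tJ
    (fun h => X.t0 ((Submodule.mem_bot _).1 h)) hx with h1 | h1
  · rw [(Submodule.mem_bot _).1 h1]; exact zero_mem _
  · rw [aeq.1 ((Submodule.mem_bot _).1 h1)]; exact h

theorem range_le (hs : Module.finrank (ZMod 2) (LinearMap.range Y) ≤
    Module.finrank (ZMod 2) (YB Y Z ⊔ YS Y Z : Submodule _ _)) :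
    LinearMap.range Y ≤ YB Y Z ⊔ YS Y Z := by
  have : Module.Finite (ZMod 2) R := Module.Finite.of_finite
  exact (Submodule.eq_of_le_of_finrank_le (sup_le YB_le YS_le) hs).ge

/-- an element outside -/
theorem ex {M : Type} [AddCommGroup M] [Module (ZMod 2) M] [Finite M] {J U : Submodule (ZMod 2) M}
    (hJ : J ≤ U) (h : Module.finrank (ZMod 2) J < Module.finrank (ZMod 2) U) : ∃ u ∈ U, u ∉ J := by
  have : Module.Finite (ZMod 2) M := Module.Finite.of_finite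
  have h1 : J < U := by
    apply lt_of_le_of_ne hJ
    rintro rfl
    exact lt_irrefl _ h
  obtain ⟨u, h2, h3⟩ := SetLike.exists_of_lt h1
  exact ⟨u, h2, h3⟩

/-- table for type 1, 1, 1 | 1 | 0 -/
theorem case1 (hd : Module.finrank (ZMod 2) (J Y Z) = 1)
    (ha : Module.finrank (ZMod 2) (ZA Y Z) ≤ 2) (hb : Module.finrank (ZMod 2) (YB Y Z) = 2)
    (hg : Module.finrank (ZMod 2) (YS Y Z) = 2)
    (hs : Module.finrank (ZMod 2) (LinearMap.range Y) ≤
      Module.finrank (ZMod 2) (YB Y Z ⊔ YS Y Z : Submodule _ _)) :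
    Tab Y Z y z 5 4 [0, 1, 0, 2, 4] [1, 0, 8, 2, 0] := by
  obtain ⟨g, hgS, hgJ⟩ := X.ex (J := J Y Z) (U := YS Y Z) inf_le_right (by omega)
  obtain ⟨β, hβB, hβJ⟩ := X.ex (J := J Y Z) (U := YB Y Z) inf_le_left (by omega)
  obtain ⟨u, hu1, hu2⟩ := mem_YS.1 hgS
  obtain ⟨v, hv1, hv2⟩ := mem_YB.1 hβB
  let h : ℕ → V := fun i => [y, z, w, u, v].getD i 0
  let b : ℕ → R := fun i => [Y z, g, β, Z w].getD i 0
  have H0 : y ∈ SpM h 5 := mem_SpM (h := h) (i := 0) (by norm_num)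
  have H1 : z ∈ SpM h 5 := mem_SpM (h := h) (i := 1) (by norm_num)
  have H2 : w ∈ SpM h 5 := mem_SpM (h := h) (i := 2) (by norm_num)
  have H3 : u ∈ SpM h 5 := mem_SpM (h := h) (i := 3) (by norm_num)
  have H4 : v ∈ SpM h 5 := mem_SpM (h := h) (i := 4) (by norm_num)
  have JS : ∀ x ∈ YS Y Z, x ∈ J Y Z ∨ x + g ∈ J Y Z := fun x hx =>
    ext1 (J := J Y Z) (U := YS Y Z) inf_le_right (by omega) hgS hgJ hx
  have JB : ∀ x ∈ YB Y Z, x ∈ J Y Z ∨ x + β ∈ J Y Z := fun x hx =>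
    ext1 (J := J Y Z) (U := YB Y Z) inf_le_left (by omega) hβB hβJ hx
  have JA : ∀ x ∈ ZA Y Z, x ∈ J Y Z ∨ x + Z w ∈ J Y Z := fun x hx =>
    ext1 J_le_ZA (by omega) X.wZA X.wJ hx
  refine ⟨h, b, rfl, rfl, ?_, ?_, ?_, ?_⟩
  · apply build
    · refine (X.range_le hs).trans (sup_le ?_ ?_)
      · exact le_of_ext JB (X.J1 hd ⟨z, H1, rfl⟩) ⟨v, H4, hv2⟩
      · exact le_of_ext JS (X.J1 hd ⟨z, H1, rfl⟩) ⟨u, H3, hu1⟩
    · intro x hx
      have h1 : ZA Y Z ≤ (SpM h 5 ⊓ LinearMap.ker Y).map Z :=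
        le_of_ext JA (X.J1 hd ⟨y, ⟨H0, X.yy⟩, X.yz.symm⟩) ⟨w, ⟨H2, X.wy⟩, rfl⟩
      obtain ⟨v, ⟨h2, h3⟩, h4⟩ := h1 hx
      exact ⟨v, h2, h3, h4⟩
  · intro i hi
    interval_cases i <;> simp [h, b, bs, Finset.sum_range_succ, Nat.testBit, X.yy, X.wy, hu1, hv2]
  · intro i hi
    interval_cases i <;> simp [h, b, bs, Finset.sum_range_succ, Nat.testBit, X.zz, X.yz, hu2, hv1]
  · intro i hi
    have s2 : SpM b 2 ≤ YS Y Z := SpM_le (fun i hi => by
      interval_cases i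
      · exact X.tJ.2
      · exact hgS)
    interval_cases i
    · intro h0
      have h1 : SpM b 0 ≤ ⊥ := SpM_le (fun i hi => by omega)
      exact X.t0 ((Submodule.mem_bot _).1 (h1 h0))
    · intro h0
      have h1 : SpM b 1 ≤ J Y Z := SpM_le (fun i hi => by
        interval_cases i
        exact X.tJ)
      exact hgJ (h1 h0)
    · intro h0
      exact hβJ ⟨hβB, s2 h0⟩
    · intro h0
      have h1 : SpM b 3 ≤ LinearMap.range Y := SpM_le (fun i hi => by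
        interval_cases i
        · exact ⟨z, rfl⟩
        · exact YS_le hgS
        · exact YB_le hβB)
      exact X.wz (h1 h0)

/-- table for type 1, 1, 1 | 1 | 1 -/
theorem case2 (hd : Module.finrank (ZMod 2) (J Y Z) = 1)
    (ha : Module.finrank (ZMod 2) (ZA Y Z) ≤ 2) (hb : Module.finrank (ZMod 2) (YB Y Z) = 2)
    (hg : Module.finrank (ZMod 2) (YS Y Z) = 2)
    (hs : Module.finrank (ZMod 2) (LinearMap.range Y) =
      Module.finrank (ZMod 2) (YB Y Z ⊔ YS Y Z : Submodule _ _) + 1) :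
    Tab Y Z y z 6 6 [0, 1, 0, 2, 4, 8] [1, 0, 16, 2, 0, 32] := by
  obtain ⟨g, hgS, hgJ⟩ := X.ex (J := J Y Z) (U := YS Y Z) inf_le_right (by omega)
  obtain ⟨β, hβB, hβJ⟩ := X.ex (J := J Y Z) (U := YB Y Z) inf_le_left (by omega)
  obtain ⟨p, ⟨k, rfl⟩, hk⟩ := X.ex (J := YB Y Z ⊔ YS Y Z) (U := LinearMap.range Y)
    (sup_le YB_le YS_le) (by omega)
  obtain ⟨u, hu1, hu2⟩ := mem_YS.1 hgS
  obtain ⟨v, hv1, hv2⟩ := mem_YB.1 hβB
  let h : ℕ → V := fun i => [y, z, w, u, v, k].getD i 0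
  let b : ℕ → R := fun i => [Y z, g, β, Y k, Z w, Z k].getD i 0
  have H0 : y ∈ SpM h 6 := mem_SpM (h := h) (i := 0) (by norm_num)
  have H1 : z ∈ SpM h 6 := mem_SpM (h := h) (i := 1) (by norm_num)
  have H2 : w ∈ SpM h 6 := mem_SpM (h := h) (i := 2) (by norm_num)
  have H3 : u ∈ SpM h 6 := mem_SpM (h := h) (i := 3) (by norm_num)
  have H4 : v ∈ SpM h 6 := mem_SpM (h := h) (i := 4) (by norm_num)
  have H5 : k ∈ SpM h 6 := mem_SpM (h := h) (i := 5) (by norm_num)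
  have JS : ∀ x ∈ YS Y Z, x ∈ J Y Z ∨ x + g ∈ J Y Z := fun x hx =>
    ext1 (J := J Y Z) (U := YS Y Z) inf_le_right (by omega) hgS hgJ hx
  have JB : ∀ x ∈ YB Y Z, x ∈ J Y Z ∨ x + β ∈ J Y Z := fun x hx =>
    ext1 (J := J Y Z) (U := YB Y Z) inf_le_left (by omega) hβB hβJ hx
  have JA : ∀ x ∈ ZA Y Z, x ∈ J Y Z ∨ x + Z w ∈ J Y Z := fun x hx =>
    ext1 J_le_ZA (by omega) X.wZA X.wJ hx
  have JR : ∀ x ∈ LinearMap.range Y, x ∈ YB Y Z ⊔ YS Y Z ∨ x + Y k ∈ YB Y Z ⊔ YS Y Z :=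
    fun x hx => ext1 (J := YB Y Z ⊔ YS Y Z) (U := LinearMap.range Y) (sup_le YB_le YS_le)
      (by omega) ⟨k, rfl⟩ hk hx
  refine ⟨h, b, rfl, rfl, ?_, ?_, ?_, ?_⟩
  · apply build
    · refine le_of_ext JR (sup_le ?_ ?_) ⟨k, H5, rfl⟩
      · exact le_of_ext JB (X.J1 hd ⟨z, H1, rfl⟩) ⟨v, H4, hv2⟩
      · exact le_of_ext JS (X.J1 hd ⟨z, H1, rfl⟩) ⟨u, H3, hu1⟩
    · intro x hx
      have h1 : ZA Y Z ≤ (SpM h 6 ⊓ LinearMap.ker Y).map Z :=
        le_of_ext JA (X.J1 hd ⟨y, ⟨H0, X.yy⟩, X.yz.symm⟩) ⟨w, ⟨H2, X.wy⟩, rfl⟩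
      obtain ⟨v, ⟨h2, h3⟩, h4⟩ := h1 hx
      exact ⟨v, h2, h3, h4⟩
  · intro i hi
    interval_cases i <;>
      simp [h, b, bs, Finset.sum_range_succ, Nat.testBit, X.yy, X.wy, hu1, hv2]
  · intro i hi
    interval_cases i <;>
      simp [h, b, bs, Finset.sum_range_succ, Nat.testBit, X.zz, X.yz, hu2, hv1]
  · intro i hi
    have s2 : SpM b 2 ≤ YS Y Z := SpM_le (fun i hi => by
      interval_cases i
      · exact X.tJ.2
      · exact hgS)
    have s3 : SpM b 3 ≤ YB Y Z ⊔ YS Y Z := SpM_le (fun i hi => by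
      interval_cases i
      · exact Submodule.mem_sup_left X.tJ.1
      · exact Submodule.mem_sup_right hgS
      · exact Submodule.mem_sup_left hβB)
    interval_cases i
    · intro h0
      have h1 : SpM b 0 ≤ ⊥ := SpM_le (fun i hi => by omega)
      exact X.t0 ((Submodule.mem_bot _).1 (h1 h0))
    · intro h0
      have h1 : SpM b 1 ≤ J Y Z := SpM_le (fun i hi => by
        interval_cases i
        exact X.tJ)
      exact hgJ (h1 h0)
    · intro h0
      exact hβJ ⟨hβB, s2 h0⟩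
    · intro h0
      exact hk (s3 h0)
    · intro h0
      have h1 : SpM b 4 ≤ LinearMap.range Y := SpM_le (fun i hi => by
        interval_cases i
        · exact ⟨z, rfl⟩
        · exact YS_le hgS
        · exact YB_le hβB
        · exact ⟨k, rfl⟩)
      exact X.wz (h1 h0)
    · intro h0
      have h1 : SpM b 5 ≤ LinearMap.range Y ⊔ ZA Y Z := SpM_le (fun i hi => by
        interval_cases i
        · exact Submodule.mem_sup_left ⟨z, rfl⟩
        · exact Submodule.mem_sup_left (YS_le hgS)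
        · exact Submodule.mem_sup_left (YB_le hβB)
        · exact Submodule.mem_sup_left ⟨k, rfl⟩
        · exact Submodule.mem_sup_right X.wZA)
      have h2 : Z k ∈ LinearMap.range Y ⊔ ZA Y Z := h1 h0
      obtain ⟨_, ⟨q, rfl⟩, _, ⟨a, ha0, rfl⟩, e⟩ := Submodule.mem_sup.1 h2
      have ha1 : Y a = 0 := ha0
      have e1 : Y q = Z (k + a) := by
        rw [map_add, ← e, add_assoc, ZModModule.add_self, add_zero]
      obtain ⟨r, hr1, hr2⟩ := X.L.l1 q (k + a) e1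
      apply hk
      have e2 : Y k = Y (k + a + r) + Y r := by
        rw [map_add, map_add, ha1, add_zero, add_assoc, ZModModule.add_self, add_zero]
      rw [e2]
      refine add_mem (Submodule.mem_sup_left (mem_YB.2 ⟨_, ?_, rfl⟩))
        (Submodule.mem_sup_right (mem_YS.2 ⟨r, rfl, ?_⟩))
      · rw [map_add, ← e1, hr2, ZModModule.add_self]
      · rw [hr2, hr1]

/-- table for type 1, 1, 2 | 1 | 0 -/
theorem case3 (hd : Module.finrank (ZMod 2) (J Y Z) = 1)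
    (ha : Module.finrank (ZMod 2) (ZA Y Z) ≤ 2) (hb : Module.finrank (ZMod 2) (YB Y Z) = 2)
    (hg : Module.finrank (ZMod 2) (YS Y Z) = 3)
    (hs : Module.finrank (ZMod 2) (LinearMap.range Y) ≤
      Module.finrank (ZMod 2) (YB Y Z ⊔ YS Y Z : Submodule _ _)) :
    Tab Y Z y z 6 5 [0, 1, 0, 2, 4, 8] [1, 0, 16, 2, 4, 0] := by
  have : Module.Finite (ZMod 2) R := Module.Finite.of_finite
  obtain ⟨g, hgS, hgJ⟩ := X.ex (J := J Y Z) (U := YS Y Z) inf_le_right (by omega)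
  obtain ⟨β, hβB, hβJ⟩ := X.ex (J := J Y Z) (U := YB Y Z) inf_le_left (by omega)
  have hJ1 : J Y Z ⊔ Submodule.span (ZMod 2) {g} ≤ YS Y Z :=
    sup_le inf_le_right ((Submodule.span_singleton_le_iff_mem _ _).2 hgS)
  have gJ1 : g ∈ J Y Z ⊔ Submodule.span (ZMod 2) {g} :=
    Submodule.mem_sup_right (Submodule.mem_span_singleton_self g)
  have h2 : J Y Z < J Y Z ⊔ Submodule.span (ZMod 2) {g} := by
    apply lt_of_le_of_ne le_sup_left
    intro h
    exact hgJ (h ▸ gJ1)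
  have h3 := Submodule.finrank_lt_finrank_of_lt h2
  have h4 : Module.finrank (ZMod 2) (J Y Z ⊔ Submodule.span (ZMod 2) {g} : Submodule _ _) ≤
      Module.finrank (ZMod 2) (J Y Z) + 1 := by
    have h5 := Submodule.finrank_add_le_finrank_add_finrank (J Y Z) (Submodule.span (ZMod 2) {g})
    have h6 := finrank_span_singleton (K := ZMod 2) (v := g)
      (fun h => hgJ (by rw [h]; exact zero_mem _))
    omega
  obtain ⟨g', hgS', hgJ'⟩ := X.ex hJ1 (by omega)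
  obtain ⟨u, hu1, hu2⟩ := mem_YS.1 hgS
  obtain ⟨u', hu1', hu2'⟩ := mem_YS.1 hgS'
  obtain ⟨v, hv1, hv2⟩ := mem_YB.1 hβB
  let h : ℕ → V := fun i => [y, z, w, u, u', v].getD i 0
  let b : ℕ → R := fun i => [Y z, g, g', β, Z w].getD i 0
  have H0 : y ∈ SpM h 6 := mem_SpM (h := h) (i := 0) (by norm_num)
  have H1 : z ∈ SpM h 6 := mem_SpM (h := h) (i := 1) (by norm_num)
  have H2 : w ∈ SpM h 6 := mem_SpM (h := h) (i := 2) (by norm_num)
  have H3 : u ∈ SpM h 6 := mem_SpM (h := h) (i := 3) (by norm_num)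
  have H4 : u' ∈ SpM h 6 := mem_SpM (h := h) (i := 4) (by norm_num)
  have H5 : v ∈ SpM h 6 := mem_SpM (h := h) (i := 5) (by norm_num)
  have JS : ∀ x ∈ YS Y Z, x ∈ J Y Z ⊔ Submodule.span (ZMod 2) {g} ∨
      x + g' ∈ J Y Z ⊔ Submodule.span (ZMod 2) {g} := fun x hx =>
    ext1 hJ1 (by omega) hgS' hgJ' hx
  have JB : ∀ x ∈ YB Y Z, x ∈ J Y Z ∨ x + β ∈ J Y Z := fun x hx =>
    ext1 (J := J Y Z) (U := YB Y Z) inf_le_left (by omega) hβB hβJ hx
  have JA : ∀ x ∈ ZA Y Z, x ∈ J Y Z ∨ x + Z w ∈ J Y Z := fun x hx =>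
    ext1 J_le_ZA (by omega) X.wZA X.wJ hx
  refine ⟨h, b, rfl, rfl, ?_, ?_, ?_, ?_⟩
  · apply build
    · refine (X.range_le hs).trans (sup_le ?_ ?_)
      · exact le_of_ext JB (X.J1 hd ⟨z, H1, rfl⟩) ⟨v, H5, hv2⟩
      · refine le_of_ext JS (sup_le (X.J1 hd ⟨z, H1, rfl⟩) ?_) ⟨u', H4, hu1'⟩
        exact (Submodule.span_singleton_le_iff_mem _ _).2 ⟨u, H3, hu1⟩
    · intro x hx
      have h1 : ZA Y Z ≤ (SpM h 6 ⊓ LinearMap.ker Y).map Z :=
        le_of_ext JA (X.J1 hd ⟨y, ⟨H0, X.yy⟩, X.yz.symm⟩) ⟨w, ⟨H2, X.wy⟩, rfl⟩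
      obtain ⟨v, ⟨h2, h3⟩, h4⟩ := h1 hx
      exact ⟨v, h2, h3, h4⟩
  · intro i hi
    interval_cases i <;>
      simp [h, b, bs, Finset.sum_range_succ, Nat.testBit, X.yy, X.wy, hu1, hu1', hv2]
  · intro i hi
    interval_cases i <;>
      simp [h, b, bs, Finset.sum_range_succ, Nat.testBit, X.zz, X.yz, hu2, hu2', hv1]
  · intro i hi
    interval_cases i
    · intro h0
      have h1 : SpM b 0 ≤ ⊥ := SpM_le (fun i hi => by omega)
      exact X.t0 ((Submodule.mem_bot _).1 (h1 h0))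
    · intro h0
      have h1 : SpM b 1 ≤ J Y Z := SpM_le (fun i hi => by
        interval_cases i
        exact X.tJ)
      exact hgJ (h1 h0)
    · intro h0
      have h1 : SpM b 2 ≤ J Y Z ⊔ Submodule.span (ZMod 2) {g} := SpM_le (fun i hi => by
        interval_cases i
        · exact Submodule.mem_sup_left X.tJ
        · exact gJ1)
      exact hgJ' (h1 h0)
    · intro h0
      have h1 : SpM b 3 ≤ YS Y Z := SpM_le (fun i hi => by
        interval_cases i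
        · exact X.tJ.2
        · exact hgS
        · exact hgS')
      exact hβJ ⟨hβB, h1 h0⟩
    · intro h0
      have h1 : SpM b 4 ≤ LinearMap.range Y := SpM_le (fun i hi => by
        interval_cases i
        · exact ⟨z, rfl⟩
        · exact YS_le hgS
        · exact YS_le hgS'
        · exact YB_le hβB)
      exact X.wz (h1 h0)

/-- table for type 1, 1, 1 | 2 | 0 -/
theorem case5 (hd : Module.finrank (ZMod 2) (J Y Z) = 2)
    (ha : Module.finrank (ZMod 2) (ZA Y Z) ≤ 3) (hb : Module.finrank (ZMod 2) (YB Y Z) = 3)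
    (hg : Module.finrank (ZMod 2) (YS Y Z) = 3)
    (hs : Module.finrank (ZMod 2) (LinearMap.range Y) ≤
      Module.finrank (ZMod 2) (YB Y Z ⊔ YS Y Z : Submodule _ _)) :
    Tab Y Z y z 7 5 [0, 1, 0, 0, 4, 8, 2] [1, 0, 16, 2, 4, 0, 0] := by
  have : Module.Finite (ZMod 2) R := Module.Finite.of_finite
  have hJ0 : Submodule.span (ZMod 2) {Y z} ≤ J Y Z :=
    (Submodule.span_singleton_le_iff_mem _ _).2 X.tJ
  have h6 := finrank_span_singleton (K := ZMod 2) X.t0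
  obtain ⟨t, htJ, htn⟩ := X.ex hJ0 (by omega)
  obtain ⟨g, hgS, hgJ⟩ := X.ex (J := J Y Z) (U := YS Y Z) inf_le_right (by omega)
  obtain ⟨β, hβB, hβJ⟩ := X.ex (J := J Y Z) (U := YB Y Z) inf_le_left (by omega)
  obtain ⟨c, hc1, hc2⟩ := mem_YB.1 htJ.1
  obtain ⟨a, ha1, ha2⟩ := mem_ZA.1 (J_le_ZA htJ)
  obtain ⟨u, hu1, hu2⟩ := mem_YS.1 hgS
  obtain ⟨v, hv1, hv2⟩ := mem_YB.1 hβB
  let h : ℕ → V := fun i => [y, z, w, a, u, v, c].getD i 0
  let b : ℕ → R := fun i => [Y z, t, g, β, Z w].getD i 0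
  have H0 : y ∈ SpM h 7 := mem_SpM (h := h) (i := 0) (by norm_num)
  have H1 : z ∈ SpM h 7 := mem_SpM (h := h) (i := 1) (by norm_num)
  have H2 : w ∈ SpM h 7 := mem_SpM (h := h) (i := 2) (by norm_num)
  have H3 : a ∈ SpM h 7 := mem_SpM (h := h) (i := 3) (by norm_num)
  have H4 : u ∈ SpM h 7 := mem_SpM (h := h) (i := 4) (by norm_num)
  have H5 : v ∈ SpM h 7 := mem_SpM (h := h) (i := 5) (by norm_num)
  have H6 : c ∈ SpM h 7 := mem_SpM (h := h) (i := 6) (by norm_num)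
  have J0 : ∀ x ∈ J Y Z, x ∈ Submodule.span (ZMod 2) {Y z} ∨
      x + t ∈ Submodule.span (ZMod 2) {Y z} := fun x hx => ext1 hJ0 (by omega) htJ htn hx
  have J2 : ∀ W : Submodule (ZMod 2) R, Y z ∈ W → t ∈ W → J Y Z ≤ W := fun W h1 h2 =>
    le_of_ext J0 ((Submodule.span_singleton_le_iff_mem _ _).2 h1) h2
  have JS : ∀ x ∈ YS Y Z, x ∈ J Y Z ∨ x + g ∈ J Y Z := fun x hx =>
    ext1 (J := J Y Z) (U := YS Y Z) inf_le_right (by omega) hgS hgJ hx
  have JB : ∀ x ∈ YB Y Z, x ∈ J Y Z ∨ x + β ∈ J Y Z := fun x hx =>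
    ext1 (J := J Y Z) (U := YB Y Z) inf_le_left (by omega) hβB hβJ hx
  have JA : ∀ x ∈ ZA Y Z, x ∈ J Y Z ∨ x + Z w ∈ J Y Z := fun x hx =>
    ext1 J_le_ZA (by omega) X.wZA X.wJ hx
  refine ⟨h, b, rfl, rfl, ?_, ?_, ?_, ?_⟩
  · apply build
    · refine (X.range_le hs).trans (sup_le ?_ ?_)
      · exact le_of_ext JB (J2 _ ⟨z, H1, rfl⟩ ⟨c, H6, hc2⟩) ⟨v, H5, hv2⟩
      · exact le_of_ext JS (J2 _ ⟨z, H1, rfl⟩ ⟨c, H6, hc2⟩) ⟨u, H4, hu1⟩
    · intro x hx
      have h1 : ZA Y Z ≤ (SpM h 7 ⊓ LinearMap.ker Y).map Z :=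
        le_of_ext JA (J2 _ ⟨y, ⟨H0, X.yy⟩, X.yz.symm⟩ ⟨a, ⟨H3, ha1⟩, ha2⟩) ⟨w, ⟨H2, X.wy⟩, rfl⟩
      obtain ⟨v, ⟨h2, h3⟩, h4⟩ := h1 hx
      exact ⟨v, h2, h3, h4⟩
  · intro i hi
    interval_cases i <;>
      simp [h, b, bs, Finset.sum_range_succ, Nat.testBit, X.yy, X.wy, hu1, hv2, ha1, hc2]
  · intro i hi
    interval_cases i <;>
      simp [h, b, bs, Finset.sum_range_succ, Nat.testBit, X.zz, X.yz, hu2, hv1, ha2, hc1]
  · intro i hi
    interval_cases i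
    · intro h0
      have h1 : SpM b 0 ≤ ⊥ := SpM_le (fun i hi => by omega)
      exact X.t0 ((Submodule.mem_bot _).1 (h1 h0))
    · intro h0
      have h1 : SpM b 1 ≤ Submodule.span (ZMod 2) {Y z} := SpM_le (fun i hi => by
        interval_cases i
        exact Submodule.mem_span_singleton_self _)
      exact htn (h1 h0)
    · intro h0
      have h1 : SpM b 2 ≤ J Y Z := SpM_le (fun i hi => by
        interval_cases i
        · exact X.tJ
        · exact htJ)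
      exact hgJ (h1 h0)
    · intro h0
      have h1 : SpM b 3 ≤ YS Y Z := SpM_le (fun i hi => by
        interval_cases i
        · exact X.tJ.2
        · exact htJ.2
        · exact hgS)
      exact hβJ ⟨hβB, h1 h0⟩
    · intro h0
      have h1 : SpM b 4 ≤ LinearMap.range Y := SpM_le (fun i hi => by
        interval_cases i
        · exact ⟨z, rfl⟩
        · exact YB_le htJ.1
        · exact YS_le hgS
        · exact YB_le hβB)
      exact X.wz (h1 h0)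

omit [Finite V] [Finite R] in
theorem swap : Std Y (Y + Z) y (y + z) w where
  L := by
    constructor
    · intro v v' h
      obtain ⟨u, h1, h2⟩ := X.L.l2 v v' h
      refine ⟨u, h1, ?_⟩
      change Y u + Z u = Y v
      rw [h1, h2, add_zero]
    · intro v v' h
      have h0 : Y v' + (Y + Z) v' = Z v' := by
        rw [← LinearMap.add_apply, swap_add]
      obtain ⟨u, h1, h2⟩ := X.L.l1 v v' (h.trans h0)
      refine ⟨u, h1, ?_⟩
      change Y u + Z u = 0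
      rw [h1, h2, ZModModule.add_self]
    · intro v v' h
      have h0 : Y v' + (Y + Z) v' = Z v' := by
        rw [← LinearMap.add_apply, swap_add]
      obtain ⟨u, h1, h2⟩ := X.L.l3 v' v (h0.symm.trans h.symm)
      refine ⟨u, ?_, h2⟩
      change Y u + Z u = (Y + Z) v
      rw [h1, h2, zero_add, h, h0]
  yy := X.yy
  zz := by
    change Y (y + z) + Z (y + z) = 0
    rw [map_add, map_add, X.yy, X.zz, X.yz, zero_add, add_zero, ZModModule.add_self]
  yz := by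
    change Y (y + z) = Y y + Z y
    rw [map_add, X.yy, X.yz]
  t0 := by
    rw [map_add, X.yy, zero_add]
    exact X.t0
  wy := X.wy
  wz := by
    change Y w + Z w ∉ LinearMap.range Y
    rw [X.wy, zero_add]
    exact X.wz

/-- the classification -/
theorem main (hA : Module.finrank (ZMod 2) (LinearMap.ker Y) ≤
      Module.finrank (ZMod 2) (LinearMap.ker Z))
    (hS : Module.finrank (ZMod 2) (LinearMap.ker Y) ≤
      Module.finrank (ZMod 2) (LinearMap.ker (Y + Z)))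
    (hr : Module.finrank (ZMod 2) (LinearMap.range Y) ≤ 4) :
    (Module.finrank (ZMod 2) (LinearMap.range Y) = 3 ∧
      Tab Y Z y z 5 4 [0, 1, 0, 2, 4] [1, 0, 8, 2, 0]) ∨
    Tab Y Z y z 6 6 [0, 1, 0, 2, 4, 8] [1, 0, 16, 2, 0, 32] ∨
    Tab Y Z y z 6 5 [0, 1, 0, 2, 4, 8] [1, 0, 16, 2, 4, 0] ∨
    Tab Y (Y + Z) y (y + z) 6 5 [0, 1, 0, 2, 4, 8] [1, 0, 16, 2, 4, 0] ∨
    (Tab Y Z y z 7 5 [0, 1, 0, 0, 4, 8, 2] [1, 0, 16, 2, 4, 0, 0] ∧
      Module.finrank (ZMod 2) (LinearMap.range Y) = 4 ∧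
      Module.finrank (ZMod 2) (LinearMap.ker Z) = Module.finrank (ZMod 2) (LinearMap.ker Y) ∧
      Module.finrank (ZMod 2) (LinearMap.ker (Y + Z)) = Module.finrank (ZMod 2) (LinearMap.ker Y) ∧
      LinearMap.range Y ≤ YB Y Z ⊔ YS Y Z) := by
  obtain ⟨d, a, b, g, s, r, c, e1, e2, e3, e4, e5, e6, e7, e8, e9, i1, i2, i3, i4, i5, i6, i7⟩ :=
    X.nums hA hS hr
  have hc : (d = 1 ∧ a = 2 ∧ b = 2 ∧ g = 2 ∧ r = 3) ∨ (d = 1 ∧ a = 2 ∧ b = 2 ∧ g = 2 ∧ r = 4) ∨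
      (d = 1 ∧ a = 2 ∧ b = 2 ∧ g = 3 ∧ r = 4) ∨ (d = 1 ∧ a = 2 ∧ b = 3 ∧ g = 2 ∧ r = 4) ∨
      (d = 2 ∧ a = 3 ∧ b = 3 ∧ g = 3 ∧ r = 4) := by omega
  rcases hc with ⟨h1, h2, h3, h4, h5⟩ | ⟨h1, h2, h3, h4, h5⟩ | ⟨h1, h2, h3, h4, h5⟩ |
    ⟨h1, h2, h3, h4, h5⟩ | ⟨h1, h2, h3, h4, h5⟩
  · exact Or.inl ⟨by omega, X.case1 (by omega) (by omega) (by omega) (by omega) (by omega)⟩
  · exact Or.inr (Or.inl (X.case2 (by omega) (by omega) (by omega) (by omega) (by omega)))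
  · exact Or.inr (Or.inr (Or.inl (X.case3 (by omega) (by omega) (by omega) (by omega) (by omega))))
  · refine Or.inr (Or.inr (Or.inr (Or.inl ?_)))
    have f1 : YB Y (Y + Z) = YS Y Z := rfl
    have f2 : YS Y (Y + Z) = YB Y Z := by
      unfold YS YB
      rw [swap_add]
    have f3 : J Y (Y + Z) = J Y Z := by
      unfold J
      rw [f1, f2, inf_comm]
    have f4 : ZA Y (Y + Z) = ZA Y Z := by
      ext x
      constructor
      · rintro ⟨v, hv, rfl⟩
        have hv' : Y v = 0 := hv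
        refine ⟨v, hv, ?_⟩
        change Z v = Y v + Z v
        rw [hv', zero_add]
      · rintro ⟨v, hv, rfl⟩
        have hv' : Y v = 0 := hv
        refine ⟨v, hv, ?_⟩
        change Y v + Z v = Z v
        rw [hv', zero_add]
    apply X.swap.case3
    · rw [f3]; omega
    · rw [f4]; omega
    · rw [f1]; omega
    · rw [f2]; omega
    · rw [f1, f2, sup_comm]; omega
  · exact Or.inr (Or.inr (Or.inr (Or.inr ⟨X.case5 (by omega) (by omega) (by omega) (by omega)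
      (by omega), by omega, by omega, by omega, X.range_le (by omega)⟩)))

end Std

end Pool.Agent.R4.Cls
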