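import Pool.Agent.R4.Defs
import Pool.Agent.R4.ClsTab

/-!
# Classification of bad noncommuting planes with at most sixteen values (helper14)
-/

set_option autoImplicit false

namespace Pool.Agent.R4

open Pool.Agent.Helper58.PLine (QData)
open Pool.Agent.ETCP
open Cls

namespace Cls

section pl
variable {V Q : Type} [AddCommGroup V] [Module (ZMod 2) V] {S : QData V Q} {y z : V}
  {R : Type} [AddCommGroup R] [Module (ZMod 2) R]

theorem kerY (P : Plane S y z R) {v : V} : P.Y v = 0 ↔ C S y v := by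
  have h := P.yz v 0
  rw [map_zero, C.zero (S := S) z] at h
  exact h

theorem kerZ (P : Plane S y z R) {v : V} : P.Z v = 0 ↔ C S z v := by
  have h := P.yz 0 v
  rw [map_zero, C.zero (S := S) y] at h
  unfold C
  exact ⟨fun e => (h.1 e.symm).symm, fun e => (h.2 e.symm).symm⟩

theorem kerS (P : Plane S y z R) {v : V} : P.Y v + P.Z v = 0 ↔ C S (y + z) v := by
  have h := P.ys 0 v
  rw [map_zero, C.zero (S := S) y] at h
  unfold C
  exact ⟨fun e => (h.1 e.symm).symm, fun e => (h.2 e.symm).symm⟩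

theorem plk (P : Plane S y z R) : LK P.Y P.Z where
  l1 := by
    intro v v' h
    obtain ⟨u, h1, h2⟩ := S.link _ _ _ _ ((P.yz v v').1 h)
    refine ⟨u, ?_, ?_⟩
    · rw [h]
      exact (P.yz u v').2 (h1.symm.trans ((P.yz v v').1 h))
    · exact ((P.yz v u).2 (((P.yz v v').1 h).trans h2)).symm
  l2 := by
    intro v v' h
    have h0 := (P.ys v v').1 h
    obtain ⟨u, h1, h2⟩ := S.link _ _ _ _ h0
    have h3 : P.Y u = P.Y v := by
      rw [h]
      exact (P.ys u v').2 (h1.symm.trans h0)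
    have h4 : P.Y v = P.Y u + P.Z u := (P.ys v u).2 (h0.trans h2)
    refine ⟨u, h3, ?_⟩
    rw [h3] at h4
    have h5 : P.Y v + 0 = P.Y v + P.Z u := by rw [add_zero]; exact h4
    exact (add_left_cancel h5).symm
  l3 := by
    intro v v' h
    have h0 := (P.zs v v').1 h
    obtain ⟨u, h1, h2⟩ := S.link _ _ _ _ h0
    have h3 : P.Z u = P.Z v := by
      rw [h]
      exact (P.zs u v').2 (h1.symm.trans h0)
    have h4 : P.Z v = P.Y u + P.Z u := (P.zs v u).2 (h0.trans h2)
    refine ⟨u, h3, ?_⟩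
    rw [h3] at h4
    have h5 : 0 + P.Z v = P.Y u + P.Z v := by rw [zero_add]; exact h4
    exact (add_right_cancel h5).symm

theorem zz_eq (y z : V) : y + (y + z) = z := by
  rw [← add_assoc, ZModModule.add_self, zero_add]

/-- the plane `⟨y, y + z⟩` -/
def pswap (P : Plane S y z R) : Plane S y (y + z) R where
  Y := P.Y
  Z := P.Y + P.Z
  yz := P.ys
  ys := by
    intro v v'
    change P.Y v = P.Y v' + (P.Y v' + P.Z v') ↔ _
    rw [← add_assoc, ZModModule.add_self, zero_add, zz_eq]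
    exact P.yz v v'
  zs := by
    intro v v'
    change P.Y v + P.Z v = P.Y v' + (P.Y v' + P.Z v') ↔ _
    rw [← add_assoc, ZModModule.add_self, zero_add, zz_eq]
    exact ⟨fun e => ((P.zs v' v).1 e.symm).symm, fun e => ((P.zs v' v).2 e.symm).symm⟩

theorem toReal {P : Plane S y z R} {N RD : ℕ} {Yc Zc : List ℕ} (T : Tab P.Y P.Z y z N RD Yc Zc) :
    Nonempty (Real P N RD Yc Zc) := by
  obtain ⟨h, b, h0, h1, hs, hY, hZ, hb⟩ := T
  refine ⟨⟨h, b, h0, h1, ?_, hY, hZ, bs_inj hb⟩⟩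
  intro v
  obtain ⟨x, hx, e1, e2⟩ := hs v
  obtain ⟨n, hn, rfl⟩ := exists_bs hx
  exact ⟨n, hn, e1, e2⟩

theorem card_pow (W : Type) [AddCommGroup W] [Module (ZMod 2) W] [Finite W] :
    Nat.card W = 2 ^ Module.finrank (ZMod 2) W := by
  have : Module.Finite (ZMod 2) W := Module.Finite.of_finite
  rw [Module.natCard_eq_pow_finrank (K := ZMod 2), Nat.card_zmod]

end pl

end Cls

/-- **Classification of the bad noncommuting planes** -/
theorem cls (hP : Stmt_Plane) : Stmt_Cls := by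
  intro V Q _ _ _ S y z he h16 hmax hc hbad
  obtain ⟨R, iR, mR, hfin, ⟨P⟩⟩ := hP V Q S y z he
  obtain ⟨w, hw, hwk⟩ := hbad
  have : Module.Finite (ZMod 2) V := Module.Finite.of_finite
  have X : Std P.Y P.Z y z w := by
    refine ⟨plk P, (kerY P).2 (C.self he y), (kerZ P).2 (C.self he z), ?_, ?_, (kerY P).2 hw, ?_⟩
    · exact (P.yz z y).2 (S.symm _ _)
    · exact fun h => hc ((kerY P).1 h)
    · rintro ⟨k, hk⟩
      exact hwk k ((P.yz k w).1 hk).symm
  have aY : S.ann y = LinearMap.ker P.Y := by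
    ext v; exact (kerY P).symm
  have aZ : S.ann z = LinearMap.ker P.Z := by
    ext v; exact (kerZ P).symm
  have aS : S.ann (y + z) = LinearMap.ker (P.Y + P.Z) := by
    ext v; exact (kerS P).symm
  have hn := LinearMap.finrank_range_add_finrank_ker P.Y
  have cV := card_pow V
  have cY := card_pow (LinearMap.ker P.Y)
  have cZ := card_pow (LinearMap.ker P.Z)
  have cS := card_pow (LinearMap.ker (P.Y + P.Z))
  have hA : Module.finrank (ZMod 2) (LinearMap.ker P.Y) ≤
      Module.finrank (ZMod 2) (LinearMap.ker P.Z) := by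
    have h1 := hmax z
    rw [aY, aZ, cY, cZ] at h1
    exact (Nat.pow_le_pow_iff_right (by norm_num)).1 h1
  have hS : Module.finrank (ZMod 2) (LinearMap.ker P.Y) ≤
      Module.finrank (ZMod 2) (LinearMap.ker (P.Y + P.Z)) := by
    have h1 := hmax (y + z)
    rw [aY, aS, cY, cS] at h1
    exact (Nat.pow_le_pow_iff_right (by norm_num)).1 h1
  have hr : Module.finrank (ZMod 2) (LinearMap.range P.Y) ≤ 4 := by
    have h1 := h16 y
    rw [aY, cV, cY, ← hn, show (16 : ℕ) = 2 ^ 4 by norm_num, ← pow_add] at h1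
    have h2 := (Nat.pow_le_pow_iff_right (by norm_num)).1 h1
    omega
  rcases X.main hA hS hr with ⟨h3, T⟩ | T | T | T | ⟨T, h4, h5, h6, h7⟩
  · refine Or.inl ⟨?_, R, iR, mR, P, toReal T⟩
    intro x
    have h1 : Nat.card V = 8 * Nat.card (S.ann y) := by
      rw [aY, cV, cY, ← hn, h3, pow_add]
      norm_num
    rw [h1]
    exact Nat.mul_le_mul_left _ (hmax x)
  · exact Or.inr (Or.inl ⟨R, iR, mR, P, toReal T⟩)
  · exact Or.inr (Or.inr (Or.inl ⟨R, iR, mR, P, toReal T⟩))
  · exact Or.inr (Or.inr (Or.inr (Or.inl ⟨R, iR, mR, pswap P, toReal (P := pswap P) T⟩)))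
  · refine Or.inr (Or.inr (Or.inr (Or.inr ⟨⟨R, iR, mR, P, toReal T⟩, ?_, ?_, ?_, ?_⟩)))
    · rw [aY, cV, cY, ← hn, h4, pow_add]
      norm_num
    · rw [aZ, cV, cZ, ← hn, h4, h5, pow_add]
      norm_num
    · rw [aS, cV, cS, ← hn, h4, h6, pow_add]
      norm_num
    · intro v
      obtain ⟨_, ⟨b, hb, rfl⟩, _, ⟨c, hcc, rfl⟩, e⟩ := Submodule.mem_sup.1 (h7 ⟨v, rfl⟩)
      refine ⟨v + b + c, b, c, (kerY P).1 ?_, (kerZ P).1 hb, (kerS P).1 hcc, ?_⟩
      · rw [map_add, map_add, add_assoc, e, ZModModule.add_self]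
      · rw [add_assoc v b c, add_assoc v (b + c) b, add_comm (b + c) b, ← add_assoc b b c,
          ZModModule.add_self, zero_add, add_assoc, ZModModule.add_self, add_zero]

end Pool.Agent.R4
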