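import Mathlib

/-!
# Linear algebra for the classification of planes (helper14)
-/

set_option autoImplicit false

namespace Pool.Agent.R4.Cls

section bs
variable {M : Type} [AddCommGroup M] [Module (ZMod 2) M]

/-- the span of the first `N` vectors -/
def SpM (h : ℕ → M) (N : ℕ) : Submodule (ZMod 2) M :=
  Submodule.span (ZMod 2) (h '' Set.Iio N)

/-- the sum of the `h i`, `i < N`, over the binary digits of `n` -/
def bs (h : ℕ → M) (N n : ℕ) : M :=
  ∑ i ∈ Finset.range N, if n.testBit i then h i else 0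

theorem mem_SpM {h : ℕ → M} {N i : ℕ} (hi : i < N) : h i ∈ SpM h N :=
  Submodule.subset_span ⟨i, hi, rfl⟩

theorem SpM_le {h : ℕ → M} {N : ℕ} {U : Submodule (ZMod 2) M} (hU : ∀ i < N, h i ∈ U) :
    SpM h N ≤ U := by
  apply Submodule.span_le.2
  rintro x ⟨i, hi, rfl⟩
  exact hU i hi

theorem bs_succ (h : ℕ → M) (N n : ℕ) :
    bs h (N + 1) n = bs h N n + if n.testBit N then h N else 0 :=
  Finset.sum_range_succ _ _

theorem bs_add (h : ℕ → M) (N n : ℕ) : bs h N (2 ^ N + n) = bs h N n := by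
  apply Finset.sum_congr rfl
  intro i hi
  rw [Nat.testBit_two_pow_add_gt (Finset.mem_range.1 hi)]

theorem bs_mem (h : ℕ → M) (N n : ℕ) : bs h N n ∈ SpM h N := by
  apply Submodule.sum_mem
  intro i hi
  split_ifs
  · exact mem_SpM (Finset.mem_range.1 hi)
  · exact zero_mem _

theorem zm (a : ZMod 2) : a = 0 ∨ a = 1 := by revert a; decide

theorem exists_bs {h : ℕ → M} {N : ℕ} : ∀ {x : M}, x ∈ SpM h N → ∃ n < 2 ^ N, bs h N n = x := by
  induction N with
  | zero =>
    intro x hx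
    refine ⟨0, by norm_num, ?_⟩
    have h1 : h '' Set.Iio 0 = ∅ := by
      ext y; simp
    unfold SpM at hx
    rw [h1, Submodule.span_empty, Submodule.mem_bot] at hx
    rw [hx]; rfl
  | succ N ih =>
    intro x hx
    have h1 : h '' Set.Iio (N + 1) = insert (h N) (h '' Set.Iio N) := by
      rw [← Set.image_insert_eq]
      congr 1
      ext i
      simp only [Set.mem_Iio, Set.mem_insert_iff]
      omega
    unfold SpM at hx
    rw [h1, Submodule.mem_span_insert] at hx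
    obtain ⟨a, z, hz, rfl⟩ := hx
    obtain ⟨n, hn, e⟩ := ih hz
    have hp : 2 ^ (N + 1) = 2 * 2 ^ N := by rw [pow_succ, mul_comm]
    rcases zm a with rfl | rfl
    · refine ⟨n, by omega, ?_⟩
      rw [bs_succ, Nat.testBit_lt_two_pow hn, e]
      simp
    · refine ⟨2 ^ N + n, by omega, ?_⟩
      rw [bs_succ, bs_add, e, Nat.testBit_two_pow_add_eq, Nat.testBit_lt_two_pow hn]
      simp [add_comm]

theorem bs_inj {b : ℕ → M} : ∀ {D : ℕ}, (∀ N < D, b N ∉ SpM b N) →
    ∀ ρ < 2 ^ D, bs b D ρ = 0 → ρ = 0 := by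
  intro D
  induction D with
  | zero => intro _ ρ hρ _; simpa using hρ
  | succ D ih =>
    intro hb ρ hρ h0
    have hp : 2 ^ (D + 1) = 2 * 2 ^ D := by rw [pow_succ, mul_comm]
    rw [bs_succ] at h0
    by_cases hlt : ρ < 2 ^ D
    · rw [Nat.testBit_lt_two_pow hlt] at h0
      exact ih (fun N hN => hb N (by omega)) ρ hlt (by simpa using h0)
    · exfalso
      obtain ⟨n, rfl⟩ := Nat.exists_eq_add_of_le (not_lt.1 hlt)
      have hn : n < 2 ^ D := by omega
      rw [Nat.testBit_two_pow_add_eq, Nat.testBit_lt_two_pow hn, bs_add] at h0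
      simp only [Bool.not_false, if_true] at h0
      apply hb D (by omega)
      have h1 : b D = bs b D n := by
        have := eq_neg_of_add_eq_zero_right h0
        rw [this, ZModModule.neg_eq_self]
      rw [h1]
      exact bs_mem _ _ _

end bs

section lin
variable {V R : Type} [AddCommGroup V] [Module (ZMod 2) V] [AddCommGroup R] [Module (ZMod 2) R]

/-- the linkage properties of a plane -/
structure LK (Y Z : V →ₗ[ZMod 2] R) : Prop where
  l1 : ∀ v v', Y v = Z v' → ∃ u, Y u = Y v ∧ Z u = Y v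
  l2 : ∀ v v', Y v = Y v' + Z v' → ∃ u, Y u = Y v ∧ Z u = 0
  l3 : ∀ v v', Z v = Y v' + Z v' → ∃ u, Z u = Z v ∧ Y u = 0

variable (Y Z : V →ₗ[ZMod 2] R)

/-- values of `y` on `V_z` -/
def YB : Submodule (ZMod 2) R := (LinearMap.ker Z).map Y
/-- values of `y` on `V_s` -/
def YS : Submodule (ZMod 2) R := (LinearMap.ker (Y + Z)).map Y
/-- values of `z` on `V_y` -/
def ZA : Submodule (ZMod 2) R := (LinearMap.ker Y).map Z
/-- the triple intersection -/
def J : Submodule (ZMod 2) R := YB Y Z ⊓ YS Y Z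

variable {Y Z}

theorem mem_YB {x : R} : x ∈ YB Y Z ↔ ∃ v, Z v = 0 ∧ Y v = x := Iff.rfl

theorem aeq {M : Type} [AddCommGroup M] [Module (ZMod 2) M] {a b : M} : a + b = 0 ↔ a = b := by
  constructor
  · intro h
    have := eq_neg_of_add_eq_zero_left h
    rwa [ZModModule.neg_eq_self] at this
  · rintro rfl
    exact ZModModule.add_self a

theorem mem_YS {x : R} : x ∈ YS Y Z ↔ ∃ v, Y v = x ∧ Z v = x := by
  constructor
  · rintro ⟨v, hv, rfl⟩
    have h1 : Y v + Z v = 0 := hv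
    exact ⟨v, rfl, (aeq.1 h1).symm⟩
  · rintro ⟨v, rfl, h2⟩
    refine ⟨v, ?_, rfl⟩
    change Y v + Z v = 0
    rw [h2]
    exact ZModModule.add_self _

theorem mem_ZA {x : R} : x ∈ ZA Y Z ↔ ∃ v, Y v = 0 ∧ Z v = x := Iff.rfl

theorem YB_le : YB Y Z ≤ LinearMap.range Y := by
  rintro x ⟨v, _, rfl⟩; exact ⟨v, rfl⟩

theorem YS_le : YS Y Z ≤ LinearMap.range Y := by
  rintro x ⟨v, _, rfl⟩; exact ⟨v, rfl⟩

theorem J_le_ZA : J Y Z ≤ ZA Y Z := by
  rintro x ⟨h1, h2⟩
  obtain ⟨b, hb, e⟩ := mem_YB.1 h1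
  obtain ⟨u, hu, e2⟩ := mem_YS.1 h2
  refine mem_ZA.2 ⟨b + u, ?_, ?_⟩
  · rw [map_add, e, hu]; exact ZModModule.add_self _
  · rw [map_add, hb, e2, zero_add]

theorem ZA_inf (L : LK Y Z) : ZA Y Z ⊓ LinearMap.range Y ≤ J Y Z := by
  rintro x ⟨h1, v, rfl⟩
  obtain ⟨a, ha, e⟩ := mem_ZA.1 h1
  constructor
  · obtain ⟨u, hu, hu2⟩ := L.l2 v a (by rw [ha, zero_add, e])
    exact mem_YB.2 ⟨u, hu2, hu⟩
  · obtain ⟨u, hu, hu2⟩ := L.l1 v a e.symm
    exact mem_YS.2 ⟨u, hu, hu2⟩

/-- one more dimension -/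
theorem ext1 {M : Type} [AddCommGroup M] [Module (ZMod 2) M] [Finite M]
    {J U : Submodule (ZMod 2) M} (hJ : J ≤ U)
    (hd : Module.finrank (ZMod 2) U ≤ Module.finrank (ZMod 2) J + 1) {u : M} (hu : u ∈ U)
    (hn : u ∉ J) {x : M} (hx : x ∈ U) : x ∈ J ∨ x + u ∈ J := by
  haveI : Module.Finite (ZMod 2) M := Module.Finite.of_finite
  have h1 : J ⊔ Submodule.span (ZMod 2) {u} ≤ U :=
    sup_le hJ ((Submodule.span_singleton_le_iff_mem _ _).2 hu)
  have h2 : J < J ⊔ Submodule.span (ZMod 2) {u} := by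
    apply lt_of_le_of_ne le_sup_left
    intro h
    apply hn
    rw [h]
    exact Submodule.mem_sup_right (Submodule.mem_span_singleton_self u)
  have h3 := Submodule.finrank_lt_finrank_of_lt h2
  have h4 : J ⊔ Submodule.span (ZMod 2) {u} = U := by
    apply Submodule.eq_of_le_of_finrank_le h1
    omega
  rw [← h4] at hx
  obtain ⟨j, hj, s, hs, rfl⟩ := Submodule.mem_sup.1 hx
  obtain ⟨a, rfl⟩ := Submodule.mem_span_singleton.1 hs
  rcases zm a with rfl | rfl
  · left; simpa using hj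
  · right
    rw [one_smul, add_assoc, ZModModule.add_self, add_zero]
    exact hj

theorem finrank_map (f : V →ₗ[ZMod 2] R) (p : Submodule (ZMod 2) V) [Finite V] :
    Module.finrank (ZMod 2) (p.map f) + Module.finrank (ZMod 2) (p ⊓ LinearMap.ker f : Submodule _ _)
      = Module.finrank (ZMod 2) p := by
  haveI : Module.Finite (ZMod 2) V := Module.Finite.of_finite
  have h := LinearMap.finrank_range_add_finrank_ker (f.domRestrict p)
  rw [LinearMap.range_domRestrict] at h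
  have h2 : Module.finrank (ZMod 2) (LinearMap.ker (f.domRestrict p)) =
      Module.finrank (ZMod 2) (p ⊓ LinearMap.ker f : Submodule _ _) := by
    have h3 : (LinearMap.ker (f.domRestrict p)).map p.subtype = p ⊓ LinearMap.ker f := by
      ext v
      constructor
      · rintro ⟨w, hw, rfl⟩
        exact ⟨w.2, hw⟩
      · rintro ⟨h4, h5⟩
        exact ⟨⟨v, h4⟩, h5, rfl⟩
    rw [← h3]
    exact (LinearEquiv.finrank_eq (Submodule.equivMapOfInjective p.subtype
      (Submodule.injective_subtype p) _))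
  omega

/-- the span property -/
theorem build {H : Submodule (ZMod 2) V} (h1 : LinearMap.range Y ≤ H.map Y)
    (h2 : ∀ x ∈ ZA Y Z, ∃ v ∈ H, Y v = 0 ∧ Z v = x) (v : V) :
    ∃ x ∈ H, Y (v + x) = 0 ∧ Z (v + x) = 0 := by
  obtain ⟨x1, hx1, e1⟩ := h1 ⟨v, rfl⟩
  have e1' : Y (v + x1) = 0 := by rw [map_add, e1]; exact ZModModule.add_self _
  obtain ⟨x2, hx2, e2, e3⟩ := h2 (Z (v + x1)) (mem_ZA.2 ⟨_, e1', rfl⟩)
  refine ⟨x1 + x2, add_mem hx1 hx2, ?_, ?_⟩
  · rw [← add_assoc, map_add, e1', e2, zero_add]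
  · rw [← add_assoc, map_add, e3]; exact ZModModule.add_self _

end lin

end Pool.Agent.R4.Cls
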