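import Pool.Agent.R4.Sem

/-!
# Codes of elements and values in a plane with a table (helper66)
-/

set_option autoImplicit false
set_option linter.unusedSimpArgs false

namespace Pool.Agent.R4

open Pool.Agent.Helper58.PLine (QData)
open Pool.Agent.ETCP

/-- the facts contained in `tbOK` -/
structure TbP (t : Tb) : Prop where
  N2 : 2 ≤ t.N
  N8 : t.N ≤ 8
  R1 : 1 ≤ t.RD
  R8 : t.RD ≤ 8
  Yl : t.Yc.length = t.N
  Zl : t.Zc.length = t.N
  Y0 : t.Yc.getD 0 1 = 0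
  Z1 : t.Zc.getD 1 1 = 0
  YZ : t.Yc.getD 1 0 = t.Zc.getD 0 0
  ker : ∀ j < 4, ∀ m < 2 ^ t.N, apu t j m = 0 → m ∈ t.ker.getD j []
  rng : ∀ j < 4, ∀ m < 2 ^ t.N, j ≠ 0 → (t.rng.getD j 0).testBit (apu t j m) = true
  lt : ∀ j < 4, ∀ m < 2 ^ t.N, apu t j m < 2 ^ t.RD
  kerlt : ∀ j < 4, ∀ m ∈ t.ker.getD j [], m < 2 ^ t.N
  aut : ∀ a ∈ t.aut, autOK t a = true

theorem tbP_of {t : Tb} (h : tbOK t = true) : TbP t := by
  unfold tbOK at h
  simp only [Bool.and_eq_true, decide_eq_true_eq, beq_iff_eq, List.all_eq_true, List.mem_range,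
    Bool.or_eq_true, bne_iff_ne, List.contains_iff_mem] at h
  obtain ⟨⟨⟨⟨⟨⟨⟨⟨⟨⟨⟨h1, h2⟩, h3⟩, h4⟩, h5⟩, h6⟩, h7⟩, h8⟩, h9⟩, h10⟩, h11⟩, h12⟩ := h
  exact
    { N2 := h4, N8 := h5, R1 := h6, R8 := h7, Yl := h8, Zl := h9, Y0 := h1, Z1 := h2, YZ := h3
      ker := fun j hj m hm h0 => (h11 j hj m hm).1.1.resolve_left (fun h => h h0)
      rng := fun j hj m hm h0 => (h11 j hj m hm).1.2.resolve_left h0
      lt := fun j hj m hm => (h11 j hj m hm).2
      kerlt := fun j hj m hm => h12 j hj m hm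
      aut := h10 }

theorem pow_le_256 {n : ℕ} (h : n ≤ 8) : 2 ^ n ≤ 256 := by
  calc 2 ^ n ≤ 2 ^ 8 := Nat.pow_le_pow_right (by norm_num) h
    _ = 256 := by norm_num

variable {V Q : Type} [AddCommGroup V] [Module (ZMod 2) V] {S : QData V Q} {y z : V}
  {R : Type} [AddCommGroup R] [Module (ZMod 2) R] {P : Plane S y z R} {t : Tb}

namespace Real

variable (rl : Real P t.N t.RD t.Yc t.Zc)

/-- the element with code `n` -/
def vec (n : ℕ) : V := bsum rl.h t.N n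

/-- the value with code `ρ` -/
def emb (ρ : ℕ) : R := bsum rl.b t.RD ρ

/-- `v` belongs to the class `n` -/
def cl (v : V) (n : ℕ) : Prop := P.Y (v + rl.vec n) = 0 ∧ P.Z (v + rl.vec n) = 0

theorem vec_zero : rl.vec 0 = 0 := bsum_zero _ _

theorem emb_zero : rl.emb 0 = 0 := bsum_zero _ _

theorem vec_xor (m n : ℕ) : rl.vec (m ^^^ n) = rl.vec m + rl.vec n := bsum_xor _ _ _ _

theorem emb_xor (m n : ℕ) : rl.emb (m ^^^ n) = rl.emb m + rl.emb n := bsum_xor _ _ _ _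

variable {rl} (tp : TbP t)

theorem emb_inj {a b : ℕ} (ha : a < 2 ^ t.RD) (hb : b < 2 ^ t.RD) (h : rl.emb a = rl.emb b) :
    a = b := by
  have h1 : rl.emb (a ^^^ b) = 0 := by rw [rl.emb_xor, h, ZModModule.add_self]
  have h2 := rl.inj (a ^^^ b) (Nat.xor_lt_two_pow ha hb) h1
  exact Nat.xor_eq_zero_iff.1 h2

include tp in
theorem Y_vec (n : ℕ) : P.Y (rl.vec n) = rl.emb (ap t.Yc n) := by
  unfold vec
  rw [bsum_map, map_ap rl.emb rl.emb_zero rl.emb_xor, tp.Yl]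
  exact bsum_congr (fun i hi => rl.hY i hi) n

include tp in
theorem Z_vec (n : ℕ) : P.Z (rl.vec n) = rl.emb (ap t.Zc n) := by
  unfold vec
  rw [bsum_map, map_ap rl.emb rl.emb_zero rl.emb_xor, tp.Zl]
  exact bsum_congr (fun i hi => rl.hZ i hi) n

include tp in
theorem um_vec (i n : ℕ) : P.um i (rl.vec n) = rl.emb (apu t i n) := by
  unfold apu Plane.um
  rw [rl.emb_xor]
  rcases Nat.mod_two_eq_zero_or_one i with h1 | h1 <;>
    rcases Nat.mod_two_eq_zero_or_one (i / 2) with h2 | h2 <;>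
    simp only [h1, h2, if_true, if_false, zero_ne_one, LinearMap.add_apply,
      LinearMap.zero_apply, add_zero, zero_add, zero_mul, one_mul, rl.emb_zero, Y_vec tp,
      Z_vec tp]

include tp in
theorem vec_uv {u : ℕ} (hu : u < 4) : rl.vec u = uv y z u := by
  have h1 : rl.vec 1 = y := by
    have := bsum_two_pow rl.h (N := t.N) (i := 0) (by have := tp.N2; omega)
    rw [rl.h0] at this
    exact this
  have h2 : rl.vec 2 = z := by
    have := bsum_two_pow rl.h (N := t.N) (i := 1) (by have := tp.N2; omega)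
    rw [rl.h1] at this
    exact this
  have h3 : rl.vec 3 = y + z := by
    have := rl.vec_xor 1 2
    rw [h1, h2] at this
    exact this
  interval_cases u
  · rw [rl.vec_zero]; simp [uv]
  · rw [h1]; simp [uv]
  · rw [h2]; simp [uv]
  · rw [h3]; simp [uv]

theorem cl_vec (n : ℕ) : rl.cl (rl.vec n) n := by
  unfold cl
  rw [ZModModule.add_self, map_zero, map_zero]
  exact ⟨rfl, rfl⟩

theorem cl_zero : rl.cl 0 0 := by
  have := rl.cl_vec 0
  rwa [rl.vec_zero] at this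

theorem cl_add {v v' : V} {n n' : ℕ} (h : rl.cl v n) (h' : rl.cl v' n') :
    rl.cl (v + v') (n ^^^ n') := by
  have e : v + v' + rl.vec (n ^^^ n') = (v + rl.vec n) + (v' + rl.vec n') := by
    rw [rl.vec_xor]; abel
  unfold cl
  rw [e, map_add P.Y (v + rl.vec n), map_add P.Z (v + rl.vec n), h.1, h.2, h'.1, h'.2, add_zero]
  exact ⟨rfl, rfl⟩

theorem cl_uv {u : ℕ} (tp : TbP t) (hu : u < 4) : rl.cl (uv y z u) u := by
  rw [← vec_uv (rl := rl) tp hu]
  exact rl.cl_vec u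

theorem cl_ex (rl : Real P t.N t.RD t.Yc t.Zc) (v : V) : ∃ n < 2 ^ t.N, rl.cl v n := rl.span v

include tp in
theorem um_cl {v : V} {n : ℕ} (h : rl.cl v n) (i : ℕ) : P.um i v = rl.emb (apu t i n) := by
  have h0 : P.um i (v + rl.vec n) = 0 := by
    unfold Plane.um
    rcases Nat.mod_two_eq_zero_or_one i with h1 | h1 <;>
      rcases Nat.mod_two_eq_zero_or_one (i / 2) with h2 | h2 <;>
      simp only [h1, h2, if_true, if_false, zero_ne_one, LinearMap.add_apply,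
        LinearMap.zero_apply, add_zero, zero_add, h.1, h.2]
  rw [map_add, um_vec tp] at h0
  exact f2 h0

/-- `x` is the code of `h` and the value `q (g, h)` -/
def TT (rl : Real P t.N t.RD t.Yc t.Zc) (g h : V) (x : ℕ) : Prop :=
  x % 256 < 2 ^ t.N ∧ x / 256 < 2 ^ t.RD ∧ rl.cl h (x % 256) ∧ P.T g h (rl.emb (x / 256))

/-- `x` is the code of some element and its value -/
def Tx (rl : Real P t.N t.RD t.Yc t.Zc) (g : V) (x : ℕ) : Prop := ∃ h, rl.TT g h x

theorem TT.zero (g : V) : rl.TT g 0 0 := by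
  refine ⟨Nat.two_pow_pos _, Nat.two_pow_pos _, rl.cl_zero, ?_⟩
  show P.T g 0 (rl.emb 0)
  rw [rl.emb_zero]
  exact Plane.T.zero g

theorem TT.add {g h h' : V} {x x' : ℕ} (a : rl.TT g h x) (b : rl.TT g h' x') :
    rl.TT g (h + h') (x ^^^ x') := by
  unfold TT
  rw [xor_mod256, xor_div256, rl.emb_xor]
  exact ⟨Nat.xor_lt_two_pow a.1 b.1, Nat.xor_lt_two_pow a.2.1 b.2.1, cl_add a.2.2.1 b.2.2.1,
    a.2.2.2.add b.2.2.2⟩

theorem Tx.zero (g : V) : rl.Tx g 0 := ⟨0, TT.zero g⟩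

theorem Tx.add {g : V} {x x' : ℕ} (a : rl.Tx g x) (b : rl.Tx g x') : rl.Tx g (x ^^^ x') := by
  obtain ⟨h, ha⟩ := a
  obtain ⟨h', hb⟩ := b
  exact ⟨_, ha.add hb⟩

theorem Tx.ap {g : V} {B : List ℕ} (hB : ∀ x ∈ B, rl.Tx g x) (n : ℕ) : rl.Tx g (ap B n) :=
  pred_ap (rl.Tx g) (Tx.zero g) (fun _ _ a b => a.add b) B hB n

include tp in
theorem TT.mk' {g h : V} {m r : ℕ} (hm : m < 2 ^ t.N) (hr : r < 2 ^ t.RD) (hc : rl.cl h m)
    (hT : P.T g h (rl.emb r)) : rl.TT g h (m + 256 * r) := by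
  have h1 := pow_le_256 tp.N8
  have e1 : (m + 256 * r) % 256 = m := by omega
  have e2 : (m + 256 * r) / 256 = r := by omega
  unfold TT
  rw [e1, e2]
  exact ⟨hm, hr, hc, hT⟩

include tp in
/-- an element commuting with `g + u` -/
theorem TT.zc {g h : V} {m i : ℕ} (hi : i < 4) (hm : m < 2 ^ t.N) (hc : rl.cl h m)
    (hC : C S (g + uv y z i) h) : rl.TT g h (zc t i m) := by
  refine TT.mk' tp hm (tp.lt i hi m hm) hc ?_
  have h1 := (Plane.T.zero_iff (P := P).2 hC).shift i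
  have e : g + uv y z i + uv y z i = g := f2 (by abel_nf; simp only [ch2, add_zero])
  rw [e, zero_add, um_cl tp hc] at h1
  exact h1

include tp in
theorem TT.sg {g h : V} {x i : ℕ} (hi : i < 4) (a : rl.TT g h x) :
    P.T (g + uv y z i) h (rl.emb (sg t i x)) ∧ sg t i x < 2 ^ t.RD := by
  constructor
  · have h1 := a.2.2.2.shift i
    rw [um_cl tp a.2.2.1, ← rl.emb_xor] at h1
    exact h1
  · exact Nat.xor_lt_two_pow a.2.1 (tp.lt i hi _ a.1)

include tp in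
/-- all values are in the group of the table -/
theorem T_emb {g h : V} {ρ : R} (rl : Real P t.N t.RD t.Yc t.Zc) (a : P.T g h ρ) :
    ∃ r < 2 ^ t.RD, ρ = rl.emb r := by
  obtain ⟨h1, h2, h3, -, -, -, -, e⟩ := a
  obtain ⟨n1, l1, c1⟩ := rl.cl_ex h1
  obtain ⟨n2, l2, c2⟩ := rl.cl_ex h2
  obtain ⟨n3, l3, c3⟩ := rl.cl_ex h3
  have e1 := um_cl tp c1 1
  have e2 := um_cl tp c2 2
  have e3 := um_cl tp c3 3
  have f1 : P.um 1 h1 = P.Y h1 := by simp [Plane.um]
  have f3 : P.um 2 h2 = P.Z h2 := by simp [Plane.um]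
  have f4 : P.um 3 h3 = P.Y h3 + P.Z h3 := by simp [Plane.um]
  refine ⟨apu t 1 n1 ^^^ apu t 2 n2 ^^^ apu t 3 n3, ?_, ?_⟩
  · exact Nat.xor_lt_two_pow (Nat.xor_lt_two_pow (tp.lt 1 (by norm_num) _ l1)
      (tp.lt 2 (by norm_num) _ l2)) (tp.lt 3 (by norm_num) _ l3)
  · rw [rl.emb_xor, rl.emb_xor, ← e1, ← e2, ← e3, f1, f3, f4]
    exact e

include tp in
/-- the start of the list of known pairs -/
theorem Tx.base (he : S.e = 0) {g : V} {c : ℕ} (hc : c < 2 ^ t.N) (hg : rl.cl g c) :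
    ∀ x ∈ base t c, rl.Tx g x := by
  have h4 : 4 ≤ 2 ^ t.N := by
    calc 4 = 2 ^ 2 := by norm_num
      _ ≤ _ := Nat.pow_le_pow_right (by norm_num) tp.N2
  intro x hx
  simp only [R4.base, List.mem_cons, List.not_mem_nil, or_false] at hx
  rcases hx with rfl | rfl | rfl
  · refine ⟨uv y z 2, TT.mk' tp (by omega) (tp.lt 2 (by norm_num) _ hc) (cl_uv tp (by norm_num)) ?_⟩
    rw [← um_cl tp hg]
    exact Plane.T.uv_right _ _
  · refine ⟨uv y z 1, TT.mk' tp (by omega) (tp.lt 1 (by norm_num) _ hc) (cl_uv tp (by norm_num)) ?_⟩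
    rw [← um_cl tp hg]
    exact Plane.T.uv_right _ _
  · refine ⟨g, ?_⟩
    have := TT.mk' tp (rl := rl) (g := g) (h := g) hc (Nat.two_pow_pos t.RD) hg (by
      rw [rl.emb_zero]
      exact Plane.T.zero_iff.2 (C.self he g))
    simpa using this

end Real

end Pool.Agent.R4
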