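import Pool.Agent.R4.Bits

/-!
# Counting lemmas (helper66)
-/

set_option autoImplicit false

namespace Pool.Agent.R4

open Pool.Agent.Helper58.PLine (QData)
open Pool.Agent.ETCP

variable {V : Type} [AddCommGroup V] [Module (ZMod 2) V]

/-- `v` is a sum of some elements of the list -/
def SpV : List V → V → Prop
  | [], v => v = 0
  | a :: L, v => SpV L v ∨ SpV L (a + v)

/-- `v` is the sum over a nonempty set of places -/
def NzV : List V → V → Prop
  | [], _ => False
  | a :: L, v => NzV L v ∨ SpV L (a + v)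

theorem SpV.zero : ∀ L : List V, SpV L 0
  | [] => rfl
  | _ :: L => Or.inl (SpV.zero L)

/-- pigeon hole -/
theorem pigeon [Finite V] : ∀ (L : List V) (W : Submodule (ZMod 2) V) (r : ℕ),
    Nat.card V ≤ 2 ^ r * Nat.card W → r < L.length → ∃ x, NzV L x ∧ x ∈ W
  | [], _, _, _, h => absurd h (Nat.not_lt_zero _)
  | v :: vs, W, r, hc, hr => by
    by_cases hv : v ∈ W
    · exact ⟨v, Or.inr (by rw [ZModModule.add_self]; exact SpV.zero vs), hv⟩
    · have hle : W ≤ W ⊔ Submodule.span (ZMod 2) {v} := le_sup_left
      have hvm : v ∈ W ⊔ Submodule.span (ZMod 2) {v} :=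
        Submodule.mem_sup_right (Submodule.mem_span_singleton_self v)
      have h2 := ETGP.half hle hvm hv
      have h3 := ETGP.half (K := W) le_top (Submodule.mem_top (x := v)) hv
      have e3 : Nat.card (⊤ : Submodule (ZMod 2) V) = Nat.card V :=
        Nat.card_congr Submodule.topEquiv.toEquiv
      rw [e3] at h3
      cases r with
      | zero =>
        have : 0 < Nat.card W := Nat.card_pos
        omega
      | succ r =>
        obtain ⟨x, hx, hxW⟩ := pigeon vs (W ⊔ Submodule.span (ZMod 2) {v}) r (by
          refine hc.trans ?_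
          calc 2 ^ (r + 1) * Nat.card W = 2 ^ r * (2 * Nat.card W) := by ring
            _ ≤ _ := Nat.mul_le_mul_left _ h2) (by simpa using hr)
        obtain ⟨a, ha, b, hb, hab⟩ := Submodule.mem_sup.1 hxW
        obtain ⟨c, hc⟩ := Submodule.mem_span_singleton.1 hb
        rcases Pool.Agent.Helper58.PLine.zm c with h | h
        · subst h
          rw [zero_smul] at hc
          refine ⟨x, Or.inl hx, ?_⟩
          rw [← hab, ← hc, add_zero]
          exact ha
        · subst h
          rw [one_smul] at hc
          refine ⟨v + x, Or.inr ?_, ?_⟩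
          · rw [← add_assoc, ZModModule.add_self, zero_add]
            exact nz_sp vs x hx
          · rw [← hab, ← hc]
            have : v + (a + v) = a := f2 (by abel_nf; simp only [ch2, add_zero])
            rw [this]
            exact ha
where
  nz_sp : ∀ (L : List V) (x : V), NzV L x → SpV L x
    | [], _, h => h.elim
    | _ :: L, x, h => h.elim (fun h => Or.inl (nz_sp L x h)) Or.inr

theorem nz_append : ∀ (A B : List V) (x : V), NzV (A ++ B) x →
    (∃ a b, NzV A a ∧ SpV B b ∧ x = a + b) ∨ NzV B x
  | [], _, _, h => Or.inr h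
  | v :: A, B, x, h => by
    rcases h with h | h
    · rcases nz_append A B x h with ⟨a, b, h1, h2, h3⟩ | h1
      · exact Or.inl ⟨a, b, Or.inl h1, h2, h3⟩
      · exact Or.inr h1
    · obtain ⟨a, b, h1, h2, h3⟩ := sp_append A B _ h
      refine Or.inl ⟨v + a, b, Or.inr ?_, h2, ?_⟩
      · rw [← add_assoc, ZModModule.add_self, zero_add]
        exact h1
      · rw [add_assoc, ← h3, ← add_assoc, ZModModule.add_self, zero_add]
where
  sp_append : ∀ (A B : List V) (x : V), SpV (A ++ B) x → ∃ a b, SpV A a ∧ SpV B b ∧ x = a + b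
    | [], _, x, h => ⟨0, x, rfl, h, by rw [zero_add]⟩
    | v :: A, B, x, h => by
      rcases h with h | h
      · obtain ⟨a, b, h1, h2, h3⟩ := sp_append A B _ h
        exact ⟨a, b, Or.inl h1, h2, h3⟩
      · obtain ⟨a, b, h1, h2, h3⟩ := sp_append A B _ h
        refine ⟨v + a, b, Or.inr ?_, h2, ?_⟩
        · rw [← add_assoc, ZModModule.add_self, zero_add]
          exact h1
        · rw [add_assoc, ← h3, ← add_assoc, ZModModule.add_self, zero_add]

theorem sp_code {Rel : V → ℕ → Prop} (h0 : Rel 0 0)
    (ha : ∀ a b m n, Rel a m → Rel b n → Rel (a + b) (m ^^^ n)) :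
    ∀ (L : List V) (M : List ℕ), List.Forall₂ Rel L M → ∀ b, SpV L b → ∃ m ∈ spanL M, Rel b m
  | [], [], _, b, h => ⟨0, by simp [spanL], by rw [show b = 0 from h]; exact h0⟩
  | v :: L, n :: M, hf, b, h => by
    cases hf with
    | cons hr hf =>
      rcases h with h | h
      · obtain ⟨m, h1, h2⟩ := sp_code h0 ha L M hf b h
        exact ⟨m, by simp only [spanL, List.mem_append]; exact Or.inl h1, h2⟩
      · obtain ⟨m, h1, h2⟩ := sp_code h0 ha L M hf _ h
        refine ⟨n ^^^ m, ?_, ?_⟩
        · simp only [spanL, List.mem_append]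
          exact Or.inr (List.mem_map_of_mem h1)
        · have := ha _ _ _ _ hr h2
          rwa [← add_assoc, ZModModule.add_self, zero_add] at this

theorem nz_code {Rel : V → ℕ → Prop} (h0 : Rel 0 0)
    (ha : ∀ a b m n, Rel a m → Rel b n → Rel (a + b) (m ^^^ n)) :
    ∀ (L : List V) (M : List ℕ), List.Forall₂ Rel L M → ∀ b, NzV L b → ∃ m ∈ nzL M, Rel b m
  | [], [], _, b, h => h.elim
  | v :: L, n :: M, hf, b, h => by
    cases hf with
    | cons hr hf =>
      rcases h with h | h
      · obtain ⟨m, h1, h2⟩ := nz_code h0 ha L M hf b h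
        exact ⟨m, by simp only [nzL, List.mem_append]; exact Or.inl h1, h2⟩
      · obtain ⟨m, h1, h2⟩ := sp_code h0 ha L M hf _ h
        refine ⟨n ^^^ m, ?_, ?_⟩
        · simp only [nzL, List.mem_append]
          exact Or.inr (List.mem_map_of_mem h1)
        · have := ha _ _ _ _ hr h2
          rwa [← add_assoc, ZModModule.add_self, zero_add] at this

/-- a map with few values and fibres in cosets -/
theorem card_fiber [Finite V] (W : Submodule (ZMod 2) V) (L : List ℕ) (f : V → ℕ)
    (hf : ∀ v, f v ∈ L) (hW : ∀ v v', f v = f v' → v + v' ∈ W) :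
    Nat.card V ≤ L.length * Nat.card W := by
  classical
  have hg : ∀ s : ℕ, ∃ v0 : V, ∀ v, f v = s → v + v0 ∈ W := by
    intro s
    by_cases h : ∃ v0, f v0 = s
    · obtain ⟨v0, h0⟩ := h
      exact ⟨v0, fun v hv => hW _ _ (hv.trans h0.symm)⟩
    · exact ⟨0, fun v hv => absurd ⟨v, hv⟩ h⟩
  choose g hg using hg
  let F : V → L.toFinset × W := fun v =>
    (⟨f v, List.mem_toFinset.2 (hf v)⟩, ⟨v + g (f v), hg _ _ rfl⟩)
  have hF : Function.Injective F := by
    intro v v' h
    have h1 : f v = f v' := congrArg (fun p => (p.1 : ℕ)) h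
    have h2 : v + g (f v) = v' + g (f v') := congrArg (fun p => (p.2 : V)) h
    rw [h1] at h2
    exact add_right_cancel h2
  have := Nat.card_le_card_of_injective F hF
  rw [Nat.card_prod] at this
  refine this.trans (Nat.mul_le_mul_right _ ?_)
  rw [Nat.card_eq_fintype_card, Fintype.card_coe]
  exact List.toFinset_card_le L

end Pool.Agent.R4
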