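import Pool.Agent.R4.Fast

set_option autoImplicit false
set_option linter.style.longLine false

namespace Pool.Agent.R4

/-- table A -/
def tabA : Tb where
  N := 5
  RD := 4
  Yc := [0, 1, 0, 2, 4]
  Zc := [1, 0, 8, 2, 0]
  rk := 3
  ker := [[0, 1, 2, 3, 4, 5, 6, 7, 8, 9, 10, 11, 12, 13, 14, 15, 16, 17, 18, 19, 20, 21, 22, 23, 24, 25, 26, 27, 28, 29, 30, 31], [0, 1, 4, 5], [0, 2, 16, 18], [0, 3, 8, 11]]
  rng := [1, 255, 3855, 13107]
  full := false
  aut := [([1, 2, 5, 8, 16], [1, 2, 4, 9]), ([1, 2, 4, 8, 18], [1, 2, 5, 8]), ([1, 2, 4, 11, 16], [1, 3, 4, 8])]

/-- certificate -/
def itemsA : List (List ℕ) := [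
[20, 28, 0, 0, 0x20026404004c8004000200010000c58004000200010000c980068862],
[0, 20, 28, 0],
[2, 20, 28, 0],
[2, 20, 28, 2]]

/-- certificate for the final class -/
def finA : ℕ := 0x200010000800062c006c0180019000f0001a000e4001d8001b0994000604c8005c0004000200010000c5808001900170002a0008c00108001b0894000604c8002c0100129001d00072000400020000800062c006c261000e80007000004a414001c8011800130184001a1328001c00801290005000200010000400031600420006c2210080129001f006000e400ec000980c200110001a11280400ec800680600052006e0007c065000d8001d0001000080004000316000614c8005c0100029003d00072008002c800b8522001d0004e000001482000190023000260488000c299000a800003b2002000080004000326005e0007c065000b800080004000200018b00110000610c8006c00800290025000200008000400032600420005c2110080029003f0080006400ec0009812200110000610c8003c00801d9001b006000240084000f844a00080004000200018b001d000000e400400020000800060c00001c8008000400020000cd8004886a000b0a640400764000c001c80100012003e132800200010000800062c00001c8008000400010000c1800003900100008000400019b000911d400220002c2190004808040001000243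

/-- packed table -/
def packA : ℕ := 0xc0d0d0c040505040c0d0d0c04050504080909080001010008090908000101000b0a0b0a0302030209080908010001000b0a0b0a03020302090809080100010007070606070706060505040405050404030302020303020201010000010100000000000000000000000000000000000000000000000000000000000000000000

theorem tbA : tbOK tabA = true := by decide +kernel

theorem pkA : packOK packA tabA = true := by decide +kernel

/-- dead arcs -/
def deadA : ℕ := 0x90050000000000000000000000000000000000000000000000000000900500000000000000000000000000000000000000000000000000000000000000000000000000000000000000000000000000000000000000000000000000000000000000000000000000000000000000000000000000000000000000000000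

theorem runA : runF packA tabA itemsA 0 = some deadA := by decide +kernel

theorem endA : (chkF packA tabA (row tabA deadA 28) 28 30 (base tabA 28) [] finA).isSome = true := by
  decide +kernel

end Pool.Agent.R4
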