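import Pool.Agent.ETGP.Rank2

/-!
# Structures with at most sixteen values `q (x, ·)` for every `x`: definitions (helper66)

`Plane S y z R`: an `F_2`-space `R` with linear maps `Y, Z : V → R` which represent the quaternions
`q (y, ·)`, `q (z, ·)`, `q (y + z, ·)`.  `Real`: a basis in which `Y, Z` are given by a table.
-/

set_option autoImplicit false

namespace Pool.Agent.R4

open Pool.Agent.Helper58.PLine (QData)
open Pool.Agent.ETCP

/-- the group of the plane `⟨y, z⟩` -/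
structure Plane {V Q : Type} [AddCommGroup V] [Module (ZMod 2) V] (S : QData V Q) (y z : V)
    (R : Type) [AddCommGroup R] [Module (ZMod 2) R] where
  Y : V →ₗ[ZMod 2] R
  Z : V →ₗ[ZMod 2] R
  yz : ∀ v v', Y v = Z v' ↔ S.q y v = S.q z v'
  ys : ∀ v v', Y v = Y v' + Z v' ↔ S.q y v = S.q (y + z) v'
  zs : ∀ v v', Z v = Y v' + Z v' ↔ S.q z v = S.q (y + z) v'

/-- the sum of the `h i`, `i < N`, over the binary digits of `n` -/
def bsum {M : Type} [AddCommGroup M] (h : ℕ → M) (N n : ℕ) : M :=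
  ∑ i ∈ Finset.range N, if n.testBit i then h i else 0

/-- a table (`N` columns with entries below `2 ^ RD`) for a plane -/
structure Real {V Q : Type} [AddCommGroup V] [Module (ZMod 2) V] {S : QData V Q} {y z : V}
    {R : Type} [AddCommGroup R] [Module (ZMod 2) R] (P : Plane S y z R) (N RD : ℕ)
    (Yc Zc : List ℕ) where
  h : ℕ → V
  b : ℕ → R
  h0 : h 0 = y
  h1 : h 1 = z
  span : ∀ v, ∃ n < 2 ^ N, P.Y (v + bsum h N n) = 0 ∧ P.Z (v + bsum h N n) = 0
  hY : ∀ i < N, P.Y (h i) = bsum b RD (Yc.getD i 0)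
  hZ : ∀ i < N, P.Z (h i) = bsum b RD (Zc.getD i 0)
  inj : ∀ ρ < 2 ^ RD, bsum b RD ρ = 0 → ρ = 0

/-- `q (z, w) ∉ Q_y` for some `w ∈ V_y` -/
def Bad {V Q : Type} [AddCommGroup V] [Module (ZMod 2) V] (S : QData V Q) (y z : V) : Prop :=
  ∃ w, C S y w ∧ ∀ k, S.q z w ≠ S.q y k

/-- The plane groups exist. -/
def Stmt_Plane : Prop := ∀ (V Q : Type) [AddCommGroup V] [Module (ZMod 2) V] [Finite V]
  (S : QData V Q) (y z : V), S.e = 0 → ∃ (R : Type) (_ : AddCommGroup R) (_ : Module (ZMod 2) R),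
    Finite R ∧ Nonempty (Plane S y z R)

/-- Classification: `y` of maximal rank `≤ 4`, `⟨y, z⟩` a bad noncommuting plane. -/
def Stmt_Cls : Prop := ∀ (V Q : Type) [AddCommGroup V] [Module (ZMod 2) V] [Finite V]
  (S : QData V Q) (y z : V), S.e = 0 → (∀ x, Nat.card V ≤ 16 * Nat.card (S.ann x)) →
  (∀ x, Nat.card (S.ann y) ≤ Nat.card (S.ann x)) → ¬ C S y z → Bad S y z →
    ((∀ x, Nat.card V ≤ 8 * Nat.card (S.ann x)) ∧
      ∃ (R : Type) (_ : AddCommGroup R) (_ : Module (ZMod 2) R) (P : Plane S y z R),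
        Nonempty (Real P 5 4 [0, 1, 0, 2, 4] [1, 0, 8, 2, 0])) ∨
    (∃ (R : Type) (_ : AddCommGroup R) (_ : Module (ZMod 2) R) (P : Plane S y z R),
        Nonempty (Real P 6 6 [0, 1, 0, 2, 4, 8] [1, 0, 16, 2, 0, 32])) ∨
    (∃ (R : Type) (_ : AddCommGroup R) (_ : Module (ZMod 2) R) (P : Plane S y z R),
        Nonempty (Real P 6 5 [0, 1, 0, 2, 4, 8] [1, 0, 16, 2, 4, 0])) ∨
    (∃ (R : Type) (_ : AddCommGroup R) (_ : Module (ZMod 2) R) (P : Plane S y (y + z) R),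
        Nonempty (Real P 6 5 [0, 1, 0, 2, 4, 8] [1, 0, 16, 2, 4, 0])) ∨
    ((∃ (R : Type) (_ : AddCommGroup R) (_ : Module (ZMod 2) R) (P : Plane S y z R),
        Nonempty (Real P 7 5 [0, 1, 0, 0, 4, 8, 2] [1, 0, 16, 2, 4, 0, 0])) ∧
      Nat.card V = 16 * Nat.card (S.ann y) ∧ Nat.card V = 16 * Nat.card (S.ann z) ∧
      Nat.card V = 16 * Nat.card (S.ann (y + z)) ∧
      ∀ v, ∃ a b c, C S y a ∧ C S z b ∧ C S (y + z) c ∧ v = a + b + c)

end Pool.Agent.R4
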