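import Pool.Agent.ETGP.Rank3f
import Pool.Agent.R4.Cls
import Pool.Agent.R4.PlaneEx

/-!
# Structures with at most sixteen values `q (x, ·)` for every `x`: the assembly (helper14)
-/

set_option autoImplicit false
set_option linter.unusedSectionVars false
set_option linter.unusedSimpArgs false
set_option linter.unusedVariables false
set_option linter.unnecessarySeqFocus false

namespace Pool.Agent.R4

open QS
open Pool.Agent.Helper58.PLine (QData)
open Pool.Agent.ETCP
open Pool.Agent.ETPR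
open Pool.Agent.ETAL
open Pool.Agent.REG10 (InQ SRg RegE vl ta BX)

/-- the table of type 1, 1, 1 | 1 | 0 is impossible if all ranks are at most three -/
def Stmt_A : Prop := ∀ (V Q : Type) [AddCommGroup V] [Module (ZMod 2) V] [Finite V]
  (S : QData V Q) (y z : V) (R : Type) [AddCommGroup R] [Module (ZMod 2) R] (P : Plane S y z R),
  S.e = 0 → (∀ x, Nat.card V ≤ 8 * Nat.card (S.ann x)) →
  Real P 5 4 [0, 1, 0, 2, 4] [1, 0, 8, 2, 0] → False

/-- the table of type 1, 1, 1 | 1 | 1 is impossible -/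
def Stmt_T1 : Prop := ∀ (V Q : Type) [AddCommGroup V] [Module (ZMod 2) V] [Finite V]
  (S : QData V Q) (y z : V) (R : Type) [AddCommGroup R] [Module (ZMod 2) R] (P : Plane S y z R),
  S.e = 0 → (∀ x, Nat.card V ≤ 16 * Nat.card (S.ann x)) →
  Real P 6 6 [0, 1, 0, 2, 4, 8] [1, 0, 16, 2, 0, 32] → False

/-- the table of type 1, 1, 2 | 1 | 0 is impossible -/
def Stmt_T3 : Prop := ∀ (V Q : Type) [AddCommGroup V] [Module (ZMod 2) V] [Finite V]
  (S : QData V Q) (y z : V) (R : Type) [AddCommGroup R] [Module (ZMod 2) R] (P : Plane S y z R),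
  S.e = 0 → (∀ x, Nat.card V ≤ 16 * Nat.card (S.ann x)) →
  Real P 6 5 [0, 1, 0, 2, 4, 8] [1, 0, 16, 2, 4, 0] → False

/-- the table of type 1, 1, 1 | 2 | 0 is impossible -/
def Stmt_T2 : Prop := ∀ (V Q : Type) [AddCommGroup V] [Module (ZMod 2) V] [Finite V]
  (S : QData V Q) (y z : V) (R : Type) [AddCommGroup R] [Module (ZMod 2) R] (P : Plane S y z R),
  S.e = 0 → (∀ x, Nat.card V ≤ 16 * Nat.card (S.ann x)) →
  Real P 7 5 [0, 1, 0, 0, 4, 8, 2] [1, 0, 16, 2, 4, 0, 0] →
  Nat.card V = 16 * Nat.card (S.ann y) → Nat.card V = 16 * Nat.card (S.ann z) →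
  Nat.card V = 16 * Nat.card (S.ann (y + z)) →
  (∀ v, ∃ a b c, C S y a ∧ C S z b ∧ C S (y + z) c ∧ v = a + b + c) → False

/-- no bad noncommuting plane at an element of maximal rank -/
def Stmt_NoBad : Prop := ∀ (V Q : Type) [AddCommGroup V] [Module (ZMod 2) V] [Finite V]
  (S : QData V Q) (y z : V), S.e = 0 → (∀ x, Nat.card V ≤ 16 * Nat.card (S.ann x)) →
  (∀ x, Nat.card (S.ann y) ≤ Nat.card (S.ann x)) → ¬ C S y z → ¬ Bad S y z

theorem noBad (hA : Stmt_A) (h1 : Stmt_T1) (h3 : Stmt_T3) (h2 : Stmt_T2) : Stmt_NoBad := by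
  intro V Q _ _ _ S y z he h16 hmax hc hbad
  rcases cls plane_ex V Q S y z he h16 hmax hc hbad with
    ⟨h8, R, _, _, P, ⟨X⟩⟩ | ⟨R, _, _, P, ⟨X⟩⟩ | ⟨R, _, _, P, ⟨X⟩⟩ | ⟨R, _, _, P, ⟨X⟩⟩ |
    ⟨⟨R, _, _, P, ⟨X⟩⟩, e1, e2, e3, e4⟩
  · exact hA V Q S y z R P he h8 X
  · exact h1 V Q S y z R P he h16 X
  · exact h3 V Q S y z R P he h16 X
  · exact h3 V Q S y (y + z) R P he h16 X
  · exact h2 V Q S y z R P he h16 X e1 e2 e3 e4

section
variable {V Q : Type} [AddCommGroup V] [Module (ZMod 2) V] {S : QData V Q}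

/-- all ranks at most four: an element of maximal rank is regular -/
theorem reg_of_rank4 (hN : Stmt_NoBad) [Finite V] (he : S.e = 0)
    (h16 : ∀ x, Nat.card V ≤ 16 * Nat.card (S.ann x)) {y : V}
    (hy : ∀ x, Nat.card (S.ann y) ≤ Nat.card (S.ann x)) : SRg S y := by
  intro w z hw
  by_contra hzw0
  -- all elements `z'` with `w z' = w z` commute with `y`
  have key : ∀ z', S.q w z' = S.q w z → C S y z' := by
    intro z' hz'
    by_contra hc
    refine hN V Q S y z' he h16 hy hc ⟨w, hw, fun k hk => hzw0 ?_⟩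
    exact ⟨k, by rw [← hk, S.symm z' w, hz']⟩
  have hyz : C S y z := key z rfl
  have hle : S.ann w ≤ S.ann y := by
    intro h hh
    have h1 : C S y (z + h) := key (z + h) (q_eq (C.of_eq (S := S) hh rfl (by
      rw [add_right_comm, ZModModule.add_self, zero_add])))
    have h2 := h1.add hyz
    exact h2.of_eq rfl (by rw [add_right_comm, ZModModule.add_self, zero_add])
  have heq := Pool.Agent.ETGP.eq_of_card_le hle (hy w)
  have hwz : C S w z := by
    have : z ∈ S.ann w := by rw [heq]; exact hyz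
    exact this
  exact hzw0 ⟨0, by rw [S.q_zero]; exact hwz⟩

end

/-- a finite structure (`-1 = 1`) with at most sixteen values `q (x, ·)` for every `x` has a
regular element -/
theorem regE_of_rank4 (hN : Stmt_NoBad) (S : QStruct) [Finite S.G] (hneg : S.neg = 1)
    (h4 : ∀ x, Nat.card (Set.range (S.q x)) ≤ 16) : ∃ x, RegE S x := by
  have hfin : Finite (Additive S.G) := (inferInstance : Finite S.G)
  have he : (ETC.toData S).e = 0 := by
    show Additive.ofMul S.neg = 0
    rw [hneg]; rfl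
  obtain ⟨y, hy⟩ := Pool.Agent.ETGP.exists_max_rank (ETC.toData S)
  have hx := reg_of_rank4 hN (S := ETC.toData S) he
    (fun x => (Pool.Agent.ETGP.card_range x).trans
    (Nat.mul_le_mul_right _ (h4 (Additive.toMul x)))) hy
  refine ⟨Additive.toMul y, fun w v hw => ?_⟩
  obtain ⟨z, hz⟩ := hx (Additive.ofMul w) (Additive.ofMul v) hw
  exact ⟨Additive.toMul z, hz.symm⟩

/-- **rank at most four** -/
theorem elem_of_rank4 (hN : Stmt_NoBad) (S : QStruct) (hf : Finite S.G) (hneg : S.neg = 1)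
    (h4 : ∀ x, Nat.card (Set.range (S.q x)) ≤ 16) : ElemType S := by
  refine REG10.elem_of_hreg REG10.srgx _ S hf rfl hneg fun U hU => ?_
  let T := ESL.PRODRECX.sub S hneg U hU
  have hT := REG10.emb_sub S hneg U hU
  have hfT : Finite T.G := by
    show Finite U
    infer_instance
  obtain ⟨x, hx⟩ := regE_of_rank4 hN T rfl (fun x => by
    refine le_trans ?_ (h4 (U.subtype x))
    have hf2 : Finite (Set.range (S.q (U.subtype x))) := Set.finite_range _
    have hcc : ∀ c : Set.range (T.q x), ∃ v : T.G, T.q x v = c := fun c => c.2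
    choose g hg using hcc
    apply Nat.card_le_card_of_injective
      (fun c : Set.range (T.q x) => (⟨S.q (U.subtype x) (U.subtype (g c)), ⟨_, rfl⟩⟩ :
        Set.range (S.q (U.subtype x))))
    intro c c' h
    have h3 : S.q (U.subtype x) (U.subtype (g c)) = S.q (U.subtype x) (U.subtype (g c')) :=
      congrArg Subtype.val h
    have h5 := (hT.q _ _ _ _).2 h3
    rw [hg, hg] at h5
    exact Subtype.ext h5)
  refine ⟨x.1, x.2, fun w hw hxw v hv => ?_⟩
  obtain ⟨z, hz⟩ := hx ⟨w, hw⟩ ⟨v, hv⟩ ((hT.zero x ⟨w, hw⟩).2 hxw)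
  exact ⟨z.1, z.2, (hT.q _ _ _ _).1 hz⟩

/-- at most `31` quaternions: every `q (x, G)` has at most sixteen elements -/
theorem rk_le16 (S : QStruct) (hf : Finite S.G) (hneg : S.neg = 1) (h31 : Nat.card S.Q ≤ 31)
    (x : S.G) : Nat.card (Set.range (S.q x)) ≤ 16 := by
  have hQ : Finite S.Q := by
    have hs : Function.Surjective fun p : S.G × S.G => S.q p.1 p.2 := fun c => by
      obtain ⟨a, b, h⟩ := S.surj c
      exact ⟨(a, b), h⟩
    exact Finite.of_surjective _ hs
  obtain ⟨k, hk⟩ := Pool.Agent.ETGP.card_range_pow S hf x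
  have h1 : Nat.card (Set.range (S.q x)) ≤ Nat.card S.Q :=
    Nat.card_le_card_of_injective (fun c => c.1) Subtype.val_injective
  have h2 : k < 5 := by
    by_contra hc
    have h3 : 2 ^ 5 ≤ 2 ^ k := Nat.pow_le_pow_right (by norm_num) (by omega)
    omega
  rw [hk]
  calc 2 ^ k ≤ 2 ^ 4 := Nat.pow_le_pow_right (by norm_num) (by omega)
    _ = 16 := by norm_num

end Pool.Agent.R4
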