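import Pool.Agent.R4.Check

/-!
# A faster evaluation of the checker (helper66)
-/

set_option autoImplicit false

namespace Pool.Agent.R4

/-- case distinction -/
def bif' {α : Type} (b : Bool) (x y : α) : α := Bool.rec (motive := fun _ => α) y x b

/-- `ap` -/
def apF (L : List ℕ) : ℕ → ℕ :=
  List.rec (motive := fun _ => ℕ → ℕ) (fun _ => nat_lit 0)
    (fun c _ ih n => Nat.xor (Nat.mul (Nat.mod n (nat_lit 2)) c) (ih (Nat.div n (nat_lit 2)))) L

/-- `apu`, with a table -/
def apuF (T N i n : ℕ) : ℕ :=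
  Nat.mod (Nat.shiftRight T (Nat.mul (nat_lit 8) (Nat.add (Nat.shiftLeft i N) n))) (nat_lit 256)

/-- `zc` -/
def zcF (T N i m : ℕ) : ℕ := Nat.add m (Nat.mul (nat_lit 256) (apuF T N i m))

/-- `sg` -/
def sgF (T N i x : ℕ) : ℕ :=
  Nat.xor (Nat.div x (nat_lit 256)) (apuF T N i (Nat.mod x (nat_lit 256)))

/-- `chkAll` -/
def chkAllF (f : List ℕ → List ℕ → ℕ → Option ℕ) (B : List ℕ) (L : List ℕ) :
    List ℕ → ℕ → Option ℕ :=
  List.rec (motive := fun _ => List ℕ → ℕ → Option ℕ) (fun _ s => some s)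
    (fun v _ ih NR s => Option.rec (motive := fun _ => Option ℕ) none
      (fun s' => ih (v :: NR) s') (f (v :: B) NR s)) L

/-- `L.map f ++ M` -/
def mapF (f : ℕ → ℕ) (L M : List ℕ) : List ℕ :=
  List.rec (motive := fun _ => List ℕ) M (fun x _ ih => f x :: ih) L

/-- `spanL` -/
def spanF (L : List ℕ) : List ℕ :=
  List.rec (motive := fun _ => List ℕ) [nat_lit 0]
    (fun v _ ih => mapF (fun x => x) ih (mapF (Nat.xor v) ih [])) L

/-- `nzL` -/
def nzF (L : List ℕ) : List ℕ :=
  List.rec (motive := fun _ => List ℕ) []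
    (fun v vs ih => mapF (fun x => x) ih (mapF (Nat.xor v) (spanF vs) [])) L

/-- all elements satisfy a test -/
def allF (p : ℕ → Bool) (L : List ℕ) : Bool :=
  List.rec (motive := fun _ => Bool) true (fun x _ ih => bif' (p x) ih false) L

/-- element of a list -/
def getF (L : List ℕ) : ℕ → ℕ :=
  List.rec (motive := fun _ => ℕ → ℕ) (fun _ => nat_lit 65536)
    (fun v _ ih i => Nat.rec (motive := fun _ => ℕ) v (fun k _ => ih k) i) L

/-- read `k` masks -/
def masksF (B : List ℕ) (k : ℕ) : ℕ → List ℕ :=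
  Nat.rec (motive := fun _ => ℕ → List ℕ) (fun _ => [])
    (fun _ ih s => apF B (Nat.mod s (nat_lit 65536)) :: ih (Nat.div s (nat_lit 65536))) k

/-- read `k` bytes -/
def bytesF (k : ℕ) : ℕ → List ℕ :=
  Nat.rec (motive := fun _ => ℕ → List ℕ) (fun _ => [])
    (fun _ ih s => Nat.mod s (nat_lit 256) :: ih (Nat.div s (nat_lit 256))) k

/-- dead arc; `D`: row of the bitmap -/
def deadF (RD D x s : ℕ) : Option ℕ :=
  bif' (Nat.beq (Nat.mod x (nat_lit 4)) (nat_lit 0))
    (bif' (Nat.beq (Nat.mod (Nat.shiftRight D (Nat.add (Nat.shiftLeft (Nat.div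
      (Nat.mod x (nat_lit 256)) (nat_lit 4)) RD) (Nat.div x (nat_lit 256)))) (nat_lit 2))
      (nat_lit 1)) (some (Nat.div s (nat_lit 524288))) none) none

/-- refuted pair -/
def negF (y x s : ℕ) : Option ℕ :=
  bif' (Nat.beq y x) (some (Nat.div s (nat_lit 134217728))) none

/-- children of a link -/
def linkK (T N ij m0 : ℕ) (L : List ℕ) : List ℕ :=
  List.rec (motive := fun _ => List ℕ) [] (fun κ _ ih => zcF T N ij (Nat.xor m0 κ) :: ih) L

/-- link -/
def linkF (T N : ℕ) (ker : List (List ℕ)) (i j m0 x : ℕ) (k : List ℕ → Option ℕ) : Option ℕ :=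
  bif' (Nat.ble (nat_lit 1) j) (bif' (Nat.ble (Nat.succ m0) (Nat.shiftLeft (nat_lit 1) N))
    (bif' (Nat.beq (apuF T N j m0) (sgF T N i x))
      (k (linkK T N (Nat.xor i j) m0 (ker.getD j []))) none) none) none

/-- children of the rank rule -/
def rankK (T N u : ℕ) (A Bs : List ℕ) : List ℕ :=
  List.rec (motive := fun _ => List ℕ) []
    (fun a _ ih => mapF (fun b => zcF T N u (Nat.xor a b)) Bs ih) A

/-- rank rule -/
def rankF (T N u : ℕ) (p q : List ℕ) (k : List ℕ → Option ℕ) : Option ℕ :=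
  bif' (allF (fun v => Nat.ble (nat_lit 1) v) (nzF (mapF (sgF T N u) p [])))
    (bif' (allF (fun m => Nat.ble (Nat.succ m) (Nat.shiftLeft (nat_lit 1) N)) q)
      (k (rankK T N u (nzF q) (spanF (mapF (fun x => Nat.mod x (nat_lit 256)) p [])))) none) none

/-- parse a rank rule: `s`: stream, `k`: number of masks, `l`: number of classes -/
def rankS (f : List ℕ → List ℕ → ℕ → Option ℕ) (T N u : ℕ) (B NR : List ℕ) (k l s : ℕ) :
    Option ℕ :=
  rankF T N u (masksF B k s) (bytesF l (Nat.div s (Nat.pow (nat_lit 65536) k)))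
    (fun cs => chkAllF f B cs NR (Nat.div (Nat.div s (Nat.pow (nat_lit 65536) k))
      (Nat.pow (nat_lit 256) l)))

/-- other rules -/
def restF (f : List ℕ → List ℕ → ℕ → Option ℕ) (t : Tb) (c : ℕ) (B NR : List ℕ) (s : ℕ) :
    Option ℕ :=
  Option.rec (motive := fun _ => Option ℕ) none (fun p => chkAllF f B p.1 NR p.2)
    (kids t 0 c B (s % 8) (s / 8))

/-- parse a link -/
def linkS (f : List ℕ → List ℕ → ℕ → Option ℕ) (T N : ℕ) (ker : List (List ℕ))
    (B NR : List ℕ) (s : ℕ) : Option ℕ :=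
  linkF T N ker (Nat.mod s (nat_lit 4)) (Nat.mod (Nat.div s (nat_lit 4)) (nat_lit 4))
    (Nat.mod (Nat.div s (nat_lit 16)) (nat_lit 256))
    (apF B (Nat.mod (Nat.div s (nat_lit 4096)) (nat_lit 65536)))
    (fun cs => chkAllF f B cs NR (Nat.div s (nat_lit 268435456)))

/-- dispatch -/
def stepF (T : ℕ) (t : Tb) (D c : ℕ) (f : List ℕ → List ℕ → ℕ → Option ℕ) (B NR : List ℕ)
    (s op : ℕ) : Option ℕ :=
  bif' (Nat.beq op (nat_lit 0))
    (deadF t.RD D (apF B (Nat.mod (Nat.div s (nat_lit 8)) (nat_lit 65536))) s)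
  (bif' (Nat.beq op (nat_lit 1))
    (negF (getF NR (Nat.mod (Nat.div s (nat_lit 524288)) (nat_lit 256)))
      (apF B (Nat.mod (Nat.div s (nat_lit 8)) (nat_lit 65536))) s)
  (bif' (Nat.beq op (nat_lit 2)) (linkS f T t.N t.ker B NR (Nat.div s (nat_lit 8)))
  (bif' (Nat.beq op (nat_lit 3))
    (rankS f T t.N (Nat.mod (Nat.div s (nat_lit 8)) (nat_lit 4)) B NR
      (Nat.mod (Nat.div s (nat_lit 32)) (nat_lit 8))
      (Nat.sub (Nat.succ t.rk) (Nat.mod (Nat.div s (nat_lit 32)) (nat_lit 8)))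
      (Nat.div s (nat_lit 256)))
    (restF f t c B NR s))))

/-- the checker -/
def chkF (T : ℕ) (t : Tb) (D c n : ℕ) : List ℕ → List ℕ → ℕ → Option ℕ :=
  Nat.rec (motive := fun _ => List ℕ → List ℕ → ℕ → Option ℕ) (fun _ _ _ => none)
    (fun _ ih B NR s => stepF T t D c ih B NR s (Nat.mod s (nat_lit 8))) n

/-- a row of the bitmap -/
def row (t : Tb) (D c : ℕ) : ℕ :=
  Nat.mod (Nat.shiftRight D (c / 4 * 2 ^ (t.N - 2 + t.RD))) (Nat.pow 2 (2 ^ (t.N - 2 + t.RD)))

/-- process the items -/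
def runF (T : ℕ) (t : Tb) : List (List ℕ) → ℕ → Option ℕ
  | [], D => some D
  | it :: its, D => match it with
    | [c, d, r, w, p] =>
      if c % 4 == 0 && d % 4 == 0 && c < 2 ^ t.N && d < 2 ^ t.N && r < 2 ^ t.RD &&
          isSS t c d r w &&
          (chkF T t (row t D c) c 30 ((d + 256 * r) :: base t c) [] p).isSome then
        runF T t its (setB t (setB t D c d r) d c r)
      else none
    | [g, c, d, r] =>
      if D.testBit (idx t c d r) && D.testBit (idx t d c r) && c % 4 == 0 && d % 4 == 0 &&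
          c < 2 ^ t.N && d < 2 ^ t.N && r < 2 ^ t.RD && g < t.aut.length then
        let a := t.aut.getD g ([], [])
        let c1 := ap a.1 c
        let d1 := ap a.1 d
        let r1 := nfr t c1 d1 (ap a.2 r)
        let c2 := c1 ^^^ (c1 % 4)
        let d2 := d1 ^^^ (d1 % 4)
        runF T t its (setB t (setB t D c2 d2 r1) d2 c2 r1)
      else none
    | _ => none

/-- the packed table is correct -/
def packOK (T : ℕ) (t : Tb) : Bool :=
  (List.range 4).all (fun j => (List.range (2 ^ t.N)).all (fun m => apuF T t.N j m == apu t j m))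

end Pool.Agent.R4
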