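import Pool.Agent.R4.Kids

/-!
# The checker is correct (helper66)
-/

set_option autoImplicit false
set_option linter.unusedSimpArgs false

namespace Pool.Agent.R4

open Pool.Agent.Helper58.PLine (QData)
open Pool.Agent.ETCP

variable {V Q : Type} [AddCommGroup V] [Module (ZMod 2) V] {S : QData V Q} {y z : V}
  {R : Type} [AddCommGroup R] [Module (ZMod 2) R] {P : Plane S y z R} {t : Tb}

/-- there is no pair of elements of classes `c`, `d` with value `r` -/
def Dead (P : Plane S y z R) (t : Tb) (c d r : ℕ) : Prop :=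
  ∀ (rl : Real P t.N t.RD t.Yc t.Zc) (g h : V), rl.cl g c → rl.cl h d →
    ¬ P.T g h (rl.emb r)

/-- all arcs of the bitmap are dead -/
def Inv (P : Plane S y z R) (t : Tb) (D : ℕ) : Prop :=
  ∀ c d r, c % 4 = 0 → d % 4 = 0 → c < 2 ^ t.N → d < 2 ^ t.N → r < 2 ^ t.RD →
    D.testBit (idx t c d r) = true → Dead P t c d r

theorem Inv.zero : Inv P t 0 := by
  intro c d r _ _ _ _ _ h
  rw [Nat.zero_testBit] at h
  exact absurd h (by simp)

theorem divmod_inj {A A' L r r' : ℕ} (hr : r < L) (hr' : r' < L) (e : A * L + r = A' * L + r') :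
    A = A' ∧ r = r' := by
  have h1 : (A * L + r) / L = A := by
    rw [mul_comm, Nat.mul_add_div (by omega), Nat.div_eq_of_lt hr, add_zero]
  have h2 : (A' * L + r') / L = A' := by
    rw [mul_comm, Nat.mul_add_div (by omega), Nat.div_eq_of_lt hr', add_zero]
  have h3 : A = A' := by rw [← h1, ← h2, e]
  refine ⟨h3, ?_⟩
  rw [h3] at e
  omega

theorem idx_inj (tp : TbP t) {c d r c' d' r' : ℕ} (hc : c % 4 = 0) (hd : d % 4 = 0)
    (hd2 : d < 2 ^ t.N) (hr : r < 2 ^ t.RD) (hc' : c' % 4 = 0) (hd' : d' % 4 = 0)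
    (hd2' : d' < 2 ^ t.N) (hr' : r' < 2 ^ t.RD) (e : idx t c d r = idx t c' d' r') :
    c = c' ∧ d = d' ∧ r = r' := by
  unfold idx at e
  have hN : 2 ^ t.N = 4 * 2 ^ (t.N - 2) := by
    have := tp.N2
    rw [show t.N = 2 + (t.N - 2) by omega, pow_add]
    simp
  obtain ⟨e1, e2⟩ := divmod_inj hr hr' e
  obtain ⟨e3, e4⟩ := divmod_inj (L := 2 ^ (t.N - 2)) (by omega) (by omega) e1
  omega

theorem Inv.set (tp : TbP t) {D c d r : ℕ} (hD : Inv P t D) (hc : c % 4 = 0) (hd : d % 4 = 0)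
    (hd2 : d < 2 ^ t.N) (hr : r < 2 ^ t.RD) (h : Dead P t c d r) :
    Inv P t (setB t D c d r) := by
  intro c' d' r' h1 h2 h3 h4 h5 h6
  unfold setB at h6
  rw [Nat.testBit_or, Bool.or_eq_true] at h6
  rcases h6 with h6 | h6
  · exact hD c' d' r' h1 h2 h3 h4 h5 h6
  · rw [Nat.one_shiftLeft, Nat.testBit_two_pow, decide_eq_true_eq] at h6
    obtain ⟨e1, e2, e3⟩ := idx_inj tp hc hd hd2 hr h1 h2 h4 h5 h6
    rw [← e1, ← e2, ← e3]
    exact h

theorem chkAll_sound {g : V} {rl : Real P t.N t.RD t.Yc t.Zc}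
    {f : List ℕ → List ℕ → ℕ → Option ℕ} {B : List ℕ}
    (hf : ∀ v NR s s', f (v :: B) NR s = some s' → (∀ x ∈ NR, ¬ rl.Tx g x) → ¬ rl.Tx g v) :
    ∀ (L NR : List ℕ) (s s' : ℕ), chkAll f B NR L s = some s' → (∀ x ∈ NR, ¬ rl.Tx g x) →
      ∀ v ∈ L, ¬ rl.Tx g v
  | [], _, _, _, _, _, v, hv => absurd hv List.not_mem_nil
  | w :: L, NR, s, s', h, hNR, v, hv => by
    unfold chkAll at h
    split at h
    · exact absurd h (by simp)
    · rename_i s1 h1
      have hw := hf w NR s s1 h1 hNR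
      rcases List.mem_cons.1 hv with rfl | hv
      · exact hw
      · refine chkAll_sound hf L (w :: NR) s1 s' h (fun x hx => ?_) v hv
        rcases List.mem_cons.1 hx with rfl | hx
        · exact hw
        · exact hNR x hx

theorem chk_sound [Finite V] (tp : TbP t) (env : Env P t) {D c : ℕ} (hD : Inv P t D)
    (hc : c < 2 ^ t.N) (hc4 : c % 4 = 0) {rl : Real P t.N t.RD t.Yc t.Zc} {g : V}
    (hg : rl.cl g c) : ∀ (n : ℕ) (B NR : List ℕ) (s s' : ℕ), chk t D c n B NR s = some s' →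
      (∀ x ∈ B, rl.Tx g x) → (∀ x ∈ NR, ¬ rl.Tx g x) → False
  | 0, B, NR, s, s', h, _, _ => absurd h (by simp [chk])
  | n + 1, B, NR, s, s', h, hB, hNR => by
    unfold chk at h
    split at h
    · -- dead arc
      split_ifs at h with h1
      simp only [Bool.and_eq_true, beq_iff_eq] at h1
      obtain ⟨h2, h3⟩ := h1
      obtain ⟨w, hw⟩ := Real.Tx.ap hB (s / 8 % 65536)
      exact hD c _ _ hc4 (by omega) hc hw.1 hw.2.1 h3 rl g w hg hw.2.2.1 hw.2.2.2
    · -- refuted pair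
      split_ifs at h with h1
      rw [beq_iff_eq] at h1
      have hx := Real.Tx.ap hB (s / 8 % 65536)
      rw [← h1] at hx
      by_cases h2 : s / 524288 % 256 < NR.length
      · rw [List.getD_eq_getElem _ _ h2] at hx
        exact hNR _ (List.getElem_mem h2) hx
      · rw [List.getD_eq_default _ _ (by omega)] at hx
        obtain ⟨w, hw⟩ := hx
        have h3 := hw.2.1
        have h4 := pow_le_256 tp.R8
        omega
    · split at h
      · exact absurd h (by simp)
      · rename_i cs s1 h1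
        obtain ⟨v, hv, hx⟩ := Real.kids_sound tp env h1 hc hg hB
        refine chkAll_sound (g := g) (rl := rl) ?_ cs NR s1 s' h hNR v hv hx
        intro v' NR' s2 s3 h2 hNR' hx'
        refine chk_sound tp env hD hc hc4 hg n (v' :: B) NR' s2 s3 h2 (fun x hx => ?_) hNR'
        rcases List.mem_cons.1 hx with rfl | hx
        · exact hx'
        · exact hB x hx

theorem dead_of_chk [Finite V] (tp : TbP t) (env : Env P t) {D c d r p : ℕ} (hD : Inv P t D)
    (hc : c < 2 ^ t.N) (hc4 : c % 4 = 0) (hd : d < 2 ^ t.N) (hr : r < 2 ^ t.RD)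
    (h : (chk t D c 30 ((d + 256 * r) :: base t c) [] p).isSome = true) : Dead P t c d r := by
  intro rl g k hg hk hT
  obtain ⟨s', hs⟩ := Option.isSome_iff_exists.1 h
  refine chk_sound tp env hD hc hc4 hg 30 _ _ _ _ hs (fun x hx => ?_)
    (fun x hx => absurd hx List.not_mem_nil)
  rcases List.mem_cons.1 hx with rfl | hx
  · exact ⟨k, Real.TT.mk' tp hd hr hk hT⟩
  · exact Real.Tx.base tp env.he hc hg x hx

theorem dead_symm (tp : TbP t) (he : S.e = 0) {c d r w : ℕ} (h : Dead P t c d r)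
    (hss : isSS t c d r w = true) : Dead P t d c r := by
  intro rl g k hg hk hT
  refine h rl k g hk hg ?_
  unfold isSS at hss
  rw [beq_iff_eq] at hss
  refine hT.symm he (w / 4 % 4) (w % 4) (w / 16 % 4) (k := rl.vec (w / 64)) ?_
  rw [Plane.um_uv he, Real.um_cl tp hk, Real.um_cl tp hg, Real.um_vec tp, ← hss,
    Real.um_cl tp (Real.cl_uv tp (Nat.mod_lt _ (by norm_num)))]
  simp only [rl.emb_xor]
  abel

/-- the facts contained in `autOK` -/
structure AutP (t : Tb) (A B : List ℕ) : Prop where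
  A0 : A.getD 0 0 = 1
  A1 : A.getD 1 0 = 2
  Al : A.length = t.N
  Bl : B.length = t.RD
  Alt : ∀ i < t.N, A.getD i 0 < 2 ^ t.N
  Ainv : ∀ i < t.N, ap A (A.getD i 0) = 2 ^ i
  hY : ∀ i < t.N, ap t.Yc (A.getD i 0) = ap B (t.Yc.getD i 0)
  hZ : ∀ i < t.N, ap t.Zc (A.getD i 0) = ap B (t.Zc.getD i 0)
  Blt : ∀ i < t.RD, B.getD i 0 < 2 ^ t.RD
  Binv : ∀ i < t.RD, ap B (B.getD i 0) = 2 ^ i

theorem autP_of {a : List ℕ × List ℕ} (h : autOK t a = true) : AutP t a.1 a.2 := by
  unfold autOK at h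
  simp only [Bool.and_eq_true, decide_eq_true_eq, beq_iff_eq, List.all_eq_true,
    List.mem_range] at h
  obtain ⟨⟨⟨⟨⟨h1, h2⟩, h3⟩, h4⟩, h5⟩, h6⟩ := h
  exact
    { A0 := h1, A1 := h2, Al := h3, Bl := h4
      Alt := fun i hi => (h5 i hi).1.1.1
      Ainv := fun i hi => (h5 i hi).1.1.2
      hY := fun i hi => (h5 i hi).1.2
      hZ := fun i hi => (h5 i hi).2
      Blt := fun i hi => (h6 i hi).1
      Binv := fun i hi => (h6 i hi).2 }

/-- a list of images which is an involution on the basis is an involution -/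
theorem ap_invol {A : List ℕ} {N : ℕ} (hl : A.length = N)
    (h : ∀ i < N, ap A (A.getD i 0) = 2 ^ i) {n : ℕ} (hn : n < 2 ^ N) : ap A (ap A n) = n := by
  rw [ap_map (ap A) (ap_zero A) (ap_xor A)]
  have e : A.map (ap A) = (List.range N).map (2 ^ ·) := by
    apply List.ext_getElem
    · simp [hl]
    · intro i h1 h2
      rw [List.getElem_map, List.getElem_map, List.getElem_range]
      have hi : i < N := by simpa using h2
      have := h i hi
      rw [List.getD_eq_getElem _ _ (by omega)] at this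
      exact this
  rw [e, ap_range N n hn]

theorem ap_lt' {A : List ℕ} {N k : ℕ} (hl : A.length = N) (h : ∀ i < N, A.getD i 0 < 2 ^ k)
    (n : ℕ) : ap A n < 2 ^ k := by
  refine ap_lt A (fun x hx => ?_) n
  obtain ⟨i, hi, rfl⟩ := List.getElem_of_mem hx
  have := h i (by omega)
  rwa [List.getD_eq_getElem _ _ hi] at this

/-- a new table from an automorphism -/
def tr (tp : TbP t) {A B : List ℕ} (ha : AutP t A B) (rl : Real P t.N t.RD t.Yc t.Zc) :
    Real P t.N t.RD t.Yc t.Zc where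
  h := fun i => rl.vec (A.getD i 0)
  b := fun i => rl.emb (B.getD i 0)
  h0 := by
    show rl.vec (A.getD 0 0) = y
    rw [ha.A0, Real.vec_uv tp (by norm_num)]
    simp [uv]
  h1 := by
    show rl.vec (A.getD 1 0) = z
    rw [ha.A1, Real.vec_uv tp (by norm_num)]
    simp [uv]
  span := by
    intro v
    obtain ⟨n, hn, hcl⟩ := rl.cl_ex v
    refine ⟨ap A n, ap_lt' ha.Al ha.Alt n, ?_⟩
    have e : bsum (fun i => rl.vec (A.getD i 0)) t.N (ap A n) = rl.vec n := by
      have := map_ap rl.vec rl.vec_zero rl.vec_xor A (ap A n)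
      rw [ha.Al, ap_invol ha.Al ha.Ainv hn] at this
      exact this.symm
    rw [e]
    exact hcl
  hY := by
    intro i hi
    rw [Real.Y_vec tp, ha.hY i hi, map_ap rl.emb rl.emb_zero rl.emb_xor, ha.Bl]
  hZ := by
    intro i hi
    rw [Real.Z_vec tp, ha.hZ i hi, map_ap rl.emb rl.emb_zero rl.emb_xor, ha.Bl]
  inj := by
    intro ρ hρ h
    have e := map_ap rl.emb rl.emb_zero rl.emb_xor B ρ
    rw [ha.Bl, h] at e
    have h1 := rl.inj _ (ap_lt' ha.Bl ha.Blt ρ) e
    rw [← ap_invol ha.Bl ha.Binv hρ, h1, ap_zero]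

theorem tr_vec (tp : TbP t) {A B : List ℕ} (ha : AutP t A B)
    (rl : Real P t.N t.RD t.Yc t.Zc) (n : ℕ) : (tr tp ha rl).vec n = rl.vec (ap A n) := by
  have := map_ap rl.vec rl.vec_zero rl.vec_xor A n
  rw [ha.Al] at this
  exact this.symm

theorem tr_emb (tp : TbP t) {A B : List ℕ} (ha : AutP t A B)
    (rl : Real P t.N t.RD t.Yc t.Zc) (n : ℕ) : (tr tp ha rl).emb n = rl.emb (ap B n) := by
  have := map_ap rl.emb rl.emb_zero rl.emb_xor B n
  rw [ha.Bl] at this
  exact this.symm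

theorem dead_aut (tp : TbP t) {A B : List ℕ} (ha : AutP t A B) {c d r : ℕ}
    (h : Dead P t c d r) : Dead P t (ap A c) (ap A d) (ap B r) := by
  intro rl g k hg hk hT
  refine h (tr tp ha rl) g k ?_ ?_ ?_
  · unfold Real.cl
    rw [tr_vec]
    exact hg
  · unfold Real.cl
    rw [tr_vec]
    exact hk
  · rw [tr_emb]
    exact hT

theorem dead_shift (tp : TbP t) {c d r u v : ℕ} (hu : u < 4) (hv : v < 4)
    (h : Dead P t c d r) :
    Dead P t (c ^^^ u) (d ^^^ v) (r ^^^ apu t u d ^^^ apu t v (c ^^^ u)) := by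
  intro rl g k hg hk hT
  have hg' := Real.cl_add hg (Real.cl_uv tp hu)
  have hk' := Real.cl_add hk (Real.cl_uv tp hv)
  rw [Nat.xor_assoc, Nat.xor_self, Nat.xor_zero] at hg' hk'
  refine h rl _ _ hg' hk' ?_
  have h1 := (hT.add (Plane.T.uv_right g v)).shift u
  rw [Real.um_cl tp hg, Real.um_cl tp hk', ← rl.emb_xor, ← rl.emb_xor] at h1
  have e : r ^^^ apu t u d ^^^ apu t v (c ^^^ u) ^^^ apu t v (c ^^^ u) ^^^ apu t u d = r := by
    rw [Nat.xor_assoc (r ^^^ apu t u d), Nat.xor_self, Nat.xor_zero, Nat.xor_assoc,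
      Nat.xor_self, Nat.xor_zero]
  rwa [e] at h1

theorem dead_nf (tp : TbP t) {c d r : ℕ} (h : Dead P t c d r) :
    Dead P t (c ^^^ (c % 4)) (d ^^^ (d % 4)) (nfr t c d r) :=
  dead_shift tp (Nat.mod_lt _ (by norm_num)) (Nat.mod_lt _ (by norm_num)) h

theorem dead_nf' (tp : TbP t) (he : S.e = 0) {c d r : ℕ} (h : Dead P t d c r) :
    Dead P t (d ^^^ (d % 4)) (c ^^^ (c % 4)) (nfr t c d r) := by
  intro rl
  have e : nfr t c d r = nfr t d c r := by
    have hc : c % 4 < 4 := Nat.mod_lt _ (by norm_num)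
    have hd : d % 4 < 4 := Nat.mod_lt _ (by norm_num)
    have h4 : 4 ≤ 2 ^ t.N := by
      calc 4 = 2 ^ 2 := by norm_num
        _ ≤ _ := Nat.pow_le_pow_right (by norm_num) tp.N2
    have e1 : apu t (c % 4) (d % 4) = apu t (d % 4) (c % 4) := by
      refine Real.emb_inj (rl := rl) (tp.lt _ hc _ (by omega)) (tp.lt _ hd _ (by omega)) ?_
      rw [← Real.um_cl tp (Real.cl_uv tp hd), ← Real.um_cl tp (Real.cl_uv tp hc),
        Plane.um_uv he]
    unfold nfr
    rw [apu_xor, apu_xor, e1]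
    simp only [Nat.xor_assoc]
    congr 1
    simp only [← Nat.xor_assoc]
    rw [Nat.xor_comm (apu t (c % 4) d)]
  rw [e]
  exact dead_nf tp h rl

theorem xmod4 {c n : ℕ} (hc : c < 2 ^ n) (hn : 2 ≤ n) :
    (c ^^^ (c % 4)) % 4 = 0 ∧ (c ^^^ (c % 4)) < 2 ^ n := by
  have h4 : 4 ≤ 2 ^ n := by
    calc 4 = 2 ^ 2 := by norm_num
      _ ≤ _ := Nat.pow_le_pow_right (by norm_num) hn
  have h1 : c % 4 < 4 := Nat.mod_lt _ (by norm_num)
  refine ⟨?_, Nat.xor_lt_two_pow hc (by omega)⟩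
  rw [xor_mod4, Nat.mod_mod, Nat.xor_self]

theorem apu_lt (tp : TbP t) {i m : ℕ} (hi : i < 4) (hm : m < 2 ^ t.N) :
    apu t i m < 2 ^ t.RD := tp.lt i hi m hm

theorem run_sound [Finite V] (tp : TbP t) (env : Env P t) : ∀ (its : List (List ℕ))
    (D D' : ℕ), run t its D = some D' → Inv P t D → Inv P t D'
  | [], D, D', h, hD => by
    unfold run at h
    rw [← Option.some.inj h]
    exact hD
  | it :: its, D, D', h, hD => by
    unfold run at h
    split at h
    · -- a proof of an arc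
      rename_i c d r w p
      split_ifs at h with h1
      simp only [Bool.and_eq_true, decide_eq_true_eq, beq_iff_eq] at h1
      obtain ⟨⟨⟨⟨⟨⟨hc, hd⟩, hc2⟩, hd2⟩, hr⟩, hss⟩, hp⟩ := h1
      have h2 := dead_of_chk tp env hD hc2 hc hd2 hr hp
      have h3 := dead_symm tp env.he h2 hss
      exact run_sound tp env its _ _ h ((hD.set tp hc hd hd2 hr h2).set tp hd hc hc2 hr h3)
    · -- the image under an automorphism
      rename_i g c d r
      split_ifs at h with h1
      simp only [Bool.and_eq_true, decide_eq_true_eq, beq_iff_eq] at h1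
      obtain ⟨⟨⟨⟨⟨⟨⟨hb1, hb2⟩, hc⟩, hd⟩, hc2⟩, hd2⟩, hr⟩, hg⟩ := h1
      have hm : t.aut.getD g ([], []) ∈ t.aut := by
        rw [List.getD_eq_getElem _ _ hg]
        exact List.getElem_mem hg
      have ha := autP_of (tp.aut _ hm)
      have h2 := dead_aut tp ha (hD c d r hc hd hc2 hd2 hr hb1)
      have h3 := dead_aut tp ha (hD d c r hd hc hd2 hc2 hr hb2)
      have h4 := dead_nf tp h2
      have h5 := dead_nf' tp env.he h3
      have l1 := ap_lt' ha.Al ha.Alt c
      have l2 := ap_lt' ha.Al ha.Alt d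
      have l3 := ap_lt' ha.Bl ha.Blt r
      obtain ⟨m1, m2⟩ := xmod4 l1 tp.N2
      obtain ⟨m3, m4⟩ := xmod4 l2 tp.N2
      have l4 : nfr t (ap (t.aut.getD g ([], [])).1 c) (ap (t.aut.getD g ([], [])).1 d)
          (ap (t.aut.getD g ([], [])).2 r) < 2 ^ t.RD := by
        unfold nfr
        exact Nat.xor_lt_two_pow (Nat.xor_lt_two_pow l3
          (apu_lt tp (Nat.mod_lt _ (by norm_num)) l2))
          (apu_lt tp (Nat.mod_lt _ (by norm_num)) m2)
      exact run_sound tp env its _ _ h ((hD.set tp m1 m3 m4 l4 h4).set tp m3 m1 m2 l4 h5)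
    · exact absurd h (by simp)

theorem end_sound [Finite V] (tp : TbP t) (env : Env P t) (rl : Real P t.N t.RD t.Yc t.Zc)
    {D c p : ℕ} (hD : Inv P t D) (hc : c < 2 ^ t.N) (hc4 : c % 4 = 0)
    (h : (chk t D c 30 (base t c) [] p).isSome = true) : False := by
  obtain ⟨s', hs⟩ := Option.isSome_iff_exists.1 h
  exact chk_sound tp env hD hc hc4 (rl.cl_vec c) 30 _ _ _ _ hs
    (Real.Tx.base tp env.he hc (rl.cl_vec c)) (fun x hx => absurd hx List.not_mem_nil)

theorem cert_sound [Finite V] (env : Env P t) (rl : Real P t.N t.RD t.Yc t.Zc)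
    {items : List (List ℕ)} {c p : ℕ} (h : certOK t items c p = true) : False := by
  unfold certOK at h
  simp only [Bool.and_eq_true, decide_eq_true_eq, beq_iff_eq] at h
  obtain ⟨⟨⟨h1, h2⟩, h3⟩, h4⟩ := h
  split at h4
  · exact absurd h4 (by simp)
  · rename_i D hD
    have tp := tbP_of h1
    exact end_sound tp env rl (run_sound tp env _ _ _ hD Inv.zero) h2 h3 h4

end Pool.Agent.R4
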