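import Pool.Agent.R4.Fast
import Pool.Agent.R4.Run

/-!
# The fast checker is correct (helper66)
-/

set_option autoImplicit false
set_option linter.unusedSimpArgs false

namespace Pool.Agent.R4

open Pool.Agent.Helper58.PLine (QData)
open Pool.Agent.ETCP

section eqs

theorem bif'_true {α : Type} (x y : α) : bif' true x y = x := rfl

theorem bif'_false {α : Type} (x y : α) : bif' false x y = y := rfl

theorem bif'_some {b : Bool} {x : Option ℕ} {s : ℕ} (h : bif' b x none = some s) :
    b = true ∧ x = some s := by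
  cases b
  · exact absurd h (by simp [bif'_false])
  · exact ⟨rfl, h⟩

theorem apF_eq : ∀ (L : List ℕ) (n : ℕ), apF L n = ap L n
  | [], n => rfl
  | c :: cs, n => by
    show Nat.xor (Nat.mul (Nat.mod n 2) c) (apF cs (Nat.div n 2)) = _
    rw [apF_eq cs]
    rfl

theorem mapF_eq (f : ℕ → ℕ) : ∀ (L M : List ℕ), mapF f L M = L.map f ++ M
  | [], M => rfl
  | x :: L, M => by
    show f x :: mapF f L M = _
    rw [mapF_eq f L]
    rfl

theorem spanF_eq : ∀ L : List ℕ, spanF L = spanL L
  | [] => rfl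
  | v :: L => by
    show mapF (fun x => x) (spanF L) (mapF (Nat.xor v) (spanF L) []) = _
    rw [spanF_eq L, mapF_eq, mapF_eq, List.append_nil, List.map_id']
    rfl

theorem nzF_eq : ∀ L : List ℕ, nzF L = nzL L
  | [] => rfl
  | v :: L => by
    show mapF (fun x => x) (nzF L) (mapF (Nat.xor v) (spanF L) []) = _
    rw [nzF_eq L, spanF_eq, mapF_eq, mapF_eq, List.append_nil, List.map_id']
    rfl

theorem allF_eq (p : ℕ → Bool) : ∀ L : List ℕ, allF p L = L.all p
  | [] => rfl
  | x :: L => by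
    show bif' (p x) (allF p L) false = _
    rw [allF_eq p L, List.all_cons]
    cases p x <;> rfl

theorem getF_eq : ∀ (L : List ℕ) (i : ℕ), getF L i = L.getD i 65536
  | [], i => rfl
  | v :: L, 0 => rfl
  | v :: L, i + 1 => by
    show getF L i = _
    rw [getF_eq L i]
    rfl

theorem masksF_mem {p : ℕ → Prop} {B : List ℕ} (hp : ∀ n, p (ap B n)) :
    ∀ (k s : ℕ), ∀ x ∈ masksF B k s, p x
  | 0, s, x, hx => absurd hx List.not_mem_nil
  | k + 1, s, x, hx => by
    have e : masksF B (k + 1) s = apF B (Nat.mod s 65536) :: masksF B k (Nat.div s 65536) := rfl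
    rw [e, apF_eq] at hx
    rcases List.mem_cons.1 hx with rfl | hx
    · exact hp _
    · exact masksF_mem hp k _ x hx

theorem masksF_length (B : List ℕ) : ∀ (k s : ℕ), (masksF B k s).length = k
  | 0, s => rfl
  | k + 1, s => by
    have e : masksF B (k + 1) s = apF B (Nat.mod s 65536) :: masksF B k (Nat.div s 65536) := rfl
    rw [e, List.length_cons, masksF_length B k]

theorem bytesF_length : ∀ (k s : ℕ), (bytesF k s).length = k
  | 0, s => rfl
  | k + 1, s => by
    have e : bytesF (k + 1) s = Nat.mod s 256 :: bytesF k (Nat.div s 256) := rfl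
    rw [e, List.length_cons, bytesF_length k]

theorem chkAllF_eq (f : List ℕ → List ℕ → ℕ → Option ℕ) (B : List ℕ) :
    ∀ (L NR : List ℕ) (s : ℕ), chkAllF f B L NR s = chkAll f B NR L s
  | [], NR, s => rfl
  | v :: L, NR, s => by
    have e : chkAllF f B (v :: L) NR s = Option.rec (motive := fun _ => Option ℕ) none
      (fun s' => chkAllF f B L (v :: NR) s') (f (v :: B) NR s) := rfl
    rw [e]
    unfold chkAll
    cases f (v :: B) NR s with
    | none => rfl
    | some s' => exact chkAllF_eq f B L (v :: NR) s'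

theorem linkK_eq (T N ij m0 : ℕ) : ∀ L : List ℕ,
    linkK T N ij m0 L = L.map (fun κ => zcF T N ij (m0 ^^^ κ))
  | [] => rfl
  | κ :: L => by
    show zcF T N ij (Nat.xor m0 κ) :: linkK T N ij m0 L = _
    rw [linkK_eq T N ij m0 L]
    rfl

theorem rankK_eq (T N u : ℕ) (Bs : List ℕ) : ∀ A : List ℕ,
    rankK T N u A Bs = A.flatMap (fun a => Bs.map (fun b => zcF T N u (a ^^^ b)))
  | [] => rfl
  | a :: A => by
    show mapF (fun b => zcF T N u (Nat.xor a b)) Bs (rankK T N u A Bs) = _
    rw [rankK_eq T N u Bs A, mapF_eq, List.flatMap_cons]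
    rfl

theorem spanL_pred (p : ℕ → Prop) (p0 : p 0) (pa : ∀ a b, p a → p b → p (a ^^^ b)) :
    ∀ (L : List ℕ), (∀ x ∈ L, p x) → ∀ x ∈ spanL L, p x
  | [], _, x, hx => by
    simp only [spanL, List.mem_singleton] at hx
    rw [hx]; exact p0
  | v :: L, hL, x, hx => by
    simp only [spanL, List.mem_append, List.mem_map] at hx
    have ih := spanL_pred p p0 pa L (fun x hx => hL x (List.mem_cons_of_mem _ hx))
    rcases hx with hx | ⟨y, hy, rfl⟩
    · exact ih x hx
    · exact pa _ _ (hL v List.mem_cons_self) (ih y hy)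

theorem nzL_pred (p : ℕ → Prop) (p0 : p 0) (pa : ∀ a b, p a → p b → p (a ^^^ b)) :
    ∀ (L : List ℕ), (∀ x ∈ L, p x) → ∀ x ∈ nzL L, p x
  | [], _, x, hx => by
    simp only [nzL] at hx
    exact absurd hx List.not_mem_nil
  | v :: L, hL, x, hx => by
    simp only [nzL, List.mem_append, List.mem_map] at hx
    rcases hx with hx | ⟨y, hy, rfl⟩
    · exact nzL_pred p p0 pa L (fun x hx => hL x (List.mem_cons_of_mem _ hx)) x hx
    · exact pa _ _ (hL v List.mem_cons_self)
        (spanL_pred p p0 pa L (fun x hx => hL x (List.mem_cons_of_mem _ hx)) y hy)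

theorem nbeq {a b : ℕ} (h : a ≠ b) : Nat.beq a b = false := by
  rw [← Bool.not_eq_true]
  exact fun e => h (Nat.eq_of_beq_eq_true e)

end eqs

/-- the packed table is correct -/
def PackP (T : ℕ) (t : Tb) : Prop := ∀ j < 4, ∀ m < 2 ^ t.N, apuF T t.N j m = apu t j m

theorem packP_of {T : ℕ} {t : Tb} (h : packOK T t = true) : PackP T t := by
  unfold packOK at h
  simp only [List.all_eq_true, List.mem_range, beq_iff_eq] at h
  exact h

variable {V Q : Type} [AddCommGroup V] [Module (ZMod 2) V] {S : QData V Q} {y z : V}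
  {R : Type} [AddCommGroup R] [Module (ZMod 2) R] {P : Plane S y z R} {t : Tb}

theorem zcF_eq {T : ℕ} (hT : PackP T t) {i m : ℕ} (hi : i < 4) (hm : m < 2 ^ t.N) :
    zcF T t.N i m = zc t i m := by
  have : zcF T t.N i m = m + 256 * apuF T t.N i m := rfl
  rw [this, hT i hi m hm]
  rfl

theorem sgF_eq {T : ℕ} (hT : PackP T t) {i x : ℕ} (hi : i < 4) (hm : x % 256 < 2 ^ t.N) :
    sgF T t.N i x = sg t i x := by
  have : sgF T t.N i x = (x / 256) ^^^ apuF T t.N i (x % 256) := rfl
  rw [this, hT i hi _ hm]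
  rfl

theorem row_testBit {D c d r : ℕ} (hN : 2 ≤ t.N) (hd : d < 2 ^ t.N) (hr : r < 2 ^ t.RD)
    (h : Nat.mod (Nat.shiftRight (row t D c) (Nat.add (Nat.shiftLeft (Nat.div d 4) t.RD) r)) 2 =
      1) : D.testBit (idx t c d r) = true := by
  have h1 : (row t D c).testBit (d / 4 * 2 ^ t.RD + r) = true := by
    rw [Nat.testBit_eq_decide_div_mod_eq, decide_eq_true_eq, ← Nat.shiftRight_eq_div_pow,
      ← Nat.shiftLeft_eq]
    exact h
  have h2 : row t D c = (D >>> (c / 4 * 2 ^ (t.N - 2 + t.RD))) % 2 ^ (2 ^ (t.N - 2 + t.RD)) := rfl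
  rw [h2, Nat.testBit_mod_two_pow, Bool.and_eq_true, Nat.testBit_shiftRight] at h1
  have e : c / 4 * 2 ^ (t.N - 2 + t.RD) + (d / 4 * 2 ^ t.RD + r) = idx t c d r := by
    unfold idx
    rw [pow_add]
    ring
  rw [← e]
  exact h1.2

theorem chkF_sound [Finite V] (tp : TbP t) (env : Env P t) {T : ℕ} (hT : PackP T t) {D c : ℕ}
    (hD : Inv P t D) (hc : c < 2 ^ t.N) (hc4 : c % 4 = 0) {rl : Real P t.N t.RD t.Yc t.Zc}
    {g : V} (hg : rl.cl g c) : ∀ (n : ℕ) (B NR : List ℕ) (s s' : ℕ),
      chkF T t (row t D c) c n B NR s = some s' →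
      (∀ x ∈ B, rl.Tx g x) → (∀ x ∈ NR, ¬ rl.Tx g x) → False
  | 0, B, NR, s, s', h, _, _ => by
    have e : chkF T t (row t D c) c 0 B NR s = none := rfl
    rw [e] at h
    exact absurd h (by simp)
  | n + 1, B, NR, s, s', h, hB, hNR => by
    have e : chkF T t (row t D c) c (n + 1) B NR s =
      stepF T t (row t D c) c (chkF T t (row t D c) c n) B NR s (s % 8) := rfl
    rw [e] at h
    have hap := Real.Tx.ap hB
    have step : ∀ (cs : List ℕ) (s1 : ℕ), (∃ v ∈ cs, rl.Tx g v) →
        chkAllF (chkF T t (row t D c) c n) B cs NR s1 = some s' → False := by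
      rintro cs s1 ⟨v, hv, hx⟩ h2
      rw [chkAllF_eq] at h2
      refine chkAll_sound (g := g) (rl := rl) ?_ cs NR s1 s' h2 hNR v hv hx
      intro v' NR' s2 s3 h2 hNR' hx'
      refine chkF_sound tp env hT hD hc hc4 hg n (v' :: B) NR' s2 s3 h2 (fun x hx => ?_) hNR'
      rcases List.mem_cons.1 hx with rfl | hx
      · exact hx'
      · exact hB x hx
    unfold stepF at h
    by_cases o0 : s % 8 = 0
    · -- dead arc
      rw [o0] at h
      have h' : deadF t.RD (row t D c) (apF B (s / 8 % 65536)) s = some s' := h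
      unfold deadF at h'
      obtain ⟨h1, h2⟩ := bif'_some h'
      obtain ⟨h3, -⟩ := bif'_some h2
      have h1' := Nat.eq_of_beq_eq_true h1
      have h3' := Nat.eq_of_beq_eq_true h3
      rw [apF_eq] at h1' h3'
      have h1'' : ap B (s / 8 % 65536) % 4 = 0 := h1'
      obtain ⟨w, hw⟩ := hap (s / 8 % 65536)
      have h4 := row_testBit (t := t) (D := D) (c := c) tp.N2 hw.1 hw.2.1 h3'
      exact hD c _ _ hc4 (by omega) hc hw.1 hw.2.1 h4 rl g w hg hw.2.2.1 hw.2.2.2
    by_cases o1 : s % 8 = 1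
    · rw [o1] at h
      have h' : negF (getF NR (s / 524288 % 256)) (apF B (s / 8 % 65536)) s = some s' := h
      unfold negF at h'
      obtain ⟨h1, -⟩ := bif'_some h'
      have h1' := Nat.eq_of_beq_eq_true h1
      rw [apF_eq, getF_eq] at h1'
      have hx := hap (s / 8 % 65536)
      rw [← h1'] at hx
      by_cases h2 : s / 524288 % 256 < NR.length
      · rw [List.getD_eq_getElem _ _ h2] at hx
        exact hNR _ (List.getElem_mem h2) hx
      · rw [List.getD_eq_default _ _ (by omega)] at hx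
        obtain ⟨w, hw⟩ := hx
        have h3 := hw.2.1
        have h4 := pow_le_256 tp.R8
        omega
    by_cases o2 : s % 8 = 2
    · rw [o2] at h
      have h' : linkS (chkF T t (row t D c) c n) T t.N t.ker B NR (s / 8) = some s' := h
      unfold linkS linkF at h'
      obtain ⟨h1, h2⟩ := bif'_some h'
      obtain ⟨h3, h4⟩ := bif'_some h2
      obtain ⟨h5, h6⟩ := bif'_some h4
      have h5' := Nat.eq_of_beq_eq_true h5
      rw [apF_eq] at h5'
      have i4 : s / 8 % 4 < 4 := Nat.mod_lt _ (by norm_num)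
      have j4 : s / 8 / 4 % 4 < 4 := Nat.mod_lt _ (by norm_num)
      have hm : s / 8 / 16 % 256 < 2 ^ t.N := by
        have := Nat.le_of_ble_eq_true h3
        have e1 : Nat.shiftLeft 1 t.N = 2 ^ t.N := by
          have := Nat.one_shiftLeft t.N
          exact this
        rw [e1] at this
        exact this
      have hx := hap (s / 8 / 4096 % 65536)
      have h7 : apu t (s / 8 / 4 % 4) (s / 8 / 16 % 256) =
          sg t (s / 8 % 4) (ap B (s / 8 / 4096 % 65536)) := by
        rw [← hT _ j4 _ hm, ← sgF_eq hT i4 (by obtain ⟨w, hw⟩ := hx; exact hw.1)]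
        exact h5'
      obtain ⟨κ, hκ, hx2⟩ := Real.link_sound tp i4 j4 hm h7 hx
      refine step _ _ ⟨_, ?_, hx2⟩ h6
      rw [linkK_eq]
      refine List.mem_map.2 ⟨κ, hκ, ?_⟩
      exact zcF_eq hT (Nat.xor_lt_two_pow (n := 2) i4 j4)
        (Nat.xor_lt_two_pow hm (tp.kerlt _ j4 _ hκ))
    by_cases o3 : s % 8 = 3
    · rw [o3] at h
      have h' : rankS (chkF T t (row t D c) c n) T t.N (s / 8 % 4) B NR (s / 32 % 8)
        (t.rk + 1 - s / 32 % 8) (s / 256) = some s' := h
      unfold rankS rankF at h'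
      obtain ⟨h1, h2⟩ := bif'_some h'
      obtain ⟨h3, h4⟩ := bif'_some h2
      rw [allF_eq, List.all_eq_true] at h1 h3
      have u4 : s / 8 % 4 < 4 := Nat.mod_lt _ (by norm_num)
      set p := masksF B (s / 32 % 8) (s / 256) with hp
      set q := bytesF (t.rk + 1 - s / 32 % 8) (Nat.div (s / 256) (Nat.pow 65536 (s / 32 % 8)))
        with hq
      have hpx : ∀ x ∈ p, rl.Tx g x := masksF_mem hap _ _
      have hpl : p.length = s / 32 % 8 := masksF_length _ _ _
      have hql : q.length = t.rk + 1 - s / 32 % 8 := bytesF_length _ _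
      have hqlt : ∀ m ∈ q, m < 2 ^ t.N := by
        intro m hm
        have := Nat.le_of_ble_eq_true (h3 m hm)
        have e1 : Nat.shiftLeft 1 t.N = 2 ^ t.N := Nat.one_shiftLeft t.N
        rw [e1] at this
        exact this
      have hsg : mapF (sgF T t.N (s / 8 % 4)) p [] = p.map (sg t (s / 8 % 4)) := by
        rw [mapF_eq, List.append_nil]
        refine List.map_congr_left fun x hx => sgF_eq hT u4 ?_
        obtain ⟨w, hw⟩ := hpx x hx
        exact hw.1
      have h1' : ∀ v ∈ nzL (p.map (sg t (s / 8 % 4))), v ≠ 0 := by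
        intro v hv
        rw [← nzF_eq, ← hsg] at hv
        have h5 : 1 ≤ v := Nat.le_of_ble_eq_true (h1 v hv)
        omega
      obtain ⟨a, ha, b, hb, hx⟩ := Real.rank_sound tp env u4 hpx hqlt
        (by rw [hql, hpl]; omega) h1'
      refine step _ _ ⟨_, ?_, hx⟩ h4
      rw [rankK_eq]
      refine List.mem_flatMap.2 ⟨a, by rw [nzF_eq]; exact ha, ?_⟩
      have hs : spanF (mapF (fun x => Nat.mod x 256) p []) = spanL (p.map (· % 256)) := by
        rw [spanF_eq, mapF_eq, List.append_nil]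
        rfl
      refine List.mem_map.2 ⟨b, by rw [← hs] at hb; exact hb, ?_⟩
      refine zcF_eq hT u4 (Nat.xor_lt_two_pow ?_ ?_)
      · exact nzL_pred (fun m => m < 2 ^ t.N) (Nat.two_pow_pos _)
          (fun _ _ h h' => Nat.xor_lt_two_pow h h') q hqlt a ha
      · refine spanL_pred (fun m => m < 2 ^ t.N) (Nat.two_pow_pos _)
          (fun _ _ h h' => Nat.xor_lt_two_pow h h') _ (fun m hm => ?_) b hb
        obtain ⟨x, hx, rfl⟩ := List.mem_map.1 hm
        obtain ⟨w, hw⟩ := hpx x hx
        exact hw.1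
    · have h' : restF (chkF T t (row t D c) c n) t c B NR s = some s' := by
        rw [← h]
        have e0 : Nat.beq (s % 8) 0 = false := nbeq o0
        have e1 : Nat.beq (s % 8) 1 = false := nbeq o1
        have e2 : Nat.beq (s % 8) 2 = false := nbeq o2
        have e3 : Nat.beq (s % 8) 3 = false := nbeq o3
        rw [e0, e1, e2, e3]
        rfl
      unfold restF at h'
      cases hk : kids t 0 c B (s % 8) (s / 8) with
      | none =>
        rw [hk] at h'
        exact absurd h' (by simp)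
      | some r =>
        obtain ⟨cs, s1⟩ := r
        rw [hk] at h'
        exact step cs s1 (Real.kids_sound tp env hk hc hg hB) h'

theorem dead_of_chkF [Finite V] (tp : TbP t) (env : Env P t) {T : ℕ} (hT : PackP T t)
    {D c d r p : ℕ} (hD : Inv P t D)
    (hc : c < 2 ^ t.N) (hc4 : c % 4 = 0) (hd : d < 2 ^ t.N) (hr : r < 2 ^ t.RD)
    (h : (chkF T t (row t D c) c 30 ((d + 256 * r) :: base t c) [] p).isSome = true) :
    Dead P t c d r := by
  intro rl g k hg hk hT'
  obtain ⟨s', hs⟩ := Option.isSome_iff_exists.1 h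
  refine chkF_sound tp env hT hD hc hc4 hg 30 _ _ _ _ hs (fun x hx => ?_)
    (fun x hx => absurd hx List.not_mem_nil)
  rcases List.mem_cons.1 hx with rfl | hx
  · exact ⟨k, Real.TT.mk' tp hd hr hk hT'⟩
  · exact Real.Tx.base tp env.he hc hg x hx

theorem runF_sound [Finite V] (tp : TbP t) (env : Env P t) {T : ℕ} (hT : PackP T t) :
    ∀ (its : List (List ℕ)) (D D' : ℕ), runF T t its D = some D' → Inv P t D → Inv P t D'
  | [], D, D', h, hD => by
    unfold runF at h
    rw [← Option.some.inj h]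
    exact hD
  | it :: its, D, D', h, hD => by
    unfold runF at h
    split at h
    · -- a proof of an arc
      rename_i c d r w p
      split_ifs at h with h1
      simp only [Bool.and_eq_true, decide_eq_true_eq, beq_iff_eq] at h1
      obtain ⟨⟨⟨⟨⟨⟨hc, hd⟩, hc2⟩, hd2⟩, hr⟩, hss⟩, hp⟩ := h1
      have h2 := dead_of_chkF tp env hT hD hc2 hc hd2 hr hp
      have h3 := dead_symm tp env.he h2 hss
      exact runF_sound tp env hT its _ _ h ((hD.set tp hc hd hd2 hr h2).set tp hd hc hc2 hr h3)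
    · -- the image under an automorphism
      rename_i g c d r
      split_ifs at h with h1
      simp only [Bool.and_eq_true, decide_eq_true_eq, beq_iff_eq] at h1
      obtain ⟨⟨⟨⟨⟨⟨⟨hb1, hb2⟩, hc⟩, hd⟩, hc2⟩, hd2⟩, hr⟩, hg⟩ := h1
      have hm : t.aut.getD g ([], []) ∈ t.aut := by
        rw [List.getD_eq_getElem _ _ hg]
        exact List.getElem_mem hg
      have ha := autP_of (tp.aut _ hm)
      have h2 := dead_aut tp ha (hD c d r hc hd hc2 hd2 hr hb1)
      have h3 := dead_aut tp ha (hD d c r hd hc hd2 hc2 hr hb2)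
      have h4 := dead_nf tp h2
      have h5 := dead_nf' tp env.he h3
      have l1 := ap_lt' ha.Al ha.Alt c
      have l2 := ap_lt' ha.Al ha.Alt d
      have l3 := ap_lt' ha.Bl ha.Blt r
      obtain ⟨m1, m2⟩ := xmod4 l1 tp.N2
      obtain ⟨m3, m4⟩ := xmod4 l2 tp.N2
      have l4 : nfr t (ap (t.aut.getD g ([], [])).1 c) (ap (t.aut.getD g ([], [])).1 d)
          (ap (t.aut.getD g ([], [])).2 r) < 2 ^ t.RD := by
        unfold nfr
        exact Nat.xor_lt_two_pow (Nat.xor_lt_two_pow l3
          (apu_lt tp (Nat.mod_lt _ (by norm_num)) l2))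
          (apu_lt tp (Nat.mod_lt _ (by norm_num)) m2)
      exact runF_sound tp env hT its _ _ h
        ((hD.set tp m1 m3 m4 l4 h4).set tp m3 m1 m2 l4 h5)
    · exact absurd h (by simp)

theorem endF_sound [Finite V] (tp : TbP t) (env : Env P t) {T : ℕ} (hT : PackP T t)
    (rl : Real P t.N t.RD t.Yc t.Zc) {D c p : ℕ} (hD : Inv P t D) (hc : c < 2 ^ t.N)
    (hc4 : c % 4 = 0) (h : (chkF T t (row t D c) c 30 (base t c) [] p).isSome = true) :
    False := by
  obtain ⟨s', hs⟩ := Option.isSome_iff_exists.1 h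
  exact chkF_sound tp env hT hD hc hc4 (rl.cl_vec c) 30 _ _ _ _ hs
    (Real.Tx.base tp env.he hc (rl.cl_vec c)) (fun x hx => absurd hx List.not_mem_nil)

end Pool.Agent.R4
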