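import Pool.Agent.R4.End

/-!
# Structures with at most 45 quaternions, helper24

If an element `y` of maximal rank has `|Q_y| = 32` and is not regular, then there are at least
`46` quaternions: count the union of `Q_y`, `Q_z`, `Q_(y+z)` for a bad noncommuting plane.
-/

set_option autoImplicit false
set_option linter.unusedSectionVars false
set_option linter.unusedSimpArgs false
set_option linter.unusedVariables false
set_option linter.unnecessarySeqFocus false

namespace Pool.Agent.R4

open QS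
open Pool.Agent.Helper58.PLine (QData)
open Pool.Agent.ETCP
open Pool.Agent.REG10 (InQ SRg RegE vl ta BX)

variable {V Q : Type} [AddCommGroup V] [Module (ZMod 2) V] {S : QData V Q}

/-- `{q (x, v) : v ∈ A}` has `|A| / |A ∩ V_x|` elements -/
theorem ncard_img [Finite V] (x : V) (A : Submodule (ZMod 2) V) :
    (S.q x '' (A : Set V)).ncard * Nat.card (A ⊓ S.ann x : Submodule (ZMod 2) V) =
      Nat.card A := by
  classical
  let K : Submodule (ZMod 2) A := (S.ann x).comap A.subtype
  have h1 := Submodule.card_eq_card_quotient_mul_card K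
  have h2 : Nat.card K = Nat.card (A ⊓ S.ann x : Submodule (ZMod 2) V) := by
    refine Nat.card_congr ⟨fun k => ⟨k.1.1, k.1.2, k.2⟩, fun k => ⟨⟨k.1, k.2.1⟩, k.2.2⟩, ?_, ?_⟩
    · intro k; rfl
    · intro k; rfl
  have h3 : Nat.card (A ⧸ K) = (S.q x '' (A : Set V)).ncard := by
    have hmem : ∀ c : A ⧸ K, ∀ a : A, K.mkQ a = c →
        S.q x ((Quotient.out c : A) : V) = S.q x a := by
      intro c a hac
      have e : K.mkQ (Quotient.out c) = c := Quotient.out_eq c
      have h4 : (Quotient.out c : A) - a ∈ K := by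
        rw [← Submodule.Quotient.mk_eq_zero]
        have : K.mkQ ((Quotient.out c : A) - a) = 0 := by
          rw [map_sub, e, hac, sub_self]
        exact this
      have h5 : C S x (((Quotient.out c : A) : V) - (a : V)) := h4
      rw [ZModModule.sub_eq_add] at h5
      exact q_eq h5
    have h6 : S.q x '' (A : Set V) =
        Set.range (fun c : A ⧸ K => S.q x ((Quotient.out c : A) : V)) := by
      ext q
      constructor
      · rintro ⟨a, ha, rfl⟩
        exact ⟨K.mkQ ⟨a, ha⟩, hmem _ ⟨a, ha⟩ rfl⟩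
      · rintro ⟨c, rfl⟩
        exact ⟨_, (Quotient.out c : A).2, rfl⟩
    rw [h6, ← Nat.card_coe_set_eq]
    refine (Nat.card_range_of_injective ?_).symm
    intro c c' h
    have h7 : C S x (((Quotient.out c : A) : V) + ((Quotient.out c' : A) : V)) := q_eq_iff.1 h
    have e : ∀ c : A ⧸ K, K.mkQ (Quotient.out c) = c := fun c => Quotient.out_eq c
    rw [← e c, ← e c']
    have h8 : (Quotient.out c : A) - (Quotient.out c' : A) ∈ K := by
      show C S x (((Quotient.out c : A) : V) - ((Quotient.out c' : A) : V))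
      rw [ZModModule.sub_eq_add]
      exact h7
    rw [← Submodule.Quotient.mk_eq_zero] at h8
    have h9 : K.mkQ ((Quotient.out c : A) - (Quotient.out c' : A)) = 0 := h8
    rw [map_sub, sub_eq_zero] at h9
    exact h9
  rw [← h3, ← h2, mul_comm, h1]

theorem card_pow [Finite V] (A : Submodule (ZMod 2) V) : ∃ k, Nat.card A = 2 ^ k :=
  ⟨_, by rw [Module.natCard_eq_pow_finrank (K := ZMod 2) (V := A), Nat.card_zmod]⟩

theorem ncard_pow [Finite V] (x : V) (A : Submodule (ZMod 2) V) :
    ∃ k, (S.q x '' (A : Set V)).ncard = 2 ^ k := by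
  obtain ⟨m, hm⟩ := card_pow A
  have h := ncard_img (S := S) x A
  rw [hm] at h
  obtain ⟨k, -, hk⟩ := (Nat.dvd_prime_pow Nat.prime_two).1 (Dvd.intro _ h)
  exact ⟨k, hk⟩

theorem range_eq (x : V) : Set.range (S.q x) = S.q x '' ((⊤ : Submodule (ZMod 2) V) : Set V) := by
  rw [Submodule.top_coe, Set.image_univ]

/-- `Q_x ∩ Q_y = x V_(x+y)` -/
theorem inter_eq {x y s : V} (hs : x + y = s) :
    Set.range (S.q x) ∩ Set.range (S.q y) = S.q x '' (S.ann s : Set V) := by
  ext q
  constructor
  · rintro ⟨⟨a, rfl⟩, ⟨b, hb⟩⟩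
    obtain ⟨t, h1, h2, h3⟩ := link hb.symm
    refine ⟨t, ?_, (q_eq h1).symm⟩
    show C S s t
    rw [← hs]
    exact h3
  · rintro ⟨t, ht, rfl⟩
    refine ⟨⟨t, rfl⟩, ⟨t, ?_⟩⟩
    have h3 : C S (x + y) t := by rw [hs]; exact ht
    exact (q_eq' h3).symm

/-- inclusion-exclusion -/
theorem incl_excl {α : Type} (A B D : Set α) (hA : A.Finite) (hB : B.Finite) (hD : D.Finite) :
    (A ∪ B ∪ D).ncard + (A ∩ B).ncard + (A ∩ D).ncard + (B ∩ D).ncard =
      A.ncard + B.ncard + D.ncard + (A ∩ B ∩ D).ncard := by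
  have h1 := Set.ncard_union_add_ncard_inter A B hA hB
  have h2 := Set.ncard_union_add_ncard_inter (A ∪ B) D (hA.union hB) hD
  have h3 := Set.ncard_union_add_ncard_inter (A ∩ D) (B ∩ D) (hA.inter_of_left _)
    (hB.inter_of_left _)
  have h4 : (A ∪ B) ∩ D = A ∩ D ∪ B ∩ D := Set.union_inter_distrib_right A B D
  have h5 : A ∩ D ∩ (B ∩ D) = A ∩ B ∩ D := by
    ext x
    simp only [Set.mem_inter_iff]
    tauto
  rw [h4] at h2
  rw [h5] at h3
  omega

theorem arith {a b c cb cc t ka kb kc : ℕ} (ha : a = 2 ^ ka) (hb : b = 2 ^ kb) (hc : c = 2 ^ kc)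
    (h1 : 32 * a = cb * b) (h2 : 32 * a = cc * c) (h3 : 4 ≤ a) (h4 : a ≤ b) (h5 : a ≤ c)
    (h6 : 2 * c ≤ cb) (h7 : 2 ≤ t) : 46 + a + b + c ≤ 32 + cb + cc + t := by
  -- `b c ≤ 16 a`
  have h8 : b * c ≤ 16 * a := by nlinarith
  have h9 : c ≤ 16 := by
    by_contra hh
    have : a * c ≤ b * c := Nat.mul_le_mul_right _ h4
    nlinarith
  have h10 : b ≤ 16 := by
    by_contra hh
    have : b * a ≤ b * c := Nat.mul_le_mul_left _ h5
    nlinarith
  have e : ∀ {n k : ℕ}, n = 2 ^ k → 4 ≤ n → n ≤ 16 → n = 4 ∨ n = 8 ∨ n = 16 := by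
    intro n k h h' h''
    have k1 : k < 5 := by
      by_contra hh
      have : 2 ^ 5 ≤ 2 ^ k := Nat.pow_le_pow_right (by norm_num) (by omega)
      omega
    interval_cases k <;> omega
  rcases e ha h3 (by omega) with rfl | rfl | rfl <;>
    rcases e hb (by omega) h10 with rfl | rfl | rfl <;>
      rcases e hc (by omega) h9 with rfl | rfl | rfl <;> omega

/-- a bad noncommuting plane at an element of maximal rank five: at least `46` quaternions -/
theorem card_of_bad [Finite V] [Finite Q] (he : S.e = 0) {y z : V}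
    (h32 : (Set.range (S.q y)).ncard = 32)
    (hy : ∀ x, Nat.card (S.ann y) ≤ Nat.card (S.ann x)) (hyz : ¬ C S y z) (hb : Bad S y z) :
    46 ≤ Nat.card Q := by
  classical
  obtain ⟨w, hw, hwk⟩ := hb
  set s := y + z with hs
  have i1 : Set.range (S.q y) ∩ Set.range (S.q z) = S.q y '' (S.ann s : Set V) := inter_eq rfl
  have i2 : Set.range (S.q y) ∩ Set.range (S.q s) = S.q y '' (S.ann z : Set V) :=
    inter_eq (by rw [hs, ← add_assoc, ZModModule.add_self, zero_add])
  have i3 : Set.range (S.q z) ∩ Set.range (S.q s) = S.q z '' (S.ann y : Set V) :=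
    inter_eq (by rw [hs, add_comm, add_assoc, ZModModule.add_self, add_zero])
  obtain ⟨kc, hc⟩ := ncard_pow (S := S) y (S.ann s)
  obtain ⟨kb, hb⟩ := ncard_pow (S := S) y (S.ann z)
  obtain ⟨ka, ha⟩ := ncard_pow (S := S) z (S.ann y)
  obtain ⟨kz, hz⟩ := ncard_pow (S := S) z ⊤
  rw [← range_eq] at hz
  have n0 := ncard_img (S := S) y ⊤
  have n1 := ncard_img (S := S) z ⊤
  have n2 := ncard_img (S := S) s ⊤
  rw [← range_eq, top_inf_eq] at n0 n1 n2
  have m1 := ncard_img (S := S) y (S.ann s)
  have m2 := ncard_img (S := S) y (S.ann z)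
  have m3 := ncard_img (S := S) z (S.ann y)
  -- the three intersections agree
  have e1 : (S.ann s ⊓ S.ann y : Submodule (ZMod 2) V) = S.ann y ⊓ S.ann z := by
    apply le_antisymm
    · rintro v ⟨h1, h2⟩
      refine ⟨h2, ?_⟩
      have : C S (s + y) v := C.add' (S := S) h1 h2
      rwa [hs, add_right_comm, ZModModule.add_self, zero_add] at this
    · rintro v ⟨h1, h2⟩
      exact ⟨C.add' (S := S) h1 h2, h1⟩
  rw [e1] at m1
  rw [inf_comm] at m2
  set i := Nat.card (S.ann y ⊓ S.ann z : Submodule (ZMod 2) V) with hi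
  have hi0 : 0 < i := Nat.card_pos
  have f1 : (Set.range (S.q y)).Finite := Set.finite_range _
  have f2 : (Set.range (S.q z)).Finite := Set.finite_range _
  have f3 : (Set.range (S.q s)).Finite := Set.finite_range _
  have g0 := incl_excl _ _ _ f1 f2 f3
  rw [i1, i2, i3, h32] at g0
  -- lower bounds
  have a4 : 4 ≤ (S.q z '' (S.ann y : Set V)).ncard := by
    have hsub : ({S.q z 0, S.q z y, S.q z w, S.q z (y + w)} : Set Q) ⊆
        S.q z '' (S.ann y : Set V) := by
      have hyy : C S y y := C.self he y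
      rintro q (rfl | rfl | rfl | rfl)
      · exact ⟨0, C.zero y, rfl⟩
      · exact ⟨y, hyy, rfl⟩
      · exact ⟨w, hw, rfl⟩
      · exact ⟨y + w, hyy.add hw, rfl⟩
    have hzy : ¬ C S z y := fun h => hyz h.symm
    have hzw : ¬ C S z w := fun h => hwk 0 (by rw [S.q_zero]; exact h)
    have hzyw : ¬ C S z (y + w) := fun h => hwk z (by rw [S.symm y z]; exact (q_eq h).symm)
    have hcard : ({S.q z 0, S.q z y, S.q z w, S.q z (y + w)} : Set Q).ncard = 4 := by
      have d1 : S.q z 0 ≠ S.q z y := fun h => hzy (by rw [S.q_zero] at h; exact h.symm)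
      have d2 : S.q z 0 ≠ S.q z w := fun h => hzw (by rw [S.q_zero] at h; exact h.symm)
      have d3 : S.q z 0 ≠ S.q z (y + w) := fun h => hzyw (by rw [S.q_zero] at h; exact h.symm)
      have d4 : S.q z y ≠ S.q z w := fun h => hzyw (q_eq_iff.1 h)
      have d5 : S.q z y ≠ S.q z (y + w) := fun h => hzw (by
        have := q_eq_iff.1 h
        rwa [← add_assoc, ZModModule.add_self, zero_add] at this)
      have d6 : S.q z w ≠ S.q z (y + w) := fun h => hzy (by
        have := q_eq_iff.1 h
        rwa [add_left_comm, ZModModule.add_self, add_zero] at this)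
      rw [Set.ncard_insert_of_notMem, Set.ncard_insert_of_notMem, Set.ncard_pair d6]
      · simp only [Set.mem_insert_iff, Set.mem_singleton_iff, not_or]
        exact ⟨d4, d5⟩
      · simp only [Set.mem_insert_iff, Set.mem_singleton_iff, not_or]
        exact ⟨d1, d2, d3⟩
    rw [← hcard]
    exact Set.ncard_le_ncard hsub (Set.toFinite _)
  have t2 : 2 ≤ (Set.range (S.q y) ∩ Set.range (S.q z) ∩ Set.range (S.q s)).ncard := by
    have hsub : ({S.q y 0, S.q y z} : Set Q) ⊆
        Set.range (S.q y) ∩ Set.range (S.q z) ∩ Set.range (S.q s) := by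
      rintro q (rfl | rfl)
      · exact ⟨⟨⟨0, rfl⟩, ⟨0, by rw [S.q_zero, S.q_zero]⟩⟩, ⟨0, by rw [S.q_zero, S.q_zero]⟩⟩
      · refine ⟨⟨⟨z, rfl⟩, ⟨y, S.symm z y⟩⟩, ⟨z, ?_⟩⟩
        refine q_eq' ?_
        have : C S z z := C.self he z
        exact this.of_eq (by rw [hs, add_right_comm, ZModModule.add_self, zero_add]) rfl
    have hcard : ({S.q y 0, S.q y z} : Set Q).ncard = 2 := by
      apply Set.ncard_pair
      intro h
      exact hyz (by rw [S.q_zero] at h; exact h.symm)
    rw [← hcard]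
    exact Set.ncard_le_ncard hsub (Set.toFinite _)
  rw [i1] at t2
  -- `Q_y ∩ Q_z` is a proper subset of `Q_z`
  have hlt : (S.q y '' (S.ann s : Set V)).ncard < (Set.range (S.q z)).ncard := by
    rw [← i1]
    apply Set.ncard_lt_ncard _ f2
    refine ⟨Set.inter_subset_right, fun h => ?_⟩
    obtain ⟨⟨k, hk⟩, -⟩ := h ⟨w, rfl⟩
    exact hwk k hk.symm
  have h2c : 2 * (S.q y '' (S.ann s : Set V)).ncard ≤ (Set.range (S.q z)).ncard := by
    rw [hc, hz] at hlt ⊢
    have : kc < kz := (Nat.pow_lt_pow_iff_right (by norm_num)).1 hlt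
    calc 2 * 2 ^ kc = 2 ^ (kc + 1) := by ring
      _ ≤ 2 ^ kz := Nat.pow_le_pow_right (by norm_num) this
  set a := (S.q z '' (S.ann y : Set V)).ncard with ha'
  set b := (S.q y '' (S.ann z : Set V)).ncard with hb'
  set c := (S.q y '' (S.ann s : Set V)).ncard with hc'
  set cb := (Set.range (S.q z)).ncard with hcb'
  set cc := (Set.range (S.q s)).ncard with hcc'
  have hab : a ≤ b := by
    have := hy z
    rw [← m2, ← m3] at this
    exact Nat.le_of_mul_le_mul_right this hi0
  have hac : a ≤ c := by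
    have := hy s
    rw [← m1, ← m3] at this
    exact Nat.le_of_mul_le_mul_right this hi0
  have p1 : 32 * a = cb * b := by
    apply Nat.eq_of_mul_eq_mul_right hi0
    rw [mul_assoc, mul_assoc, m3, m2, ← h32, n0, n1]
  have p2 : 32 * a = cc * c := by
    apply Nat.eq_of_mul_eq_mul_right hi0
    rw [mul_assoc, mul_assoc, m3, m1, ← h32, n0, n2]
  have q1 := arith ha hb hc p1 p2 a4 hab hac h2c t2
  have q2 : (Set.range (S.q y) ∪ Set.range (S.q z) ∪ Set.range (S.q s)).ncard ≤ Nat.card Q :=
    Set.ncard_le_card _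
  omega

/-- at most `45` quaternions and an element of maximal rank five: it is regular -/
theorem reg_of_q45 [Finite V] [Finite Q] (he : S.e = 0) (h45 : Nat.card Q ≤ 45) {y : V}
    (h32 : (Set.range (S.q y)).ncard = 32)
    (hy : ∀ x, Nat.card (S.ann y) ≤ Nat.card (S.ann x)) : SRg S y := by
  intro w z hw
  by_contra hzw0
  have key : ∀ z', S.q w z' = S.q w z → C S y z' := by
    intro z' hz'
    by_contra hc
    have := card_of_bad he h32 hy hc ⟨w, hw, fun k hk => hzw0 ⟨k, by
      rw [← hk, S.symm z' w, hz']⟩⟩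
    omega
  have hyz : C S y z := key z rfl
  have hle : S.ann w ≤ S.ann y := by
    intro h hh
    have h1 : C S y (z + h) := key (z + h) (q_eq (C.of_eq (S := S) hh rfl (by
      rw [add_right_comm, ZModModule.add_self, zero_add])))
    have h2 := h1.add hyz
    exact h2.of_eq rfl (by rw [add_right_comm, ZModModule.add_self, zero_add])
  have heq := Pool.Agent.ETGP.eq_of_card_le hle (hy w)
  have hwz : C S w z := by
    have : z ∈ S.ann w := by rw [heq]; exact hyz
    exact this
  exact hzw0 ⟨0, by rw [S.q_zero]; exact hwz⟩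

theorem finQ (S : QStruct) [Finite S.G] : Finite S.Q := by
  have hs : Function.Surjective fun p : S.G × S.G => S.q p.1 p.2 := fun c => by
    obtain ⟨a, b, h⟩ := S.surj c
    exact ⟨(a, b), h⟩
  exact Finite.of_surjective _ hs

/-- a finite structure (`-1 = 1`) with at most `45` quaternions has a regular element -/
theorem regE_of_q45 (hN : Stmt_NoBad) (S : QStruct) [Finite S.G] (hneg : S.neg = 1)
    (h45 : Nat.card S.Q ≤ 45) : ∃ x, RegE S x := by
  have hfin : Finite (Additive S.G) := (inferInstance : Finite S.G)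
  have hQ : Finite S.Q := finQ S
  have he : (ETC.toData S).e = 0 := by
    show Additive.ofMul S.neg = 0
    rw [hneg]; rfl
  by_cases h16 : ∀ x, Nat.card (Set.range (S.q x)) ≤ 16
  · exact regE_of_rank4 hN S hneg h16
  push Not at h16
  obtain ⟨x, hx⟩ := h16
  obtain ⟨y, hy⟩ := Pool.Agent.ETGP.exists_max_rank (ETC.toData S)
  have pw : ∀ u : Additive S.G, (Set.range ((ETC.toData S).q u)).ncard = 2 ^ 5 ∨
      (Set.range ((ETC.toData S).q u)).ncard ≤ 16 := by
    intro u
    obtain ⟨k, hk⟩ := ncard_pow (S := ETC.toData S) u ⊤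
    rw [← range_eq] at hk
    have h1 : (Set.range ((ETC.toData S).q u)).ncard ≤ Nat.card S.Q := Set.ncard_le_card _
    rw [hk] at h1 ⊢
    have h2 : k < 6 := by
      by_contra hc
      have h3 : 2 ^ 6 ≤ 2 ^ k := Nat.pow_le_pow_right (by norm_num) (by omega)
      omega
    interval_cases k <;> omega
  have hx32 : (Set.range ((ETC.toData S).q (Additive.ofMul x))).ncard = 32 := by
    rcases pw (Additive.ofMul x) with h | h
    · exact h
    · exfalso
      have h' : (Set.range (S.q x)).ncard ≤ 16 := h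
      rw [← Nat.card_coe_set_eq] at h'
      omega
  have hy32 : (Set.range ((ETC.toData S).q y)).ncard = 32 := by
    have n0 := ncard_img (S := ETC.toData S) y ⊤
    have n1 := ncard_img (S := ETC.toData S) (Additive.ofMul x) ⊤
    rw [← range_eq, top_inf_eq] at n0 n1
    rw [hx32, ← n0] at n1
    rcases pw y with h | h
    · exact h
    · exfalso
      have h1 := hy (Additive.ofMul x)
      have h2 : 0 < Nat.card ((ETC.toData S).ann y) := Nat.card_pos
      nlinarith
  have hreg := reg_of_q45 he h45 hy32 hy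
  refine ⟨Additive.toMul y, fun w v hw => ?_⟩
  obtain ⟨z, hz⟩ := hreg (Additive.ofMul w) (Additive.ofMul v) hw
  exact ⟨Additive.toMul z, hz.symm⟩

/-- **at most 45 quaternions** -/
theorem elem_of_q45 (hN : Stmt_NoBad) (S : QStruct) (hf : Finite S.G) (hneg : S.neg = 1)
    (h45 : Nat.card S.Q ≤ 45) : ElemType S := by
  refine REG10.elem_of_hreg REG10.srgx _ S hf rfl hneg fun U hU => ?_
  let T := ESL.PRODRECX.sub S hneg U hU
  have hT := REG10.emb_sub S hneg U hU
  have hfT : Finite T.G := by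
    show Finite U
    infer_instance
  have hQ : Finite S.Q := finQ S
  obtain ⟨x, hx⟩ := regE_of_q45 hN T rfl (by
    refine le_trans ?_ h45
    have hcc : ∀ c : T.Q, ∃ p : T.G × T.G, T.q p.1 p.2 = c := fun c => by
      obtain ⟨a, b, h⟩ := T.surj c
      exact ⟨(a, b), h⟩
    choose g hg using hcc
    apply Nat.card_le_card_of_injective
      (fun c : T.Q => S.q (U.subtype (g c).1) (U.subtype (g c).2))
    intro c c' h
    have h5 := (hT.q _ _ _ _).2 h
    rwa [hg, hg] at h5)
  refine ⟨x.1, x.2, fun w hw hxw v hv => ?_⟩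
  obtain ⟨z, hz⟩ := hx ⟨w, hw⟩ ⟨v, hv⟩ ((hT.zero x ⟨w, hw⟩).2 hxw)
  exact ⟨z.1, z.2, (hT.q _ _ _ _).1 hz⟩

end Pool.Agent.R4
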