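import Pool.Agent.R4.StmtA
import Pool.Agent.R4.DatT2a
import Pool.Agent.R4.DatT2b
import Pool.Agent.R4.DatT2c
import Pool.Agent.R4.DatT2d
import Pool.Agent.R4.DatT2e
import Pool.Agent.R4.DatT2f
import Pool.Agent.R4.DatT2g
import Pool.Agent.R4.DatT2h
import Pool.Agent.R4.DatT2i
import Pool.Agent.R4.DatT2j
import Pool.Agent.R4.DatT2k
import Pool.Agent.R4.DatT2z

/-!
# The table `T2` is impossible; structures with all ranks at most four (helper66)
-/

set_option autoImplicit false

namespace Pool.Agent.R4

open Pool.Agent.Helper58.PLine (QData)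
open Pool.Agent.ETCP

theorem eqa : preT2a = 0 := rfl
theorem eqb : preT2b = postT2a := by decide +kernel
theorem eqc : preT2c = postT2b := by decide +kernel
theorem eqd : preT2d = postT2c := by decide +kernel
theorem eqe : preT2e = postT2d := by decide +kernel
theorem eqf : preT2f = postT2e := by decide +kernel
theorem eqg : preT2g = postT2f := by decide +kernel
theorem eqh : preT2h = postT2g := by decide +kernel
theorem eqi : preT2i = postT2h := by decide +kernel
theorem eqj : preT2j = postT2i := by decide +kernel
theorem eqk : preT2k = postT2j := by decide +kernel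
theorem eqz : deadT2 = postT2k := by decide +kernel

theorem certT2 {V Q : Type} [AddCommGroup V] [Module (ZMod 2) V] [Finite V] {S : QData V Q}
    {y z : V} {R : Type} [AddCommGroup R] [Module (ZMod 2) R] {P : Plane S y z R}
    (env : Env P tabT2) (rl : Real P tabT2.N tabT2.RD tabT2.Yc tabT2.Zc) : False := by
  have tp := tbP_of tbT2
  have hT := packP_of pkT2
  have ha := runF_sound tp env hT _ _ _ runT2a (by rw [eqa]; exact Inv.zero)
  have hb := runF_sound tp env hT _ _ _ runT2b (by rw [eqb]; exact ha)
  have hc := runF_sound tp env hT _ _ _ runT2c (by rw [eqc]; exact hb)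
  have hd := runF_sound tp env hT _ _ _ runT2d (by rw [eqd]; exact hc)
  have he := runF_sound tp env hT _ _ _ runT2e (by rw [eqe]; exact hd)
  have hf := runF_sound tp env hT _ _ _ runT2f (by rw [eqf]; exact he)
  have hg := runF_sound tp env hT _ _ _ runT2g (by rw [eqg]; exact hf)
  have hh := runF_sound tp env hT _ _ _ runT2h (by rw [eqh]; exact hg)
  have hi := runF_sound tp env hT _ _ _ runT2i (by rw [eqi]; exact hh)
  have hj := runF_sound tp env hT _ _ _ runT2j (by rw [eqj]; exact hi)
  have hk := runF_sound tp env hT _ _ _ runT2k (by rw [eqk]; exact hj)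
  rw [← eqz] at hk
  exact endF_sound tp env hT rl hk (by decide) (by decide) endT2

theorem stmtT2 : Stmt_T2 := by
  intro V Q _ _ _ S y z R _ _ P he h16 rl e1 e2 e3 _
  exact certT2 ⟨he, h16, fun _ => fullHyp stmtA stmtT1 stmtT3 P he h16 e1 e2 e3⟩ rl

theorem no_bad : Stmt_NoBad := noBad stmtA stmtT1 stmtT3 stmtT2

end Pool.Agent.R4
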