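import Pool.Agent.Lib_MP_d26ff6_al.Defs
import Pool.Agent.R4.StmtT2
import Pool.Agent.R4.Q45

/-!
# Finite quaternionic structures with `-1 = 1` and bounded ranks are of elementary type

(helper14, helper24, helper66, helper82)
-/

set_option autoImplicit false

namespace Pool.Agent.R4

open QS

/-- at most sixteen values `q (x, ·)` for every `x` -/
theorem elem_of_le16 (S : QStruct) (hf : Finite S.G) (hneg : S.neg = 1)
    (h : ∀ x, Nat.card (Set.range (S.q x)) ≤ 16) : ElemType S :=
  elem_of_rank4 no_bad S hf hneg h

/-- at most 45 quaternions -/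
theorem elem_of_le45 (S : QStruct) (hf : Finite S.G) (hneg : S.neg = 1)
    (h : Nat.card S.Q ≤ 45) : ElemType S :=
  elem_of_q45 no_bad S hf hneg h

end Pool.Agent.R4
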