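import Pool.Agent.R4.Tg

/-!
# The elements of the plane (helper66)
-/

set_option autoImplicit false

namespace Pool.Agent.R4

open Pool.Agent.Helper58.PLine (QData)
open Pool.Agent.ETCP

/-- the elements of the plane: `uv y z 0 = 0`, `uv y z 1 = y`, `uv y z 2 = z`,
`uv y z 3 = y + z` -/
def uv {V : Type} [AddCommGroup V] (y z : V) (i : ℕ) : V :=
  (if i % 2 = 1 then y else 0) + (if i / 2 % 2 = 1 then z else 0)

/-- The extra rules for the table `T2`: a witness `x` in the domain of `T g` shows that the plane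
`⟨u, g + u'⟩` is bad; then `T g` is defined everywhere, and the ranks of `g + u'` and
`g + u' + u` are four. -/
def FullHyp {V Q : Type} [AddCommGroup V] [Module (ZMod 2) V] {S : QData V Q} {y z : V}
    {R : Type} [AddCommGroup R] [Module (ZMod 2) R] (P : Plane S y z R) : Prop :=
  ∀ (g : V) (u up : ℕ) (x : V) (ρ : R), 1 ≤ u → u ≤ 3 → up ≤ 3 → C S (uv y z u) x →
    (∀ k, S.q (g + uv y z up) x ≠ S.q (uv y z u) k) → ¬ C S (uv y z u) (g + uv y z up) →
    P.T g x ρ →
    (∀ v, ∃ ρ', P.T g v ρ') ∧ Nat.card V = 16 * Nat.card (S.ann (g + uv y z up)) ∧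
      Nat.card V = 16 * Nat.card (S.ann (g + uv y z (up ^^^ u)))

end Pool.Agent.R4
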