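import Pool.Agent.R4.End
import Pool.Agent.R4.Uv
import Pool.Agent.R4.Bits

/-!
# The extra rules for the table of type 1, 1, 1 | 2 | 0 (helper14)
-/

set_option autoImplicit false

namespace Pool.Agent.R4

open Pool.Agent.Helper58.PLine (QData)
open Pool.Agent.ETCP

namespace Full

variable {V Q : Type} [AddCommGroup V] [Module (ZMod 2) V] {S : QData V Q} {y z : V}
  {R : Type} [AddCommGroup R] [Module (ZMod 2) R]

/-- a map given by a table -/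
theorem val_ap {M M' : Type} [AddCommGroup M] [Module (ZMod 2) M] [AddCommGroup M']
    [Module (ZMod 2) M'] (f : M →ₗ[ZMod 2] M') (h : ℕ → M) (b : ℕ → M') (N RD : ℕ) (L : List ℕ)
    (hL : L.length = N) (hf : ∀ i < N, f (h i) = bsum b RD (L.getD i 0)) (n : ℕ) :
    f (bsum h N n) = bsum b RD (ap L n) := by
  rw [bsum_map, map_ap (fun m => bsum b RD m) (bsum_zero b RD) (bsum_xor b RD) L n, hL]
  exact bsum_congr hf n

theorem tab_dec : ∀ n < 2 ^ 7, ap [0, 1, 0, 0, 4, 8, 2] n < 2 ^ 5 ∧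
    (ap [0, 1, 0, 0, 4, 8, 2] n = 0 → ∃ k < 2 ^ 7,
      ap [1, 0, 16, 2, 4, 0, 0] n = ap [0, 1, 0, 0, 4, 8, 2] k ∨
      ap [1, 0, 16, 2, 4, 0, 0] n = 16 ^^^ ap [0, 1, 0, 0, 4, 8, 2] k) := by
  decide +kernel

/-- on the kernel of `Y`, the values of `Z` outside the range of `Y` form one coset -/
theorem coset {P : Plane S y z R} (X : Real P 7 5 [0, 1, 0, 0, 4, 8, 2] [1, 0, 16, 2, 4, 0, 0])
    {a : V} (ha : P.Y a = 0) : ∃ k, P.Z a = P.Y k ∨ P.Z a = bsum X.b 5 16 + P.Y k := by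
  obtain ⟨n, hn, e1, e2⟩ := X.span a
  rw [map_add] at e1 e2
  have e1 := f2 e1
  have e2 := f2 e2
  rw [val_ap P.Y X.h X.b 7 5 [0, 1, 0, 0, 4, 8, 2] rfl X.hY] at e1
  rw [val_ap P.Z X.h X.b 7 5 [1, 0, 16, 2, 4, 0, 0] rfl X.hZ] at e2
  obtain ⟨h1, h2⟩ := tab_dec n hn
  obtain ⟨k, hk, h3⟩ := h2 (X.inj _ h1 (e1.symm.trans ha))
  refine ⟨bsum X.h 7 k, ?_⟩
  rw [val_ap P.Y X.h X.b 7 5 [0, 1, 0, 0, 4, 8, 2] rfl X.hY, e2, ← bsum_xor]
  rcases h3 with h3 | h3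
  · exact Or.inl (by rw [h3])
  · exact Or.inr (by rw [h3])

theorem coset2 {P : Plane S y z R} (X : Real P 7 5 [0, 1, 0, 0, 4, 8, 2] [1, 0, 16, 2, 4, 0, 0])
    {a x : V} (ha : P.Y a = 0) (hx : P.Y x = 0) (hb : ∀ k, P.Z x ≠ P.Y k) :
    (∃ k, P.Y k = P.Z a) ∨ ∃ k, P.Y k = P.Z (a + x) := by
  obtain ⟨k, h1 | h1⟩ := coset X ha
  · exact Or.inl ⟨k, h1.symm⟩
  obtain ⟨k', h2 | h2⟩ := coset X hx
  · exact absurd h2 (hb k')
  · refine Or.inr ⟨k + k', ?_⟩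
    rw [map_add, map_add, h1, h2, add_add_add_comm, ZModModule.add_self, zero_add]

/-- the main case -/
theorem core (hA : Stmt_A) (h1 : Stmt_T1) (h3 : Stmt_T3) [Finite V] (P : Plane S y z R)
    (he : S.e = 0) (h16 : ∀ x, Nat.card V ≤ 16 * Nat.card (S.ann x))
    (e1 : Nat.card V = 16 * Nat.card (S.ann y)) {g x : V} {ρ : R} (hx : C S y x)
    (hb : ∀ k, S.q g x ≠ S.q y k) (hc : ¬ C S y g) (hT : P.T g x ρ) :
    (∀ v, ∃ ρ', P.T g v ρ') ∧ Nat.card V = 16 * Nat.card (S.ann g) ∧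
      Nat.card V = 16 * Nat.card (S.ann (y + g)) := by
  have hmax : ∀ x, Nat.card (S.ann y) ≤ Nat.card (S.ann x) := by
    intro x
    have := h16 x
    omega
  have hpos : 0 < Nat.card V := Nat.card_pos
  rcases cls plane_ex V Q S y g he h16 hmax hc ⟨x, hx, hb⟩ with
    ⟨h8, R, _, _, P, ⟨X⟩⟩ | ⟨R, _, _, P, ⟨X⟩⟩ | ⟨R, _, _, P, ⟨X⟩⟩ | ⟨R, _, _, P, ⟨X⟩⟩ |
    ⟨⟨R2, _, _, P2, ⟨X⟩⟩, f1, f2, f3, f4⟩
  · exfalso
    have := h8 y
    omega
  · exact (h1 V Q S y g R P he h16 X).elim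
  · exact (h3 V Q S y g R P he h16 X).elim
  · exact (h3 V Q S y (y + g) R P he h16 X).elim
  refine ⟨?_, f2, f3⟩
  -- elements of the annihilator of `y`
  have ka : ∀ a, C S y a → ∃ ρ', P.T g a ρ' := by
    intro a ha
    rcases coset2 X (Plane.Y0 P2 |>.2 ha) (Plane.Y0 P2 |>.2 hx)
      (fun k hk => hb k ((P2.yz _ _).1 hk.symm).symm) with ⟨k, hk⟩ | ⟨k, hk⟩
    · exact ⟨_, Plane.T.of_q ((P2.yz _ _).1 hk).symm⟩
    · have := (Plane.T.of_q (P := P) ((P2.yz _ _).1 hk).symm).add hT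
      rw [add_assoc, ZModModule.add_self, add_zero] at this
      exact ⟨_, this⟩
  intro v
  obtain ⟨a, b, c, ha, hb', hc', rfl⟩ := f4 v
  obtain ⟨ρa, ta⟩ := ka a ha
  have tb : P.T g b 0 := ⟨0, 0, 0, C.zero _, C.zero _, C.zero _, by simpa using hb', by simp⟩
  have tc : P.T (g + y) c 0 :=
    ⟨0, 0, 0, C.zero _, C.zero _, C.zero _, by
      simp only [add_zero]
      exact hc'.of_eq (add_comm _ _) rfl, by simp⟩
  have tc' := tc.shiftY
  rw [add_assoc, ZModModule.add_self, add_zero] at tc'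
  exact ⟨_, (ta.add tb).add tc'⟩

/-- shift by an element of the plane -/
theorem shift {P : Plane S y z R} {g v : V} (i : ℕ) (h : ∃ ρ, P.T g v ρ) :
    ∃ ρ, P.T (g + uv y z i) v ρ := by
  obtain ⟨ρ, h⟩ := h
  unfold uv
  rw [← add_assoc]
  split_ifs
  · exact ⟨_, h.shiftY.shiftZ⟩
  · exact ⟨_, by rw [add_zero]; exact h.shiftY⟩
  · exact ⟨_, by rw [add_zero]; exact h.shiftZ⟩
  · exact ⟨_, by rw [add_zero, add_zero]; exact h⟩

theorem shift' {P : Plane S y z R} {g v : V} (i : ℕ) (h : ∃ ρ, P.T (g + uv y z i) v ρ) :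
    ∃ ρ, P.T g v ρ := by
  have := shift i h
  rw [add_assoc, ZModModule.add_self, add_zero] at this
  exact this

theorem uv1 : uv y z 1 = y := by simp [uv]
theorem uv2 : uv y z 2 = z := by simp [uv]
theorem uv3 : uv y z 3 = y + z := by simp [uv]

theorem uv_xor (i j : ℕ) : uv y z (i ^^^ j) = uv y z i + uv y z j := by
  unfold uv
  rw [xor_div2, xor_mod2, xor_mod2]
  rcases Nat.mod_two_eq_zero_or_one i with a | a <;>
    rcases Nat.mod_two_eq_zero_or_one j with b | b <;>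
    rcases Nat.mod_two_eq_zero_or_one (i / 2) with c | c <;>
    rcases Nat.mod_two_eq_zero_or_one (j / 2) with d | d <;>
    rw [a, b, c, d] <;> simp <;>
    exact f2 (by abel_nf; simp only [ch2, ch3, ch4, add_zero])

end Full

open Full

/-- **the extra rules** -/
theorem fullHyp (hA : Stmt_A) (h1 : Stmt_T1) (h3 : Stmt_T3) {V Q : Type} [AddCommGroup V]
    [Module (ZMod 2) V] [Finite V] {S : QData V Q} {y z : V} {R : Type} [AddCommGroup R]
    [Module (ZMod 2) R] (P : Plane S y z R) (he : S.e = 0)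
    (h16 : ∀ x, Nat.card V ≤ 16 * Nat.card (S.ann x))
    (e1 : Nat.card V = 16 * Nat.card (S.ann y)) (e2 : Nat.card V = 16 * Nat.card (S.ann z))
    (e3 : Nat.card V = 16 * Nat.card (S.ann (y + z))) : FullHyp P := by
  intro g u up x ρ hu1 hu3 hup hx hb hc hT
  obtain ⟨ρ', hT'⟩ := shift (P := P) up ⟨ρ, hT⟩
  have key : (∀ v, ∃ ρ', P.T (g + uv y z up) v ρ') ∧
      Nat.card V = 16 * Nat.card (S.ann (g + uv y z up)) ∧
      Nat.card V = 16 * Nat.card (S.ann (uv y z u + (g + uv y z up))) := by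
    obtain rfl | rfl | rfl : u = 1 ∨ u = 2 ∨ u = 3 := by omega
    · rw [uv1] at hx hb hc ⊢
      exact core hA h1 h3 P he h16 e1 hx hb hc hT'
    · rw [uv2] at hx hb hc ⊢
      obtain ⟨k1, k2, k3⟩ := core hA h1 h3 P.swap he h16 e2 hx hb hc hT'.swap
      refine ⟨fun v => ?_, k2, k3⟩
      obtain ⟨ρ'', h⟩ := k1 v
      exact ⟨ρ'', h.of_swap⟩
    · rw [uv3] at hx hb hc ⊢
      obtain ⟨k1, k2, k3⟩ := core hA h1 h3 P.rot he h16 e3 hx hb hc hT'.rot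
      refine ⟨fun v => ?_, k2, k3⟩
      obtain ⟨ρ'', h⟩ := k1 v
      exact ⟨ρ'', h.of_rot⟩
  refine ⟨fun v => shift' up (key.1 v), key.2.1, ?_⟩
  rw [uv_xor]
  have e : g + (uv y z up + uv y z u) = uv y z u + (g + uv y z up) := by abel
  rw [e]
  exact key.2.2

end Pool.Agent.R4
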