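import Pool.Agent.R4.Code

/-!
# The rules of the checker are correct (helper66)
-/

set_option autoImplicit false
set_option linter.unusedSimpArgs false

namespace Pool.Agent.R4

open Pool.Agent.Helper58.PLine (QData)
open Pool.Agent.ETCP

section lists

theorem spanL_zero : ∀ L : List ℕ, 0 ∈ spanL L
  | [] => by simp [spanL]
  | v :: L => by
    simp only [spanL, List.mem_append]
    exact Or.inl (spanL_zero L)

theorem spanL_length : ∀ L : List ℕ, (spanL L).length = 2 ^ L.length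
  | [] => by simp [spanL]
  | v :: L => by
    simp only [spanL, List.length_append, List.length_map, spanL_length L, List.length_cons]
    ring

theorem xor_cancel (a b : ℕ) : a ^^^ (a ^^^ b) = b := by
  rw [← Nat.xor_assoc, Nat.xor_self, Nat.zero_xor]

theorem spanL_xor : ∀ (L : List ℕ) (a b : ℕ), a ∈ spanL L → b ∈ spanL L → a ^^^ b ∈ spanL L
  | [], a, b, ha, hb => by
    simp only [spanL, List.mem_singleton] at *
    rw [ha, hb]; rfl
  | v :: L, a, b, ha, hb => by
    simp only [spanL, List.mem_append, List.mem_map] at *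
    rcases ha with ha | ⟨a', ha, rfl⟩ <;> rcases hb with hb | ⟨b', hb, rfl⟩
    · exact Or.inl (spanL_xor L _ _ ha hb)
    · exact Or.inr ⟨a ^^^ b', spanL_xor L _ _ ha hb, Nat.xor_left_comm _ _ _⟩
    · exact Or.inr ⟨a' ^^^ b, spanL_xor L _ _ ha hb, (Nat.xor_assoc _ _ _).symm⟩
    · refine Or.inl ?_
      have : v ^^^ a' ^^^ (v ^^^ b') = a' ^^^ b' := by
        rw [Nat.xor_assoc, Nat.xor_left_comm a' v b', xor_cancel]
      rw [this]
      exact spanL_xor L _ _ ha hb

theorem two_mul_xor (a b : ℕ) : 2 * (a ^^^ b) = 2 * a ^^^ 2 * b := by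
  have := Nat.shiftLeft_xor_distrib (a := a) (b := b) (i := 1)
  simpa [Nat.shiftLeft_eq, mul_comm] using this

theorem bit_xor (n : ℕ) : n % 2 * 1 ^^^ 2 * (n / 2) = n := by
  rw [mul_one]
  apply Nat.eq_of_testBit_eq
  intro i
  rw [Nat.testBit_xor]
  cases i with
  | zero =>
    simp [Nat.testBit_zero]
  | succ i =>
    rw [Nat.testBit_succ, Nat.testBit_succ, Nat.testBit_succ]
    have h1 : n % 2 / 2 = 0 := by omega
    have h2 : 2 * (n / 2) / 2 = n / 2 := by omega
    rw [h1, h2]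
    simp

theorem ap_range : ∀ (N n : ℕ), n < 2 ^ N → ap ((List.range N).map (2 ^ ·)) n = n
  | 0, n, h => by
    have : n = 0 := by simpa using h
    subst this
    rfl
  | N + 1, n, h => by
    rw [List.range_succ_eq_map, List.map_cons, List.map_map]
    simp only [ap]
    have e : (List.range N).map ((2 ^ ·) ∘ Nat.succ) =
        ((List.range N).map (2 ^ ·)).map (2 * ·) := by
      rw [List.map_map]
      refine List.map_congr_left fun i _ => ?_
      simp only [Function.comp, Nat.succ_eq_add_one, pow_succ, mul_comm]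
    rw [e, ← ap_map (2 * ·) (by simp) two_mul_xor, ap_range N (n / 2) (by
      rw [pow_succ] at h; omega)]
    exact bit_xor n

theorem rdMasks_length (B : List ℕ) : ∀ (k s : ℕ), (rdMasks B k s).1.length = k
  | 0, s => rfl
  | k + 1, s => by simp [rdMasks, rdMasks_length B k]

theorem rdBytes_length : ∀ (k s : ℕ), (rdBytes k s).1.length = k
  | 0, s => rfl
  | k + 1, s => by simp [rdBytes, rdBytes_length k]

theorem rdMasks_mem {p : ℕ → Prop} {B : List ℕ} (hp : ∀ n, p (ap B n)) :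
    ∀ (k s : ℕ), ∀ x ∈ (rdMasks B k s).1, p x
  | 0, s, x, hx => by simp [rdMasks] at hx
  | k + 1, s, x, hx => by
    simp only [rdMasks, List.mem_cons] at hx
    rcases hx with rfl | hx
    · exact hp _
    · exact rdMasks_mem hp k _ x hx

end lists

variable {V Q : Type} [AddCommGroup V] [Module (ZMod 2) V] {S : QData V Q} {y z : V}
  {R : Type} [AddCommGroup R] [Module (ZMod 2) R] {P : Plane S y z R} {t : Tb}

/-- the hypotheses -/
structure Env (P : Plane S y z R) (t : Tb) : Prop where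
  he : S.e = 0
  rank : ∀ x, Nat.card V ≤ 2 ^ t.rk * Nat.card (S.ann x)
  full : t.full = true → FullHyp P

namespace Real

variable {rl : Real P t.N t.RD t.Yc t.Zc} (tp : TbP t)

theorem um_zero_iff {V Q : Type} [AddCommGroup V] [Module (ZMod 2) V] {S : QData V Q} {y z : V}
    {R : Type} [AddCommGroup R] [Module (ZMod 2) R] {P : Plane S y z R} {j : ℕ} {k : V} :
    P.um j k = 0 ↔ C S (uv y z j) k := by
  have h1 := Plane.T.um_iff (P := P) (g := uv y z j) (h := 0) (k := k) j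
  rw [S.q_zero] at h1
  constructor
  · intro h
    rw [h] at h1
    exact (h1.1 (Plane.T.zero _)).symm
  · intro h
    exact (h1.2 (Eq.symm h)).func

include tp in
theorem link_sound {g : V} {x i j m0 : ℕ} (hi : i < 4) (hj : j < 4)
    (hm : m0 < 2 ^ t.N) (e : apu t j m0 = sg t i x) (hx : rl.Tx g x) :
    ∃ κ ∈ t.ker.getD j [], rl.Tx g (zc t (i ^^^ j) (m0 ^^^ κ)) := by
  obtain ⟨h, hx⟩ := hx
  have h1 := (hx.sg tp hi).1
  rw [← e, ← um_vec tp, Plane.T.um_iff] at h1
  obtain ⟨t', c1, c2, c3⟩ := link h1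
  obtain ⟨n, hn, hcl⟩ := rl.cl_ex t'
  have h2 := (um_zero_iff (P := P)).2 c2
  rw [map_add, um_vec tp, um_cl tp hcl, ← rl.emb_xor, ← apu_xor] at h2
  have hlt := Nat.xor_lt_two_pow hm hn
  have h3 := rl.inj _ (tp.lt j hj _ hlt) h2
  refine ⟨m0 ^^^ n, tp.ker j hj _ hlt h3, t', ?_⟩
  rw [xor_cancel]
  refine TT.zc tp (Nat.xor_lt_two_pow (n := 2) hi hj) hn hcl ?_
  rw [uv_xor]
  exact c3.of_eq (by abel) rfl

include tp in
theorem rank_sound [Finite V] (env : Env P t) {g : V} {u : ℕ} (hu : u < 4) {p1 q1 : List ℕ}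
    (hp : ∀ x ∈ p1, rl.Tx g x) (hq : ∀ m ∈ q1, m < 2 ^ t.N) (hl : t.rk < q1.length + p1.length)
    (hnz : ∀ v ∈ nzL (p1.map (sg t u)), v ≠ 0) :
    ∃ a ∈ nzL q1, ∃ b ∈ spanL (p1.map (· % 256)), rl.Tx g (zc t u (a ^^^ b)) := by
  have hL : ∀ (p : List ℕ), (∀ x ∈ p, rl.Tx g x) →
      ∃ L : List V, List.Forall₂ (fun h x => rl.TT g h x) L p := by
    intro p
    induction p with
    | nil => exact fun _ => ⟨[], List.Forall₂.nil⟩
    | cons x p ih =>
      intro h
      obtain ⟨L, hL⟩ := ih fun x hx => h x (List.mem_cons_of_mem _ hx)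
      obtain ⟨a, ha⟩ := h x List.mem_cons_self
      exact ⟨a :: L, List.Forall₂.cons ha hL⟩
  obtain ⟨L2, hL2⟩ := hL p1 hp
  have hlen := hL2.length_eq
  obtain ⟨x, hx, hxa⟩ := pigeon (q1.map rl.vec ++ L2) (S.ann (g + uv y z u)) t.rk (env.rank _)
    (by rw [List.length_append, List.length_map, hlen]; exact hl)
  have hxa' : C S (g + uv y z u) x := hxa
  -- relations
  have hcl : List.Forall₂ (fun h m => rl.cl h m ∧ m < 2 ^ t.N) L2 (p1.map (· % 256)) := by
    rw [List.forall₂_map_right_iff]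
    exact hL2.imp fun _ _ a => ⟨a.2.2.1, a.1⟩
  have hcq : List.Forall₂ (fun h m => rl.cl h m ∧ m < 2 ^ t.N) (q1.map rl.vec) q1 := by
    rw [List.forall₂_map_left_iff, List.forall₂_same]
    exact fun m hm => ⟨rl.cl_vec m, hq m hm⟩
  have hsg : List.Forall₂ (fun h s => P.T (g + uv y z u) h (rl.emb s) ∧ s < 2 ^ t.RD) L2
      (p1.map (sg t u)) := by
    rw [List.forall₂_map_right_iff]
    exact hL2.imp fun _ _ a => a.sg tp hu
  have r1 : (fun h m => rl.cl h m ∧ m < 2 ^ t.N) 0 0 := ⟨rl.cl_zero, Nat.two_pow_pos _⟩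
  have r2 : ∀ a b m n, (fun h m => rl.cl h m ∧ m < 2 ^ t.N) a m →
      (fun h m => rl.cl h m ∧ m < 2 ^ t.N) b n →
      (fun h m => rl.cl h m ∧ m < 2 ^ t.N) (a + b) (m ^^^ n) :=
    fun a b m n h h' => ⟨cl_add h.1 h'.1, Nat.xor_lt_two_pow h.2 h'.2⟩
  rcases nz_append _ _ _ hx with ⟨a, b, ha, hb, e⟩ | hb
  · obtain ⟨m, hm, hm1, hm2⟩ := nz_code (Rel := fun h m => rl.cl h m ∧ m < 2 ^ t.N) r1 r2 _ _
      hcq a ha
    obtain ⟨n, hn, hn1, hn2⟩ := sp_code (Rel := fun h m => rl.cl h m ∧ m < 2 ^ t.N) r1 r2 _ _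
      hcl b hb
    refine ⟨m, hm, n, hn, x, TT.zc tp hu (Nat.xor_lt_two_pow hm2 hn2) ?_ hxa'⟩
    rw [e]
    exact cl_add hm1 hn1
  · exfalso
    obtain ⟨s, hs, hs1, hs2⟩ := nz_code
      (Rel := fun h s => P.T (g + uv y z u) h (rl.emb s) ∧ s < 2 ^ t.RD)
      ⟨by rw [rl.emb_zero]; exact Plane.T.zero _, Nat.two_pow_pos _⟩
      (fun a b m n h h' => ⟨by rw [rl.emb_xor]; exact h.1.add h'.1,
        Nat.xor_lt_two_pow h.2 h'.2⟩) _ _ hsg x hb
    have h0 := Plane.T.zero_iff (P := P).2 hxa'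
    have h1 := hs1.add h0
    rw [ZModModule.add_self, add_zero] at h1
    exact hnz s hs (rl.inj s hs2 h1.func)

include tp in
theorem badW_sound [Finite V] (env : Env P t) (hf : t.full = true) {g : V} {c u up x : ℕ}
    (hc : c < 2 ^ t.N) (hg : rl.cl g c) (hx : rl.Tx g x) (h : badW t c u up x = true) :
    u < 4 ∧ up < 4 ∧ (∀ v, ∃ ρ', P.T g v ρ') ∧
      Nat.card V = 16 * Nat.card (S.ann (g + uv y z up)) ∧
      Nat.card V = 16 * Nat.card (S.ann (g + uv y z (up ^^^ u))) := by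
  simp only [badW, Bool.and_eq_true, decide_eq_true_eq, beq_iff_eq, Bool.not_eq_true',
    bne_iff_ne] at h
  obtain ⟨⟨⟨⟨⟨h1, h2⟩, h3⟩, h4⟩, h5⟩, h6⟩ := h
  have hu : u < 4 := by omega
  have hup : up < 4 := by omega
  obtain ⟨w, hw⟩ := hx
  refine ⟨hu, hup, env.full hf g u up w _ h1 h2 h3 ?_ ?_ ?_ hw.2.2.2⟩
  · rw [← um_zero_iff (P := P), um_cl tp hw.2.2.1, h4, rl.emb_zero]
  · intro k hk
    have h7 := (Plane.T.um_iff (P := P) u).2 hk
    obtain ⟨n, hn, hcl⟩ := rl.cl_ex k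
    rw [um_cl tp hcl] at h7
    have h8 := hw.sg tp hup
    have h9 := h8.1.add h7
    rw [ZModModule.add_self] at h9
    have h10 := emb_inj h8.2 (tp.lt u hu n hn) (f2 h9.func)
    have h11 := tp.rng u hu n hn (by omega)
    rw [← h10, h5] at h11
    exact absurd h11 (by simp)
  · rw [← um_zero_iff (P := P), map_add, um_cl tp hg, um_cl tp (cl_uv tp hup), ← rl.emb_xor,
      ← apu_xor]
    intro h7
    refine h6 (rl.inj _ (tp.lt u hu _ (Nat.xor_lt_two_pow hc ?_)) h7)
    have h4 : 4 ≤ 2 ^ t.N := by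
      calc 4 = 2 ^ 2 := by norm_num
        _ ≤ _ := Nat.pow_le_pow_right (by norm_num) tp.N2
    omega

include tp in
theorem value_sound {g : V} {m : ℕ} (hm : m < 2 ^ t.N) (hfull : ∀ v, ∃ ρ', P.T g v ρ') :
    ∃ r < 2 ^ t.RD, rl.Tx g (m + 256 * r) := by
  obtain ⟨ρ, hρ⟩ := hfull (rl.vec m)
  obtain ⟨r, hr, e⟩ := T_emb tp rl hρ
  exact ⟨r, hr, rl.vec m, TT.mk' tp hm hr (rl.cl_vec m) (by rw [← e]; exact hρ)⟩

include tp in
theorem exact_sound [Finite V] {g : V} {w : ℕ} (hw : w < 4)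
    (hfull : ∀ v, ∃ ρ', P.T g v ρ') (hcard : Nat.card V = 16 * Nat.card (S.ann (g + uv y z w)))
    {p1 q1 : List ℕ} (hp : ∀ n, rl.Tx g (ap p1 n))
    (hm : p1.map (· % 256) = (List.range t.N).map (2 ^ ·)) (hq : q1.length = 3)
    (hs : ∀ x ∈ p1, sg t w x ∈ spanL q1) :
    ∃ r < 2 ^ t.RD, r ∉ spanL q1 ∧ rl.Tx g (256 * r) := by
  by_contra hcon
  push_neg at hcon
  have key : ∀ v, ∃ s ∈ spanL q1, s < 2 ^ t.RD ∧ P.T (g + uv y z w) v (rl.emb s) := by
    intro v
    obtain ⟨n, hn, hcl⟩ := rl.cl_ex v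
    obtain ⟨h, hh⟩ := hp n
    have e1 : ap p1 n % 256 = n := by
      rw [ap_map (· % 256) (by simp) xor_mod256, hm, ap_range _ _ hn]
    have hc2 : rl.cl (v + h) 0 := by
      have := cl_add hcl hh.2.2.1
      rwa [e1, Nat.xor_self] at this
    obtain ⟨ρ, hρ⟩ := hfull (v + h)
    obtain ⟨r, hr, e⟩ := T_emb tp rl hρ
    rw [e] at hρ
    have h1 : rl.TT g (v + h) (256 * r) := by
      have := TT.mk' tp (m := 0) (Nat.two_pow_pos _) hr hc2 hρ
      rwa [zero_add] at this
    have h2 : r ∈ spanL q1 := by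
      by_contra h3
      exact hcon r hr h3 ⟨_, h1⟩
    have h3 : sg t w (ap p1 n) ∈ spanL q1 := by
      refine pred_ap (fun x => sg t w x ∈ spanL q1) ?_ ?_ p1 hs n
      · show sg t w 0 ∈ spanL q1
        rw [sg_zero]
        exact spanL_zero _
      · intro a b ha hb
        show sg t w (a ^^^ b) ∈ spanL q1
        rw [sg_xor]
        exact spanL_xor _ _ _ ha hb
    have h4 := h1.sg tp hw
    have h5 := hh.sg tp hw
    have e2 : sg t w (256 * r) = r := by
      unfold sg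
      have a1 : 256 * r / 256 = r := by omega
      have a2 : 256 * r % 256 = 0 := by omega
      rw [a1, a2, apu_zero, Nat.xor_zero]
    rw [e2] at h4
    refine ⟨r ^^^ sg t w (ap p1 n), spanL_xor _ _ _ h2 h3, Nat.xor_lt_two_pow h4.2 h5.2, ?_⟩
    have h6 := h4.1.add h5.1
    rw [rl.emb_xor]
    have e3 : v + h + h = v := f2 (by abel_nf <;> simp only [ch2, add_zero])
    rwa [e3] at h6
  choose f hf1 hf2 hf3 using key
  have hcf := card_fiber (S.ann (g + uv y z w)) (spanL q1) f hf1 (fun v v' e => by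
    have h1 := (hf3 v).add (hf3 v')
    rw [e, ZModModule.add_self] at h1
    exact Plane.T.zero_iff.1 h1)
  rw [spanL_length, hq] at hcf
  have hpos : 0 < Nat.card (S.ann (g + uv y z w)) := Nat.card_pos
  omega

include tp in
theorem kids_sound [Finite V] (env : Env P t) {g : V} {D c op s s' : ℕ} {B cs : List ℕ}
    (h : kids t D c B op s = some (cs, s')) (hc : c < 2 ^ t.N) (hg : rl.cl g c)
    (hB : ∀ x ∈ B, rl.Tx g x) : ∃ v ∈ cs, rl.Tx g v := by
  have hap := Tx.ap hB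
  unfold kids at h
  split at h
  · -- link
    simp only at h
    split_ifs at h with h1
    simp only [Bool.and_eq_true, decide_eq_true_eq, beq_iff_eq] at h1
    obtain ⟨⟨h2, h3⟩, h4⟩ := h1
    simp only [Option.some.injEq, Prod.mk.injEq] at h
    obtain ⟨κ, hκ, hx⟩ := link_sound tp (Nat.mod_lt s (by norm_num))
      (Nat.mod_lt (s / 4) (by norm_num)) h3 h4 (hap _)
    rw [← h.1]
    exact ⟨_, List.mem_map_of_mem hκ, hx⟩
  · -- rank
    simp only at h
    split_ifs at h with h1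
    simp only [Bool.and_eq_true, List.all_eq_true, bne_iff_ne, decide_eq_true_eq] at h1
    simp only [Option.some.injEq, Prod.mk.injEq] at h
    obtain ⟨a, ha, b, hb, hx⟩ := rank_sound tp env (Nat.mod_lt s (by norm_num))
      (rdMasks_mem hap _ _) h1.2 (by rw [rdMasks_length, rdBytes_length]; omega) h1.1
    rw [← h.1]
    refine ⟨_, List.mem_flatMap.2 ⟨a, ha, List.mem_map_of_mem hb⟩, hx⟩
  · -- value
    split_ifs at h with h1
    simp only [Bool.and_eq_true, decide_eq_true_eq] at h1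
    simp only [Option.some.injEq, Prod.mk.injEq] at h
    obtain ⟨-, -, hf, -⟩ := badW_sound tp env h1.1.1 hc hg (hap _) h1.1.2
    obtain ⟨r, hr, hx⟩ := value_sound (rl := rl) tp h1.2 hf
    rw [← h.1]
    exact ⟨_, List.mem_map_of_mem (List.mem_range.2 hr), hx⟩
  · -- exact rank
    simp only at h
    split_ifs at h with h1
    simp only [Bool.and_eq_true, Bool.or_eq_true, decide_eq_true_eq, beq_iff_eq,
      List.all_eq_true, List.contains_iff_mem] at h1
    obtain ⟨⟨⟨⟨h2, h3⟩, h4⟩, h5⟩, h6⟩ := h1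
    simp only [Option.some.injEq, Prod.mk.injEq] at h
    obtain ⟨b1, b2, hf, hc1, hc2⟩ := badW_sound tp env h2 hc hg (hap _) h3
    have hw4 : s / 16 % 4 < 4 := Nat.mod_lt _ (by norm_num)
    have hcard : Nat.card V = 16 * Nat.card (S.ann (g + uv y z (s / 16 % 4))) := by
      rcases h4 with h4 | h4
      · rw [h4]; exact hc1
      · rw [h4]; exact hc2
    obtain ⟨r, hr, hr2, hx⟩ := exact_sound tp hw4 hf hcard
      (Tx.ap (rdMasks_mem hap _ _)) h5 (rdBytes_length _ _) h6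
    rw [← h.1]
    refine ⟨_, List.mem_map_of_mem (List.mem_filter.2 ⟨List.mem_range.2 hr, ?_⟩), hx⟩
    simp only [Bool.not_eq_true', ← Bool.not_eq_true, List.contains_iff_mem]
    exact hr2
  · exact absurd h (by simp)

end Real

end Pool.Agent.R4
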