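import Pool.Agent.R4.Kids

/-!
# A checker for link chases at an element with eight annihilators, all planes (helper14)

Elements are masks `< 4096` over generators; the generators `0, .., 5` are `y, a, b, z, p, q`,
`V_y = {0, .., 7}`.  A fact `u + 4096 v` says that `u` and `v` commute, a relation
`u1 + 4096 u2 + 4096^2 v + 4096^3 w` says `q (u1, v) = q (u2, w)`.
-/

set_option autoImplicit false

namespace Pool.Agent.R4.M8

/-- a state: number of generators, facts, relations -/
structure St where
  n : ℕ
  F : List ℕ
  R : List ℕ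

/-- parameters: number of generators with `V_y` under control, and two switches -/
structure Pm where
  cb : ℕ
  fl : Bool
  zp : Bool

/-- read `k` digits -/
def rd : ℕ → ℕ → List ℕ × ℕ
  | 0, s => ([], s)
  | k + 1, s => let p := rd k (s / 4096); (s % 4096 :: p.1, p.2)

/-- read a list -/
def rl (s : ℕ) : List ℕ × ℕ := rd (s % 4096) (s / 4096)

/-- first element of the oriented fact -/
def fu (F : List ℕ) (i : ℕ) : ℕ :=
  if i % 2 = 0 then F.getD (i / 2) 0 % 4096 else F.getD (i / 2) 0 / 4096

/-- second element of the oriented fact -/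
def fv (F : List ℕ) (i : ℕ) : ℕ :=
  if i % 2 = 0 then F.getD (i / 2) 0 / 4096 else F.getD (i / 2) 0 % 4096

/-- sum of facts -/
def sL (F : List ℕ) (u1 u2 g : ℕ) : List ℕ → ℕ → ℕ → ℕ → Option (ℕ × ℕ × ℕ)
  | [], h, v, w => some (h, v, w)
  | i :: L, h, v, w =>
    if fu F i ^^^ g = 0 then sL F u1 u2 g L (h ^^^ fv F i) v w
    else if fu F i ^^^ g = u1 then sL F u1 u2 g L (h ^^^ fv F i) (v ^^^ fv F i) w
    else if fu F i ^^^ g = u2 then sL F u1 u2 g L (h ^^^ fv F i) v (w ^^^ fv F i)
    else if fu F i ^^^ g = u1 ^^^ u2 then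
      sL F u1 u2 g L (h ^^^ fv F i) (v ^^^ fv F i) (w ^^^ fv F i)
    else none

/-- sum of facts as relations -/
def sR (F : List ℕ) (u1 u2 : ℕ) : List ℕ → ℕ → ℕ → Option (ℕ × ℕ)
  | [], v, w => some (v, w)
  | i :: L, v, w =>
    if fu F i = u1 then sR F u1 u2 L (v ^^^ fv F i) w
    else if fu F i = u2 then sR F u1 u2 L v (w ^^^ fv F i)
    else if fu F i = u1 ^^^ u2 then sR F u1 u2 L (v ^^^ fv F i) (w ^^^ fv F i)
    else none

/-- the four masks of a relation -/
def r1 (c : ℕ) : ℕ := c % 4096
def r2 (c : ℕ) : ℕ := c / 4096 % 4096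
def r3 (c : ℕ) : ℕ := c / 16777216 % 4096
def r4 (c : ℕ) : ℕ := c / 68719476736

/-- code of a relation -/
def mkr (a b c d : ℕ) : ℕ := a + 4096 * (b + 4096 * (c + 4096 * d))

/-- sum of relations; `4095` is the relation `u1 u2 = u2 u1` -/
def sX (R : List ℕ) (u1 u2 : ℕ) : List ℕ → ℕ → ℕ → Option (ℕ × ℕ)
  | [], v, w => some (v, w)
  | i :: L, v, w =>
    if i == 4095 then sX R u1 u2 L (v ^^^ u2) (w ^^^ u1)
    else if r1 (R.getD i 0) == u1 && r2 (R.getD i 0) == u2 then
      sX R u1 u2 L (v ^^^ r3 (R.getD i 0)) (w ^^^ r4 (R.getD i 0))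
    else none

/-- read two lists and sum; result and rest of the stream -/
def sr (st : St) (u1 u2 v w s : ℕ) : Option ((ℕ × ℕ) × ℕ) :=
  let R := rl s
  let X := rl R.2
  match sR st.F u1 u2 R.1 v w with
  | none => none
  | some b => match sX st.R u1 u2 X.1 b.1 b.2 with
    | none => none
    | some c => some (c, X.2)

/-- read `h0` and three lists and sum; result and rest of the stream -/
def sm (st : St) (u1 u2 g s : ℕ) : Option ((ℕ × ℕ × ℕ) × ℕ) :=
  let h0 := s % 4096
  let L := rl (s / 4096)
  if h0 == 0 || (g == u2 && h0 < 2 ^ st.n) then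
    match sL st.F u1 u2 g L.1 h0 0 h0 with
    | none => none
    | some a => match sr st u1 u2 a.2.1 a.2.2 L.2 with
      | none => none
      | some (b, s') => some ((a.1, b), s')
  else none

/-- `k` sums (h, v, 0) in planes (1, p2) for `g = c` in `2, .., 7`; xor of the `h` -/
def sG (st : St) : ℕ → ℕ → ℕ → Option (ℕ × ℕ)
  | 0, x, s => some (x, s)
  | k + 1, x, s =>
    let c := s % 4096
    let p2 := s / 4096 % 4096
    match sm st 1 p2 c (s / 16777216) with
    | none => none
    | some (a, s') => if 2 ≤ c && c < 8 && p2 < 2 ^ st.n && a.2.2 == 0 then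
        sG st k (x ^^^ a.1) s' else none

/-- substitute -/
def sb (t v d m : ℕ) : ℕ := if m.testBit t then m ^^^ v ^^^ d else m

/-- substitute in a fact -/
def sbc (t v d c : ℕ) : ℕ := sb t v d (c % 4096) + 4096 * sb t v d (c / 4096)

/-- substitute in a relation -/
def sbr (t v d c : ℕ) : ℕ :=
  mkr (sb t v d (r1 c)) (sb t v d (r2 c)) (sb t v d (r3 c)) (sb t v d (r4 c))

/-- one instruction -/
def step (pm : Pm) (st : St) (s : ℕ) : Option (List St × ℕ) :=
  match s % 4096 with
  | 0 => -- self
    let x := s / 4096 % 4096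
    if x < 2 ^ st.n then some ([⟨st.n, (x + 4096 * x) :: st.F, st.R⟩], s / 16777216) else none
  | 1 => -- fact
    let u1 := s / 4096 % 4096
    let u2 := s / 16777216 % 4096
    let g := s / 68719476736 % 4096
    match sm st u1 u2 g (s / 281474976710656) with
    | none => none
    | some (a, s') => if u1 < 2 ^ st.n && u2 < 2 ^ st.n && g < 2 ^ st.n && a.2.1 == 0 &&
          a.2.2 == 0 then
        some ([⟨st.n, (g + 4096 * a.1) :: st.F, st.R⟩], s') else none
  | 2 => -- relation
    let u1 := s / 4096 % 4096
    let u2 := s / 16777216 % 4096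
    let g := s / 68719476736 % 4096
    match sm st u1 u2 g (s / 281474976710656) with
    | none => none
    | some (a, s') => if u1 < 2 ^ st.n && u2 < 2 ^ st.n && g < 2 ^ st.n && a.1 == 0 then
        some ([⟨st.n, st.F, mkr u1 u2 a.2.1 a.2.2 :: st.R⟩], s') else none
  | 3 => -- branching
    let u2 := s / 4096 % 4096
    let g := s / 16777216 % 4096
    match sm st 1 u2 g (s / 68719476736) with
    | none => none
    | some (a, s') =>
      let K := rl s'
      let D := rl K.2
      if u2 < 2 ^ st.n && g < 2 ^ st.n && a.2.2 == 0 &&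
          K.1.all (fun i => fu st.F i == g && fv st.F i < 8) &&
          D.1.all (· < 8) && (List.range 8).all (fun d => D.1.any (fun d' =>
            (spanL (K.1.map (fv st.F))).contains (d ^^^ d'))) then
        some (D.1.map (fun d => ⟨st.n, (g + 4096 * (a.1 ^^^ a.2.1 ^^^ d)) :: st.F, st.R⟩), D.2)
      else none
  | 4 => -- link
    let p := s / 4096 % 4096
    let u2 := s / 16777216 % 4096
    let g := s / 68719476736 % 4096
    match sm st p u2 g (s / 281474976710656) with
    | none => none
    | some (a, s') =>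
      if p < 2 ^ st.n && u2 < 2 ^ st.n && g < 2 ^ st.n && st.n < 12 && a.2.2 == 0 then
        some ([⟨st.n + 1, ((g ^^^ p) + 4096 * 2 ^ st.n) :: (p + 4096 * (a.2.1 ^^^ 2 ^ st.n)) ::
          (g + 4096 * (a.1 ^^^ 2 ^ st.n)) :: st.F, st.R⟩], s')
      else none
  | 5 => -- collapse
    let i := s / 4096 % 4096
    let v := fv st.F i
    if fu st.F i == 1 && 2 ^ pm.cb ≤ v then
      some ((List.range 8).map (fun d => ⟨st.n, st.F.map (sbc v.log2 v d),
        st.R.map (sbr v.log2 v d)⟩), s / 16777216)
    else none
  | 6 => -- closed: core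
    let i := s / 4096 % 4096
    if fu st.F i == 1 && 8 ≤ fv st.F i && fv st.F i < 2 ^ pm.cb then
      some ([], s / 16777216) else none
  | 7 => -- closed: a b = 0
    let i := s / 4096 % 4096
    if fu st.F i == 2 && fv st.F i == 4 then some ([], s / 16777216) else none
  | 8 => -- closed: y p or y q in z V_y
    match sr st 1 8 0 0 (s / 4096) with
    | none => none
    | some (a, s') => if pm.zp && (a.1 == 16 || a.1 == 32) && a.2 < 8 then some ([], s')
      else none
  | 9 => -- closed: z a and z b in Q_y
    match sr st 1 8 0 0 (s / 4096) with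
    | none => none
    | some (a, s') => match sr st 1 8 0 0 s' with
      | none => none
      | some (b, s'') => if pm.zp && a.2 == 2 && b.2 == 4 then some ([], s'') else none
  | 10 => -- closed: z in G_y + V_y
    match sG st (s / 4096 % 4096) 8 (s / 16777216) with
    | none => none
    | some (x, s') => if pm.fl && pm.zp && x < 8 then some ([], s') else none
  | _ => none

/-- run the instructions on a stack of states -/
def run (pm : Pm) : ℕ → List St → ℕ → Bool
  | _, [], _ => true
  | 0, _ :: _, _ => false
  | k + 1, st :: l, s => match step pm st s with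
    | none => false
    | some (cs, s') => run pm k (cs ++ l) s'

/-- equality of states -/
def St.eqb (a b : St) : Bool := a.n == b.n && a.F == b.F && a.R == b.R

/-- equality of lists of states -/
def eql : List St → List St → Bool
  | [], [] => true
  | a :: l, b :: m => a.eqb b && eql l m
  | _, _ => false

/-- run `k` instructions and compare the remaining stack -/
def part (pm : Pm) : ℕ → List St → ℕ → List St → Bool
  | 0, l, _, m => eql l m
  | _ + 1, [], _, m => eql [] m
  | k + 1, st :: l, s, m => match step pm st s with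
    | none => false
    | some (cs, s') => part pm k (cs ++ l) s' m

end Pool.Agent.R4.M8
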