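import Pool.Agent.R4.M8
import Pool.Agent.R4.Ctx8
import Pool.Agent.R4.PlaneEx

/-!
# Soundness of the checker M8 (helper14)
-/

set_option autoImplicit false
set_option linter.unusedSectionVars false
set_option linter.unusedVariables false
set_option linter.unusedSimpArgs false

namespace Pool.Agent.R4.M8

open Pool.Agent.Helper58.PLine (QData)
open Pool.Agent.ETCP
open Pool.Agent.ETCI (In8)

section
variable {V Q : Type} [AddCommGroup V] [Module (ZMod 2) V] {S : QData V Q}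
  {R : Type} [AddCommGroup R] [Module (ZMod 2) R]

/-- value of a mask -/
def ev (h : ℕ → V) (m : ℕ) : V := bsum h 12 m

theorem ev_zero (h : ℕ → V) : ev h 0 = 0 := bsum_zero _ _

theorem ev_xor (h : ℕ → V) (m n : ℕ) : ev h (m ^^^ n) = ev h m + ev h n := bsum_xor _ _ _ _

/-- `a x` and `b x` are values of `q (y, ·)` -/
def GY (S : QData V Q) (h : ℕ → V) (x : V) : Prop :=
  (∃ v, S.q (ev h 1) v = S.q (ev h 2) x) ∧ ∃ v, S.q (ev h 1) v = S.q (ev h 4) x

/-- the data of the first generators -/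
structure Base (pm : Pm) (S : QData V Q) (h : ℕ → V) : Prop where
  he : S.e = 0
  D1 : ∀ x, C S (ev h 1) x → ∃ d < 8, x = ev h d
  core : ∀ m, 8 ≤ m → m < 2 ^ pm.cb → ¬ C S (ev h 1) (ev h m)
  nab : ¬ C S (ev h 2) (ev h 4)
  hp : pm.zp = true → ∀ d < 8, S.q (ev h 1) (ev h 16) ≠ S.q (ev h 8) (ev h d)
  hq : pm.zp = true → ∀ d < 8, S.q (ev h 1) (ev h 32) ≠ S.q (ev h 8) (ev h d)
  nz : pm.zp = true → ¬ GY S h (ev h 8)
  gd : pm.fl = true → ∀ d < 8, GY S h (ev h d)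
  gy : pm.fl = true → ∀ c, 2 ≤ c → c < 8 → ∀ x v, S.q (ev h c) x = S.q (ev h 1) v → GY S h x

/-- the parameters make sense -/
structure PmOk (pm : Pm) : Prop where
  c3 : 3 ≤ pm.cb
  z6 : pm.zp = true → 6 ≤ pm.cb

/-- facts and relations hold -/
structure Md (S : QData V Q) (h : ℕ → V) (st : St) : Prop where
  f : ∀ c ∈ st.F, C S (ev h (c % 4096)) (ev h (c / 4096))
  r : ∀ c ∈ st.R, S.q (ev h (r1 c)) (ev h (r3 c)) = S.q (ev h (r2 c)) (ev h (r4 c))

/-- a mask below `2 ^ n` in both places -/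
def Lt (n c : ℕ) : Prop := c % 4096 < 2 ^ n ∧ c / 4096 < 2 ^ n

/-- all four masks below `2 ^ n` -/
def LtR (n c : ℕ) : Prop := r1 c < 2 ^ n ∧ r2 c < 2 ^ n ∧ r3 c < 2 ^ n ∧ r4 c < 2 ^ n

/-- all masks are below `2 ^ n` -/
structure Ok (pm : Pm) (st : St) : Prop where
  n12 : st.n ≤ 12
  nc : pm.cb ≤ st.n
  f : ∀ c ∈ st.F, Lt st.n c
  r : ∀ c ∈ st.R, LtR st.n c

theorem getD_prop {p : ℕ → Prop} {L : List ℕ} (hL : ∀ c ∈ L, p c) (h0 : p 0) (i : ℕ) :
    p (L.getD i 0) := by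
  by_cases hi : i < L.length
  · rw [List.getD_eq_getElem _ _ hi]
    exact hL _ (List.getElem_mem hi)
  · rw [List.getD_eq_default _ _ (by omega)]
    exact h0

theorem lt_zero (n : ℕ) : Lt n 0 := ⟨Nat.two_pow_pos _, Nat.two_pow_pos _⟩

theorem ltR_zero (n : ℕ) : LtR n 0 := by
  have := Nat.two_pow_pos n
  refine ⟨?_, ?_, ?_, ?_⟩ <;> simp [r1, r2, r3, r4]

variable {h : ℕ → V} {st : St} {pm : Pm}

theorem Md.fact (M : Md S h st) (i : ℕ) : C S (ev h (fu st.F i)) (ev h (fv st.F i)) := by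
  have := getD_prop (p := fun c => C S (ev h (c % 4096)) (ev h (c / 4096))) M.f
    (by show C S (ev h 0) (ev h 0); rw [ev_zero]; exact C.zero _) (i / 2)
  unfold fu fv
  split_ifs
  · exact this
  · exact this.symm

theorem Md.rel (M : Md S h st) (i : ℕ) :
    S.q (ev h (r1 (st.R.getD i 0))) (ev h (r3 (st.R.getD i 0))) =
      S.q (ev h (r2 (st.R.getD i 0))) (ev h (r4 (st.R.getD i 0))) :=
  getD_prop (p := fun c => S.q (ev h (r1 c)) (ev h (r3 c)) = S.q (ev h (r2 c)) (ev h (r4 c))) M.r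
    rfl i

theorem Ok.fu (O : Ok pm st) (i : ℕ) : fu st.F i < 2 ^ st.n := by
  have := getD_prop (p := Lt st.n) O.f (lt_zero _) (i / 2)
  unfold M8.fu
  split_ifs
  · exact this.1
  · exact this.2

theorem Ok.fv (O : Ok pm st) (i : ℕ) : fv st.F i < 2 ^ st.n := by
  have := getD_prop (p := Lt st.n) O.f (lt_zero _) (i / 2)
  unfold M8.fv
  split_ifs
  · exact this.2
  · exact this.1

theorem xlt {a b n : ℕ} (ha : a < 2 ^ n) (hb : b < 2 ^ n) : a ^^^ b < 2 ^ n :=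
  Nat.xor_lt_two_pow ha hb

section plane
variable {u1 u2 : ℕ} {P : Plane S (ev h u1) (ev h u2) R}

/-- contribution of one fact -/
theorem contrib {u g x i : ℕ} (e : ev h (u ^^^ g) = uv (ev h u1) (ev h u2) i)
    (hc : C S (ev h u) (ev h x)) : P.T (ev h g) (ev h x) (P.um i (ev h x)) := by
  have h1 := (Plane.T.zero_iff (P := P)).2 hc
  have h2 := h1.shift i
  rw [zero_add, ← e, ev_xor] at h2
  have e2 : ev h u + (ev h u + ev h g) = ev h g := by
    rw [← add_assoc, ZModModule.add_self, zero_add]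
  rwa [e2] at h2

theorem uv_1 {y z : V} : uv y z 1 = y := by simp [uv]
theorem uv_2 {y z : V} : uv y z 2 = z := by simp [uv]
theorem uv_3 {y z : V} : uv y z 3 = y + z := by simp [uv]
theorem uv_0 {y z : V} : uv y z 0 = 0 := by simp [uv]

theorem um_1 {y z : V} {P : Plane S y z R} (x : V) : P.um 1 x = P.Y x := by simp [Plane.um]
theorem um_2 {y z : V} {P : Plane S y z R} (x : V) : P.um 2 x = P.Z x := by simp [Plane.um]
theorem um_3 {y z : V} {P : Plane S y z R} (x : V) : P.um 3 x = P.Y x + P.Z x := by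
  simp [Plane.um]

/-- the value of `v, w` -/
def vl {y z : V} (P : Plane S y z R) (h : ℕ → V) (v w : ℕ) : R := P.Y (ev h v) + P.Z (ev h w)

theorem vl_xor {y z : V} {P : Plane S y z R} (v v' w w' : ℕ) :
    vl P h (v ^^^ v') (w ^^^ w') = vl P h v w + vl P h v' w' := by
  unfold vl
  rw [ev_xor, ev_xor, map_add, map_add]
  abel

theorem vl_0 {y z : V} {P : Plane S y z R} : vl P h 0 0 = 0 := by
  unfold vl
  rw [ev_zero, map_zero, map_zero, add_zero]

theorem vl_v0 {y z : V} {P : Plane S y z R} (v : ℕ) : vl P h v 0 = P.Y (ev h v) := by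
  unfold vl
  rw [ev_zero, map_zero, add_zero]

theorem vl_0w {y z : V} {P : Plane S y z R} (w : ℕ) : vl P h 0 w = P.Z (ev h w) := by
  unfold vl
  rw [ev_zero, map_zero, zero_add]

variable (P)

theorem sL_sound (M : Md S h st) (O : Ok pm st) {g : ℕ} :
    ∀ (L : List ℕ) {x v w x' v' w' : ℕ}, sL st.F u1 u2 g L x v w = some (x', v', w') →
      P.T (ev h g) (ev h x) (vl P h v w) → x < 2 ^ st.n → v < 2 ^ st.n → w < 2 ^ st.n →
      P.T (ev h g) (ev h x') (vl P h v' w') ∧ x' < 2 ^ st.n ∧ v' < 2 ^ st.n ∧ w' < 2 ^ st.n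
  | [], x, v, w, x', v', w', e, hT, h1, h2, h3 => by
    simp only [sL, Option.some.injEq, Prod.mk.injEq] at e
    obtain ⟨rfl, rfl, rfl⟩ := e
    exact ⟨hT, h1, h2, h3⟩
  | i :: L, x, v, w, x', v', w', e, hT, h1, h2, h3 => by
    have hf := M.fact i
    have hx := O.fv i
    simp only [sL] at e
    split_ifs at e with k0 k1 k2 k3
    · refine sL_sound M O L e ?_ (xlt h1 hx) h2 h3
      have := hT.add (contrib (P := P) (i := 0) (by rw [k0, ev_zero, uv_0]) hf)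
      rw [Plane.um_zero, add_zero, ← ev_xor] at this
      exact this
    · refine sL_sound M O L e ?_ (xlt h1 hx) (xlt h2 hx) h3
      have := hT.add (contrib (P := P) (i := 1) (by rw [k1, uv_1]) hf)
      rw [um_1, ← ev_xor, ← vl_v0, ← vl_xor, Nat.xor_zero] at this
      exact this
    · refine sL_sound M O L e ?_ (xlt h1 hx) h2 (xlt h3 hx)
      have := hT.add (contrib (P := P) (i := 2) (by rw [k2, uv_2]) hf)
      rw [um_2, ← ev_xor, ← vl_0w, ← vl_xor, Nat.xor_zero] at this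
      exact this
    · refine sL_sound M O L e ?_ (xlt h1 hx) (xlt h2 hx) (xlt h3 hx)
      have := hT.add (contrib (P := P) (i := 3) (by rw [k3, ev_xor, uv_3]) hf)
      have e3 : P.um 3 (ev h (fv st.F i)) = vl P h (fv st.F i) (fv st.F i) := um_3 _
      rw [e3, ← ev_xor, ← vl_xor] at this
      exact this

theorem sR_sound (M : Md S h st) (O : Ok pm st) :
    ∀ (L : List ℕ) {v w v' w' : ℕ}, sR st.F u1 u2 L v w = some (v', w') →
      v < 2 ^ st.n → w < 2 ^ st.n →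
      vl P h v' w' = vl P h v w ∧ v' < 2 ^ st.n ∧ w' < 2 ^ st.n
  | [], v, w, v', w', e, h2, h3 => by
    simp only [sR, Option.some.injEq, Prod.mk.injEq] at e
    obtain ⟨rfl, rfl⟩ := e
    exact ⟨rfl, h2, h3⟩
  | i :: L, v, w, v', w', e, h2, h3 => by
    have hf := M.fact i
    have hx := O.fv i
    simp only [sR] at e
    split_ifs at e with k1 k2 k3
    · obtain ⟨a1, a2⟩ := sR_sound M O L e (xlt h2 hx) h3
      refine ⟨?_, a2⟩
      rw [k1] at hf
      have e1 : vl P h (v ^^^ fv st.F i) w = vl P h (v ^^^ fv st.F i) (w ^^^ 0) := by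
        rw [Nat.xor_zero]
      rw [a1, e1, vl_xor, vl_v0, P.Y0.2 hf, add_zero]
    · obtain ⟨a1, a2⟩ := sR_sound M O L e h2 (xlt h3 hx)
      refine ⟨?_, a2⟩
      rw [k2] at hf
      have e1 : vl P h v (w ^^^ fv st.F i) = vl P h (v ^^^ 0) (w ^^^ fv st.F i) := by
        rw [Nat.xor_zero]
      rw [a1, e1, vl_xor, vl_0w, P.Z0.2 hf, add_zero]
    · obtain ⟨a1, a2⟩ := sR_sound M O L e (xlt h2 hx) (xlt h3 hx)
      refine ⟨?_, a2⟩
      rw [k3, ev_xor] at hf
      have e1 : vl P h (fv st.F i) (fv st.F i) = 0 := P.S0.2 hf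
      rw [a1, vl_xor, e1, add_zero]

theorem sX_sound (M : Md S h st) (O : Ok pm st) (hu1 : u1 < 2 ^ st.n) (hu2 : u2 < 2 ^ st.n) :
    ∀ (L : List ℕ) {v w v' w' : ℕ}, sX st.R u1 u2 L v w = some (v', w') →
      v < 2 ^ st.n → w < 2 ^ st.n →
      vl P h v' w' = vl P h v w ∧ v' < 2 ^ st.n ∧ w' < 2 ^ st.n
  | [], v, w, v', w', e, h2, h3 => by
    simp only [sX, Option.some.injEq, Prod.mk.injEq] at e
    obtain ⟨rfl, rfl⟩ := e
    exact ⟨rfl, h2, h3⟩
  | k :: L, v, w, v', w', e, h2, h3 => by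
    have hl := getD_prop (p := LtR st.n) O.r (ltR_zero _) k
    have hr := M.rel k
    simp only [sX] at e
    split_ifs at e with k1 k2
    · obtain ⟨a1, a2⟩ := sX_sound M O hu1 hu2 L e (xlt h2 hu2) (xlt h3 hu1)
      refine ⟨?_, a2⟩
      have e1 : vl P h u2 u1 = 0 := by
        unfold vl
        rw [(P.yz _ _).2 (S.symm _ _), ZModModule.add_self]
      rw [a1, vl_xor, e1, add_zero]
    · simp only [Bool.and_eq_true, beq_iff_eq] at k2
      obtain ⟨a1, a2⟩ := sX_sound M O hu1 hu2 L e (xlt h2 hl.2.2.1) (xlt h3 hl.2.2.2)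
      refine ⟨?_, a2⟩
      rw [k2.1, k2.2, ← P.yz] at hr
      have e1 : vl P h (r3 (st.R.getD k 0)) (r4 (st.R.getD k 0)) = 0 := by
        unfold vl
        rw [hr, ZModModule.add_self]
      rw [a1, vl_xor, e1, add_zero]

theorem sr_sound (M : Md S h st) (O : Ok pm st) (hu1 : u1 < 2 ^ st.n) (hu2 : u2 < 2 ^ st.n)
    {v w s s' : ℕ} {a : ℕ × ℕ} (hv : v < 2 ^ st.n) (hw : w < 2 ^ st.n)
    (e : sr st u1 u2 v w s = some (a, s')) :
    vl P h a.1 a.2 = vl P h v w ∧ a.1 < 2 ^ st.n ∧ a.2 < 2 ^ st.n := by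
  unfold sr at e
  simp only at e
  split at e
  · exact absurd e (by simp)
  rename_i c hc
  split at e
  · exact absurd e (by simp)
  rename_i d hd
  simp only [Option.some.injEq, Prod.mk.injEq] at e
  obtain ⟨rfl, -⟩ := e
  obtain ⟨c1, c2⟩ := c
  obtain ⟨d1, d2⟩ := d
  obtain ⟨l1, l2, l3⟩ := sR_sound P M O _ hc hv hw
  obtain ⟨m1, m2, m3⟩ := sX_sound P M O hu1 hu2 _ hd l2 l3
  exact ⟨m1.trans l1, m2, m3⟩

theorem sm_sound (M : Md S h st) (O : Ok pm st) (hu1 : u1 < 2 ^ st.n) (hu2 : u2 < 2 ^ st.n)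
    {g s s' : ℕ} {a : ℕ × ℕ × ℕ} (e : sm st u1 u2 g s = some (a, s')) :
    P.T (ev h g) (ev h a.1) (vl P h a.2.1 a.2.2) ∧ a.1 < 2 ^ st.n ∧ a.2.1 < 2 ^ st.n ∧
      a.2.2 < 2 ^ st.n := by
  have h0 : (0 : ℕ) < 2 ^ st.n := Nat.two_pow_pos _
  unfold sm at e
  simp only at e
  split_ifs at e with hs
  split at e
  · exact absurd e (by simp)
  rename_i b hb
  split at e
  · exact absurd e (by simp)
  rename_i c s1 hc
  simp only [Option.some.injEq, Prod.mk.injEq] at e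
  obtain ⟨rfl, -⟩ := e
  obtain ⟨b1, b2, b3⟩ := b
  simp only [Bool.or_eq_true, Bool.and_eq_true, beq_iff_eq, decide_eq_true_eq] at hs
  have hstart : P.T (ev h g) (ev h (s % 4096)) (vl P h 0 (s % 4096)) ∧ s % 4096 < 2 ^ st.n := by
    rcases hs with hs | ⟨rfl, hs⟩
    · rw [hs]
      exact ⟨by rw [ev_zero, vl_0]; exact Plane.T.zero _, h0⟩
    · refine ⟨?_, hs⟩
      have h1 := contrib (P := P) (u := 0) (g := g) (x := s % 4096) (i := 2)
        (by rw [Nat.zero_xor, uv_2]) (by rw [ev_zero]; exact C.zero' _)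
      rw [um_2] at h1
      rw [vl_0w]
      exact h1
  obtain ⟨k1, k2, k3, k4⟩ := sL_sound P M O _ hb hstart.1 hstart.2 h0 hstart.2
  obtain ⟨l1, l2, l3⟩ := sr_sound P M O hu1 hu2 k3 k4 hc
  refine ⟨?_, k2, l2, l3⟩
  simp only
  rw [l1]
  exact k1

end plane

/-! ### the instructions -/

/-- some child has a model -/
def Nx (pm : Pm) (S : QData V Q) (cs : List St) : Prop :=
  ∃ c ∈ cs, Ok pm c ∧ ∃ h, Base pm S h ∧ Md S h c

/-- plane groups exist -/
def Pl (S : QData V Q) : Prop :=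
  ∀ y z : V, ∃ (R : Type) (_ : AddCommGroup R) (_ : Module (ZMod 2) R), Nonempty (Plane S y z R)

theorem pow_le {n : ℕ} (hn : n ≤ 12) : 2 ^ n ≤ 4096 := by
  calc 2 ^ n ≤ 2 ^ 12 := Nat.pow_le_pow_right (by norm_num) hn
    _ = 4096 := by norm_num

theorem cmod {g x : ℕ} (hg : g < 4096) : (g + 4096 * x) % 4096 = g := by omega

theorem cdiv {g x : ℕ} (hg : g < 4096) : (g + 4096 * x) / 4096 = x := by omega

theorem mkr_1 {a b c d : ℕ} (ha : a < 4096) : r1 (mkr a b c d) = a := by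
  unfold r1 mkr; omega

theorem mkr_2 {a b c d : ℕ} (ha : a < 4096) (hb : b < 4096) : r2 (mkr a b c d) = b := by
  unfold r2 mkr; omega

theorem mkr_3 {a b c d : ℕ} (ha : a < 4096) (hb : b < 4096) (hc : c < 4096) :
    r3 (mkr a b c d) = c := by
  unfold r3 mkr; omega

theorem mkr_4 {a b c d : ℕ} (ha : a < 4096) (hb : b < 4096) (hc : c < 4096) :
    r4 (mkr a b c d) = d := by
  unfold r4 mkr; omega

theorem Ok.lt (O : Ok pm st) {x : ℕ} (hx : x < 2 ^ st.n) : x < 4096 :=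
  lt_of_lt_of_le hx (pow_le O.n12)

theorem Ok.consF (O : Ok pm st) {g x : ℕ} (hg : g < 2 ^ st.n) (hx : x < 2 ^ st.n) :
    Ok pm ⟨st.n, (g + 4096 * x) :: st.F, st.R⟩ where
  n12 := O.n12
  nc := O.nc
  f := by
    intro c hc
    rcases List.mem_cons.1 hc with rfl | hc
    · unfold Lt
      rw [cmod (O.lt hg), cdiv (O.lt hg)]
      exact ⟨hg, hx⟩
    · exact O.f c hc
  r := O.r

theorem Ok.consR (O : Ok pm st) {a b c d : ℕ} (ha : a < 2 ^ st.n) (hb : b < 2 ^ st.n)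
    (hc : c < 2 ^ st.n) (hd : d < 2 ^ st.n) :
    Ok pm ⟨st.n, st.F, mkr a b c d :: st.R⟩ where
  n12 := O.n12
  nc := O.nc
  f := O.f
  r := by
    intro x hx
    rcases List.mem_cons.1 hx with rfl | hx
    · unfold LtR
      rw [mkr_1 (O.lt ha), mkr_2 (O.lt ha) (O.lt hb), mkr_3 (O.lt ha) (O.lt hb) (O.lt hc),
        mkr_4 (O.lt ha) (O.lt hb) (O.lt hc)]
      exact ⟨ha, hb, hc, hd⟩
    · exact O.r x hx

theorem Md.consF (M : Md S h st) {g x : ℕ} (hg : g < 4096) (hc : C S (ev h g) (ev h x)) :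
    Md S h ⟨st.n, (g + 4096 * x) :: st.F, st.R⟩ where
  f := by
    intro c hc'
    rcases List.mem_cons.1 hc' with rfl | hc'
    · rw [cmod hg, cdiv hg]
      exact hc
    · exact M.f c hc'
  r := M.r

theorem Md.consR (M : Md S h st) {a b c d : ℕ} (ha : a < 4096) (hb : b < 4096) (hc : c < 4096)
    (e : S.q (ev h a) (ev h c) = S.q (ev h b) (ev h d)) :
    Md S h ⟨st.n, st.F, mkr a b c d :: st.R⟩ where
  f := M.f
  r := by
    intro x hx
    rcases List.mem_cons.1 hx with rfl | hx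
    · rw [mkr_1 ha, mkr_2 ha hb, mkr_3 ha hb hc, mkr_4 ha hb hc]
      exact e
    · exact M.r x hx

theorem span_C {g : ℕ} : ∀ (L : List ℕ), (∀ m ∈ L, C S (ev h g) (ev h m)) →
    ∀ m ∈ spanL L, C S (ev h g) (ev h m)
  | [], _, m, hm => by
    simp only [spanL, List.mem_singleton] at hm
    subst hm
    rw [ev_zero]
    exact C.zero _
  | a :: L, hL, m, hm => by
    simp only [spanL, List.mem_append, List.mem_map] at hm
    rcases hm with hm | ⟨m', hm', rfl⟩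
    · exact span_C L (fun m hm => hL m (List.mem_cons_of_mem _ hm)) m hm
    · rw [ev_xor]
      exact (hL a List.mem_cons_self).add
        (span_C L (fun m hm => hL m (List.mem_cons_of_mem _ hm)) m' hm')

theorem ev_upd {n : ℕ} {κ : V} {m : ℕ} (hm : m < 2 ^ n) :
    ev (Function.update h n κ) m = ev h m := by
  unfold ev bsum
  refine Finset.sum_congr rfl fun i _ => ?_
  by_cases hi : i = n
  · subst hi
    rw [Nat.testBit_lt_two_pow hm]
    simp
  · rw [Function.update_of_ne hi]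

theorem ev_new {n : ℕ} (hn : n < 12) {κ : V} : ev (Function.update h n κ) (2 ^ n) = κ := by
  unfold ev
  rw [bsum_two_pow _ hn, Function.update_self]

theorem Base.upd (hpm : PmOk pm) (B : Base pm S h) {n : ℕ} (hn : pm.cb ≤ n) (κ : V) :
    Base pm S (Function.update h n κ) := by
  have h64 : (2 : ℕ) ^ pm.cb ≤ 2 ^ n := Nat.pow_le_pow_right (by norm_num) hn
  have h8 : (8 : ℕ) ≤ 2 ^ pm.cb := by
    calc (8 : ℕ) = 2 ^ 3 := by norm_num
      _ ≤ 2 ^ pm.cb := Nat.pow_le_pow_right (by norm_num) hpm.c3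
  have h6 : pm.zp = true → 64 ≤ 2 ^ pm.cb := by
    intro hz
    calc (64 : ℕ) = 2 ^ 6 := by norm_num
      _ ≤ 2 ^ pm.cb := Nat.pow_le_pow_right (by norm_num) (hpm.z6 hz)
  have e : ∀ m < 2 ^ pm.cb, ev (Function.update h n κ) m = ev h m := fun m hm =>
    ev_upd (lt_of_lt_of_le hm h64)
  have e1 := e 1 (by omega)
  have e2 := e 2 (by omega)
  have e4 := e 4 (by omega)
  have hG : ∀ x, GY S (Function.update h n κ) x ↔ GY S h x := by
    intro x
    unfold GY
    rw [e1, e2, e4]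
  refine ⟨B.he, ?_, ?_, ?_, ?_, ?_, ?_, ?_, ?_⟩
  · intro x hx
    rw [e1] at hx
    obtain ⟨d, hd, rfl⟩ := B.D1 x hx
    exact ⟨d, hd, (e d (by omega)).symm⟩
  · intro m h1 h2
    rw [e m h2, e1]
    exact B.core m h1 h2
  · rw [e2, e4]
    exact B.nab
  · intro hz d hd
    have := h6 hz
    rw [e 16 (by omega), e d (by omega), e1, e 8 (by omega)]
    exact B.hp hz d hd
  · intro hz d hd
    have := h6 hz
    rw [e 32 (by omega), e d (by omega), e1, e 8 (by omega)]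
    exact B.hq hz d hd
  · intro hz
    have := h6 hz
    rw [hG, e 8 (by omega)]
    exact B.nz hz
  · intro hf d hd
    rw [hG, e d (by omega)]
    exact B.gd hf d hd
  · intro hf c hc hc' x v hx
    rw [e c (by omega), e1] at hx
    rw [hG]
    exact B.gy hf c hc hc' x v hx

theorem h8n (hpm : PmOk pm) (O : Ok pm st) : (8 : ℕ) ≤ 2 ^ st.n := by
  calc (8 : ℕ) = 2 ^ 3 := by norm_num
    _ ≤ 2 ^ st.n := Nat.pow_le_pow_right (by norm_num) (hpm.c3.trans O.nc)

/-- branching -/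
theorem br_sound (B : Base pm S h) {u2 : ℕ} (P : Plane S (ev h 1) (ev h u2) R) {g x v : ℕ}
    (hT : P.T (ev h g) (ev h x) (vl P h v 0)) :
    ∃ d < 8, C S (ev h g) (ev h (x ^^^ v ^^^ d)) := by
  rw [vl_v0, ← um_1, Plane.T.um_iff, uv_1] at hT
  obtain ⟨t, h1, h2, -⟩ := link hT
  obtain ⟨d, hd, e⟩ := B.D1 _ h2
  refine ⟨d, hd, h1.of_eq rfl ?_⟩
  rw [ev_xor, ev_xor, ← e]
  exact f2 (by abel_nf; simp only [ch2, add_zero])

/-- the new state after a link -/
theorem link_sound (hpm : PmOk pm) (B : Base pm S h) (M : Md S h st) (O : Ok pm st) {g p x v : ℕ} {κ : V}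
    (hn : st.n < 12) (hg : g < 2 ^ st.n) (hx : x < 2 ^ st.n) (hv : v < 2 ^ st.n)
    (hp' : p < 2 ^ st.n) (h1 : C S (ev h g) (ev h x + κ)) (h2 : C S (ev h p) (ev h v + κ))
    (h3 : C S (ev h g + ev h p) κ) :
    Nx pm S [⟨st.n + 1, ((g ^^^ p) + 4096 * 2 ^ st.n) :: (p + 4096 * (v ^^^ 2 ^ st.n)) ::
          (g + 4096 * (x ^^^ 2 ^ st.n)) :: st.F, st.R⟩] := by
  have hgp : g ^^^ p < 2 ^ st.n := xlt hg hp'
  have hlt : 2 ^ st.n < 2 ^ (st.n + 1) := Nat.pow_lt_pow_right (by norm_num) (by omega)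
  have up : ∀ {m : ℕ}, m < 2 ^ st.n → m < 2 ^ (st.n + 1) := fun hm => hm.trans hlt
  refine ⟨_, List.mem_singleton.2 rfl, ⟨by show st.n + 1 ≤ 12; omega,
    by have := O.nc; show pm.cb ≤ st.n + 1; omega, ?_, ?_⟩, Function.update h st.n κ,
    B.upd hpm O.nc κ, ?_, ?_⟩
  · intro c hc
    simp only [List.mem_cons] at hc
    rcases hc with rfl | rfl | rfl | hc
    · unfold Lt
      rw [cmod (O.lt hgp), cdiv (O.lt hgp)]
      exact ⟨up hgp, hlt⟩
    · unfold Lt
      rw [cmod (O.lt hp'), cdiv (O.lt hp')]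
      exact ⟨up hp', xlt (up hv) hlt⟩
    · unfold Lt
      rw [cmod (O.lt hg), cdiv (O.lt hg)]
      exact ⟨up hg, xlt (up hx) hlt⟩
    · exact ⟨up (O.f c hc).1, up (O.f c hc).2⟩
  · intro c hc
    obtain ⟨c1, c2, c3, c4⟩ := O.r c hc
    exact ⟨up c1, up c2, up c3, up c4⟩
  · intro c hc
    simp only [List.mem_cons] at hc
    rcases hc with rfl | rfl | rfl | hc
    · rw [cmod (O.lt hgp), cdiv (O.lt hgp), ev_upd hgp, ev_new hn, ev_xor]
      exact h3
    · rw [cmod (O.lt hp'), cdiv (O.lt hp'), ev_upd hp', ev_xor, ev_upd hv, ev_new hn]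
      exact h2
    · rw [cmod (O.lt hg), cdiv (O.lt hg), ev_upd hg, ev_xor, ev_upd hx, ev_new hn]
      exact h1
    · rw [ev_upd (O.f c hc).1, ev_upd (O.f c hc).2]
      exact M.f c hc
  · intro c hc
    obtain ⟨c1, c2, c3, c4⟩ := O.r c hc
    rw [ev_upd c1, ev_upd c2, ev_upd c3, ev_upd c4]
    exact M.r c hc

theorem sb_ev {t v d : ℕ} (e : ev h v = ev h d) (m : ℕ) : ev h (sb t v d m) = ev h m := by
  unfold sb
  split_ifs
  · rw [ev_xor, ev_xor, e, add_assoc, ZModModule.add_self, add_zero]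
  · rfl

theorem sb_lt {t v d m n : ℕ} (hv : v < 2 ^ n) (hd : d < 2 ^ n) (hm : m < 2 ^ n) :
    sb t v d m < 2 ^ n := by
  unfold sb
  split_ifs
  · exact xlt (xlt hm hv) hd
  · exact hm

theorem coll_sound (hpm : PmOk pm) (B : Base pm S h) (M : Md S h st) (O : Ok pm st) {t v : ℕ} (hv : v < 2 ^ st.n)
    (hc : C S (ev h 1) (ev h v))   : Nx pm S ((List.range 8).map (fun d => (⟨st.n,
      st.F.map (sbc t v d), st.R.map (sbr t v d)⟩ : St))) := by
  obtain ⟨d, hd, e⟩ := B.D1 _ hc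
  have h8 := h8n hpm O
  have hd' : d < 2 ^ st.n := by omega
  have key : ∀ c, Lt st.n c → sbc t v d c % 4096 = sb t v d (c % 4096) ∧
      sbc t v d c / 4096 = sb t v d (c / 4096) := by
    intro c hc
    have := O.lt (sb_lt (t := t) hv hd' hc.1)
    exact ⟨cmod this, cdiv this⟩
  have keyr : ∀ c, LtR st.n c → r1 (sbr t v d c) = sb t v d (r1 c) ∧
      r2 (sbr t v d c) = sb t v d (r2 c) ∧ r3 (sbr t v d c) = sb t v d (r3 c) ∧
      r4 (sbr t v d c) = sb t v d (r4 c) := by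
    intro c hc
    have l1 := O.lt (sb_lt (t := t) hv hd' hc.1)
    have l2 := O.lt (sb_lt (t := t) hv hd' hc.2.1)
    have l3 := O.lt (sb_lt (t := t) hv hd' hc.2.2.1)
    exact ⟨mkr_1 l1, mkr_2 l1 l2, mkr_3 l1 l2 l3, mkr_4 l1 l2 l3⟩
  refine ⟨_, List.mem_map.2 ⟨d, List.mem_range.2 hd, rfl⟩, ⟨O.n12, O.nc, ?_, ?_⟩, h, B, ?_, ?_⟩
  · intro c hc
    obtain ⟨c', hc', rfl⟩ := List.mem_map.1 hc
    have l := O.f c' hc'
    unfold Lt
    rw [(key c' l).1, (key c' l).2]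
    exact ⟨sb_lt hv hd' l.1, sb_lt hv hd' l.2⟩
  · intro c hc
    obtain ⟨c', hc', rfl⟩ := List.mem_map.1 hc
    have l := O.r c' hc'
    obtain ⟨k1, k2, k3, k4⟩ := keyr c' l
    unfold LtR
    rw [k1, k2, k3, k4]
    exact ⟨sb_lt hv hd' l.1, sb_lt hv hd' l.2.1, sb_lt hv hd' l.2.2.1, sb_lt hv hd' l.2.2.2⟩
  · intro c hc
    obtain ⟨c', hc', rfl⟩ := List.mem_map.1 hc
    have l := O.f c' hc'
    rw [(key c' l).1, (key c' l).2, sb_ev e, sb_ev e]
    exact M.f c' hc'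
  · intro c hc
    obtain ⟨c', hc', rfl⟩ := List.mem_map.1 hc
    have l := O.r c' hc'
    obtain ⟨k1, k2, k3, k4⟩ := keyr c' l
    rw [k1, k2, k3, k4, sb_ev e, sb_ev e, sb_ev e, sb_ev e]
    exact M.r c' hc'

theorem GY.zero : GY S h 0 := ⟨⟨0, by rw [S.q_zero, S.q_zero]⟩, ⟨0, by rw [S.q_zero, S.q_zero]⟩⟩

theorem GY.add {x x' : V} (hx : GY S h x) (hx' : GY S h x') : GY S h (x + x') := by
  obtain ⟨⟨v, hv⟩, ⟨w, hw⟩⟩ := hx
  obtain ⟨⟨v', hv'⟩, ⟨w', hw'⟩⟩ := hx'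
  exact ⟨⟨v + v', ETC.add_common hv hv'⟩, ⟨w + w', ETC.add_common hw hw'⟩⟩

theorem sG_sound (hPl : Pl S) (hpm : PmOk pm) (B : Base pm S h) (M : Md S h st) (O : Ok pm st)
    (hf : pm.fl = true) : ∀ (k x s : ℕ) {x' s' : ℕ}, sG st k x s = some (x', s') →
      GY S h (ev h (x ^^^ x'))
  | 0, x, s, x', s', e => by
    simp only [sG, Option.some.injEq, Prod.mk.injEq] at e
    obtain ⟨rfl, -⟩ := e
    rw [Nat.xor_self, ev_zero]
    exact GY.zero
  | k + 1, x, s, x', s', e => by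
    have h8 := h8n hpm O
    simp only [sG] at e
    split at e
    · exact absurd e (by simp)
    rename_i a s1 ha
    split_ifs at e with h1
    simp only [Bool.and_eq_true, decide_eq_true_eq, beq_iff_eq] at h1
    obtain ⟨⟨⟨g1, g2⟩, g3⟩, g4⟩ := h1
    have ih := sG_sound hPl hpm B M O hf k _ _ e
    obtain ⟨R, _, _, ⟨P⟩⟩ := hPl (ev h 1) (ev h (s / 4096 % 4096))
    obtain ⟨k1, k2, k3, k4⟩ := sm_sound P M O (by omega) g3 ha
    rw [g4, vl_v0, ← um_1, Plane.T.um_iff, uv_1] at k1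
    have k5 := B.gy hf _ g1 g2 _ _ k1
    have k6 := k5.add ih
    rw [← ev_xor] at k6
    have e3 : a.1 ^^^ (x ^^^ a.1 ^^^ x') = x ^^^ x' := by
      rw [Nat.xor_comm x a.1, Nat.xor_assoc, ← Nat.xor_assoc, Nat.xor_self, Nat.zero_xor]
    rwa [e3] at k6

theorem step_sound (hPl : Pl S) (hpm : PmOk pm) (B : Base pm S h) (M : Md S h st) (O : Ok pm st)
    {s s' : ℕ} {cs : List St} (e : step pm st s = some (cs, s')) : Nx pm S cs := by
  have h0 : (0 : ℕ) < 2 ^ st.n := Nat.two_pow_pos _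
  have h8 := h8n hpm O
  have h6 : pm.zp = true → 64 ≤ 2 ^ st.n := by
    intro hz
    calc (64 : ℕ) = 2 ^ 6 := by norm_num
      _ ≤ 2 ^ st.n := Nat.pow_le_pow_right (by norm_num) ((hpm.z6 hz).trans O.nc)
  unfold step at e
  simp only at e
  split at e
  · -- self
    split_ifs at e with h1
    simp only [Option.some.injEq, Prod.mk.injEq] at e
    obtain ⟨rfl, -⟩ := e
    exact ⟨_, List.mem_singleton.2 rfl, O.consF h1 h1, h, B, M.consF (O.lt h1) (C.self B.he _)⟩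
  · -- fact
    split at e
    · exact absurd e (by simp)
    rename_i a s1 ha
    split_ifs at e with h1
    simp only [Option.some.injEq, Prod.mk.injEq] at e
    obtain ⟨rfl, -⟩ := e
    simp only [Bool.and_eq_true, decide_eq_true_eq, beq_iff_eq] at h1
    obtain ⟨⟨⟨⟨g1, g2⟩, g3⟩, g4⟩, g5⟩ := h1
    obtain ⟨R, _, _, ⟨P⟩⟩ := hPl (ev h (s / 4096 % 4096)) (ev h (s / 16777216 % 4096))
    obtain ⟨k1, k2, k3, k4⟩ := sm_sound P M O g1 g2 ha
    rw [g4, g5, vl_0, Plane.T.zero_iff] at k1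
    exact ⟨_, List.mem_singleton.2 rfl, O.consF g3 k2, h, B, M.consF (O.lt g3) k1⟩
  · -- relation
    split at e
    · exact absurd e (by simp)
    rename_i a s1 ha
    split_ifs at e with h1
    simp only [Option.some.injEq, Prod.mk.injEq] at e
    obtain ⟨rfl, -⟩ := e
    simp only [Bool.and_eq_true, decide_eq_true_eq, beq_iff_eq] at h1
    obtain ⟨⟨⟨g1, g2⟩, g3⟩, g4⟩ := h1
    obtain ⟨R, _, _, ⟨P⟩⟩ := hPl (ev h (s / 4096 % 4096)) (ev h (s / 16777216 % 4096))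
    obtain ⟨k1, k2, k3, k4⟩ := sm_sound P M O g1 g2 ha
    rw [g4, ev_zero] at k1
    have k5 : P.Y (ev h a.2.1) = P.Z (ev h a.2.2) := f2 k1.func
    rw [P.yz] at k5
    exact ⟨_, List.mem_singleton.2 rfl, O.consR g1 g2 k3 k4, h, B,
      M.consR (O.lt g1) (O.lt g2) (O.lt k3) k5⟩
  · -- branching
    split at e
    · exact absurd e (by simp)
    rename_i a s1 ha
    split_ifs at e with h1
    simp only [Option.some.injEq, Prod.mk.injEq] at e
    obtain ⟨rfl, -⟩ := e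
    simp only [Bool.and_eq_true, decide_eq_true_eq, beq_iff_eq] at h1
    obtain ⟨⟨⟨⟨⟨g0, g1⟩, g2⟩, g3⟩, g4⟩, g5⟩ := h1
    obtain ⟨R, _, _, ⟨P⟩⟩ := hPl (ev h 1) (ev h (s / 4096 % 4096))
    obtain ⟨k1, k2, k3, k4⟩ := sm_sound P M O (by omega) g0 ha
    rw [g2] at k1
    obtain ⟨d, hd, hC⟩ := br_sound B P k1
    rw [List.all_eq_true] at g3 g4 g5
    have g6 := g5 d (List.mem_range.2 hd)
    rw [List.any_eq_true] at g6
    obtain ⟨d', hd', hsp⟩ := g6
    rw [List.contains_iff_mem] at hsp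
    have hd8 : d' < 8 := by simpa using g4 d' hd'
    have hK : ∀ m ∈ (rl s1).1.map (fv st.F), C S (ev h (s / 16777216 % 4096)) (ev h m) := by
      intro m hm
      obtain ⟨i, hi, rfl⟩ := List.mem_map.1 hm
      have := g3 i hi
      simp only [Bool.and_eq_true, decide_eq_true_eq, beq_iff_eq] at this
      rw [← this.1]
      exact M.fact i
    have h2 := span_C _ hK _ hsp
    have h3 := hC.add h2
    rw [← ev_xor] at h3
    have e3 : a.1 ^^^ a.2.1 ^^^ d ^^^ (d ^^^ d') = a.1 ^^^ a.2.1 ^^^ d' := by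
      rw [Nat.xor_assoc, ← Nat.xor_assoc d d d', Nat.xor_self, Nat.zero_xor]
    rw [e3] at h3
    exact ⟨_, List.mem_map.2 ⟨d', hd', rfl⟩, O.consF g1 (xlt (xlt k2 k3) (by omega)), h, B,
      M.consF (O.lt g1) h3⟩
  · -- link
    split at e
    · exact absurd e (by simp)
    rename_i a s1 ha
    split_ifs at e with h1
    simp only [Option.some.injEq, Prod.mk.injEq] at e
    obtain ⟨rfl, -⟩ := e
    simp only [Bool.and_eq_true, decide_eq_true_eq, beq_iff_eq] at h1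
    obtain ⟨⟨⟨⟨g1, g2⟩, g3⟩, g4⟩, g5⟩ := h1
    obtain ⟨R, _, _, ⟨P⟩⟩ := hPl (ev h (s / 4096 % 4096)) (ev h (s / 16777216 % 4096))
    obtain ⟨k1, k2, k3, k4⟩ := sm_sound P M O g1 g2 ha
    rw [g5, vl_v0, ← um_1, Plane.T.um_iff, uv_1] at k1
    obtain ⟨κ, l1, l2, l3⟩ := link k1
    exact link_sound hpm B M O g4 g3 k2 k3 g1 l1 l2 l3
  · -- collapse
    split_ifs at e with h1
    simp only [Option.some.injEq, Prod.mk.injEq] at e
    obtain ⟨rfl, -⟩ := e
    simp only [Bool.and_eq_true, decide_eq_true_eq, beq_iff_eq] at h1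
    have hf := M.fact (s / 4096 % 4096)
    rw [h1.1] at hf
    exact coll_sound hpm B M O (O.fv _) hf
  · -- core
    split_ifs at e with h1
    simp only [Bool.and_eq_true, decide_eq_true_eq, beq_iff_eq] at h1
    have hf := M.fact (s / 4096 % 4096)
    rw [h1.1.1] at hf
    exact (B.core _ h1.1.2 h1.2 hf).elim
  · -- a b
    split_ifs at e with h1
    simp only [Bool.and_eq_true, decide_eq_true_eq, beq_iff_eq] at h1
    have hf := M.fact (s / 4096 % 4096)
    rw [h1.1, h1.2] at hf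
    exact (B.nab hf).elim
  · -- p, q
    split at e
    · exact absurd e (by simp)
    rename_i a s1 ha
    split_ifs at e with h1
    simp only [Bool.and_eq_true, Bool.or_eq_true, decide_eq_true_eq, beq_iff_eq] at h1
    have := h6 h1.1.1
    obtain ⟨R, _, _, ⟨P⟩⟩ := hPl (ev h 1) (ev h 8)
    obtain ⟨k1, -, -⟩ := sr_sound P M O (by omega) (by omega) h0 h0 ha
    rw [vl_0] at k1
    have k2 : P.Y (ev h a.1) = P.Z (ev h a.2) := f2 k1
    rw [P.yz] at k2
    rcases h1.1.2 with h2 | h2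
    · rw [h2] at k2
      exact (B.hp h1.1.1 _ h1.2 k2).elim
    · rw [h2] at k2
      exact (B.hq h1.1.1 _ h1.2 k2).elim
  · -- nz
    split at e
    · exact absurd e (by simp)
    rename_i a s1 ha
    split at e
    · exact absurd e (by simp)
    rename_i b s2 hb
    split_ifs at e with h1
    simp only [Bool.and_eq_true, beq_iff_eq] at h1
    have := h6 h1.1.1
    obtain ⟨R, _, _, ⟨P⟩⟩ := hPl (ev h 1) (ev h 8)
    obtain ⟨k1, -, -⟩ := sr_sound P M O (by omega) (by omega) h0 h0 ha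
    obtain ⟨l1, -, -⟩ := sr_sound P M O (by omega) (by omega) h0 h0 hb
    rw [vl_0] at k1 l1
    have k2 : P.Y (ev h a.1) = P.Z (ev h a.2) := f2 k1
    have l2 : P.Y (ev h b.1) = P.Z (ev h b.2) := f2 l1
    rw [P.yz, h1.1.2, S.symm (ev h 8)] at k2
    rw [P.yz, h1.2, S.symm (ev h 8)] at l2
    exact (B.nz h1.1.1 ⟨⟨_, k2⟩, ⟨_, l2⟩⟩).elim
  · -- z in G_y + V_y
    split at e
    · exact absurd e (by simp)
    rename_i x s1 hx
    split_ifs at e with h1
    simp only [Bool.and_eq_true, decide_eq_true_eq] at h1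
    have k1 := sG_sound hPl hpm B M O h1.1.1 _ _ _ hx
    have k2 := k1.add (B.gd h1.1.1 x h1.2)
    rw [← ev_xor, Nat.xor_assoc, Nat.xor_self, Nat.xor_zero] at k2
    exact (B.nz h1.1.2 k2).elim
  · exact absurd e (by simp)

end

end Pool.Agent.R4.M8
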