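import Pool.Agent.R4.M8

/-!
# The checker M8 with states packed into numbers (helper14)

Same instructions and same stream as M8; the facts and the relations are the base 4096 digits of
one number each, so that the kernel reads them with its arithmetic on numbers.
-/

set_option autoImplicit false
set_option linter.unusedVariables false

namespace Pool.Agent.R4.N8

open Pool.Agent.R4.M8 (Pm rl)

/-- a state: number of generators, facts, relations -/
structure St where
  n : ℕ
  F : ℕ
  R : ℕ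

/-- digit -/
def dg (F i : ℕ) : ℕ := Nat.mod (Nat.div F (Nat.pow 4096 i)) 4096

/-- second element of the oriented fact `i` (the first one is `dg F i`) -/
def fv (F i : ℕ) : ℕ := dg F (Nat.xor i 1)

/-- sum of facts -/
def sL (F u1 u2 g : ℕ) : ℕ → ℕ → ℕ → ℕ → ℕ → Option (ℕ × ℕ × ℕ × ℕ)
  | 0, s, h, v, w => some (h, v, w, s)
  | k + 1, s, h, v, w =>
    bif Nat.beq (Nat.xor (dg F (Nat.mod s 4096)) g) 0 then
      sL F u1 u2 g k (Nat.div s 4096) (Nat.xor h (fv F (Nat.mod s 4096))) v w
    else bif Nat.beq (Nat.xor (dg F (Nat.mod s 4096)) g) u1 then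
      sL F u1 u2 g k (Nat.div s 4096) (Nat.xor h (fv F (Nat.mod s 4096))) (Nat.xor v (fv F (Nat.mod s 4096))) w
    else bif Nat.beq (Nat.xor (dg F (Nat.mod s 4096)) g) u2 then
      sL F u1 u2 g k (Nat.div s 4096) (Nat.xor h (fv F (Nat.mod s 4096))) v (Nat.xor w (fv F (Nat.mod s 4096)))
    else bif Nat.beq (Nat.xor (dg F (Nat.mod s 4096)) g) (Nat.xor u1 u2) then
      sL F u1 u2 g k (Nat.div s 4096) (Nat.xor h (fv F (Nat.mod s 4096))) (Nat.xor v (fv F (Nat.mod s 4096)))
        (Nat.xor w (fv F (Nat.mod s 4096)))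
    else none

/-- sum of facts as relations -/
def sR (F u1 u2 : ℕ) : ℕ → ℕ → ℕ → ℕ → Option (ℕ × ℕ × ℕ)
  | 0, s, v, w => some (v, w, s)
  | k + 1, s, v, w =>
    bif Nat.beq (dg F (Nat.mod s 4096)) u1 then
      sR F u1 u2 k (Nat.div s 4096) (Nat.xor v (fv F (Nat.mod s 4096))) w
    else bif Nat.beq (dg F (Nat.mod s 4096)) u2 then
      sR F u1 u2 k (Nat.div s 4096) v (Nat.xor w (fv F (Nat.mod s 4096)))
    else bif Nat.beq (dg F (Nat.mod s 4096)) (Nat.xor u1 u2) then
      sR F u1 u2 k (Nat.div s 4096) (Nat.xor v (fv F (Nat.mod s 4096))) (Nat.xor w (fv F (Nat.mod s 4096)))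
    else none

/-- sum of relations; `4095` is the relation `u1 u2 = u2 u1` -/
def sX (R u1 u2 : ℕ) : ℕ → ℕ → ℕ → ℕ → Option (ℕ × ℕ × ℕ)
  | 0, s, v, w => some (v, w, s)
  | k + 1, s, v, w =>
    bif Nat.beq (Nat.mod s 4096) 4095 then sX R u1 u2 k (Nat.div s 4096) (Nat.xor v u2) (Nat.xor w u1)
    else bif Nat.beq (dg R (Nat.mul 4 (Nat.mod s 4096))) u1 && Nat.beq (dg R (Nat.add (Nat.mul 4 (Nat.mod s 4096)) 1)) u2 then
      sX R u1 u2 k (Nat.div s 4096) (Nat.xor v (dg R (Nat.add (Nat.mul 4 (Nat.mod s 4096)) 2)))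
        (Nat.xor w (dg R (Nat.add (Nat.mul 4 (Nat.mod s 4096)) 3)))
    else none

/-- two lists; result and rest of the stream -/
def sr (F R u1 u2 v w s : ℕ) : Option (ℕ × ℕ × ℕ) :=
  match sR F u1 u2 (Nat.mod s 4096) (Nat.div s 4096) v w with
  | none => none
  | some (v', w', s') => sX R u1 u2 (Nat.mod s' 4096) (Nat.div s' 4096) v' w'

/-- three lists; result and rest of the stream -/
def sn (F R u1 u2 g s h v w : ℕ) : Option (ℕ × ℕ × ℕ × ℕ) :=
  match sL F u1 u2 g (Nat.mod s 4096) (Nat.div s 4096) h v w with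
  | none => none
  | some (h', v', w', s') => match sr F R u1 u2 v' w' s' with
    | none => none
    | some (v'', w'', s'') => some (h', v'', w'', s'')

/-- `h0` and three lists; result and rest of the stream -/
def sm (n F R u1 u2 g s : ℕ) : Option (ℕ × ℕ × ℕ × ℕ) :=
  bif Nat.beq (Nat.mod s 4096) 0 then sn F R u1 u2 g (Nat.div s 4096) 0 0 0
  else bif Nat.blt (Nat.mod s 4096) (Nat.pow 2 n) then
    bif Nat.beq g u2 then sn F R u1 u2 g (Nat.div s 4096) (Nat.mod s 4096) 0 (Nat.mod s 4096)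
    else bif Nat.beq g u1 then
      sn F R u1 u2 g (Nat.div s 4096) (Nat.mod s 4096) (Nat.mod s 4096) 0
    else bif Nat.beq g (Nat.xor u1 u2) then
      sn F R u1 u2 g (Nat.div s 4096) (Nat.mod s 4096) (Nat.mod s 4096) (Nat.mod s 4096)
    else none
  else none

/-- `k` sums (h, v, 0) in planes (1, p2) for `g = c` in `2, .., 7`; xor of the `h` -/
def sG (n F R : ℕ) : ℕ → ℕ → ℕ → Option (ℕ × ℕ)
  | 0, x, s => some (x, s)
  | k + 1, x, s =>
    match sm n F R 1 (Nat.mod (Nat.div s 4096) 4096) (Nat.mod s 4096) (Nat.div s 16777216) with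
    | none => none
    | some (h, _, w, s') =>
      bif Nat.ble 2 (Nat.mod s 4096) && Nat.blt (Nat.mod s 4096) 8 && Nat.blt (Nat.mod (Nat.div s 4096) 4096) (Nat.pow 2 n) &&
        Nat.beq w 0 then sG n F R k (Nat.xor x h) s' else none

/-- substitute -/
def sb (t v d m : ℕ) : ℕ := bif Nat.testBit m t then Nat.xor (Nat.xor m v) d else m

/-- substitute in `k` digits -/
def mapD (t v d : ℕ) : ℕ → ℕ → ℕ
  | 0, _ => 0
  | k + 1, F => sb t v d (Nat.mod F 4096) + 4096 * mapD t v d k (Nat.div F 4096)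

/-- add a fact -/
def cF (g x F : ℕ) : ℕ := Nat.add g (Nat.mul 4096 (Nat.add x (Nat.mul 4096 F)))

/-- add a relation -/
def cR (a b c d R : ℕ) : ℕ := Nat.add a (Nat.mul 4096 (Nat.add b (Nat.mul 4096 (Nat.add c (Nat.mul 4096 (Nat.add d (Nat.mul 4096 R)))))))

/-- instruction 0: self -/
def st0 (pm : Pm) (st : St) (s : ℕ) : Option (List St × ℕ) :=
  bif Nat.blt (Nat.mod (Nat.div s 4096) 4096) (Nat.pow 2 st.n) then
    some ([⟨st.n, cF (Nat.mod (Nat.div s 4096) 4096) (Nat.mod (Nat.div s 4096) 4096) st.F, st.R⟩], Nat.div s 16777216)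
  else none

/-- instruction 1: fact -/
def st1 (pm : Pm) (st : St) (s : ℕ) : Option (List St × ℕ) :=
  match sm st.n st.F st.R (Nat.mod (Nat.div s 4096) 4096) (Nat.mod (Nat.div s 16777216) 4096) (Nat.mod (Nat.div s 68719476736) 4096)
    (Nat.div s 281474976710656) with
  | none => none
  | some (h, v, w, s') =>
    bif Nat.blt (Nat.mod (Nat.div s 4096) 4096) (Nat.pow 2 st.n) && Nat.blt (Nat.mod (Nat.div s 16777216) 4096) (Nat.pow 2 st.n) &&
      Nat.blt (Nat.mod (Nat.div s 68719476736) 4096) (Nat.pow 2 st.n) && Nat.beq v 0 && Nat.beq w 0 then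
      some ([⟨st.n, cF (Nat.mod (Nat.div s 68719476736) 4096) h st.F, st.R⟩], s')
    else none

/-- instruction 2: relation -/
def st2 (pm : Pm) (st : St) (s : ℕ) : Option (List St × ℕ) :=
  match sm st.n st.F st.R (Nat.mod (Nat.div s 4096) 4096) (Nat.mod (Nat.div s 16777216) 4096) (Nat.mod (Nat.div s 68719476736) 4096)
    (Nat.div s 281474976710656) with
  | none => none
  | some (h, v, w, s') =>
    bif Nat.blt (Nat.mod (Nat.div s 4096) 4096) (Nat.pow 2 st.n) && Nat.blt (Nat.mod (Nat.div s 16777216) 4096) (Nat.pow 2 st.n) &&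
      Nat.blt (Nat.mod (Nat.div s 68719476736) 4096) (Nat.pow 2 st.n) && Nat.beq h 0 then
      some ([⟨st.n, st.F, cR (Nat.mod (Nat.div s 4096) 4096) (Nat.mod (Nat.div s 16777216) 4096) v w st.R⟩], s')
    else none

/-- instruction 3: branching -/
def st3 (pm : Pm) (st : St) (s : ℕ) : Option (List St × ℕ) :=
  match sm st.n st.F st.R 1 (Nat.mod (Nat.div s 4096) 4096) (Nat.mod (Nat.div s 16777216) 4096) (Nat.div s 68719476736) with
  | none => none
  | some (h, v, w, s') =>
    let K := rl s'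
    let D := rl K.2
    bif Nat.blt (Nat.mod (Nat.div s 4096) 4096) (Nat.pow 2 st.n) && Nat.blt (Nat.mod (Nat.div s 16777216) 4096) (Nat.pow 2 st.n) &&
        Nat.beq w 0 &&
        K.1.all (fun i => Nat.beq (dg st.F i) (Nat.mod (Nat.div s 16777216) 4096) &&
          Nat.blt (fv st.F i) 8) &&
        D.1.all (fun d => Nat.blt d 8) && (List.range 8).all (fun d => D.1.any (fun d' =>
          (spanL (K.1.map (fv st.F))).any (fun x => Nat.beq x (d ^^^ d')))) then
      some (D.1.map (fun d => ⟨st.n, cF (Nat.mod (Nat.div s 16777216) 4096) (Nat.xor (Nat.xor h v) d) st.F, st.R⟩),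
        D.2)
    else none

/-- instruction 4: link -/
def st4 (pm : Pm) (st : St) (s : ℕ) : Option (List St × ℕ) :=
  match sm st.n st.F st.R (Nat.mod (Nat.div s 4096) 4096) (Nat.mod (Nat.div s 16777216) 4096) (Nat.mod (Nat.div s 68719476736) 4096)
    (Nat.div s 281474976710656) with
  | none => none
  | some (h, v, w, s') =>
    bif Nat.blt (Nat.mod (Nat.div s 4096) 4096) (Nat.pow 2 st.n) && Nat.blt (Nat.mod (Nat.div s 16777216) 4096) (Nat.pow 2 st.n) &&
      Nat.blt (Nat.mod (Nat.div s 68719476736) 4096) (Nat.pow 2 st.n) && Nat.blt st.n 12 && Nat.beq w 0 then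
      some ([⟨st.n + 1, cF (Nat.xor (Nat.mod (Nat.div s 68719476736) 4096) (Nat.mod (Nat.div s 4096) 4096)) (Nat.pow 2 st.n)
        (cF (Nat.mod (Nat.div s 4096) 4096) (Nat.xor v (Nat.pow 2 st.n))
        (cF (Nat.mod (Nat.div s 68719476736) 4096) (Nat.xor h (Nat.pow 2 st.n)) st.F)), st.R⟩], s')
    else none

/-- instruction 5: collapse -/
def st5 (pm : Pm) (st : St) (s : ℕ) : Option (List St × ℕ) :=
  bif Nat.beq (dg st.F (Nat.mod (Nat.div s 4096) 4096)) 1 &&
      Nat.ble (Nat.pow 2 pm.cb) (fv st.F (Nat.mod (Nat.div s 4096) 4096)) then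
    some ((List.range 8).map (fun d => ⟨st.n,
      mapD (fv st.F (Nat.mod (Nat.div s 4096) 4096)).log2 (fv st.F (Nat.mod (Nat.div s 4096) 4096)) d
        (2 * (st.F.log2 / 24 + 1)) st.F,
      mapD (fv st.F (Nat.mod (Nat.div s 4096) 4096)).log2 (fv st.F (Nat.mod (Nat.div s 4096) 4096)) d
        (4 * (st.R.log2 / 48 + 1)) st.R⟩), Nat.div s 16777216)
  else none

/-- instruction 6: core -/
def st6 (pm : Pm) (st : St) (s : ℕ) : Option (List St × ℕ) :=
  bif Nat.beq (dg st.F (Nat.mod (Nat.div s 4096) 4096)) 1 && Nat.ble 8 (fv st.F (Nat.mod (Nat.div s 4096) 4096)) &&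
      Nat.blt (fv st.F (Nat.mod (Nat.div s 4096) 4096)) (Nat.pow 2 pm.cb) then
    some ([], Nat.div s 16777216) else none

/-- instruction 7: a b -/
def st7 (pm : Pm) (st : St) (s : ℕ) : Option (List St × ℕ) :=
  bif Nat.beq (dg st.F (Nat.mod (Nat.div s 4096) 4096)) 2 && Nat.beq (fv st.F (Nat.mod (Nat.div s 4096) 4096)) 4 then
    some ([], Nat.div s 16777216) else none

/-- instruction 8: p q -/
def st8 (pm : Pm) (st : St) (s : ℕ) : Option (List St × ℕ) :=
  match sr st.F st.R 1 8 0 0 (Nat.div s 4096) with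
  | none => none
  | some (v, w, s') => bif pm.zp && (Nat.beq v 16 || Nat.beq v 32) && Nat.blt w 8 then
      some ([], s') else none

/-- instruction 9: z a, z b -/
def st9 (pm : Pm) (st : St) (s : ℕ) : Option (List St × ℕ) :=
  match sr st.F st.R 1 8 0 0 (Nat.div s 4096) with
  | none => none
  | some (_, w, s') => match sr st.F st.R 1 8 0 0 s' with
    | none => none
    | some (_, w', s'') => bif pm.zp && Nat.beq w 2 && Nat.beq w' 4 then
        some ([], s'') else none

/-- instruction 10: z -/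
def st10 (pm : Pm) (st : St) (s : ℕ) : Option (List St × ℕ) :=
  match sG st.n st.F st.R (Nat.mod (Nat.div s 4096) 4096) 8 (Nat.div s 16777216) with
  | none => none
  | some (x, s') => bif pm.fl && pm.zp && Nat.blt x 8 then some ([], s') else none

/-- one instruction -/
def step (pm : Pm) (st : St) (s : ℕ) : Option (List St × ℕ) :=
  match Nat.mod s 4096 with
  | 0 => st0 pm st s
  | 1 => st1 pm st s
  | 2 => st2 pm st s
  | 3 => st3 pm st s
  | 4 => st4 pm st s
  | 5 => st5 pm st s
  | 6 => st6 pm st s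
  | 7 => st7 pm st s
  | 8 => st8 pm st s
  | 9 => st9 pm st s
  | 10 => st10 pm st s
  | _ => none

/-- equality of states -/
def St.eqb (a b : St) : Bool := Nat.beq a.n b.n && Nat.beq a.F b.F && Nat.beq a.R b.R

/-- run the instructions on a stack of states; opcode `4095` uses the next known state of `C` -/
def runC (pm : Pm) : ℕ → List St → ℕ → List St → Bool
  | _, [], _, _ => true
  | 0, _ :: _, _, _ => false
  | k + 1, st :: l, s, C =>
    bif Nat.beq (Nat.mod s 4096) 4095 then
      match C with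
      | [] => false
      | c :: C' => St.eqb st c && runC pm k l (Nat.div s 4096) C'
    else match step pm st s with
    | none => false
    | some (cs, s') => runC pm k (cs ++ l) s' C

end Pool.Agent.R4.N8
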