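import Pool.Agent.R4.N8
import Pool.Agent.R4.M8F

/-!
# Soundness of the checker N8 (helper14)
-/

set_option autoImplicit false
set_option linter.unusedSectionVars false
set_option linter.unusedVariables false
set_option linter.unusedSimpArgs false

namespace Pool.Agent.R4.N8

open Pool.Agent.Helper58.PLine (QData)
open Pool.Agent.ETCP
open Pool.Agent.ETCI (In8)
open Pool.Agent.R4.M8 (Pm rl ev ev_zero ev_xor GY Base PmOk xlt contrib uv_1 uv_2 uv_3 uv_0 um_1
  um_2 um_3 vl vl_xor vl_0 vl_v0 vl_0w Pl pow_le span_C ev_upd ev_new br_sound)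

section
variable {V Q : Type} [AddCommGroup V] [Module (ZMod 2) V] {S : QData V Q}
  {R : Type} [AddCommGroup R] [Module (ZMod 2) R]

/-! ### digits -/

theorem dg_lt (F i : ℕ) : dg F i < 4096 := Nat.mod_lt _ (by norm_num)

theorem dg_cons0 {c F : ℕ} (hc : c < 4096) : dg (c + 4096 * F) 0 = c := by
  show (c + 4096 * F) / 4096 ^ 0 % 4096 = c
  rw [pow_zero, Nat.div_one]
  omega

theorem dg_consS {c F : ℕ} (hc : c < 4096) (i : ℕ) : dg (c + 4096 * F) (i + 1) = dg F i := by
  show (c + 4096 * F) / 4096 ^ (i + 1) % 4096 = F / 4096 ^ i % 4096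
  rw [pow_succ', ← Nat.div_div_eq_div_mul]
  have : (c + 4096 * F) / 4096 = F := by omega
  rw [this]

theorem cF_eq (g x F : ℕ) : cF g x F = g + 4096 * (x + 4096 * F) := rfl

theorem cR_eq (a b c d R : ℕ) :
    cR a b c d R = a + 4096 * (b + 4096 * (c + 4096 * (d + 4096 * R))) := rfl

theorem dg_div (F i : ℕ) : dg (F / 4096) i = dg F (i + 1) := by
  show F / 4096 / 4096 ^ i % 4096 = F / 4096 ^ (i + 1) % 4096
  rw [pow_succ', Nat.div_div_eq_div_mul]

theorem dg_zero (F : ℕ) : dg F 0 = F % 4096 := by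
  show F / 4096 ^ 0 % 4096 = F % 4096
  rw [pow_zero, Nat.div_one]

theorem dg_0 (i : ℕ) : dg 0 i = 0 := by
  show 0 / 4096 ^ i % 4096 = 0
  rw [Nat.zero_div]

theorem dg_mapD {t v d : ℕ} : ∀ (k F i : ℕ), (∀ i, sb t v d (dg F i) < 4096) →
    dg (mapD t v d k F) i = if i < k then sb t v d (dg F i) else 0
  | 0, F, i, _ => by
    rw [if_neg (by omega)]
    exact dg_0 i
  | k + 1, F, 0, h => by
    rw [if_pos (by omega)]
    have e : mapD t v d (k + 1) F = sb t v d (F % 4096) + 4096 * mapD t v d k (F / 4096) := rfl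
    have h0 := h 0
    rw [dg_zero] at h0
    rw [e, dg_cons0 h0, dg_zero]
  | k + 1, F, i + 1, h => by
    have e : mapD t v d (k + 1) F = sb t v d (F % 4096) + 4096 * mapD t v d k (F / 4096) := rfl
    have h0 := h 0
    rw [dg_zero] at h0
    rw [e, dg_consS h0, dg_mapD k (F / 4096) i (fun j => by rw [dg_div]; exact h (j + 1)), dg_div]
    by_cases hi : i < k
    · rw [if_pos hi, if_pos (by omega)]
    · rw [if_neg hi, if_neg (by omega)]

/-- facts and relations hold -/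
structure Md (S : QData V Q) (h : ℕ → V) (st : St) : Prop where
  f : ∀ i, C S (ev h (dg st.F (2 * i))) (ev h (dg st.F (2 * i + 1)))
  r : ∀ i, S.q (ev h (dg st.R (4 * i))) (ev h (dg st.R (4 * i + 2))) =
    S.q (ev h (dg st.R (4 * i + 1))) (ev h (dg st.R (4 * i + 3)))

/-- all masks are below `2 ^ n` -/
structure Ok (pm : Pm) (st : St) : Prop where
  n12 : st.n ≤ 12
  nc : pm.cb ≤ st.n
  f : ∀ i, dg st.F i < 2 ^ st.n
  r : ∀ i, dg st.R i < 2 ^ st.n

variable {h : ℕ → V} {st : St} {pm : Pm}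

theorem xor1_even (j : ℕ) : (2 * j) ^^^ 1 = 2 * j + 1 := by
  have h1 : 2 * j = Nat.bit false j := by simp [Nat.bit]
  have h2 : (1 : ℕ) = Nat.bit true 0 := by simp [Nat.bit]
  have h3 : 2 * j + 1 = Nat.bit true j := by simp [Nat.bit]
  rw [h3, h1]
  conv_lhs => rw [h2]
  rw [Nat.xor_bit]
  simp

theorem xor1_odd (j : ℕ) : (2 * j + 1) ^^^ 1 = 2 * j := by
  have := xor1_even j
  rw [← this, Nat.xor_assoc, Nat.xor_self, Nat.xor_zero]

theorem Md.fact (M : Md S h st) (i : ℕ) : C S (ev h (dg st.F i)) (ev h (fv st.F i)) := by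
  rcases Nat.even_or_odd' i with ⟨j, rfl | rfl⟩
  · have e : fv st.F (2 * j) = dg st.F (2 * j + 1) := by
      show dg st.F ((2 * j) ^^^ 1) = _
      rw [xor1_even]
    rw [e]
    exact M.f j
  · have e : fv st.F (2 * j + 1) = dg st.F (2 * j) := by
      show dg st.F ((2 * j + 1) ^^^ 1) = _
      rw [xor1_odd]
    rw [e]
    exact (M.f j).symm

theorem Ok.fv (O : Ok pm st) (i : ℕ) : fv st.F i < 2 ^ st.n := O.f _

section plane
variable {u1 u2 : ℕ} (P : Plane S (ev h u1) (ev h u2) R)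

theorem beq_t {a b : ℕ} (h : Nat.beq a b = true) : a = b := Nat.eq_of_beq_eq_true h

theorem blt_t {a b : ℕ} (h : Nat.blt a b = true) : a < b := Nat.le_of_ble_eq_true h

theorem ble_t {a b : ℕ} (h : Nat.ble a b = true) : a ≤ b := Nat.le_of_ble_eq_true h

theorem sL_sound (M : Md S h st) (O : Ok pm st) {g : ℕ} :
    ∀ (k s : ℕ) {x v w x' v' w' s' : ℕ}, sL st.F u1 u2 g k s x v w = some (x', v', w', s') →
      P.T (ev h g) (ev h x) (vl P h v w) → x < 2 ^ st.n → v < 2 ^ st.n → w < 2 ^ st.n →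
      P.T (ev h g) (ev h x') (vl P h v' w') ∧ x' < 2 ^ st.n ∧ v' < 2 ^ st.n ∧ w' < 2 ^ st.n
  | 0, s, x, v, w, x', v', w', s', e, hT, h1, h2, h3 => by
    simp only [sL, Option.some.injEq, Prod.mk.injEq] at e
    obtain ⟨rfl, rfl, rfl, -⟩ := e
    exact ⟨hT, h1, h2, h3⟩
  | k + 1, s, x, v, w, x', v', w', s', e, hT, h1, h2, h3 => by
    rw [sL] at e
    generalize hi : Nat.mod s 4096 = i at e
    generalize hs : Nat.div s 4096 = s2 at e
    have hf := M.fact i
    have hx := O.fv i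
    cases k0 : Nat.beq (Nat.xor (dg st.F i) g) 0
    · rw [k0, cond_false] at e
      cases k1 : Nat.beq (Nat.xor (dg st.F i) g) u1
      · rw [k1, cond_false] at e
        cases k2 : Nat.beq (Nat.xor (dg st.F i) g) u2
        · rw [k2, cond_false] at e
          cases k3 : Nat.beq (Nat.xor (dg st.F i) g) (Nat.xor u1 u2)
          · rw [k3, cond_false] at e
            exact absurd e (by simp)
          · rw [k3, cond_true] at e
            have k4 : dg st.F i ^^^ g = u1 ^^^ u2 := beq_t k3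
            refine sL_sound M O k s2 e ?_ (xlt h1 hx) (xlt h2 hx) (xlt h3 hx)
            have := hT.add (contrib (P := P) (i := 3) (by rw [k4, ev_xor, uv_3]) hf)
            have e3 : P.um 3 (ev h (N8.fv st.F i)) = vl P h (N8.fv st.F i) (N8.fv st.F i) := um_3 _
            rw [e3, ← ev_xor, ← vl_xor] at this
            exact this
        · rw [k2, cond_true] at e
          have k4 : dg st.F i ^^^ g = u2 := beq_t k2
          refine sL_sound M O k s2 e ?_ (xlt h1 hx) h2 (xlt h3 hx)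
          have := hT.add (contrib (P := P) (i := 2) (by rw [k4, uv_2]) hf)
          rw [um_2, ← ev_xor, ← vl_0w, ← vl_xor, Nat.xor_zero] at this
          exact this
      · rw [k1, cond_true] at e
        have k4 : dg st.F i ^^^ g = u1 := beq_t k1
        refine sL_sound M O k s2 e ?_ (xlt h1 hx) (xlt h2 hx) h3
        have := hT.add (contrib (P := P) (i := 1) (by rw [k4, uv_1]) hf)
        rw [um_1, ← ev_xor, ← vl_v0, ← vl_xor, Nat.xor_zero] at this
        exact this
    · rw [k0, cond_true] at e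
      have k4 : dg st.F i ^^^ g = 0 := beq_t k0
      refine sL_sound M O k s2 e ?_ (xlt h1 hx) h2 h3
      have := hT.add (contrib (P := P) (i := 0) (by rw [k4, ev_zero, uv_0]) hf)
      rw [Plane.um_zero, add_zero, ← ev_xor] at this
      exact this

theorem sR_sound (M : Md S h st) (O : Ok pm st) :
    ∀ (k s : ℕ) {v w v' w' s' : ℕ}, sR st.F u1 u2 k s v w = some (v', w', s') →
      v < 2 ^ st.n → w < 2 ^ st.n →
      vl P h v' w' = vl P h v w ∧ v' < 2 ^ st.n ∧ w' < 2 ^ st.n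
  | 0, s, v, w, v', w', s', e, h2, h3 => by
    simp only [sR, Option.some.injEq, Prod.mk.injEq] at e
    obtain ⟨rfl, rfl, -⟩ := e
    exact ⟨rfl, h2, h3⟩
  | k + 1, s, v, w, v', w', s', e, h2, h3 => by
    rw [sR] at e
    generalize hi : Nat.mod s 4096 = i at e
    generalize hs : Nat.div s 4096 = s2 at e
    have hf := M.fact i
    have hx := O.fv i
    cases k1 : Nat.beq (dg st.F i) u1
    · rw [k1, cond_false] at e
      cases k2 : Nat.beq (dg st.F i) u2
      · rw [k2, cond_false] at e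
        cases k3 : Nat.beq (dg st.F i) (Nat.xor u1 u2)
        · rw [k3, cond_false] at e
          exact absurd e (by simp)
        · rw [k3, cond_true] at e
          obtain ⟨a1, a2⟩ := sR_sound M O k s2 e (xlt h2 hx) (xlt h3 hx)
          refine ⟨?_, a2⟩
          have k4 : dg st.F i = u1 ^^^ u2 := beq_t k3
          rw [k4, ev_xor] at hf
          have e1 : vl P h (N8.fv st.F i) (N8.fv st.F i) = 0 := P.S0.2 hf
          have e2 : vl P h (v ^^^ N8.fv st.F i) (w ^^^ N8.fv st.F i) = vl P h v w := by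
            rw [vl_xor, e1, add_zero]
          exact a1.trans e2
      · rw [k2, cond_true] at e
        obtain ⟨a1, a2⟩ := sR_sound M O k s2 e h2 (xlt h3 hx)
        refine ⟨?_, a2⟩
        rw [beq_t k2] at hf
        have e1 : vl P h v (w ^^^ N8.fv st.F i) = vl P h v w := by
          have e1 : vl P h v (w ^^^ N8.fv st.F i) = vl P h (v ^^^ 0) (w ^^^ N8.fv st.F i) := by
            rw [Nat.xor_zero]
          rw [e1, vl_xor, vl_0w, P.Z0.2 hf, add_zero]
        exact a1.trans e1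
    · rw [k1, cond_true] at e
      obtain ⟨a1, a2⟩ := sR_sound M O k s2 e (xlt h2 hx) h3
      refine ⟨?_, a2⟩
      rw [beq_t k1] at hf
      have e1 : vl P h (v ^^^ N8.fv st.F i) w = vl P h v w := by
        have e1 : vl P h (v ^^^ N8.fv st.F i) w = vl P h (v ^^^ N8.fv st.F i) (w ^^^ 0) := by
          rw [Nat.xor_zero]
        rw [e1, vl_xor, vl_v0, P.Y0.2 hf, add_zero]
      exact a1.trans e1

theorem sX_sound (M : Md S h st) (O : Ok pm st) (hu1 : u1 < 2 ^ st.n) (hu2 : u2 < 2 ^ st.n) :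
    ∀ (k s : ℕ) {v w v' w' s' : ℕ}, sX st.R u1 u2 k s v w = some (v', w', s') →
      v < 2 ^ st.n → w < 2 ^ st.n →
      vl P h v' w' = vl P h v w ∧ v' < 2 ^ st.n ∧ w' < 2 ^ st.n
  | 0, s, v, w, v', w', s', e, h2, h3 => by
    simp only [sX, Option.some.injEq, Prod.mk.injEq] at e
    obtain ⟨rfl, rfl, -⟩ := e
    exact ⟨rfl, h2, h3⟩
  | k + 1, s, v, w, v', w', s', e, h2, h3 => by
    rw [sX] at e
    generalize hi : Nat.mod s 4096 = i at e
    generalize hs : Nat.div s 4096 = s2 at e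
    cases k1 : Nat.beq i 4095
    · rw [k1, cond_false] at e
      cases k2 : Nat.beq (dg st.R (Nat.mul 4 i)) u1
      · rw [k2, Bool.false_and, cond_false] at e
        exact absurd e (by simp)
      · cases k3 : Nat.beq (dg st.R (Nat.add (Nat.mul 4 i) 1)) u2
        · rw [k2, k3, Bool.and_false, cond_false] at e
          exact absurd e (by simp)
        · rw [k2, k3, Bool.true_and, cond_true] at e
          obtain ⟨a1, a2⟩ := sX_sound M O hu1 hu2 k s2 e (xlt h2 (O.r _)) (xlt h3 (O.r _))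
          refine ⟨?_, a2⟩
          have hr := M.r i
          have l1 : dg st.R (4 * i) = u1 := beq_t k2
          have l2 : dg st.R (4 * i + 1) = u2 := beq_t k3
          rw [l1, l2, ← P.yz] at hr
          have e1 : vl P h (dg st.R (4 * i + 2)) (dg st.R (4 * i + 3)) = 0 := by
            unfold vl
            rw [hr, ZModModule.add_self]
          have e2 : vl P h (v ^^^ dg st.R (4 * i + 2)) (w ^^^ dg st.R (4 * i + 3)) =
              vl P h v w := by
            rw [vl_xor, e1, add_zero]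
          exact a1.trans e2
    · rw [k1, cond_true] at e
      obtain ⟨a1, a2⟩ := sX_sound M O hu1 hu2 k s2 e (xlt h2 hu2) (xlt h3 hu1)
      refine ⟨?_, a2⟩
      have e1 : vl P h u2 u1 = 0 := by
        unfold vl
        rw [(P.yz _ _).2 (S.symm _ _), ZModModule.add_self]
      have e2 : vl P h (v ^^^ u2) (w ^^^ u1) = vl P h v w := by
        rw [vl_xor, e1, add_zero]
      exact a1.trans e2

theorem sr_sound (M : Md S h st) (O : Ok pm st) (hu1 : u1 < 2 ^ st.n) (hu2 : u2 < 2 ^ st.n)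
    {v w s v' w' s' : ℕ} (hv : v < 2 ^ st.n) (hw : w < 2 ^ st.n)
    (e : sr st.F st.R u1 u2 v w s = some (v', w', s')) :
    vl P h v' w' = vl P h v w ∧ v' < 2 ^ st.n ∧ w' < 2 ^ st.n := by
  unfold sr at e
  split at e
  · exact absurd e (by simp)
  rename_i c1 c2 c3 hc
  obtain ⟨l1, l2, l3⟩ := sR_sound P M O _ _ hc hv hw
  obtain ⟨m1, m2, m3⟩ := sX_sound P M O hu1 hu2 _ _ e l2 l3
  exact ⟨m1.trans l1, m2, m3⟩

theorem sn_sound (M : Md S h st) (O : Ok pm st) (hu1 : u1 < 2 ^ st.n) (hu2 : u2 < 2 ^ st.n)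
    {g s x v w x' v' w' s' : ℕ} (e : sn st.F st.R u1 u2 g s x v w = some (x', v', w', s'))
    (hT : P.T (ev h g) (ev h x) (vl P h v w)) (h1 : x < 2 ^ st.n) (h2 : v < 2 ^ st.n)
    (h3 : w < 2 ^ st.n) :
    P.T (ev h g) (ev h x') (vl P h v' w') ∧ x' < 2 ^ st.n ∧ v' < 2 ^ st.n ∧ w' < 2 ^ st.n := by
  unfold sn at e
  split at e
  · exact absurd e (by simp)
  rename_i b1 b2 b3 b4 hb
  split at e
  · exact absurd e (by simp)
  rename_i c1 c2 c3 hc
  simp only [Option.some.injEq, Prod.mk.injEq] at e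
  obtain ⟨rfl, rfl, rfl, -⟩ := e
  obtain ⟨k1, k2, k3, k4⟩ := sL_sound P M O _ _ hb hT h1 h2 h3
  obtain ⟨l1, l2, l3⟩ := sr_sound P M O hu1 hu2 k3 k4 hc
  refine ⟨?_, k2, l2, l3⟩
  rw [l1]
  exact k1

theorem sm_sound (M : Md S h st) (O : Ok pm st) (hu1 : u1 < 2 ^ st.n) (hu2 : u2 < 2 ^ st.n)
    {g s x' v' w' s' : ℕ} (e : sm st.n st.F st.R u1 u2 g s = some (x', v', w', s')) :
    P.T (ev h g) (ev h x') (vl P h v' w') ∧ x' < 2 ^ st.n ∧ v' < 2 ^ st.n ∧ w' < 2 ^ st.n := by
  have h0 : (0 : ℕ) < 2 ^ st.n := Nat.two_pow_pos _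
  unfold sm at e
  generalize hs : Nat.mod s 4096 = h0' at e
  cases k0 : Nat.beq h0' 0
  · rw [k0, cond_false] at e
    cases k1 : Nat.blt h0' (Nat.pow 2 st.n)
    · rw [k1, cond_false] at e
      exact absurd e (by simp)
    rw [k1, cond_true] at e
    have hl : h0' < 2 ^ st.n := blt_t k1
    have hz : C S (ev h 0) (ev h h0') := by rw [ev_zero]; exact C.zero' _
    cases k2 : Nat.beq g u2
    · rw [k2, cond_false] at e
      cases k3 : Nat.beq g u1
      · rw [k3, cond_false] at e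
        cases k4 : Nat.beq g (Nat.xor u1 u2)
        · rw [k4, cond_false] at e
          exact absurd e (by simp)
        · rw [k4, cond_true] at e
          have k5 : g = u1 ^^^ u2 := beq_t k4
          refine sn_sound P M O hu1 hu2 e ?_ hl hl hl
          have h1 := contrib (P := P) (u := 0) (g := g) (x := h0') (i := 3)
            (by rw [Nat.zero_xor, k5, ev_xor, uv_3]) hz
          rw [um_3] at h1
          exact h1
      · rw [k3, cond_true] at e
        refine sn_sound P M O hu1 hu2 e ?_ hl hl h0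
        have h1 := contrib (P := P) (u := 0) (g := g) (x := h0') (i := 1)
          (by rw [Nat.zero_xor, beq_t k3, uv_1]) hz
        rw [um_1] at h1
        rw [vl_v0]
        exact h1
    · rw [k2, cond_true] at e
      refine sn_sound P M O hu1 hu2 e ?_ hl h0 hl
      have h1 := contrib (P := P) (u := 0) (g := g) (x := h0') (i := 2)
        (by rw [Nat.zero_xor, beq_t k2, uv_2]) hz
      rw [um_2] at h1
      rw [vl_0w]
      exact h1
  · rw [k0, cond_true] at e
    refine sn_sound P M O hu1 hu2 e ?_ h0 h0 h0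
    rw [ev_zero, vl_0]
    exact Plane.T.zero _

end plane

/-! ### the instructions -/

/-- some child has a model -/
def Nx (pm : Pm) (S : QData V Q) (cs : List St) : Prop :=
  ∃ c ∈ cs, Ok pm c ∧ ∃ h, Base pm S h ∧ Md S h c

theorem Ok.lt (O : Ok pm st) {x : ℕ} (hx : x < 2 ^ st.n) : x < 4096 :=
  lt_of_lt_of_le hx (pow_le O.n12)

theorem c2 {p : ℕ → Prop} {g x F : ℕ} (hg : g < 4096) (hx : x < 4096) (h0 : p g) (h1 : p x)
    (h : ∀ i, p (dg F i)) (i : ℕ) : p (dg (cF g x F) i) := by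
  rw [cF_eq]
  rcases i with _ | _ | i
  · rw [dg_cons0 hg]; exact h0
  · rw [dg_consS hg, dg_cons0 hx]; exact h1
  · rw [dg_consS hg, dg_consS hx]; exact h i

theorem c4 {p : ℕ → Prop} {a b c d F : ℕ} (ha : a < 4096) (hb : b < 4096) (hc : c < 4096)
    (hd : d < 4096) (p0 : p a) (p1 : p b) (p2 : p c) (p3 : p d)
    (h : ∀ i, p (dg F i)) (i : ℕ) : p (dg (cR a b c d F) i) := by
  rw [cR_eq]
  rcases i with _ | _ | _ | _ | i
  · rw [dg_cons0 ha]; exact p0
  · rw [dg_consS ha, dg_cons0 hb]; exact p1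
  · rw [dg_consS ha, dg_consS hb, dg_cons0 hc]; exact p2
  · rw [dg_consS ha, dg_consS hb, dg_consS hc, dg_cons0 hd]; exact p3
  · rw [dg_consS ha, dg_consS hb, dg_consS hc, dg_consS hd]; exact h i

theorem Ok.consF (O : Ok pm st) {g x : ℕ} (hg : g < 2 ^ st.n) (hx : x < 2 ^ st.n) :
    Ok pm ⟨st.n, cF g x st.F, st.R⟩ where
  n12 := O.n12
  nc := O.nc
  f := c2 (p := fun m => m < 2 ^ st.n) (O.lt hg) (O.lt hx) hg hx O.f
  r := O.r

theorem Ok.consR (O : Ok pm st) {a b c d : ℕ} (ha : a < 2 ^ st.n) (hb : b < 2 ^ st.n)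
    (hc : c < 2 ^ st.n) (hd : d < 2 ^ st.n) :
    Ok pm ⟨st.n, st.F, cR a b c d st.R⟩ where
  n12 := O.n12
  nc := O.nc
  f := O.f
  r := c4 (p := fun m => m < 2 ^ st.n) (O.lt ha) (O.lt hb) (O.lt hc) (O.lt hd) ha hb hc hd O.r

/-- facts given by a number -/
def FH (S : QData V Q) (h : ℕ → V) (F : ℕ) : Prop :=
  ∀ i, C S (ev h (dg F (2 * i))) (ev h (dg F (2 * i + 1)))

theorem FH.cons {F g x : ℕ} (H : FH S h F) (hg : g < 4096) (hx : x < 4096)
    (hc : C S (ev h g) (ev h x)) : FH S h (cF g x F) := by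
  intro i
  rw [cF_eq]
  rcases i with _ | i
  · show C S (ev h (dg _ 0)) (ev h (dg _ (0 + 1)))
    rw [dg_cons0 hg, dg_consS hg, dg_cons0 hx]
    exact hc
  · have e1 : 2 * (i + 1) = 2 * i + 1 + 1 := by ring
    have e2 : 2 * (i + 1) + 1 = 2 * i + 1 + 1 + 1 := by ring
    rw [e2, e1, dg_consS hg, dg_consS hx, dg_consS hg, dg_consS hx]
    exact H i

theorem Md.consF (M : Md S h st) {g x : ℕ} (hg : g < 4096) (hx : x < 4096)
    (hc : C S (ev h g) (ev h x)) : Md S h ⟨st.n, cF g x st.F, st.R⟩ where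
  f := FH.cons M.f hg hx hc
  r := M.r

theorem Md.consR (M : Md S h st) {a b c d : ℕ} (ha : a < 4096) (hb : b < 4096) (hc : c < 4096)
    (hd : d < 4096) (e : S.q (ev h a) (ev h c) = S.q (ev h b) (ev h d)) :
    Md S h ⟨st.n, st.F, cR a b c d st.R⟩ where
  f := M.f
  r := by
    intro i
    show S.q (ev h (dg (cR a b c d st.R) (4 * i))) (ev h (dg (cR a b c d st.R) (4 * i + 2))) =
      S.q (ev h (dg (cR a b c d st.R) (4 * i + 1))) (ev h (dg (cR a b c d st.R) (4 * i + 3)))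
    rw [cR_eq]
    rcases i with _ | i
    · show S.q (ev h (dg _ 0)) (ev h (dg _ (0 + 1 + 1))) = S.q (ev h (dg _ (0 + 1)))
        (ev h (dg _ (0 + 1 + 1 + 1)))
      rw [dg_cons0 ha, dg_consS ha, dg_consS hb, dg_cons0 hc, dg_consS ha, dg_cons0 hb,
        dg_consS ha, dg_consS hb, dg_consS hc, dg_cons0 hd]
      exact e
    · have e1 : 4 * (i + 1) = 4 * i + 1 + 1 + 1 + 1 := by ring
      have e2 : 4 * (i + 1) + 1 = 4 * i + 1 + 1 + 1 + 1 + 1 := by ring
      have e3 : 4 * (i + 1) + 2 = 4 * i + 2 + 1 + 1 + 1 + 1 := by ring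
      have e4 : 4 * (i + 1) + 3 = 4 * i + 3 + 1 + 1 + 1 + 1 := by ring
      rw [e2, e3, e4, e1]
      rw [dg_consS ha, dg_consS hb, dg_consS hc, dg_consS hd, dg_consS ha, dg_consS hb,
        dg_consS hc, dg_consS hd, dg_consS ha, dg_consS hb, dg_consS hc, dg_consS hd,
        dg_consS ha, dg_consS hb, dg_consS hc, dg_consS hd]
      exact M.r i

theorem h8n (hpm : PmOk pm) (O : Ok pm st) : (8 : ℕ) ≤ 2 ^ st.n := by
  calc (8 : ℕ) = 2 ^ 3 := by norm_num
    _ ≤ 2 ^ st.n := Nat.pow_le_pow_right (by norm_num) (hpm.c3.trans O.nc)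

theorem h6n (hpm : PmOk pm) (O : Ok pm st) (hz : pm.zp = true) : 64 ≤ 2 ^ st.n := by
  calc (64 : ℕ) = 2 ^ 6 := by norm_num
    _ ≤ 2 ^ st.n := Nat.pow_le_pow_right (by norm_num) ((hpm.z6 hz).trans O.nc)

theorem link_sound (hpm : PmOk pm) (B : Base pm S h) (M : Md S h st) (O : Ok pm st)
    {g p x v : ℕ} {κ : V}
    (hn : st.n < 12) (hg : g < 2 ^ st.n) (hx : x < 2 ^ st.n) (hv : v < 2 ^ st.n)
    (hp' : p < 2 ^ st.n) (h1 : C S (ev h g) (ev h x + κ)) (h2 : C S (ev h p) (ev h v + κ))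
    (h3 : C S (ev h g + ev h p) κ) :
    Nx pm S [⟨st.n + 1, cF (g ^^^ p) (2 ^ st.n) (cF p (v ^^^ 2 ^ st.n)
      (cF g (x ^^^ 2 ^ st.n) st.F)), st.R⟩] := by
  have hgp : g ^^^ p < 2 ^ st.n := xlt hg hp'
  have hlt : 2 ^ st.n < 2 ^ (st.n + 1) := Nat.pow_lt_pow_right (by norm_num) (by omega)
  have up : ∀ {m : ℕ}, m < 2 ^ st.n → m < 2 ^ (st.n + 1) := fun hm => hm.trans hlt
  have h12 : 2 ^ (st.n + 1) ≤ 4096 := pow_le (by omega)
  have hb : 2 ^ st.n < 4096 := lt_of_lt_of_le hlt h12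
  have lx := xlt (up hx) hlt
  have lv := xlt (up hv) hlt
  refine ⟨_, List.mem_singleton.2 rfl, ⟨by show st.n + 1 ≤ 12; omega,
    by have := O.nc; show pm.cb ≤ st.n + 1; omega, ?_, ?_⟩, Function.update h st.n κ,
    B.upd hpm O.nc κ, ?_, ?_⟩
  · refine c2 (p := fun m => m < 2 ^ (st.n + 1)) (O.lt hgp) hb (up hgp) hlt ?_
    refine c2 (p := fun m => m < 2 ^ (st.n + 1)) (O.lt hp') (lt_of_lt_of_le lv h12) (up hp') lv ?_
    refine c2 (p := fun m => m < 2 ^ (st.n + 1)) (O.lt hg) (lt_of_lt_of_le lx h12) (up hg) lx ?_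
    exact fun i => up (O.f i)
  · exact fun i => up (O.r i)
  · refine FH.cons (FH.cons (FH.cons ?_ (O.lt hg) (lt_of_lt_of_le lx h12) ?_) (O.lt hp')
      (lt_of_lt_of_le lv h12) ?_) (O.lt hgp) hb ?_
    · intro i
      rw [ev_upd (O.f _), ev_upd (O.f _)]
      exact M.f i
    · rw [ev_upd hg, ev_xor, ev_upd hx, ev_new hn]
      exact h1
    · rw [ev_upd hp', ev_xor, ev_upd hv, ev_new hn]
      exact h2
    · rw [ev_upd hgp, ev_new hn, ev_xor]
      exact h3
  · intro i
    show S.q (ev _ (dg st.R _)) (ev _ (dg st.R _)) = S.q (ev _ (dg st.R _)) (ev _ (dg st.R _))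
    rw [ev_upd (O.r _), ev_upd (O.r _), ev_upd (O.r _), ev_upd (O.r _)]
    exact M.r i

theorem sb_eq (t v d m : ℕ) : sb t v d m = M8.sb t v d m := by
  unfold sb M8.sb
  cases m.testBit t
  · simp
  · rfl

theorem sb_ev {t v d : ℕ} (e : ev h v = ev h d) (m : ℕ) : ev h (sb t v d m) = ev h m := by
  rw [sb_eq]
  exact M8.sb_ev e m

theorem sb_lt {t v d m n : ℕ} (hv : v < 2 ^ n) (hd : d < 2 ^ n) (hm : m < 2 ^ n) :
    sb t v d m < 2 ^ n := by
  rw [sb_eq]
  exact M8.sb_lt hv hd hm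

theorem coll_sound (hpm : PmOk pm) (B : Base pm S h) (M : Md S h st) (O : Ok pm st)
    {t v k k' : ℕ} (hv : v < 2 ^ st.n) (hc : C S (ev h 1) (ev h v)) :
    Nx pm S ((List.range 8).map (fun d => (⟨st.n,
      mapD t v d (2 * k) st.F, mapD t v d (4 * k') st.R⟩ : St))) := by
  obtain ⟨d, hd, e⟩ := B.D1 _ hc
  have h8 := h8n hpm O
  have hd' : d < 2 ^ st.n := by omega
  have h0 : (0 : ℕ) < 2 ^ st.n := Nat.two_pow_pos _
  have kF : ∀ i, sb t v d (dg st.F i) < 2 ^ st.n := fun i => sb_lt hv hd' (O.f i)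
  have kR : ∀ i, sb t v d (dg st.R i) < 2 ^ st.n := fun i => sb_lt hv hd' (O.r i)
  have eF := fun i => dg_mapD (t := t) (v := v) (d := d) (2 * k) st.F i (fun j => O.lt (kF j))
  have eR := fun i => dg_mapD (t := t) (v := v) (d := d) (4 * k') st.R i (fun j => O.lt (kR j))
  refine ⟨_, List.mem_map.2 ⟨d, List.mem_range.2 hd, rfl⟩, ⟨O.n12, O.nc, ?_, ?_⟩, h, B, ?_, ?_⟩
  · intro i
    show dg (mapD t v d (2 * k) st.F) i < 2 ^ st.n
    rw [eF i]
    split_ifs
    · exact kF i
    · exact h0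
  · intro i
    show dg (mapD t v d (4 * k') st.R) i < 2 ^ st.n
    rw [eR i]
    split_ifs
    · exact kR i
    · exact h0
  · intro i
    show C S (ev h (dg (mapD t v d (2 * k) st.F) (2 * i)))
      (ev h (dg (mapD t v d (2 * k) st.F) (2 * i + 1)))
    rw [eF, eF]
    by_cases hi : i < k
    · rw [if_pos (by omega), if_pos (by omega), sb_ev e, sb_ev e]
      exact M.f i
    · rw [if_neg (by omega), ev_zero]
      exact C.zero' _
  · intro i
    show S.q (ev h (dg (mapD t v d (4 * k') st.R) (4 * i)))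
      (ev h (dg (mapD t v d (4 * k') st.R) (4 * i + 2))) =
      S.q (ev h (dg (mapD t v d (4 * k') st.R) (4 * i + 1)))
      (ev h (dg (mapD t v d (4 * k') st.R) (4 * i + 3)))
    rw [eR, eR, eR, eR]
    by_cases hi : i < k'
    · rw [if_pos (by omega), if_pos (by omega), if_pos (by omega), if_pos (by omega),
        sb_ev e, sb_ev e, sb_ev e, sb_ev e]
      exact M.r i
    · rw [if_neg (by omega), if_neg (by omega), if_neg (by omega), if_neg (by omega)]

theorem sG_sound (hPl : Pl S) (hpm : PmOk pm) (B : Base pm S h) (M : Md S h st) (O : Ok pm st)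
    (hf : pm.fl = true) : ∀ (k x s : ℕ) {x' s' : ℕ}, sG st.n st.F st.R k x s = some (x', s') →
      GY S h (ev h (x ^^^ x'))
  | 0, x, s, x', s', e => by
    simp only [sG, Option.some.injEq, Prod.mk.injEq] at e
    obtain ⟨rfl, -⟩ := e
    rw [Nat.xor_self, ev_zero]
    exact GY.zero
  | k + 1, x, s, x', s', e => by
    have h8 := h8n hpm O
    rw [sG] at e
    generalize hc : Nat.mod s 4096 = c at e
    generalize hp2 : Nat.mod (Nat.div s 4096) 4096 = p2 at e
    split at e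
    · exact absurd e (by simp)
    rename_i b1 b2 b3 s1 ha
    cases g1 : Nat.ble 2 c
    · rw [g1] at e; exact absurd e (by simp)
    cases g2 : Nat.blt c 8
    · rw [g2] at e; exact absurd e (by simp)
    cases g3 : Nat.blt p2 (Nat.pow 2 st.n)
    · rw [g3] at e; exact absurd e (by simp)
    cases g4 : Nat.beq b3 0
    · rw [g4] at e; exact absurd e (by simp)
    rw [g1, g2, g3, g4] at e
    simp only [Bool.and_self, cond_true] at e
    have ih := sG_sound hPl hpm B M O hf k _ _ e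
    obtain ⟨R, _, _, ⟨P⟩⟩ := hPl (ev h 1) (ev h p2)
    obtain ⟨k1, k2, k3, k4⟩ := sm_sound P M O (by omega) (blt_t g3) ha
    rw [beq_t g4, vl_v0, ← um_1, Plane.T.um_iff, uv_1] at k1
    have k5 := B.gy hf _ (ble_t g1) (blt_t g2) _ _ k1
    have k6 := k5.add ih
    rw [← ev_xor] at k6
    have e3 : b1 ^^^ ((x ^^^ b1) ^^^ x') = x ^^^ x' := by
      rw [Nat.xor_comm x b1, Nat.xor_assoc, ← Nat.xor_assoc, Nat.xor_self, Nat.zero_xor]
    rw [← e3]
    exact k6

theorem and4 {a b c d : Bool} {α : Type} {x : α} {y : Option α}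
    (e : (bif a && b && c && d then y else none) = some x) :
    a = true ∧ b = true ∧ c = true ∧ d = true ∧ y = some x := by
  cases a <;> cases b <;> cases c <;> cases d <;> simp at e ⊢
  exact e

theorem and5 {a b c d f : Bool} {α : Type} {x : α} {y : Option α}
    (e : (bif a && b && c && d && f then y else none) = some x) :
    a = true ∧ b = true ∧ c = true ∧ d = true ∧ f = true ∧ y = some x := by
  cases a <;> cases b <;> cases c <;> cases d <;> cases f <;> simp at e ⊢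
  exact e

theorem and3 {a b c : Bool} {α : Type} {x : α} {y : Option α}
    (e : (bif a && b && c then y else none) = some x) :
    a = true ∧ b = true ∧ c = true ∧ y = some x := by
  cases a <;> cases b <;> cases c <;> simp at e ⊢
  exact e

theorem and2 {a b : Bool} {α : Type} {x : α} {y : Option α}
    (e : (bif a && b then y else none) = some x) :
    a = true ∧ b = true ∧ y = some x := by
  cases a <;> cases b <;> simp at e ⊢
  exact e

theorem and1 {a : Bool} {α : Type} {x : α} {y : Option α}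
    (e : (bif a then y else none) = some x) :
    a = true ∧ y = some x := by
  cases a <;> simp at e ⊢
  exact e

theorem st0_sound (B : Base pm S h) (M : Md S h st) (O : Ok pm st)
    {s s' : ℕ} {cs : List St} (e : st0 pm st s = some (cs, s')) : Nx pm S cs := by
  unfold st0 at e
  obtain ⟨h1, e⟩ := and1 e
  simp only [Option.some.injEq, Prod.mk.injEq] at e
  obtain ⟨rfl, -⟩ := e
  have h1 := blt_t h1
  exact ⟨_, List.mem_singleton.2 rfl, O.consF h1 h1, h, B,
    M.consF (O.lt h1) (O.lt h1) (C.self B.he _)⟩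

theorem st1_sound (hPl : Pl S) (B : Base pm S h) (M : Md S h st) (O : Ok pm st)
    {s s' : ℕ} {cs : List St} (e : st1 pm st s = some (cs, s')) : Nx pm S cs := by
  unfold st1 at e
  generalize Nat.mod (Nat.div s 4096) 4096 = u1 at e
  generalize Nat.mod (Nat.div s 16777216) 4096 = u2 at e
  generalize Nat.mod (Nat.div s 68719476736) 4096 = g at e
  split at e
  · exact absurd e (by simp)
  rename_i x v w s1 ha
  obtain ⟨g1, g2, g3, g4, g5, e⟩ := and5 e
  simp only [Option.some.injEq, Prod.mk.injEq] at e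
  obtain ⟨rfl, -⟩ := e
  have g1 := blt_t g1
  have g2 := blt_t g2
  have g3 := blt_t g3
  obtain ⟨R, _, _, ⟨P⟩⟩ := hPl (ev h u1) (ev h u2)
  obtain ⟨k1, k2, k3, k4⟩ := sm_sound P M O g1 g2 ha
  rw [beq_t g4, beq_t g5, vl_0, Plane.T.zero_iff] at k1
  exact ⟨_, List.mem_singleton.2 rfl, O.consF g3 k2, h, B, M.consF (O.lt g3) (O.lt k2) k1⟩

theorem st2_sound (hPl : Pl S) (B : Base pm S h) (M : Md S h st) (O : Ok pm st)
    {s s' : ℕ} {cs : List St} (e : st2 pm st s = some (cs, s')) : Nx pm S cs := by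
  unfold st2 at e
  generalize Nat.mod (Nat.div s 4096) 4096 = u1 at e
  generalize Nat.mod (Nat.div s 16777216) 4096 = u2 at e
  generalize Nat.mod (Nat.div s 68719476736) 4096 = g at e
  split at e
  · exact absurd e (by simp)
  rename_i x v w s1 ha
  obtain ⟨g1, g2, g3, g4, e⟩ := and4 e
  simp only [Option.some.injEq, Prod.mk.injEq] at e
  obtain ⟨rfl, -⟩ := e
  have g1 := blt_t g1
  have g2 := blt_t g2
  obtain ⟨R, _, _, ⟨P⟩⟩ := hPl (ev h u1) (ev h u2)
  obtain ⟨k1, k2, k3, k4⟩ := sm_sound P M O g1 g2 ha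
  rw [beq_t g4, ev_zero] at k1
  have k5 : P.Y (ev h v) = P.Z (ev h w) := f2 k1.func
  rw [P.yz] at k5
  exact ⟨_, List.mem_singleton.2 rfl, O.consR g1 g2 k3 k4, h, B,
    M.consR (O.lt g1) (O.lt g2) (O.lt k3) (O.lt k4) k5⟩

theorem st3_sound (hPl : Pl S) (hpm : PmOk pm) (B : Base pm S h) (M : Md S h st) (O : Ok pm st)
    {s s' : ℕ} {cs : List St} (e : st3 pm st s = some (cs, s')) : Nx pm S cs := by
  have h8 := h8n hpm O
  unfold st3 at e
  simp only at e
  generalize Nat.mod (Nat.div s 4096) 4096 = u2 at e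
  generalize Nat.mod (Nat.div s 16777216) 4096 = g at e
  split at e
  · exact absurd e (by simp)
  rename_i x v w s1 ha
  obtain ⟨h1, e⟩ := and1 e
  simp only [Option.some.injEq, Prod.mk.injEq] at e
  obtain ⟨rfl, -⟩ := e
  rw [Bool.and_eq_true, Bool.and_eq_true, Bool.and_eq_true, Bool.and_eq_true,
    Bool.and_eq_true] at h1
  obtain ⟨⟨⟨⟨⟨g0, g1⟩, g2⟩, g3⟩, g4⟩, g5⟩ := h1
  have g0 := blt_t g0
  have g1 := blt_t g1
  obtain ⟨R, _, _, ⟨P⟩⟩ := hPl (ev h 1) (ev h u2)
  obtain ⟨k1, k2, k3, k4⟩ := sm_sound P M O (by omega) g0 ha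
  rw [beq_t g2] at k1
  obtain ⟨d, hd, hC⟩ := br_sound B P k1
  rw [List.all_eq_true] at g3 g4 g5
  have g6 := g5 d (List.mem_range.2 hd)
  rw [List.any_eq_true] at g6
  obtain ⟨d', hd', hsp⟩ := g6
  rw [List.any_eq_true] at hsp
  obtain ⟨x', hsp, hx'⟩ := hsp
  have hx' : x' = d ^^^ d' := beq_t hx'
  rw [hx'] at hsp
  have hd8 : d' < 8 := blt_t (g4 d' hd')
  have hK : ∀ m ∈ (rl s1).1.map (fv st.F), C S (ev h g) (ev h m) := by
    intro m hm
    obtain ⟨i, hi, rfl⟩ := List.mem_map.1 hm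
    have := g3 i hi
    rw [Bool.and_eq_true] at this
    rw [← beq_t this.1]
    exact M.fact i
  have h2 := span_C _ hK _ hsp
  have h3 := hC.add h2
  rw [← ev_xor] at h3
  have e3 : x ^^^ v ^^^ d ^^^ (d ^^^ d') = x ^^^ v ^^^ d' := by
    rw [Nat.xor_assoc, ← Nat.xor_assoc d d d', Nat.xor_self, Nat.zero_xor]
  rw [e3] at h3
  have hlt : x ^^^ v ^^^ d' < 2 ^ st.n := xlt (xlt k2 k3) (by omega)
  exact ⟨_, List.mem_map.2 ⟨d', hd', rfl⟩, O.consF g1 hlt, h, B,
    M.consF (O.lt g1) (O.lt hlt) h3⟩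

theorem st4_sound (hPl : Pl S) (hpm : PmOk pm) (B : Base pm S h) (M : Md S h st) (O : Ok pm st)
    {s s' : ℕ} {cs : List St} (e : st4 pm st s = some (cs, s')) : Nx pm S cs := by
  unfold st4 at e
  generalize Nat.mod (Nat.div s 4096) 4096 = p at e
  generalize Nat.mod (Nat.div s 16777216) 4096 = u2 at e
  generalize Nat.mod (Nat.div s 68719476736) 4096 = g at e
  split at e
  · exact absurd e (by simp)
  rename_i x v w s1 ha
  obtain ⟨g1, g2, g3, g4, g5, e⟩ := and5 e
  simp only [Option.some.injEq, Prod.mk.injEq] at e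
  obtain ⟨rfl, -⟩ := e
  have g1 := blt_t g1
  have g2 := blt_t g2
  have g3 := blt_t g3
  obtain ⟨R, _, _, ⟨P⟩⟩ := hPl (ev h p) (ev h u2)
  obtain ⟨k1, k2, k3, k4⟩ := sm_sound P M O g1 g2 ha
  rw [beq_t g5, vl_v0, ← um_1, Plane.T.um_iff, uv_1] at k1
  obtain ⟨κ, l1, l2, l3⟩ := link k1
  exact link_sound hpm B M O (blt_t g4) g3 k2 k3 g1 l1 l2 l3

theorem st5_sound (hpm : PmOk pm) (B : Base pm S h) (M : Md S h st) (O : Ok pm st)
    {s s' : ℕ} {cs : List St} (e : st5 pm st s = some (cs, s')) : Nx pm S cs := by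
  unfold st5 at e
  generalize Nat.mod (Nat.div s 4096) 4096 = i at e
  obtain ⟨g1, g2, e⟩ := and2 e
  simp only [Option.some.injEq, Prod.mk.injEq] at e
  obtain ⟨rfl, -⟩ := e
  have hf := M.fact i
  rw [beq_t g1] at hf
  exact coll_sound hpm B M O (O.fv _) hf

theorem st6_sound (B : Base pm S h) (M : Md S h st)
    {s s' : ℕ} {cs : List St} (e : st6 pm st s = some (cs, s')) : Nx pm S cs := by
  unfold st6 at e
  generalize Nat.mod (Nat.div s 4096) 4096 = i at e
  obtain ⟨g1, g2, g3, e⟩ := and3 e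
  have hf := M.fact i
  rw [beq_t g1] at hf
  exact (B.core _ (ble_t g2) (blt_t g3) hf).elim

theorem st7_sound (B : Base pm S h) (M : Md S h st)
    {s s' : ℕ} {cs : List St} (e : st7 pm st s = some (cs, s')) : Nx pm S cs := by
  unfold st7 at e
  generalize Nat.mod (Nat.div s 4096) 4096 = i at e
  obtain ⟨g1, g2, e⟩ := and2 e
  have hf := M.fact i
  rw [beq_t g1, beq_t g2] at hf
  exact (B.nab hf).elim

theorem st8_sound (hPl : Pl S) (hpm : PmOk pm) (B : Base pm S h) (M : Md S h st) (O : Ok pm st)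
    {s s' : ℕ} {cs : List St} (e : st8 pm st s = some (cs, s')) : Nx pm S cs := by
  have h0 : (0 : ℕ) < 2 ^ st.n := Nat.two_pow_pos _
  have h8 := h8n hpm O
  unfold st8 at e
  split at e
  · exact absurd e (by simp)
  rename_i v w s1 ha
  obtain ⟨g1, g2, g3, e⟩ := and3 e
  have := h6n hpm O g1
  obtain ⟨R, _, _, ⟨P⟩⟩ := hPl (ev h 1) (ev h 8)
  obtain ⟨k1, -, -⟩ := sr_sound P M O (by omega) (by omega) h0 h0 ha
  rw [vl_0] at k1
  have k2 : P.Y (ev h v) = P.Z (ev h w) := f2 k1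
  rw [P.yz] at k2
  rw [Bool.or_eq_true] at g2
  rcases g2 with h2 | h2
  · rw [beq_t h2] at k2
    exact (B.hp g1 _ (blt_t g3) k2).elim
  · rw [beq_t h2] at k2
    exact (B.hq g1 _ (blt_t g3) k2).elim

theorem st9_sound (hPl : Pl S) (hpm : PmOk pm) (B : Base pm S h) (M : Md S h st) (O : Ok pm st)
    {s s' : ℕ} {cs : List St} (e : st9 pm st s = some (cs, s')) : Nx pm S cs := by
  have h0 : (0 : ℕ) < 2 ^ st.n := Nat.two_pow_pos _
  have h8 := h8n hpm O
  unfold st9 at e
  split at e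
  · exact absurd e (by simp)
  rename_i v w s1 ha
  split at e
  · exact absurd e (by simp)
  rename_i v' w' s2 hb
  obtain ⟨g1, g2, g3, e⟩ := and3 e
  have := h6n hpm O g1
  obtain ⟨R, _, _, ⟨P⟩⟩ := hPl (ev h 1) (ev h 8)
  obtain ⟨k1, -, -⟩ := sr_sound P M O (by omega) (by omega) h0 h0 ha
  obtain ⟨l1, -, -⟩ := sr_sound P M O (by omega) (by omega) h0 h0 hb
  rw [vl_0] at k1 l1
  have k2 : P.Y (ev h v) = P.Z (ev h w) := f2 k1
  have l2 : P.Y (ev h v') = P.Z (ev h w') := f2 l1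
  rw [P.yz, beq_t g2, S.symm (ev h 8)] at k2
  rw [P.yz, beq_t g3, S.symm (ev h 8)] at l2
  exact (B.nz g1 ⟨⟨_, k2⟩, ⟨_, l2⟩⟩).elim

theorem st10_sound (hPl : Pl S) (hpm : PmOk pm) (B : Base pm S h) (M : Md S h st) (O : Ok pm st)
    {s s' : ℕ} {cs : List St} (e : st10 pm st s = some (cs, s')) : Nx pm S cs := by
  unfold st10 at e
  split at e
  · exact absurd e (by simp)
  rename_i x s1 hx
  obtain ⟨g1, g2, g3, e⟩ := and3 e
  have k1 := sG_sound hPl hpm B M O g1 _ _ _ hx
  have k2 := k1.add (B.gd g1 x (blt_t g3))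
  rw [← ev_xor, Nat.xor_assoc, Nat.xor_self, Nat.xor_zero] at k2
  exact (B.nz g2 k2).elim

theorem step_sound (hPl : Pl S) (hpm : PmOk pm) (B : Base pm S h) (M : Md S h st) (O : Ok pm st)
    {s s' : ℕ} {cs : List St} (e : step pm st s = some (cs, s')) : Nx pm S cs := by
  unfold step at e
  split at e
  · exact st0_sound B M O e
  · exact st1_sound hPl B M O e
  · exact st2_sound hPl B M O e
  · exact st3_sound hPl hpm B M O e
  · exact st4_sound hPl hpm B M O e
  · exact st5_sound hpm B M O e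
  · exact st6_sound B M e
  · exact st7_sound B M e
  · exact st8_sound hPl hpm B M O e
  · exact st9_sound hPl hpm B M O e
  · exact st10_sound hPl hpm B M O e
  · exact absurd e (by simp)

end

end Pool.Agent.R4.N8
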