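import Pool.Agent.R4.End
import Pool.Agent.ETGP.Order

/-!
# Structures of order at most 128 (helper82)
-/

set_option autoImplicit false

namespace Pool.Agent.R4

open QS
open Pool.Agent.Helper58.PLine (QData)
open Pool.Agent.REG10 (InQ SRg RegE)

/-- order at most `128`: there is a regular element -/
theorem regE_of_128 (hN : Stmt_NoBad) (S : QStruct) [Finite S.G] (hneg : S.neg = 1)
    (h : Nat.card S.G ≤ 128) : ∃ x, RegE S x := by
  have hfin : Finite (Additive S.G) := (inferInstance : Finite S.G)
  have he : (ETC.toData S).e = 0 := by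
    show Additive.ofMul S.neg = 0
    rw [hneg]; rfl
  apply Pool.Agent.ETGP.regE_of_data
  by_contra hn
  obtain ⟨y, hy⟩ := Pool.Agent.ETGP.exists_max_rank (ETC.toData S)
  exact hn ⟨y, reg_of_rank4 hN (S := ETC.toData S) he
    (Pool.Agent.ETGP.rank_le he hn (N := 16) (by norm_num) (h.trans (by norm_num))) hy⟩

/-- **a finite structure with `-1 = 1` and `|G| ≤ 128` is of elementary type** -/
theorem elem_of_128 (hN : Stmt_NoBad) (S : QStruct) (hf : Finite S.G) (hneg : S.neg = 1)
    (h : Nat.card S.G ≤ 128) : ElemType S :=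
  Pool.Agent.ETGP.elem_of_order (fun T hT hn hc => by
    have := hT
    exact regE_of_128 hN T hn hc) S hf hneg h

end Pool.Agent.R4
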