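import Pool.Agent.R4.Order
import Pool.Agent.ETCI.EightQS
import Pool.Agent.ETCF.QS

/-!
# Structures of order at most 256 (helper82)

In a minimal counterexample no `V_x`, `x ≠ 0`, is commutative and there is no regular element.
`|V_x| ≥ 8` by helper73/82, `|V_x| = 8` is impossible by helper73/97 (irregular case) and by
`Stmt_Case2` (regular case), and `|V_x| ≥ 16` reduces `|G| ≤ 256` to rank at most 4.
-/

set_option autoImplicit false

namespace Pool.Agent.R4

open QS
open Pool.Agent.Helper58.PLine (QData)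
open Pool.Agent.ETCP
open Pool.Agent.ETPR
open Pool.Agent.REG10 (InQ SRg RegE)

/-- the regular case of value groups of order 8: impossible if there is no regular element and no
`V_x`, `x ≠ 0`, is commutative -/
def Stmt_Case2 : Prop :=
  ∀ (V Q : Type) [AddCommGroup V] [Module (ZMod 2) V] [Finite V] (S : QData V Q), S.e = 0 →
    (¬ ∃ x, SRg S x) →
    (∀ x, x ≠ 0 → ¬ ∀ g h, C S x g → C S x h → C S g h) →
    (∀ x, x ≠ 0 → 8 ≤ Nat.card {v // C S x v}) →
    ∀ y a b, y ≠ 0 → (∀ x, C S y x → ETCI.In8 y a b x) → C S y a → C S y b → ¬ C S a b →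
      ∀ z, S.q y z = S.q a b → False

section
variable {V Q : Type} [AddCommGroup V] [Module (ZMod 2) V] {S : QData V Q}

/-- value groups have at least 16 elements -/
theorem card16 (h2 : Stmt_Case2) [Finite V] (he : S.e = 0) (hn : ¬ ∃ x, SRg S x)
    (hc : ∀ x, x ≠ 0 → ¬ ∀ g h, C S x g → C S x h → C S g h) {y : V} (hy : y ≠ 0) :
    16 ≤ Nat.card (S.ann y) := by
  have e8 : ∀ x, x ≠ 0 → 8 ≤ Nat.card {v // C S x v} := fun x hx =>
    Pool.Agent.ETGP.eight_le he hn hx
  obtain ⟨k, hk⟩ := Pool.Agent.ETGP.card_ann_pow (S := S) y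
  by_contra hlt
  have h1 : k < 4 := by
    by_contra h2
    have h3 : 2 ^ 4 ≤ 2 ^ k := Nat.pow_le_pow_right (by norm_num) (by omega)
    omega
  have h8 : Nat.card {v // C S y v} ≤ 8 := by
    show Nat.card (S.ann y) ≤ 8
    rw [hk]
    calc 2 ^ k ≤ 2 ^ 3 := Nat.pow_le_pow_right (by norm_num) (by omega)
      _ = 8 := by norm_num
  obtain ⟨a, ha⟩ := not_forall.1 (hc y hy)
  obtain ⟨b, hb⟩ := not_forall.1 ha
  push Not at hb
  obtain ⟨ha, hb, hab⟩ := hb
  by_cases hirr : ∀ t, S.q y t ≠ S.q a b
  · obtain ⟨e, he0, hcm⟩ := ETCI.comm_of_card he hy h8 ha hb hirr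
    exact hc e he0 hcm
  · push Not at hirr
    obtain ⟨z, hz⟩ := hirr
    exact h2 V Q S he hn hc e8 y a b hy
      (fun x hx => ETCI.gen_of_card he hy h8 ha hb hab x hx) ha hb hab z hz

/-- no regular element, no commutative value group: `|V| ≤ 16 N` makes all ranks at most `N` -/
theorem rank_le16 (h2 : Stmt_Case2) [Finite V] (he : S.e = 0) (hn : ¬ ∃ x, SRg S x)
    (hc : ∀ x, x ≠ 0 → ¬ ∀ g h, C S x g → C S x h → C S g h) {N : ℕ} (hN : 1 ≤ N)
    (h : Nat.card V ≤ N * 16) (x : V) : Nat.card V ≤ N * Nat.card (S.ann x) := by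
  by_cases hx : x = 0
  · have h1 : Nat.card (S.ann x) = Nat.card V := by
      have h2 : S.ann x = ⊤ := by
        rw [eq_top_iff]
        intro v _
        rw [hx]
        exact C.zero' v
      rw [h2]
      exact Nat.card_congr (Equiv.Set.univ V)
    rw [h1]
    exact Nat.le_mul_of_pos_left _ hN
  · exact h.trans (Nat.mul_le_mul_left _ (card16 h2 he hn hc hx))

end

/-- a structure is of elementary type if the smaller ones are, `|G| ≤ 256` -/
theorem step256 (hN : Stmt_NoBad) (h2 : Stmt_Case2) (S : QStruct) [Finite S.G] (hneg : S.neg = 1)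
    (h : Nat.card S.G ≤ 256)
    (ih : ∀ T : QStruct, Finite T.G → T.neg = 1 → Nat.card T.G < Nat.card S.G → ElemType T) :
    ElemType S := by
  have hfin : Finite (Additive S.G) := (inferInstance : Finite S.G)
  have he : (ETC.toData S).e = 0 := by
    show Additive.ofMul S.neg = 0
    rw [hneg]; rfl
  by_cases hc : ∀ x : Additive S.G, x ≠ 0 →
      ¬ ∀ g k, C (ETC.toData S) x g → C (ETC.toData S) x k → C (ETC.toData S) g k
  · -- there is a regular element
    have hreg : ∃ x, RegE S x := by
      apply Pool.Agent.ETGP.regE_of_data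
      by_contra hn
      obtain ⟨y, hy⟩ := Pool.Agent.ETGP.exists_max_rank (ETC.toData S)
      exact hn ⟨y, reg_of_rank4 hN (S := ETC.toData S) he
        (rank_le16 h2 he hn hc (N := 16) (by norm_num) (h.trans (by norm_num))) hy⟩
    exact REG10.elem_of_smaller REG10.srgx S hneg ((REG10.regE_iff S).1 hreg)
      (fun T hT hTn hlt => ih T hT hTn hlt)
  · -- a commutative value group
    push Not at hc
    obtain ⟨p, hp, hcm⟩ := hc
    refine REG10.elem_of_ed S hneg (fun U h4 hU => ?_)
      (ETCF.comm_case S hneg (p := Additive.toMul p) (fun e => hp (by simpa using e))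
        (fun g k hg hk => hcm (Additive.ofMul g) (Additive.ofMul k) hg hk))
    have hfT : Finite U := inferInstance
    refine ih (ESL.PRODRECX.sub S hneg U h4) hfT rfl ?_
    show Nat.card U < Nat.card S.G
    have hle : Nat.card U ≤ Nat.card S.G :=
      Nat.card_le_card_of_injective _ U.subtype_injective
    refine lt_of_le_of_ne hle fun e => hU ?_
    exact Subgroup.eq_top_of_card_eq U e

/-- **a finite structure with `-1 = 1` and `|G| ≤ 256` is of elementary type** -/
theorem elem_of_256 (hN : Stmt_NoBad) (h2 : Stmt_Case2) (S : QStruct) (hf : Finite S.G)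
    (hneg : S.neg = 1) (h : Nat.card S.G ≤ 256) : ElemType S := by
  have key : ∀ (n : ℕ) (S : QStruct), Finite S.G → Nat.card S.G = n → S.neg = 1 → n ≤ 256 →
      ElemType S := by
    intro n
    induction n using Nat.strong_induction_on with
    | _ n ih =>
      intro S hf hn hneg h
      refine step256 hN h2 S hneg (hn ▸ h) fun T hT hTn hc => ?_
      exact ih _ (by omega) T hT rfl hTn (by omega)
  exact key _ S hf rfl hneg h

end Pool.Agent.R4
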