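import Pool.Agent.R4.Count
import Pool.Agent.R4.Uv

/-!
# Semantics of the codes (helper66)
-/

set_option autoImplicit false

namespace Pool.Agent.R4

open Pool.Agent.Helper58.PLine (QData)
open Pool.Agent.ETCP

variable {V Q : Type} [AddCommGroup V] [Module (ZMod 2) V] {S : QData V Q} {y z : V}
  {R : Type} [AddCommGroup R] [Module (ZMod 2) R]

theorem uv_xor (y z : V) (i j : ℕ) : uv y z (i ^^^ j) = uv y z i + uv y z j := by
  unfold uv
  rw [xor_mod2, xor_div2, xor_mod2]
  rcases Nat.mod_two_eq_zero_or_one i with h | h <;>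
    rcases Nat.mod_two_eq_zero_or_one j with h' | h' <;>
    rcases Nat.mod_two_eq_zero_or_one (i / 2) with k | k <;>
    rcases Nat.mod_two_eq_zero_or_one (j / 2) with k' | k' <;>
    simp only [h, h', k, k', Nat.xor_self, Nat.xor_zero, Nat.zero_xor, if_true, if_false,
      zero_ne_one, one_ne_zero] <;>
    exact f2 (by abel_nf <;> simp only [ch2, add_zero])

namespace Plane

variable (P : Plane S y z R)

/-- the three maps -/
def um (i : ℕ) : V →ₗ[ZMod 2] R :=
  (if i % 2 = 1 then P.Y else 0) + (if i / 2 % 2 = 1 then P.Z else 0)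

variable {P}

theorem um_zero (v : V) : P.um 0 v = 0 := by simp [um]

theorem um_xor (i j : ℕ) (v : V) : P.um (i ^^^ j) v = P.um i v + P.um j v := by
  unfold um
  rw [xor_mod2, xor_div2, xor_mod2]
  rcases Nat.mod_two_eq_zero_or_one i with h | h <;>
    rcases Nat.mod_two_eq_zero_or_one j with h' | h' <;>
    rcases Nat.mod_two_eq_zero_or_one (i / 2) with k | k <;>
    rcases Nat.mod_two_eq_zero_or_one (j / 2) with k' | k' <;>
    simp only [h, h', k, k', Nat.xor_self, Nat.xor_zero, Nat.zero_xor, if_true, if_false,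
      zero_ne_one, one_ne_zero, LinearMap.add_apply, LinearMap.zero_apply] <;>
    exact f2 (by abel_nf <;> simp only [ch2, add_zero])

theorem T.shift {g h : V} {ρ : R} (a : P.T g h ρ) (i : ℕ) :
    P.T (g + uv y z i) h (ρ + P.um i h) := by
  unfold uv um
  rcases Nat.mod_two_eq_zero_or_one i with h1 | h1 <;>
    rcases Nat.mod_two_eq_zero_or_one (i / 2) with k | k <;>
    simp only [h1, k, if_true, if_false, zero_ne_one, LinearMap.add_apply,
      LinearMap.zero_apply, add_zero, zero_add]
  · exact a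
  · exact a.shiftZ
  · exact a.shiftY
  · have := a.shiftY.shiftZ
    rwa [add_assoc, add_assoc] at this

theorem T.zero_iff {g h : V} : P.T g h 0 ↔ C S g h := by
  have := T.q_iff (P := P) (g := g) (h := h) (k := 0)
  rw [map_zero, S.q_zero] at this
  exact this

theorem T.um_iff {g h k : V} (j : ℕ) : P.T g h (P.um j k) ↔ S.q g h = S.q (uv y z j) k := by
  unfold uv um
  rcases Nat.mod_two_eq_zero_or_one j with h1 | h1 <;>
    rcases Nat.mod_two_eq_zero_or_one (j / 2) with h2 | h2 <;>
    simp only [h1, h2, if_true, if_false, zero_ne_one, LinearMap.add_apply,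
      LinearMap.zero_apply, add_zero, zero_add]
  · rw [T.zero_iff, S.symm 0 k, S.q_zero]
    exact Iff.rfl
  · exact ⟨fun a => T.q (P := P.swap) a.swap, fun a => T.of_swap (T.of_q (P := P.swap) a)⟩
  · exact T.q_iff
  · exact ⟨fun a => T.q (P := P.rot) a.rot, fun a => T.of_rot (T.of_q (P := P.rot) a)⟩

theorem um_uv (he : S.e = 0) (u v : ℕ) : P.um u (uv y z v) = P.um v (uv y z u) := by
  have h1 : P.Y y = 0 := P.Y0.2 (C.self he y)
  have h2 : P.Z z = 0 := P.Z0.2 (C.self he z)
  have h3 : P.Y z = P.Z y := (P.yz z y).2 (S.symm y z)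
  unfold uv um
  rcases Nat.mod_two_eq_zero_or_one u with a | a <;>
    rcases Nat.mod_two_eq_zero_or_one (u / 2) with b | b <;>
    rcases Nat.mod_two_eq_zero_or_one v with c | c <;>
    rcases Nat.mod_two_eq_zero_or_one (v / 2) with d | d <;>
    simp only [a, b, c, d, if_true, if_false, zero_ne_one, LinearMap.add_apply,
      LinearMap.zero_apply, add_zero, zero_add, map_add, map_zero, h1, h2, h3]

theorem T.uv_right (g : V) (v : ℕ) : P.T g (uv y z v) (P.um v g) :=
  (T.um_iff v).2 (S.symm _ _)

/-- symmetry for arcs with a value in the ranges after a shift -/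
theorem T.symm {g h k : V} {ρ : R} (he : S.e = 0) (u v j : ℕ) (a : P.T g h ρ)
    (e : ρ + P.um u h + P.um v g + P.um u (uv y z v) = P.um j k) : P.T h g ρ := by
  have a1 : P.T (g + uv y z u) h (ρ + P.um u h) := a.shift u
  have a2 : P.T (g + uv y z u) (h + uv y z v) (ρ + P.um u h + P.um v (g + uv y z u)) :=
    a1.add (T.uv_right _ _)
  have e1 : ρ + P.um u h + P.um v (g + uv y z u) = P.um j k := by
    rw [map_add, ← e, um_uv he v u]
    abel
  rw [e1, T.um_iff, S.symm, ← T.um_iff (P := P)] at a2
  have a3 := (a2.shift v).add (T.uv_right _ u)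
  have e2 : h + uv y z v + uv y z v = h := f2 (by abel_nf; simp only [ch2, add_zero])
  have e3 : g + uv y z u + uv y z u = g := f2 (by abel_nf; simp only [ch2, add_zero])
  have e4 : P.um j k + P.um v (g + uv y z u) + P.um u (h + uv y z v + uv y z v) = ρ := by
    rw [e2, ← e1]
    exact f2 (by abel_nf <;> simp only [ch2, add_zero])
  rw [e2] at a3
  rw [e2] at e4
  rw [e3, e4] at a3
  exact a3

end Plane

end Pool.Agent.R4
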