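import Pool.Agent.R4.Order256

/-!
# A small value group (helper35)

Inductive step: if the smaller structures are of elementary type and some `x ≠ 1` commutes with at
most eight elements, then the structure is of elementary type.  If no value group is commutative
and there is no regular element, then all value groups have at least 16 elements (`card16`); so
here there is a regular element or a commutative value group, and both cases are known.
-/

set_option autoImplicit false

namespace Pool.Agent.R4

open QS
open Pool.Agent.Helper58.PLine (QData)
open Pool.Agent.ETCP
open Pool.Agent.ETPR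
open Pool.Agent.REG10 (InQ SRg RegE)

/-- some `x ≠ 1` commutes with at most eight elements, and the smaller structures are of
elementary type -/
theorem elem_of_ann8 (h2 : Stmt_Case2) (S : QStruct) [Finite S.G] (hneg : S.neg = 1)
    (x : S.G) (hx : x ≠ 1) (h : Nat.card {y : S.G // S.q x y = S.zero} ≤ 8)
    (ih : ∀ T : QStruct, Finite T.G → T.neg = 1 → Nat.card T.G < Nat.card S.G → ElemType T) :
    ElemType S := by
  have hfin : Finite (Additive S.G) := (inferInstance : Finite S.G)
  have he : (ETC.toData S).e = 0 := by
    show Additive.ofMul S.neg = 0
    rw [hneg]; rfl
  by_cases hc : ∀ x : Additive S.G, x ≠ 0 →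
      ¬ ∀ g k, C (ETC.toData S) x g → C (ETC.toData S) x k → C (ETC.toData S) g k
  · -- there is a regular element
    have hreg : ∃ x, RegE S x := by
      apply Pool.Agent.ETGP.regE_of_data
      by_contra hn
      have h16 := card16 h2 he hn hc (y := Additive.ofMul x) (fun e => hx (by simpa using e))
      have h8 : Nat.card ((ETC.toData S).ann (Additive.ofMul x)) ≤ 8 := h
      omega
    exact REG10.elem_of_smaller REG10.srgx S hneg ((REG10.regE_iff S).1 hreg)
      (fun T hT hTn hlt => ih T hT hTn hlt)
  · -- a commutative value group
    push Not at hc
    obtain ⟨p, hp, hcm⟩ := hc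
    refine REG10.elem_of_ed S hneg (fun U h4 hU => ?_)
      (ETCF.comm_case S hneg (p := Additive.toMul p) (fun e => hp (by simpa using e))
        (fun g k hg hk => hcm (Additive.ofMul g) (Additive.ofMul k) hg hk))
    have hfT : Finite U := inferInstance
    refine ih (ESL.PRODRECX.sub S hneg U h4) hfT rfl ?_
    show Nat.card U < Nat.card S.G
    have hle : Nat.card U ≤ Nat.card S.G :=
      Nat.card_le_card_of_injective _ U.subtype_injective
    refine lt_of_le_of_ne hle fun e => hU ?_
    exact Subgroup.eq_top_of_card_eq U e

end Pool.Agent.R4
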