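import Pool.Agent.R4.FastS
import Pool.Agent.R4.Full
import Pool.Agent.R4.DatA
import Pool.Agent.R4.DatT1
import Pool.Agent.R4.DatT3

/-!
# The tables `A`, `T1`, `T3` are impossible (helper66)
-/

set_option autoImplicit false

namespace Pool.Agent.R4

open Pool.Agent.Helper58.PLine (QData)
open Pool.Agent.ETCP

theorem stmtA : Stmt_A := by
  intro V Q _ _ _ S y z R _ _ P he h8 rl
  have env : Env P tabA := ⟨he, h8, fun h => absurd h (by decide)⟩
  have tp := tbP_of tbA
  have hT := packP_of pkA
  exact endF_sound tp env hT rl (runF_sound tp env hT _ _ _ runA Inv.zero) (by decide)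
    (by decide) endA

theorem stmtT1 : Stmt_T1 := by
  intro V Q _ _ _ S y z R _ _ P he h16 rl
  have env : Env P tabT1 := ⟨he, h16, fun h => absurd h (by decide)⟩
  have tp := tbP_of tbT1
  have hT := packP_of pkT1
  exact endF_sound tp env hT rl (runF_sound tp env hT _ _ _ runT1 Inv.zero) (by decide)
    (by decide) endT1

theorem stmtT3 : Stmt_T3 := by
  intro V Q _ _ _ S y z R _ _ P he h16 rl
  have env : Env P tabT3 := ⟨he, h16, fun h => absurd h (by decide)⟩
  have tp := tbP_of tbT3
  have hT := packP_of pkT3
  exact endF_sound tp env hT rl (runF_sound tp env hT _ _ _ runT3 Inv.zero) (by decide)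
    (by decide) endT3

end Pool.Agent.R4
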