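import Pool.Agent.R4.Fast

set_option autoImplicit false
set_option linter.style.longLine false

namespace Pool.Agent.R4

/-- table T2 -/
def tabT2 : Tb where
  N := 7
  RD := 5
  Yc := [0, 1, 0, 0, 4, 8, 2]
  Zc := [1, 0, 16, 2, 4, 0, 0]
  rk := 4
  ker := [[0, 1, 2, 3, 4, 5, 6, 7, 8, 9, 10, 11, 12, 13, 14, 15, 16, 17, 18, 19, 20, 21, 22, 23, 24, 25, 26, 27, 28, 29, 30, 31, 32, 33, 34, 35, 36, 37, 38, 39, 40, 41, 42, 43, 44, 45, 46, 47, 48, 49, 50, 51, 52, 53, 54, 55, 56, 57, 58, 59, 60, 61, 62, 63, 64, 65, 66, 67, 68, 69, 70, 71, 72, 73, 74, 75, 76, 77, 78, 79, 80, 81, 82, 83, 84, 85, 86, 87, 88, 89, 90, 91, 92, 93, 94, 95, 96, 97, 98, 99, 100, 101, 102, 103, 104, 105, 106, 107, 108, 109, 110, 111, 112, 113, 114, 115, 116, 117, 118, 119, 120, 121, 122, 123, 124, 125, 126, 127], [0, 1, 4, 5, 8, 9, 12, 13], [0, 2, 32, 34, 64, 66, 96, 98], [0, 3, 16, 19, 72, 75, 88, 91]]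
  rng := [1, 65535, 16711935, 252645135]
  full := true
  aut := [([1, 2, 5, 8, 16, 32, 64], [1, 2, 4, 8, 17]), ([1, 2, 12, 8, 16, 32, 64], [1, 2, 4, 8, 18]), ([1, 2, 4, 8, 16, 34, 64], [1, 2, 4, 9, 16]), ([1, 2, 4, 8, 16, 96, 64], [1, 2, 4, 10, 16]), ([1, 2, 4, 8, 19, 32, 64], [1, 2, 5, 8, 16]), ([1, 2, 4, 8, 88, 32, 64], [1, 2, 6, 8, 16]), ([1, 2, 4, 9, 16, 32, 66], [1, 3, 4, 8, 16])]

/-- packed table -/
def packT2 : ℕ := 0x18191918080909081a1b1b1a0a0b0b0a18191918080909081a1b1b1a0a0b0b0a10111110000101001213131202030302101111100001010012131312020303021a1b1b1a0a0b0b0a18191918080909081a1b1b1a0a0b0b0a1819191808090908121313120203030210111110000101001213131202030302101111100001010017161716070607061514151405040504131213120302030211101110010001001716171607060706151415140504050413121312030203021110111001000100171617160706070615141514050405041312131203020302111011100100010017161716070607061514151405040504131213120302030211101110010001000f0f0e0e0f0f0e0e0f0f0e0e0f0f0e0e0b0b0a0a0b0b0a0a0b0b0a0a0b0b0a0a07070606070706060707060607070606030302020303020203030202030302020d0d0c0c0d0d0c0c0d0d0c0c0d0d0c0c0909080809090808090908080909080805050404050504040505040405050404010100000101000001010000010100000000000000000000000000000000000000000000000000000000000000000000000000000000000000000000000000000000000000000000000000000000000000000000000000000000000000000000000000000000000000000000000000000000000000000000000000000000000000000000000000000000000000000000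

theorem pkT2 : packOK packT2 tabT2 = true := by decide +kernel

end Pool.Agent.R4
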