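import Pool.Agent.R4.Defs

/-!
# The relation `T g h ρ`: `q (g, h) = ρ` for `ρ` in the group of the plane (helper66)
-/

set_option autoImplicit false

namespace Pool.Agent.R4

open Pool.Agent.Helper58.PLine (QData)
open Pool.Agent.ETCP

variable {V Q : Type} [AddCommGroup V] [Module (ZMod 2) V] {S : QData V Q} {y z : V}
  {R : Type} [AddCommGroup R] [Module (ZMod 2) R]

/-- linear combinations in characteristic two -/
theorem f2 {M : Type} [AddCommGroup M] [Module (ZMod 2) M] {x y : M} (h : x + y = 0) : x = y :=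
  eo h

namespace Plane

variable (P : Plane S y z R)

theorem Y0 {v : V} : P.Y v = 0 ↔ C S y v := by
  have := P.yz v 0
  rw [map_zero, S.q_zero] at this
  exact this

theorem Z0 {v : V} : P.Z v = 0 ↔ C S z v := by
  have := P.yz 0 v
  rw [map_zero, S.q_zero] at this
  rw [eq_comm, this]
  exact eq_comm

theorem S0 {v : V} : P.Y v + P.Z v = 0 ↔ C S (y + z) v := by
  have := P.ys 0 v
  rw [map_zero, S.q_zero] at this
  rw [eq_comm, this]
  exact eq_comm

/-- exchange `y` and `z` -/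
def swap : Plane S z y R where
  Y := P.Z
  Z := P.Y
  yz := fun v v' => by rw [eq_comm, P.yz, eq_comm]
  ys := fun v v' => by rw [add_comm (P.Z v'), P.zs, add_comm z y]
  zs := fun v v' => by rw [add_comm (P.Z v'), P.ys, add_comm z y]

/-- replace `y` by `y + z` -/
def rot : Plane S (y + z) z R where
  Y := P.Y + P.Z
  Z := P.Z
  yz := fun v v' => by
    show P.Y v + P.Z v = P.Z v' ↔ _
    rw [eq_comm, P.zs, eq_comm]
  ys := fun v v' => by
    show P.Y v + P.Z v = P.Y v' + P.Z v' + P.Z v' ↔ _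
    have e : P.Y v' + P.Z v' + P.Z v' = P.Y v' := f2 (by abel_nf; simp only [ch2, add_zero])
    have e' : y + z + z = y := f2 (by abel_nf; simp only [ch2, add_zero])
    rw [e, e', eq_comm, P.ys, eq_comm]
  zs := fun v v' => by
    show P.Z v = P.Y v' + P.Z v' + P.Z v' ↔ _
    have e : P.Y v' + P.Z v' + P.Z v' = P.Y v' := f2 (by abel_nf; simp only [ch2, add_zero])
    have e' : y + z + z = y := f2 (by abel_nf; simp only [ch2, add_zero])
    rw [e, e', eq_comm, P.yz, eq_comm]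

/-- `q (g, h) = ρ` -/
def T (g h : V) (ρ : R) : Prop :=
  ∃ h1 h2 h3, C S (g + y) h1 ∧ C S (g + z) h2 ∧ C S (g + y + z) h3 ∧
    C S g (h + h1 + h2 + h3) ∧ ρ = P.Y h1 + P.Z h2 + (P.Y h3 + P.Z h3)

variable {P}

theorem T.zero (g : V) : P.T g 0 0 :=
  ⟨0, 0, 0, C.zero _, C.zero _, C.zero _, (C.zero _).of_eq rfl (by simp), by simp⟩

theorem T.add {g h h' : V} {ρ ρ' : R} (a : P.T g h ρ) (b : P.T g h' ρ') :
    P.T g (h + h') (ρ + ρ') := by
  obtain ⟨h1, h2, h3, a1, a2, a3, a4, a5⟩ := a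
  obtain ⟨k1, k2, k3, b1, b2, b3, b4, b5⟩ := b
  refine ⟨h1 + k1, h2 + k2, h3 + k3, a1.add b1, a2.add b2, a3.add b3,
    (a4.add b4).of_eq rfl (by abel), ?_⟩
  rw [a5, b5]
  simp only [map_add]
  abel

theorem T.swap {g h : V} {ρ : R} (a : P.T g h ρ) : P.swap.T g h ρ := by
  obtain ⟨h1, h2, h3, a1, a2, a3, a4, a5⟩ := a
  refine ⟨h2, h1, h3, a2, a1, a3.of_eq (by abel) rfl, a4.of_eq rfl (by abel), ?_⟩
  show ρ = P.Z h2 + P.Y h1 + (P.Z h3 + P.Y h3)
  rw [a5]
  abel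

theorem T.of_swap {g h : V} {ρ : R} (a : P.swap.T g h ρ) : P.T g h ρ := a.swap

theorem T.rot {g h : V} {ρ : R} (a : P.T g h ρ) : P.rot.T g h ρ := by
  obtain ⟨h1, h2, h3, a1, a2, a3, a4, a5⟩ := a
  refine ⟨h3, h2, h1, a3.of_eq (by abel) rfl, a2, a1.of_eq ?_ rfl, a4.of_eq rfl (by abel), ?_⟩
  · exact f2 (by abel_nf; simp only [ch2, add_zero])
  · show ρ = P.Y h3 + P.Z h3 + P.Z h2 + (P.Y h1 + P.Z h1 + P.Z h1)
    rw [a5]
    exact f2 (by abel_nf; simp only [ch2, add_zero])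

theorem T.of_rot {g h : V} {ρ : R} (a : P.rot.T g h ρ) : P.T g h ρ := by
  obtain ⟨h1, h2, h3, a1, a2, a3, a4, a5⟩ := a
  refine ⟨h3, h2, h1, a3.of_eq ?_ rfl, a2, a1.of_eq (by abel) rfl, a4.of_eq rfl (by abel), ?_⟩
  · exact f2 (by abel_nf; simp only [ch2, add_zero])
  · have a5' : ρ = P.Y h1 + P.Z h1 + P.Z h2 + (P.Y h3 + P.Z h3 + P.Z h3) := a5
    rw [a5']
    exact f2 (by abel_nf; simp only [ch2, add_zero])

/-- the value is unique -/
theorem T.func {g : V} {ρ : R} (a : P.T g 0 ρ) : ρ = 0 := by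
  obtain ⟨h1, h2, h3, a1, a2, a3, a4, a5⟩ := a
  have key : S.q y (h1 + h3) = S.q z (h2 + h3) := by
    apply ETC.four_term (S := S) (p := g) (w := h1 + h2 + h3)
    · exact a4.of_eq rfl (by abel)
    · exact a1.of_eq rfl (f2 (by abel_nf; simp only [ch2, add_zero]))
    · exact a2.of_eq rfl (f2 (by abel_nf; simp only [ch2, add_zero]))
    · exact a3.of_eq rfl (f2 (by abel_nf; simp only [ch2, ch3, ch4, add_zero]))
  have key' := (P.yz _ _).2 key
  rw [map_add, map_add] at key'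
  rw [a5]
  have : P.Y h1 + P.Z h2 + (P.Y h3 + P.Z h3) = (P.Y h1 + P.Y h3) + (P.Z h2 + P.Z h3) := by abel
  rw [this, key', ZModModule.add_self]

theorem T.of_q {g h k : V} (h0 : S.q g h = S.q y k) : P.T g h (P.Y k) := by
  obtain ⟨t, h1, h2, h3⟩ := link h0
  refine ⟨t, 0, 0, h3, C.zero _, C.zero _, h1.of_eq rfl (by simp), ?_⟩
  have := P.Y0.2 h2
  rw [map_add] at this
  simp only [map_zero, add_zero]
  exact f2 this

theorem T.q {g h k : V} (a : P.T g h (P.Y k)) : S.q g h = S.q y k := by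
  obtain ⟨h1, h2, h3, a1, a2, a3, a4, a5⟩ := a
  have e1 : P.Y (k + h1 + h3) = P.Z (h2 + h3) := by
    simp only [map_add]
    rw [a5]
    exact f2 (by abel_nf; simp only [ch2, add_zero])
  obtain ⟨r, b1, b2, b3⟩ := link ((P.yz _ _).1 e1)
  have e2 : S.q g (h2 + h3) = S.q y (r + h3) := by
    apply ETC.four_term (S := S) (p := y + z) (w := r)
    · exact b3
    · exact a3.of_eq (by abel) (f2 (by abel_nf; simp only [ch2, add_zero]))
    · exact b2.of_eq (f2 (by abel_nf; simp only [ch2, add_zero])) (by abel)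
    · exact a2.of_eq (f2 (by abel_nf; simp only [ch2, add_zero]))
        (f2 (by abel_nf; simp only [ch2, add_zero]))
  have e3 : S.q g h1 = S.q y h1 := q_eq' a1
  have e4 : S.q g (h1 + (h2 + h3)) = S.q y (h1 + (r + h3)) := ETC.add_common e3 e2
  have e5 : S.q g h = S.q g (h1 + (h2 + h3)) := q_eq (a4.of_eq rfl (by abel))
  have e6 : S.q y k = S.q y (h1 + (r + h3)) := q_eq (b1.of_eq rfl (by abel))
  rw [e5, e4, e6]

theorem T.q_iff {g h k : V} : P.T g h (P.Y k) ↔ S.q g h = S.q y k := ⟨T.q, T.of_q⟩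

theorem T.shiftY {g h : V} {ρ : R} (a : P.T g h ρ) : P.T (g + y) h (ρ + P.Y h) := by
  obtain ⟨h1, h2, h3, a1, a2, a3, a4, a5⟩ := a
  refine ⟨h + h1 + h2 + h3, h3, h2, ?_, a3, a2.of_eq ?_ rfl, a1.of_eq rfl ?_, ?_⟩
  · exact a4.of_eq (f2 (by abel_nf; simp only [ch2, add_zero])) rfl
  · exact f2 (by abel_nf; simp only [ch2, add_zero])
  · exact f2 (by abel_nf; simp only [ch2, ch3, ch4, add_zero])
  · rw [a5]
    simp only [map_add]
    exact f2 (by abel_nf; simp only [ch2, ch3, ch4, add_zero])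

theorem T.shiftZ {g h : V} {ρ : R} (a : P.T g h ρ) : P.T (g + z) h (ρ + P.Z h) :=
  (a.swap.shiftY).of_swap

end Plane

end Pool.Agent.R4
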